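import Mathlib
import Pool.Agent.Lib.MP_89bcae_ag.DefsArrW14

/-!
# Families of polynomials with integral coefficients: the conditions at the primes
-/

open Polynomial

open scoped Classical

namespace Pool.Agent.Lib.MP_89bcae_ag

open Superelliptic

universe u

section

variable {ι : Type} {n : ℕ}

/-- The polynomials of degree at most `n` with coefficients `v`. -/
noncomputable def gpol {R : Type*} [CommRing R] (v : ι × Fin (n + 1) → R) (i : ι) : R[X] :=
  ∑ j : Fin (n + 1), C (v (i, j)) * X ^ (j : ℕ)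

/-- The difference of two of the polynomials. -/
noncomputable def gdif {R : Type*} [CommRing R] (v : ι × Fin (n + 1) → R) (a b : ι) : R[X] :=
  gpol v a - gpol v b

lemma gpol_map {R S : Type*} [CommRing R] [CommRing S] (φ : R →+* S) (v : ι × Fin (n + 1) → R)
    (i : ι) : (gpol v i).map φ = gpol (fun x => φ (v x)) i := by
  unfold gpol
  rw [Polynomial.map_sum]
  refine Finset.sum_congr rfl fun j _ => ?_
  rw [Polynomial.map_mul, map_C, Polynomial.map_pow, map_X]

lemma gdif_map {R S : Type*} [CommRing R] [CommRing S] (φ : R →+* S) (v : ι × Fin (n + 1) → R)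
    (a b : ι) : (gdif v a b).map φ = gdif (fun x => φ (v x)) a b := by
  unfold gdif
  rw [Polynomial.map_sub, gpol_map, gpol_map]

lemma gpol_coeff {R : Type*} [CommRing R] (v : ι × Fin (n + 1) → R) (i : ι) (j : Fin (n + 1)) :
    (gpol v i).coeff j = v (i, j) := by
  unfold gpol
  rw [finset_sum_coeff, Finset.sum_eq_single j]
  · rw [coeff_C_mul_X_pow, if_pos rfl]
  · intro k _ hk
    rw [coeff_C_mul_X_pow, if_neg]
    intro h
    exact hk (Fin.ext h.symm)
  · intro h
    exact absurd (Finset.mem_univ j) h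

lemma gpol_natDegree_le {R : Type*} [CommRing R] (v : ι × Fin (n + 1) → R) (i : ι) :
    (gpol v i).natDegree ≤ n := by
  unfold gpol
  refine natDegree_sum_le_of_forall_le _ _ fun j _ => ?_
  exact (natDegree_C_mul_X_pow_le _ _).trans (by omega)

lemma gdif_natDegree_le {R : Type*} [CommRing R] (v : ι × Fin (n + 1) → R) (a b : ι) :
    (gdif v a b).natDegree ≤ n :=
  (natDegree_sub_le _ _).trans (max_le (gpol_natDegree_le v a) (gpol_natDegree_le v b))

lemma gdif_coeff {R : Type*} [CommRing R] (v : ι × Fin (n + 1) → R) (a b : ι) (j : Fin (n + 1)) :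
    (gdif v a b).coeff j = v (a, j) - v (b, j) := by
  unfold gdif
  rw [coeff_sub, gpol_coeff, gpol_coeff]

lemma gdif_add {R : Type*} [CommRing R] (v : ι × Fin (n + 1) → R) (a b c : ι) :
    gdif v a b + gdif v b c = gdif v a c := by
  unfold gdif
  ring

lemma gdif_swap {R : Type*} [CommRing R] (v : ι × Fin (n + 1) → R) (a b : ι) :
    gdif v b a = -gdif v a b := by
  unfold gdif
  ring

/-- The polynomials with rational coefficients. -/
noncomputable def gpolQ (v : ι × Fin (n + 1) → ℤ) (i : ι) : ℚ[X] :=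
  gpol (fun x => (v x : ℚ)) i

/-- The difference modulo `p`. -/
noncomputable def gred (p : ℕ) (v : ι × Fin (n + 1) → ℤ) (a b : ι) : (ZMod p)[X] :=
  (gdif v a b).map (Int.castRingHom (ZMod p))

/-- The leading coefficients of the differences are prime to `p`. -/
def LeadG (p : ℕ) (v : ι × Fin (n + 1) → ℤ) : Prop :=
  ∀ a b, a ≠ b → ¬ (p : ℤ) ∣ v (a, Fin.last n) - v (b, Fin.last n)

/-- `α_a - α_b` is irreducible modulo `p`. -/
structure TypeI (p : ℕ) (a b : ι) (v : ι × Fin (n + 1) → ℤ) : Prop where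
  lead : ¬ (p : ℤ) ∣ v (a, Fin.last n) - v (b, Fin.last n)
  irr : Irreducible (gred p v a b)

/-- `α_a - α_b` is modulo `p` the product of a linear and of an irreducible factor. -/
structure TypeL (p : ℕ) (a b : ι) (v : ι × Fin (n + 1) → ℤ) : Prop where
  lead : ¬ (p : ℤ) ∣ v (a, Fin.last n) - v (b, Fin.last n)
  irr : ∃ (z : ZMod p) (g : (ZMod p)[X]), Irreducible g ∧ g.eval z ≠ 0 ∧
    gred p v a b = (X - C z) * g

/-- Exactly one simple triple collision modulo `p`: the graphs of `α_i`, `α_j`, `α_l`. -/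
structure TypeB (p : ℕ) (i j l : ι) (v : ι × Fin (n + 1) → ℤ) : Prop where
  lead : LeadG p v
  sep : ∀ a b, a ≠ b → (gred p v a b).Separable
  cop : ∀ a b c d, a ≠ b → c ≠ d → ({a, b} : Set ι) ≠ {c, d} →
    ¬ ({a, b, c, d} : Set ι) ⊆ {i, j, l} → IsCoprime (gred p v a b) (gred p v c d)
  col : ∃ z : ℤ, (p : ℤ) ^ 2 ∣ (gdif v i j).eval z ∧ (p : ℤ) ∣ (gdif v j l).eval z ∧
    ¬ (p : ℤ) ^ 2 ∣ (gdif v j l).eval z ∧ ∃ g h : (ZMod p)[X],
      gred p v i j = (X - C (z : ZMod p)) * g ∧ gred p v j l = (X - C (z : ZMod p)) * h ∧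
        IsCoprime g h

/-- Exactly one double root modulo `p`: a root of `α_a - α_b`. -/
structure TypeD (p : ℕ) (a b : ι) (v : ι × Fin (n + 1) → ℤ) : Prop where
  lead : LeadG p v
  sep : ∀ c d, c ≠ d → ({c, d} : Set ι) ≠ {a, b} → (gred p v c d).Separable
  cop : ∀ a' b' c d, a' ≠ b' → c ≠ d → ({a', b'} : Set ι) ≠ {c, d} →
    IsCoprime (gred p v a' b') (gred p v c d)
  dbl : ∃ z : ℤ, (p : ℤ) ∣ (gdif v a b).eval z ∧ ¬ (p : ℤ) ^ 2 ∣ (gdif v a b).eval z ∧
    ∃ g : (ZMod p)[X], gred p v a b = (X - C (z : ZMod p)) ^ 2 * g ∧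
      g.eval (z : ZMod p) ≠ 0 ∧ g.Separable

/-- The arithmetic condition on the family. -/
structure GoodG (v : ι × Fin (n + 1) → ℤ) : Prop where
  typeI : ∀ a b, a ≠ b → ∃ p : ℕ, p.Prime ∧ TypeI p a b v
  typeL : ∀ a b, a ≠ b → ∃ p : ℕ, p.Prime ∧ TypeL p a b v
  typeD : ∀ a b, a ≠ b → ∃ p : ℕ, p.Prime ∧ TypeD p a b v
  typeB : ∀ i j l, i ≠ j → j ≠ l → i ≠ l → ∃ p : ℕ, p.Prime ∧ TypeB p i j l v

end

section Val

variable {F : Type u} [Field F]

/-- A homomorphism from the multiplicative group of a subfield to `A`, trivial at `-1`. -/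
structure IsVal {A : Type*} [AddCommGroup A] (K : Subfield F) (ν : F → A) : Prop where
  mul : ∀ x ∈ K, ∀ y ∈ K, x ≠ 0 → y ≠ 0 → ν (x * y) = ν x + ν y
  neg_one : ν (-1) = 0

/-- The values of the homomorphism `ν` at the nodes of the arrangement `α`: it is `h` at the
differences of the elements of the collision `r`, `r'`, `r''` (of the graphs of the `α_i`, `α_j`,
`α_l`), and `0` at the other ones. -/
structure TripleV {A : Type*} [AddCommGroup A] {k : Type u} [Field k] [Algebra k F] {ι : Type}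
    (ν : F → A) (α : ι → k[X]) (h : A) (i j l : ι) (r r' r'' : F) : Prop where
  dif : ∀ s ∈ nodes k F α, ∀ s' ∈ nodes k F α, s ≠ s' →
    ν (s - s') = if s ∈ ({r, r', r''} : Set F) ∧ s' ∈ ({r, r', r''} : Set F) then h else 0
  der : ∀ a b s, a ≠ b → aeval s (α a) = aeval s (α b) →
    ν (aeval s (derivative (α a - α b))) = 0
  val : ∀ a b c s, a ≠ b → aeval s (α a) = aeval s (α b) → c ≠ a → c ≠ b →
    ν (aeval s (α a) - aeval s (α c)) =
      if s ∈ ({r, r', r''} : Set F) ∧ c ∈ ({i, j, l} : Set ι) then h else 0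

end Val

end Pool.Agent.Lib.MP_89bcae_ag
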