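import Mathlib
import Pool.Agent.Lib.MP_89bcae_ag.Gph.Base
import Pool.Agent.Lib.MP_89bcae_ag.TypB14

/-!
# The Galois group is transitive on the pairs of roots of `α_a - α_b`

As in TypA14.lean and TypB14.lean (there for the composition with a cubic polynomial). Let `f` be the
image of `gdif v a b` in `R[X]`, `R` and `π : R →+* ZMod p` as in `exists_local_ring14`; its leading
coefficient is a unit. Type I: `frob_typeA14` gives `φ` whose powers map any root of `f` to any other
root (this gives also that `f` is irreducible, hence separable, over `ℚ`: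
`Polynomial.IsPrimitive`/`separable_of_red14`). Type L (another prime): `exists_frob_roots14` gives
`ρ` and `φ` compatible with the Frobenius map; let `z̃` be the root which reduces to `z`
(`exists_lift_root14`); `φ z̃` is a root with the same reduction `z` (`z ∈ 𝔽_p` is fixed by
Frobenius), so `φ z̃ = z̃` (`eq_of_red14`; the reduced polynomial is separable: `g` is irreducible over a
finite field and `g(z) ≠ 0`); the other roots reduce to the roots of `g`, on which the powers of
Frobenius are transitive (`exists_frob8_pow`). Then as in `pairTransitive14`.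
-/

open Polynomial

open scoped Classical

namespace Pool.Agent.Lib.MP_89bcae_ag

open Superelliptic

set_option linter.unusedSectionVars false
set_option linter.style.haveILetI false

section Aux_h38

variable {R K F κ : Type*} [CommRing R] [IsDomain R] [IsIntegrallyClosed R] [Field K]
  [Algebra R K] [IsFractionRing R K] [Field F] [Algebra K F] [Algebra R F] [IsScalarTower R K F]
  [IsAlgClosed F] [Algebra.IsAlgebraic K F]
  [Field κ] [Fintype κ]

variable (K F) in
/-- **Type L.** -/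
theorem frob_typeL_h38 {π : R →+* κ} (hπ : Function.Surjective π) {f : R[X]}
    (hu : IsUnit f.leadingCoeff) (hsep : (f.map (algebraMap R K)).Separable)
    {b : κ} {g : κ[X]} (hf : f.map π = (X - C b) * g) (hb : g.eval b ≠ 0)
    (hirr : Irreducible g) :
    ∃ (φ : F ≃ₐ[K] F) (z : F), aeval z f = 0 ∧ φ z = z ∧
      ∀ x y : F, aeval x f = 0 → aeval y f = 0 → x ≠ z → y ≠ z → ∃ i : ℕ, (φ ^ i) x = y := by
  have hinjR : Function.Injective (algebraMap R F) := by
    rw [IsScalarTower.algebraMap_eq R K F]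
    exact (algebraMap K F).injective.comp (IsFractionRing.injective R K)
  have hfaith : FaithfulSMul R F := (faithfulSMul_iff_algebraMap_injective R F).mpr hinjR
  obtain ⟨ρ, φ, hρ, hφ⟩ := exists_frob_roots14 (F := F) (Fκ := AlgebraicClosure κ) hπ hu hsep
  set Fκ := AlgebraicClosure κ with hFκ
  set β : Fκ := algebraMap κ Fκ b with hβ
  have hgβ : aeval β g ≠ 0 := by
    rw [hβ, aeval_algebraMap_apply, coe_aeval_eq_eval]
    exact (_root_.map_ne_zero _).mpr hb
  obtain ⟨z, hz, hzr, hzβ⟩ := exists_lift_root14 hρ hu (β := β) (by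
    rw [hf, map_mul, map_sub, aeval_X, aeval_C, ← hβ, sub_self, zero_mul])
  have hsimple : aeval β (derivative (f.map π)) ≠ 0 := by
    rw [hf, derivative_mul, derivative_sub, derivative_X, derivative_C, sub_zero, one_mul,
      map_add, map_mul, map_sub, aeval_X, aeval_C, ← hβ, sub_self, zero_mul, add_zero]
    exact hgβ
  have hint : ∀ x : F, aeval x f = 0 → IsIntegral R x := fun x hx => integral_root14 hu hx
  -- a root different from `z` reduces to a root of `g`
  have hkey : ∀ (x : F) (hx : aeval x f = 0), x ≠ z → aeval (ρ ⟨x, hint x hx⟩) g = 0 := by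
    intro x hx hne
    have h1 := red_root14 hρ (hint x hx) hx
    rw [hf, map_mul] at h1
    rcases mul_eq_zero.mp h1 with h2 | h2
    · exfalso
      apply hne
      rw [map_sub, aeval_X, aeval_C, sub_eq_zero, ← hβ] at h2
      exact eq_of_red14 hρ (f := f) (hint x hx) hz hx hzr (by rw [h2, hzβ])
        (by rw [h2]; exact hsimple)
    · exact h2
  refine ⟨φ, z, hzr, ?_, ?_⟩
  · obtain ⟨h1, h2, h3⟩ := hφ 1 z hzr hz
    rw [pow_one] at h1 h2
    simp only [pow_one] at h3
    have h4 : frob8 κ Fκ β = β := by rw [hβ, AlgEquiv.commutes]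
    refine eq_of_red14 hρ h2 hz h1 hzr (by rw [h3, hzβ, h4]) (by rw [h3, hzβ, h4]; exact hsimple)
  · intro x y hx hy hxz hyz
    obtain ⟨i, -, hi⟩ := exists_frob8_pow hirr (hkey x hx hxz) (hkey y hy hyz)
    obtain ⟨h1, h2, h3⟩ := hφ i x hx (hint x hx)
    refine ⟨i, eq_of_red14 hρ h2 (hint y hy) h1 hy (by rw [h3, hi]) ?_⟩
    have hsepκ : g.Separable := PerfectField.separable_of_irreducible hirr
    have hr : aeval (ρ ⟨(φ ^ i) x, h2⟩) g = 0 := by
      rw [h3, ← hi]
      exact hkey y hy hyz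
    have hder : aeval (ρ ⟨(φ ^ i) x, h2⟩) (derivative g) ≠ 0 := by
      intro h4
      obtain ⟨a', b', hab⟩ := hsepκ
      have h5 := congrArg (aeval (ρ ⟨(φ ^ i) x, h2⟩)) hab
      rw [map_add, map_mul, map_mul, hr, h4, mul_zero, mul_zero, add_zero, map_one] at h5
      exact zero_ne_one h5
    rw [hf, derivative_mul, map_add, map_mul, map_mul, hr, mul_zero, zero_add]
    apply mul_ne_zero _ hder
    rw [map_sub, aeval_X, aeval_C, sub_ne_zero, ← hβ]
    intro h4
    apply hgβ
    rw [← h4]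
    exact hr

end Aux_h38

variable {ι : Type} [Fintype ι] {n : ℕ} {F : Type} [Field F] [Algebra ℚ F] [IsAlgClosure ℚ F]

lemma gdif_lead_h38 (v : ι × Fin (n + 1) → ℤ) {p : ℕ} {a b : ι}
    (h : ¬ (p : ℤ) ∣ v (a, Fin.last n) - v (b, Fin.last n)) :
    (((gdif v a b).leadingCoeff : ℤ) : ZMod p) ≠ 0 := by
  have h1 : (gdif v a b).coeff n = v (a, Fin.last n) - v (b, Fin.last n) := by
    have := gdif_coeff v a b (Fin.last n)
    rwa [Fin.val_last] at this
  have h2 : (gdif v a b).coeff n ≠ 0 := by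
    rw [h1]
    intro h0
    exact h (h0 ▸ dvd_zero _)
  have h3 : (gdif v a b).natDegree = n :=
    le_antisymm (gdif_natDegree_le v a b) (le_natDegree_of_ne_zero h2)
  rw [leadingCoeff, h3, h1]
  intro h0
  exact h ((ZMod.intCast_zmod_eq_zero_iff_dvd _ _).mp h0)

lemma gdif_mapQ_h38 (v : ι × Fin (n + 1) → ℤ) (a b : ι) :
    (gdif v a b).map (algebraMap ℤ ℚ) = gpolQ v a - gpolQ v b := by
  rw [gdif_map]
  rfl

lemma aeval_gdif_h38 (v : ι × Fin (n + 1) → ℤ) (a b : ι) (x : F) :
    aeval x ((gdif v a b).map (algebraMap ℤ ℚ)) = 0 ↔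
      aeval x (gpolQ v a) = aeval x (gpolQ v b) := by
  rw [gdif_mapQ_h38, map_sub, sub_eq_zero]

/-- The conclusion for type I. -/
lemma typeI_h38 (v : ι × Fin (n + 1) → ℤ) {p : ℕ} (hp : p.Prime) {a b : ι}
    (h : TypeI p a b v) (F : Type) [Field F] [Algebra ℚ F] [IsAlgClosure ℚ F] :
    (gpolQ v a - gpolQ v b).Separable ∧
    ∃ φ : F ≃ₐ[ℚ] F, ∀ x y : F, aeval x (gpolQ v a) = aeval x (gpolQ v b) →
      aeval y (gpolQ v a) = aeval y (gpolQ v b) → ∃ i : ℕ, (φ ^ i) x = y := by
  haveI : Fact p.Prime := ⟨hp⟩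
  haveI : IsAlgClosed F := IsAlgClosure.isAlgClosed ℚ
  haveI : Algebra.IsAlgebraic ℚ F := IsAlgClosure.isAlgebraic
  obtain ⟨R, _, _, _, _, _, π, hπ, hπu⟩ := exists_local_ring14 hp
  letI : Algebra R F := ((algebraMap ℚ F).comp (algebraMap R ℚ)).toAlgebra
  haveI : IsScalarTower R ℚ F := IsScalarTower.of_algebraMap_eq fun _ => rfl
  have hRQ : (algebraMap R ℚ).comp (Int.castRingHom R) = algebraMap ℤ ℚ := RingHom.ext_int _ _
  have hinjZ : Function.Injective (Int.castRingHom R) := by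
    have h1 : Function.Injective ((algebraMap R ℚ).comp (Int.castRingHom R)) := by
      rw [hRQ]
      exact (algebraMap ℤ ℚ).injective_int
    exact Function.Injective.of_comp h1
  haveI hfaith : FaithfulSMul R F := (faithfulSMul_iff_algebraMap_injective R F).mpr
    ((algebraMap ℚ F).injective.comp (IsFractionRing.injective R ℚ))
  have hcomp : π.comp (Int.castRingHom R) = Int.castRingHom (ZMod p) := RingHom.ext_int _ _
  have hu' : IsUnit ((gdif v a b).map (Int.castRingHom R)).leadingCoeff := by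
    rw [leadingCoeff_map_of_injective hinjZ]
    exact hπu _ (gdif_lead_h38 v h.lead)
  have hirr : Irreducible (((gdif v a b).map (Int.castRingHom R)).map π) := by
    rw [Polynomial.map_map, hcomp]
    exact h.irr
  have hQ : ((gdif v a b).map (Int.castRingHom R)).map (algebraMap R ℚ) =
      (gdif v a b).map (algebraMap ℤ ℚ) := by
    rw [Polynomial.map_map, hRQ]
  have hsepκ : (((gdif v a b).map (Int.castRingHom R)).map π).Separable :=
    PerfectField.separable_of_irreducible hirr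
  have hsep := separable_of_red14 (K := ℚ) F hπ hu' hsepκ
  obtain ⟨φ, hφ⟩ := frob_typeA14 ℚ F hπ hu' hsep hirr
  rw [hQ, gdif_mapQ_h38] at hsep
  refine ⟨hsep, φ, fun x y hx hy => hφ x y ?_ ?_⟩
  · rw [← aeval_map_algebraMap ℚ, hQ]
    exact (aeval_gdif_h38 v a b x).mpr hx
  · rw [← aeval_map_algebraMap ℚ, hQ]
    exact (aeval_gdif_h38 v a b y).mpr hy

theorem separable_of_typeI (v : ι × Fin (n + 1) → ℤ) {p : ℕ} (hp : p.Prime) {a b : ι}
    (h : TypeI p a b v) : (gpolQ v a - gpolQ v b).Separable := by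
  letI : Algebra ℚ (AlgebraicClosure ℚ) := AlgebraicClosure.instAlgebra ℚ
  haveI : IsAlgClosure ℚ (AlgebraicClosure ℚ) := inferInstance
  exact (typeI_h38 v hp h (AlgebraicClosure ℚ)).1

theorem exists_cycle_typeI (v : ι × Fin (n + 1) → ℤ) {p : ℕ} (hp : p.Prime) {a b : ι}
    (h : TypeI p a b v) : ∃ φ : F ≃ₐ[ℚ] F, ∀ x y : F, aeval x (gpolQ v a) = aeval x (gpolQ v b) →
      aeval y (gpolQ v a) = aeval y (gpolQ v b) → ∃ i : ℕ, (φ ^ i) x = y :=
  (typeI_h38 v hp h F).2

theorem exists_cycle_typeL (v : ι × Fin (n + 1) → ℤ) {p : ℕ} (hp : p.Prime) {a b : ι}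
    (h : TypeL p a b v) (hsep : (gpolQ v a - gpolQ v b).Separable) :
    ∃ (φ : F ≃ₐ[ℚ] F) (z : F), aeval z (gpolQ v a) = aeval z (gpolQ v b) ∧ φ z = z ∧
      ∀ x y : F, aeval x (gpolQ v a) = aeval x (gpolQ v b) →
        aeval y (gpolQ v a) = aeval y (gpolQ v b) → x ≠ z → y ≠ z → ∃ i : ℕ, (φ ^ i) x = y := by
  haveI : Fact p.Prime := ⟨hp⟩
  haveI : IsAlgClosed F := IsAlgClosure.isAlgClosed ℚ
  haveI : Algebra.IsAlgebraic ℚ F := IsAlgClosure.isAlgebraic
  obtain ⟨R, _, _, _, _, _, π, hπ, hπu⟩ := exists_local_ring14 hp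
  letI : Algebra R F := ((algebraMap ℚ F).comp (algebraMap R ℚ)).toAlgebra
  haveI : IsScalarTower R ℚ F := IsScalarTower.of_algebraMap_eq fun _ => rfl
  have hRQ : (algebraMap R ℚ).comp (Int.castRingHom R) = algebraMap ℤ ℚ := RingHom.ext_int _ _
  have hinjZ : Function.Injective (Int.castRingHom R) := by
    have h1 : Function.Injective ((algebraMap R ℚ).comp (Int.castRingHom R)) := by
      rw [hRQ]
      exact (algebraMap ℤ ℚ).injective_int
    exact Function.Injective.of_comp h1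
  haveI hfaith : FaithfulSMul R F := (faithfulSMul_iff_algebraMap_injective R F).mpr
    ((algebraMap ℚ F).injective.comp (IsFractionRing.injective R ℚ))
  have hcomp : π.comp (Int.castRingHom R) = Int.castRingHom (ZMod p) := RingHom.ext_int _ _
  have hu' : IsUnit ((gdif v a b).map (Int.castRingHom R)).leadingCoeff := by
    rw [leadingCoeff_map_of_injective hinjZ]
    exact hπu _ (gdif_lead_h38 v h.lead)
  have hQ : ((gdif v a b).map (Int.castRingHom R)).map (algebraMap R ℚ) =
      (gdif v a b).map (algebraMap ℤ ℚ) := by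
    rw [Polynomial.map_map, hRQ]
  have hsep' : (((gdif v a b).map (Int.castRingHom R)).map (algebraMap R ℚ)).Separable := by
    rw [hQ, gdif_mapQ_h38]
    exact hsep
  obtain ⟨b₀, g, hg, hgb, hf⟩ := h.irr
  have hf' : ((gdif v a b).map (Int.castRingHom R)).map π = (X - C b₀) * g := by
    rw [Polynomial.map_map, hcomp]
    exact hf
  obtain ⟨φ, z, hz, hzz, hφ⟩ := frob_typeL_h38 ℚ F hπ hu' hsep' hf' hgb hg
  have hc : ∀ x : F, aeval x ((gdif v a b).map (Int.castRingHom R)) = 0 ↔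
      aeval x (gpolQ v a) = aeval x (gpolQ v b) := by
    intro x
    rw [← aeval_map_algebraMap ℚ, hQ]
    exact aeval_gdif_h38 v a b x
  exact ⟨φ, z, (hc z).mp hz, hzz, fun x y hx hy hxz hyz =>
    hφ x y ((hc x).mpr hx) ((hc y).mpr hy) hxz hyz⟩

theorem pairTransitive_gpol (v : ι × Fin (n + 1) → ℤ) {a b : ι}
    (hI : ∃ p : ℕ, p.Prime ∧ TypeI p a b v) (hL : ∃ p : ℕ, p.Prime ∧ TypeL p a b v)
    (u w u' w' : F) (hu : aeval u (gpolQ v a) = aeval u (gpolQ v b))
    (hw : aeval w (gpolQ v a) = aeval w (gpolQ v b))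
    (hu' : aeval u' (gpolQ v a) = aeval u' (gpolQ v b))
    (hw' : aeval w' (gpolQ v a) = aeval w' (gpolQ v b)) (huw : u ≠ w) (huw' : u' ≠ w') :
    ∃ σ : F ≃ₐ[ℚ] F, σ u = u' ∧ σ w = w' := by
  obtain ⟨p, hp, hpI⟩ := hI
  obtain ⟨q, hq, hqL⟩ := hL
  obtain ⟨φ, hφ⟩ := exists_cycle_typeI (F := F) v hp hpI
  obtain ⟨ψ, z, hz, hzz, hψ⟩ := exists_cycle_typeL (F := F) v hq hqL (separable_of_typeI v hp hpI)
  have hroot : ∀ (σ : F ≃ₐ[ℚ] F) (x : F), aeval x (gpolQ v a) = aeval x (gpolQ v b) →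
      aeval (σ x) (gpolQ v a) = aeval (σ x) (gpolQ v b) := by
    intro σ x hx
    rw [← AlgEquiv.coe_toAlgHom σ, aeval_algHom_apply, aeval_algHom_apply, hx]
  obtain ⟨i, hi⟩ := hφ u z hu hz
  obtain ⟨j, hj⟩ := hφ u' z hu' hz
  obtain ⟨m, hm⟩ := hψ ((φ ^ i) w) ((φ ^ j) w') (hroot _ _ hw) (hroot _ _ hw') (by
    rw [← hi]
    exact fun h => huw ((φ ^ i).injective h).symm) (by
    rw [← hj]
    exact fun h => huw' ((φ ^ j).injective h).symm)
  have hzm : ∀ m : ℕ, (ψ ^ m) z = z := by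
    intro m
    induction m with
    | zero => rfl
    | succ m ih => rw [pow_succ', AlgEquiv.mul_apply, ih, hzz]
  refine ⟨(φ ^ j)⁻¹ * ψ ^ m * φ ^ i, ?_, ?_⟩
  · rw [AlgEquiv.mul_apply, AlgEquiv.mul_apply, hi, hzm, ← hj]
    change ((φ ^ j)⁻¹ * (φ ^ j)) u' = u'
    rw [inv_mul_cancel]
    rfl
  · rw [AlgEquiv.mul_apply, AlgEquiv.mul_apply, hm]
    change ((φ ^ j)⁻¹ * (φ ^ j)) w' = w'
    rw [inv_mul_cancel]
    rfl

end Pool.Agent.Lib.MP_89bcae_ag
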