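import Mathlib
import Pool.Agent.Lib.MP_89bcae_ag.Gph.Base

/-!
# The roots of the differences
-/

open Polynomial

open scoped Classical

namespace Pool.Agent.Lib.MP_89bcae_ag

open Superelliptic

variable {ι : Type} {n : ℕ} {F : Type} [Field F] [Algebra ℚ F]

/-- (`natDegree_eq_of_le_of_coeff_ne_zero`, `gdif_coeff`.) -/
theorem gdif_natDegree {v : ι × Fin (n + 1) → ℤ} {a b : ι}
    (h : v (a, Fin.last n) ≠ v (b, Fin.last n)) : (gdif v a b).natDegree = n := by
  refine natDegree_eq_of_le_of_coeff_ne_zero (gdif_natDegree_le v a b) ?_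
  have h1 := gdif_coeff v a b (Fin.last n)
  rw [Fin.val_last] at h1
  rw [h1]
  exact sub_ne_zero.mpr h

theorem gdif_leadingCoeff {v : ι × Fin (n + 1) → ℤ} {a b : ι}
    (h : v (a, Fin.last n) ≠ v (b, Fin.last n)) :
    (gdif v a b).leadingCoeff = v (a, Fin.last n) - v (b, Fin.last n) := by
  have h1 := gdif_coeff v a b (Fin.last n)
  rw [Fin.val_last] at h1
  rw [leadingCoeff, gdif_natDegree h, h1]

theorem gdif_map_rat (v : ι × Fin (n + 1) → ℤ) (a b : ι) :
    (gdif v a b).map (Int.castRingHom ℚ) = gpolQ v a - gpolQ v b := by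
  rw [gdif_map]
  rfl

theorem aeval_gdif (v : ι × Fin (n + 1) → ℤ) (a b : ι) (s : F) :
    aeval s (gdif v a b) = aeval s (gpolQ v a) - aeval s (gpolQ v b) := by
  rw [← map_sub, ← gdif_map_rat, ← algebraMap_int_eq, aeval_map_algebraMap]

theorem aeval_derivative_gdif (v : ι × Fin (n + 1) → ℤ) (a b : ι) (s : F) :
    aeval s (derivative (gdif v a b)) = aeval s (derivative (gpolQ v a - gpolQ v b)) := by
  rw [← gdif_map_rat, derivative_map, ← algebraMap_int_eq, aeval_map_algebraMap]

/-- A polynomial with integral coefficients whose leading coefficient is prime to `p`, and a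
polynomial prime to it modulo `p`, are coprime over `ℚ`: the resultant is not divisible by `p`. -/
private theorem isCoprime_of_red_h71 {p : ℕ} (hp : p.Prime) {f g : ℤ[X]}
    (hf : ¬ (p : ℤ) ∣ f.leadingCoeff)
    (hc : IsCoprime (f.map (Int.castRingHom (ZMod p))) (g.map (Int.castRingHom (ZMod p)))) :
    IsCoprime (f.map (Int.castRingHom ℚ)) (g.map (Int.castRingHom ℚ)) := by
  have : Fact p.Prime := ⟨hp⟩
  set φ := Int.castRingHom (ZMod p) with hφ
  have hlc : φ f.leadingCoeff ≠ 0 := by
    intro h0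
    apply hf
    exact (ZMod.intCast_zmod_eq_zero_iff_dvd _ _).1 h0
  have hdf : (f.map φ).natDegree = f.natDegree :=
    natDegree_map_of_leadingCoeff_ne_zero φ hlc
  have hf0 : f ≠ 0 := by
    rintro rfl
    exact hf (by rw [leadingCoeff_zero]; exact dvd_zero _)
  -- the resultant is not zero modulo `p`
  have hr : resultant f g ≠ 0 := by
    intro h0
    have h1 : resultant (f.map φ) (g.map φ) f.natDegree g.natDegree = 0 := by
      rw [resultant_map_map]
      have h2 : resultant f g f.natDegree g.natDegree = 0 := h0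
      rw [h2, map_zero]
    obtain ⟨k, hk⟩ := Nat.exists_eq_add_of_le (natDegree_map_le (f := φ) (p := g))
    rw [hk, resultant_add_right_deg _ _ _ _ k le_rfl, coeff_map] at h1
    rcases mul_eq_zero.1 h1 with h2 | h2
    · exact pow_ne_zero k hlc h2
    · rw [← hdf] at h2
      exact resultant_ne_zero _ _ hc h2
  have hQ : resultant (f.map (Int.castRingHom ℚ)) (g.map (Int.castRingHom ℚ)) ≠ 0 := by
    have hinj : Function.Injective (Int.castRingHom ℚ) := RingHom.injective_int _
    have h1 : resultant (f.map (Int.castRingHom ℚ)) (g.map (Int.castRingHom ℚ)) =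
        Int.castRingHom ℚ (resultant f g) := by
      rw [← resultant_map_map]
      rw [natDegree_map_eq_of_injective hinj, natDegree_map_eq_of_injective hinj]
    rw [h1]
    intro h2
    exact hr (hinj (by rw [h2, map_zero]))
  by_contra hcon
  apply hQ
  rw [resultant_eq_zero_iff]
  refine ⟨Or.inl ?_, hcon⟩
  intro h1
  apply hf0
  exact (Polynomial.map_eq_zero_iff (RingHom.injective_int _)).1 h1

private theorem gdif_leadingCoeff_h71 {v : ι × Fin (n + 1) → ℤ} {p : ℕ} {a b : ι}
    (h : ¬ (p : ℤ) ∣ v (a, Fin.last n) - v (b, Fin.last n)) :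
    ¬ (p : ℤ) ∣ (gdif v a b).leadingCoeff := by
  have h1 : (gdif v a b).coeff n = v (a, Fin.last n) - v (b, Fin.last n) :=
    gdif_coeff v a b (Fin.last n)
  have h2 : (gdif v a b).natDegree = n := by
    refine natDegree_eq_of_le_of_coeff_ne_zero (gdif_natDegree_le v a b) ?_
    rw [h1]
    intro h3
    exact h (by rw [h3]; exact dvd_zero _)
  rw [← coeff_natDegree, h2, h1]
  exact h

private theorem gdif_map_rat_h71 (v : ι × Fin (n + 1) → ℤ) (a b : ι) :
    (gdif v a b).map (Int.castRingHom ℚ) = gpolQ v a - gpolQ v b := by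
  rw [gdif_map]
  rfl

/-- (From modulo `p` to `ℚ`: the discriminant, `Polynomial.resultant`, or a Bezout relation; see
`separable_of_red14` in SpecB14.lean or TypA14.lean.) -/
theorem separable_of_gred {v : ι × Fin (n + 1) → ℤ} {p : ℕ} (hp : p.Prime) {a b : ι}
    (h : ¬ (p : ℤ) ∣ v (a, Fin.last n) - v (b, Fin.last n)) (hs : (gred p v a b).Separable) :
    (gpolQ v a - gpolQ v b).Separable := by
  rw [← gdif_map_rat_h71, Polynomial.Separable, derivative_map]
  refine isCoprime_of_red_h71 hp (gdif_leadingCoeff_h71 h) ?_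
  rw [← derivative_map]
  exact hs

/-- (A common root in `F` of two polynomials whose leading coefficients are prime to `p` gives a
common factor modulo `p`; or `Polynomial.resultant_map_map` and `Polynomial.resultant_eq_zero_iff`.) -/
theorem isCoprime_of_gred {v : ι × Fin (n + 1) → ℤ} {p : ℕ} (hp : p.Prime) {a b c d : ι}
    (h : ¬ (p : ℤ) ∣ v (a, Fin.last n) - v (b, Fin.last n))
    (h' : ¬ (p : ℤ) ∣ v (c, Fin.last n) - v (d, Fin.last n))
    (hs : IsCoprime (gred p v a b) (gred p v c d)) :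
    IsCoprime (gpolQ v a - gpolQ v b) (gpolQ v c - gpolQ v d) := by
  rw [← gdif_map_rat_h71, ← gdif_map_rat_h71]
  exact isCoprime_of_red_h71 hp (gdif_leadingCoeff_h71 h) hs

/-- The set of the roots of a separable difference. -/
theorem exists_roots [IsAlgClosure ℚ F] {v : ι × Fin (n + 1) → ℤ} {a b : ι}
    (hsep : (gpolQ v a - gpolQ v b).Separable) :
    ∃ R : Finset F, (∀ s, s ∈ R ↔ aeval s (gpolQ v a) = aeval s (gpolQ v b)) ∧
      (gdif v a b).map (algebraMap ℤ F) =
        C (algebraMap ℤ F (gdif v a b).leadingCoeff) * ∏ s ∈ R, (X - C s) := by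
  have _ : IsAlgClosed F := IsAlgClosure.isAlgClosed ℚ
  have _ : CharZero F := algebraRat.charZero F
  set f := gpolQ v a - gpolQ v b with hf
  have hf0 : f ≠ 0 := hsep.ne_zero
  have hm0 : f.map (algebraMap ℚ F) ≠ 0 := by
    rw [Polynomial.map_ne_zero_iff (algebraMap ℚ F).injective]
    exact hf0
  have hnd : (f.map (algebraMap ℚ F)).roots.Nodup := nodup_roots hsep.map
  have hmap : (gdif v a b).map (algebraMap ℤ F) = f.map (algebraMap ℚ F) := by
    rw [hf, ← gdif_map_rat, Polynomial.map_map, ← algebraMap_int_eq,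
      ← IsScalarTower.algebraMap_eq]
  refine ⟨(f.map (algebraMap ℚ F)).roots.toFinset, ?_, ?_⟩
  · intro s
    rw [Multiset.mem_toFinset, mem_roots hm0, IsRoot.def, eval_map_algebraMap, hf, map_sub,
      sub_eq_zero]
  · have hsplit : (f.map (algebraMap ℚ F)).Splits := IsAlgClosed.splits _
    have h1 := hsplit.eq_prod_roots
    have h2 : (f.map (algebraMap ℚ F)).leadingCoeff =
        algebraMap ℤ F (gdif v a b).leadingCoeff := by
      rw [← hmap, leadingCoeff_map_of_injective]
      exact (algebraMap ℤ F).injective_int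
    rw [hmap]
    conv_lhs => rw [h1]
    rw [h2, Finset.prod_multiset_map_count]
    congr 1
    refine Finset.prod_congr rfl fun s hs => ?_
    rw [Multiset.mem_toFinset] at hs
    rw [Multiset.count_eq_one_of_mem hnd hs, pow_one]

theorem nodes_gpolQ_finite [Finite ι] {v : ι × Fin (n + 1) → ℤ}
    (h : ∀ a b, a ≠ b → gpolQ v a ≠ gpolQ v b) : (nodes ℚ F (gpolQ v)).Finite := by
  have h1 : nodes ℚ F (gpolQ v) ⊆ ⋃ x : {x : ι × ι // x.1 ≠ x.2},
      ((gpolQ v x.1.1 - gpolQ v x.1.2).rootSet F) := by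
    rintro s ⟨a, b, hab, hs⟩
    rw [Set.mem_iUnion]
    refine ⟨⟨(a, b), hab⟩, ?_⟩
    rw [mem_rootSet]
    refine ⟨sub_ne_zero.mpr (h a b hab), ?_⟩
    rw [map_sub, sub_eq_zero]
    exact hs
  exact (Set.finite_iUnion fun x => rootSet_finite _ F).subset h1

theorem nodes_stable (α : ι → ℚ[X]) (σ : F ≃ₐ[ℚ] F) : ∀ s ∈ nodes ℚ F α, σ s ∈ nodes ℚ F α := by
  rintro s ⟨a, b, hab, hs⟩
  refine ⟨a, b, hab, ?_⟩
  have h1 : ∀ p : ℚ[X], aeval (σ s) p = σ (aeval s p) := fun p =>
    aeval_algHom_apply (σ : F →ₐ[ℚ] F) s p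
  rw [h1, h1, hs]

end Pool.Agent.Lib.MP_89bcae_ag
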