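import Mathlib
import Pool.Agent.Lib.MP_89bcae_ag.Gph.Pair
import Pool.Agent.Lib.MP_89bcae_ag.Gph.Roots

/-!
# Good families are arrangements

`α_a - α_b` is separable (`separable_of_typeI`), of degree `n` (`gdif_natDegree`). For different pairs
`α_a - α_b` and `α_c - α_d` are coprime over `ℚ`: they are coprime modulo the prime of type D of some
pair (`isCoprime_of_gred`). For the product over `i < j`: `Polynomial.separable_prod'` or
`Finset.prod` with `Polynomial.Separable.mul` (pairwise coprime and separable).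
-/

open Polynomial

open scoped Classical

namespace Pool.Agent.Lib.MP_89bcae_ag

open Superelliptic

section

variable {ι : Type} {n : ℕ}

lemma coe_pair_ne_h30 {I : Finset ι} {a b c d : I} (h : ({a, b} : Set I) ≠ {c, d}) :
    ({(a : ι), (b : ι)} : Set ι) ≠ {(c : ι), (d : ι)} := by
  intro hcon
  apply h
  apply Set.image_injective.2 (Subtype.coe_injective (p := fun x => x ∈ I))
  rw [Set.image_pair, Set.image_pair]
  exact hcon

/-- Restriction of a good family to a set of indices. -/
theorem GoodG.restrict {v : ι × Fin (n + 1) → ℤ} (h : GoodG v) (I : Finset ι) :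
    GoodG (fun x : I × Fin (n + 1) => v (x.1, x.2)) := by
  have hc : ∀ {a b : I}, a ≠ b → (a : ι) ≠ (b : ι) := fun hab hcon => hab (Subtype.ext hcon)
  refine ⟨?_, ?_, ?_, ?_⟩
  · intro a b hab
    obtain ⟨p, hp, hI⟩ := h.typeI a b (hc hab)
    exact ⟨p, hp, ⟨hI.lead, hI.irr⟩⟩
  · intro a b hab
    obtain ⟨p, hp, hL⟩ := h.typeL a b (hc hab)
    exact ⟨p, hp, ⟨hL.lead, hL.irr⟩⟩
  · intro a b hab
    obtain ⟨p, hp, hD⟩ := h.typeD a b (hc hab)
    refine ⟨p, hp, ⟨?_, ?_, ?_, hD.dbl⟩⟩
    · intro c d hcd
      exact hD.lead c d (hc hcd)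
    · intro c d hcd hne
      exact hD.sep c d (hc hcd) (coe_pair_ne_h30 hne)
    · intro a' b' c d hab' hcd hne
      exact hD.cop a' b' c d (hc hab') (hc hcd) (coe_pair_ne_h30 hne)
  · intro i j l hij hjl hil
    obtain ⟨p, hp, hB⟩ := h.typeB i j l (hc hij) (hc hjl) (hc hil)
    refine ⟨p, hp, ⟨?_, ?_, ?_, hB.col⟩⟩
    · intro c d hcd
      exact hB.lead c d (hc hcd)
    · intro c d hcd
      exact hB.sep c d (hc hcd)
    · intro a b c d hab hcd hne hsub
      refine hB.cop a b c d (hc hab) (hc hcd) (coe_pair_ne_h30 hne) ?_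
      intro hcon
      apply hsub
      have key : ∀ x : I, (x : ι) ∈ ({(i : ι), (j : ι), (l : ι)} : Set ι) →
          x ∈ ({i, j, l} : Set I) := by
        intro x hx
        simp only [Set.mem_insert_iff, Set.mem_singleton_iff] at hx ⊢
        rcases hx with hx | hx | hx
        · exact Or.inl (Subtype.ext hx)
        · exact Or.inr (Or.inl (Subtype.ext hx))
        · exact Or.inr (Or.inr (Subtype.ext hx))
      intro x hx
      apply key
      apply hcon
      simp only [Set.mem_insert_iff, Set.mem_singleton_iff] at hx ⊢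
      rcases hx with hx | hx | hx | hx
      · exact Or.inl (congrArg _ hx)
      · exact Or.inr (Or.inl (congrArg _ hx))
      · exact Or.inr (Or.inr (Or.inl (congrArg _ hx)))
      · exact Or.inr (Or.inr (Or.inr (congrArg _ hx)))

variable {F : Type} [Field F] [Algebra ℚ F] [IsAlgClosure ℚ F]

theorem GoodG.natDegree {v : ι × Fin (n + 1) → ℤ} (h : GoodG v) {a b : ι} (hab : a ≠ b) :
    (gpolQ v a - gpolQ v b).natDegree = n := by
  obtain ⟨p, hp, hI⟩ := h.typeI a b hab
  have hne : v (a, Fin.last n) ≠ v (b, Fin.last n) := by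
    intro hcon
    apply hI.lead
    rw [hcon, sub_self]
    exact dvd_zero _
  rw [← gdif_map_rat, natDegree_map_eq_of_injective (RingHom.injective_int (Int.castRingHom ℚ))]
  exact gdif_natDegree hne

theorem GoodG.isCoprime {v : ι × Fin (n + 1) → ℤ} (h : GoodG v) {a b c d : ι} (hab : a ≠ b)
    (hcd : c ≠ d) (hne : ({a, b} : Set ι) ≠ {c, d}) :
    IsCoprime (gpolQ v a - gpolQ v b) (gpolQ v c - gpolQ v d) := by
  obtain ⟨p, hp, hD⟩ := h.typeD a b hab
  exact isCoprime_of_gred hp (hD.lead a b hab) (hD.lead c d hcd) (hD.cop a b c d hab hcd hne)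

theorem GoodG.isArrangement [Fintype ι] [LinearOrder ι] (hn : n ≠ 0) {v : ι × Fin (n + 1) → ℤ}
    (h : GoodG v) (k : Type) [Field k] [Algebra ℚ k] :
    IsArrangement fun i => (gpolQ v i).map (algebraMap ℚ k) := by
  refine ⟨?_, ?_⟩
  · have h1 : (∏ i, ∏ j ∈ Finset.univ.filter fun j => i < j,
        (gpolQ v i - gpolQ v j)).Separable := by
      rw [Finset.prod_sigma']
      apply separable_prod'
      · rintro ⟨a, b⟩ hx ⟨c, d⟩ hy hxy
        simp only [Finset.mem_sigma, Finset.mem_univ, Finset.mem_filter, true_and] at hx hy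
        refine h.isCoprime hx.ne hy.ne ?_
        intro hcon
        rw [Set.pair_eq_pair_iff] at hcon
        rcases hcon with ⟨h2, h3⟩ | ⟨h2, h3⟩
        · have h2' : a = c := h2
          have h3' : b = d := h3
          exact hxy (by rw [h2', h3'])
        · have h2' : a = d := h2
          have h3' : b = c := h3
          rw [h2', h3'] at hx
          exact absurd hx (not_lt.2 hy.le)
      · rintro ⟨a, b⟩ hx
        simp only [Finset.mem_sigma, Finset.mem_univ, Finset.mem_filter, true_and] at hx
        obtain ⟨p, hp, hI⟩ := h.typeI a b hx.ne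
        exact separable_of_typeI v hp hI
    have h2 := h1.map (f := algebraMap ℚ k)
    rw [Polynomial.map_prod] at h2
    have h3 : (∏ i, ∏ j ∈ Finset.univ.filter fun j => i < j,
        ((gpolQ v i).map (algebraMap ℚ k) - (gpolQ v j).map (algebraMap ℚ k))) =
        ∏ i, Polynomial.map (algebraMap ℚ k) (∏ j ∈ Finset.univ.filter fun j => i < j,
          (gpolQ v i - gpolQ v j)) := by
      refine Finset.prod_congr rfl fun i _ => ?_
      rw [Polynomial.map_prod]
      refine Finset.prod_congr rfl fun j _ => ?_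
      rw [Polynomial.map_sub]
    rw [h3]
    exact h2
  · intro i j hij
    rw [← Polynomial.map_sub, natDegree_map, h.natDegree hij]
    exact hn

end

end Pool.Agent.Lib.MP_89bcae_ag
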