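import Mathlib
import Pool.Agent.Lib.MP_89bcae_ag.Gph.Gen

/-!
# Translations `t ↦ t + z` of the families of polynomials, and the scheme of the counting
-/

open Polynomial

open scoped Classical

namespace Pool.Agent.Lib.MP_89bcae_ag

section

variable {ι : Type} {n : ℕ} {R : Type*} [CommRing R]

/-- The coefficients of the `α_i(t + z)`. -/
noncomputable def shift (z : R) (u : ι × Fin (n + 1) → R) : ι × Fin (n + 1) → R :=
  fun x => ((gpol u x.1).comp (X + C z)).coeff x.2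

/-- (`natDegree_comp_le`, `gpol_natDegree_le`; `Polynomial.as_sum_range'`.) -/
theorem gpol_shift (z : R) (u : ι × Fin (n + 1) → R) (i : ι) :
    gpol (shift z u) i = (gpol u i).comp (X + C z) := by
  have hdeg : ((gpol u i).comp (X + C z)).natDegree < n + 1 := by
    refine Nat.lt_succ_of_le (natDegree_comp_le.trans ?_)
    have h1 : (X + C z : R[X]).natDegree ≤ 1 := by
      refine (natDegree_add_le _ _).trans ?_
      rw [natDegree_C]
      exact max_le natDegree_X_le (Nat.zero_le _)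
    calc (gpol u i).natDegree * (X + C z : R[X]).natDegree ≤ n * 1 :=
          Nat.mul_le_mul (gpol_natDegree_le u i) h1
      _ = n := mul_one n
  rw [Polynomial.as_sum_range' _ (n + 1) hdeg, Finset.sum_range]
  unfold gpol shift
  refine Finset.sum_congr rfl fun j _ => ?_
  rw [C_mul_X_pow_eq_monomial]
  rfl

theorem gdif_shift (z : R) (u : ι × Fin (n + 1) → R) (a b : ι) :
    gdif (shift z u) a b = (gdif u a b).comp (X + C z) := by
  unfold gdif
  rw [gpol_shift, gpol_shift, sub_comp]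

theorem shift_shift (z z' : R) (u : ι × Fin (n + 1) → R) : shift z (shift z' u) = shift (z + z') u := by
  funext x
  unfold shift
  rw [show gpol (fun x : ι × Fin (n + 1) => ((gpol u x.1).comp (X + C z')).coeff x.2) x.1
    = (gpol u x.1).comp (X + C z') from gpol_shift z' u x.1, comp_assoc]
  congr 2
  rw [add_comp, X_comp, C_comp, add_assoc, ← C_add]

theorem shift_zero (u : ι × Fin (n + 1) → R) : shift 0 u = u := by
  funext x
  unfold shift
  rw [C_0, add_zero, comp_X, gpol_coeff]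

end

section

variable {K : Type} [Field K]

theorem isCoprime_comp_iff (f g : K[X]) (z : K) :
    IsCoprime (f.comp (X + C z)) (g.comp (X + C z)) ↔ IsCoprime f g := by
  have key : ∀ (f g : K[X]) (z : K), IsCoprime f g →
      IsCoprime (f.comp (X + C z)) (g.comp (X + C z)) := by
    rintro f g z ⟨a, b, h⟩
    refine ⟨a.comp (X + C z), b.comp (X + C z), ?_⟩
    rw [← mul_comp, ← mul_comp, ← add_comp, h, one_comp]
  refine ⟨fun h => ?_, key f g z⟩
  have h1 := key _ _ (-z) h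
  have e : (X + C z : K[X]).comp (X + C (-z)) = X := by
    rw [add_comp, X_comp, C_comp, add_assoc, ← C_add, neg_add_cancel, C_0, add_zero]
  rwa [comp_assoc, comp_assoc, e, comp_X, comp_X] at h1

theorem separable_comp_iff (f : K[X]) (z : K) :
    (f.comp (X + C z)).Separable ↔ f.Separable := by
  have e : derivative (f.comp (X + C z)) = (derivative f).comp (X + C z) := by
    rw [derivative_comp, derivative_add, derivative_X, derivative_C, add_zero, one_mul]
  rw [Polynomial.Separable, Polynomial.Separable, e]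
  exact isCoprime_comp_iff f (derivative f) z

end

section

variable {ι : Type} [Fintype ι] {n : ℕ}

/-- The families with a point `z`: `p` times the number of those with the point `0`
(`(z, u) ↦ shift (-z) u` is a bijection from `ZMod p × {u | Gen u 0}` onto the set). -/
theorem count_trans {p : ℕ} [Fact p.Prime]
    (Gen : (ι × Fin (n + 1) → ZMod p) → ZMod p → Prop)
    (hT : ∀ u z, Gen u z ↔ Gen (shift z u) 0) (hU : ∀ u z z', Gen u z → Gen u z' → z = z') :
    ({u | ∃ z, Gen u z}).ncard = p * ({u | Gen u 0}).ncard := by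
  have hss : ∀ (z : ZMod p) (u : ι × Fin (n + 1) → ZMod p), shift z (shift (-z) u) = u := by
    intro z u
    rw [shift_shift, add_neg_cancel, shift_zero]
  have hGen : ∀ (z : ZMod p) (u : ι × Fin (n + 1) → ZMod p), Gen u 0 → Gen (shift (-z) u) z := by
    intro z u hu
    rw [hT, hss]
    exact hu
  have himg : ({u | ∃ z, Gen u z} : Set (ι × Fin (n + 1) → ZMod p)) =
      (fun x : ZMod p × (ι × Fin (n + 1) → ZMod p) => shift (-x.1) x.2) ''
        ((Set.univ : Set (ZMod p)) ×ˢ {u | Gen u 0}) := by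
    ext u
    constructor
    · rintro ⟨z, hz⟩
      refine ⟨(z, shift z u), ⟨Set.mem_univ _, (hT u z).mp hz⟩, ?_⟩
      change shift (-z) (shift z u) = u
      rw [shift_shift, neg_add_cancel, shift_zero]
    · rintro ⟨⟨z, u'⟩, ⟨-, hu'⟩, rfl⟩
      exact ⟨z, hGen z u' hu'⟩
  have hinj : Set.InjOn (fun x : ZMod p × (ι × Fin (n + 1) → ZMod p) => shift (-x.1) x.2)
      ((Set.univ : Set (ZMod p)) ×ˢ {u | Gen u 0}) := by
    rintro ⟨z, u⟩ ⟨-, hu⟩ ⟨z', u'⟩ ⟨-, hu'⟩ hxy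
    have hxy' : shift (-z) u = shift (-z') u' := hxy
    have h1 : Gen (shift (-z) u) z := hGen z u hu
    have h2 : Gen (shift (-z) u) z' := by
      rw [hxy']
      exact hGen z' u' hu'
    have h3 : z = z' := hU _ _ _ h1 h2
    subst h3
    have h4 := congrArg (shift z) hxy'
    rw [hss, hss] at h4
    rw [h4]
  rw [himg, hinj.ncard_image, Set.ncard_prod, Set.ncard_univ, Nat.card_eq_fintype_card,
    ZMod.card]

/-- **The scheme of the counting.** With `N = card (ι × Fin (n + 1))`: `count_zeros` gives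
`#{u | Δ(u) ≠ 0} ≥ p ^ N - D p ^ (N - 1)`; by `count_collapse` (with `P u = Gen p u 0`)
`#{u | Gen p u 0} p ^ 2 ≥ #{u | Δ(u) ≠ 0}`; by `count_trans` `#{u | ∃ z, Gen p u z} = p #{u | Gen p u 0}`;
by `half_lift` `2 #G ≥ #{u | ∃ z, Gen p u z} p ^ N`. Together
`2 p #G ≥ p ^ N (p ^ N - D p ^ (N - 1)) ≥ p ^ (2 N) / 2` for `p ≥ 2 D`. -/
theorem count_scheme (s : ι × Fin (n + 1) → ι × Fin (n + 1)) (c₁ c₂ c : ι × Fin (n + 1))
    (hs : ∀ c, s (s c) = s c) (hs' : ∀ c, c ≠ c₁ → c ≠ c₂ → s c = c)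
    (Δ : MvPolynomial (ι × Fin (n + 1)) ℤ) (hΔ : Δ ≠ 0)
    (Gen : ∀ p : ℕ, (ι × Fin (n + 1) → ZMod p) → ZMod p → Prop)
    (hT : ∀ p : ℕ, p.Prime → ∀ u z, Gen p u z ↔ Gen p (shift z u) 0)
    (hU : ∀ p : ℕ, p.Prime → ∀ u z z', Gen p u z → Gen p u z' → z = z')
    (h0 : ∀ p : ℕ, p.Prime → ∀ u : ι × Fin (n + 1) → ZMod p,
      MvPolynomial.aeval u Δ ≠ 0 → Gen p (u ∘ s) 0)
    (G : ∀ p : ℕ, Set (ι × Fin (n + 1) → ZMod (p ^ 2)))
    (hG : ∀ p : ℕ, p.Prime → ∀ w, (∃ z, Gen p (redp p w) z) → w ∉ G p →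
      Function.update w c (w c + (p : ZMod (p ^ 2))) ∈ G p) :
    ∃ P₀ : ℕ, ∀ p : ℕ, p.Prime → P₀ ≤ p →
      (1 / 4 : ℝ) / p * ((p ^ 2 : ℕ) : ℝ) ^ Fintype.card (ι × Fin (n + 1)) ≤ (G p).ncard := by
  obtain ⟨P₁, D, hD⟩ := count_zeros Δ hΔ
  refine ⟨max P₁ (2 * D), fun p hp hpP => ?_⟩
  haveI : Fact p.Prime := ⟨hp⟩
  have hpos : 0 < p := hp.pos
  set N := Fintype.card (ι × Fin (n + 1)) with hN
  -- the nonzeros of the polynomial
  set Z : Set (ι × Fin (n + 1) → ZMod p) := {u | MvPolynomial.aeval u Δ = 0} with hZ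
  set A : Set (ι × Fin (n + 1) → ZMod p) := {u | Gen p (u ∘ s) 0} with hA
  set B : Set (ι × Fin (n + 1) → ZMod p) := {u | Gen p u 0} with hB
  set E : Set (ι × Fin (n + 1) → ZMod p) := {u | ∃ z, Gen p u z} with hE
  have h1 : Z.ncard * p ≤ D * p ^ N := hD p hp ((le_max_left _ _).trans hpP)
  have h2 : Zᶜ.ncard + Z.ncard = p ^ N := by
    rw [add_comm, Set.ncard_add_ncard_compl, Nat.card_eq_fintype_card, Fintype.card_fun,
      ZMod.card]
  have h3 : Zᶜ.ncard ≤ A.ncard := Set.ncard_le_ncard (fun u hu => h0 p hp u hu) (Set.toFinite _)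
  have h4 : A.ncard ≤ p ^ 2 * B.ncard :=
    (count_collapse s c₁ c₂ hs hs' (fun u => Gen p u 0)).trans
      (Nat.mul_le_mul_left _ (Set.ncard_le_ncard (fun u hu => hu.2) (Set.toFinite _)))
  have h5 : E.ncard = p * B.ncard := count_trans (Gen p) (hT p hp) (hU p hp)
  have h6 : E.ncard * p ^ N ≤ 2 * (G p).ncard :=
    half_lift hp E c (G p) (fun w hw hwG => by
      have h := hG p hp w hw hwG
      have e : ∀ (d1 d2 : DecidableEq (ι × Fin (n + 1))),
          @Function.update _ _ d1 w c (w c + (p : ZMod (p ^ 2))) =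
            @Function.update _ _ d2 w c (w c + (p : ZMod (p ^ 2))) := fun d1 d2 => by
        rw [Subsingleton.elim d1 d2]
      exact (e _ _) ▸ h)
  -- the estimates
  have hp2D : 2 * D ≤ p := (le_max_right _ _).trans hpP
  have hpR : (0 : ℝ) < p := by exact_mod_cast hpos
  have h1' : (Z.ncard : ℝ) * p ≤ D * (p : ℝ) ^ N := by exact_mod_cast h1
  have h2' : (Zᶜ.ncard : ℝ) + Z.ncard = (p : ℝ) ^ N := by exact_mod_cast h2
  have h34 : (Zᶜ.ncard : ℝ) ≤ (p : ℝ) ^ 2 * B.ncard := by exact_mod_cast h3.trans h4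
  have h5' : (E.ncard : ℝ) = p * B.ncard := by exact_mod_cast h5
  have h6' : (E.ncard : ℝ) * (p : ℝ) ^ N ≤ 2 * (G p).ncard := by exact_mod_cast h6
  have hD' : 2 * (D : ℝ) ≤ p := by exact_mod_cast hp2D
  have hpN : (0 : ℝ) < (p : ℝ) ^ N := pow_pos hpR N
  -- `2 #Z ≤ p ^ N`
  have h7 : 2 * (Z.ncard : ℝ) ≤ (p : ℝ) ^ N := by
    have h8 : 2 * (Z.ncard : ℝ) * p ≤ (p : ℝ) ^ N * p := by
      calc 2 * (Z.ncard : ℝ) * p = 2 * ((Z.ncard : ℝ) * p) := by ring
        _ ≤ 2 * (D * (p : ℝ) ^ N) := by linarith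
        _ = (2 * (D : ℝ)) * (p : ℝ) ^ N := by ring
        _ ≤ p * (p : ℝ) ^ N := mul_le_mul_of_nonneg_right hD' hpN.le
        _ = (p : ℝ) ^ N * p := by ring
    exact le_of_mul_le_mul_right h8 hpR
  -- `p ^ N ≤ 2 p ^ 2 #B`
  have h9 : (p : ℝ) ^ N ≤ 2 * ((p : ℝ) ^ 2 * B.ncard) := by linarith
  have h10 : (p : ℝ) ^ N * (p : ℝ) ^ N ≤ 4 * (p * (G p).ncard) := by
    calc (p : ℝ) ^ N * (p : ℝ) ^ N ≤ 2 * ((p : ℝ) ^ 2 * B.ncard) * (p : ℝ) ^ N :=
          mul_le_mul_of_nonneg_right h9 hpN.le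
      _ = 2 * p * ((p * B.ncard) * (p : ℝ) ^ N) := by ring
      _ = 2 * p * ((E.ncard : ℝ) * (p : ℝ) ^ N) := by rw [h5']
      _ ≤ 2 * p * (2 * (G p).ncard) := mul_le_mul_of_nonneg_left h6' (by positivity)
      _ = 4 * (p * (G p).ncard) := by ring
  have h11 : (((p ^ 2 : ℕ) : ℝ)) ^ N = (p : ℝ) ^ N * (p : ℝ) ^ N := by
    push_cast
    rw [← pow_mul, mul_comm 2 N, pow_mul, sq]
  rw [h11]
  calc (1 / 4 : ℝ) / p * ((p : ℝ) ^ N * (p : ℝ) ^ N)
      ≤ (1 / 4 : ℝ) / p * (4 * (p * (G p).ncard)) :=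
        mul_le_mul_of_nonneg_left h10 (by positivity)
    _ = (G p).ncard := by field_simp

end

end Pool.Agent.Lib.MP_89bcae_ag
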