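import Mathlib
import Pool.Agent.Lib.MP_89bcae_ag.Gph.Shift

/-!
# The number of the families of type B modulo `p ^ 2`
-/

open Polynomial

open scoped Classical

namespace Pool.Agent.Lib.MP_89bcae_ag

section

variable {ι : Type} {n : ℕ} {K : Type}

/-- Exactly one simple triple collision, at `z`: the conditions over a field. -/
structure GenB [CommRing K] (i j l : ι) (u : ι × Fin (n + 1) → K) (z : K) : Prop where
  lead : ∀ a b, a ≠ b → u (a, Fin.last n) ≠ u (b, Fin.last n)
  sep : ∀ a b, a ≠ b → (gdif u a b).Separable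
  cop : ∀ a b c d, a ≠ b → c ≠ d → ({a, b} : Set ι) ≠ {c, d} →
    ¬ ({a, b, c, d} : Set ι) ⊆ {i, j, l} → IsCoprime (gdif u a b) (gdif u c d)
  col : ∃ g h : K[X], gdif u i j = (X - C z) * g ∧ gdif u j l = (X - C z) * h ∧ IsCoprime g h

/-- The leading coefficients do not change. -/
theorem shift_last_h83 [Field K] (y : K) (u : ι × Fin (n + 1) → K) (a : ι) :
    shift y u (a, Fin.last n) = u (a, Fin.last n) := by
  have h1 : shift y u (a, Fin.last n) = ((gpol u a).comp (X + C y)).coeff n := rfl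
  have h2 : (gpol u a).coeff n = u (a, Fin.last n) := gpol_coeff u a (Fin.last n)
  rw [h1, ← h2, ← taylor_apply]
  rcases (gpol_natDegree_le u a).lt_or_eq with h | h
  · rw [coeff_eq_zero_of_natDegree_lt h, coeff_eq_zero_of_natDegree_lt]
    rw [natDegree_taylor]
    exact h
  · have h3 := coeff_taylor_natDegree (r := y) (f := gpol u a)
    rw [h] at h3
    rw [h3, leadingCoeff, h]

/-- The conditions are transported by the translations. -/
theorem GenB.shift_h83 [Field K] {i j l : ι} {u : ι × Fin (n + 1) → K} {z : K} (y : K)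
    (h : GenB i j l u z) : GenB i j l (shift y u) (z - y) := by
  refine ⟨fun a b hab => ?_, fun a b hab => ?_, fun a b c d hab hcd hne hss => ?_, ?_⟩
  · rw [shift_last_h83, shift_last_h83]
    exact h.lead a b hab
  · rw [gdif_shift, separable_comp_iff]
    exact h.sep a b hab
  · rw [gdif_shift, gdif_shift, isCoprime_comp_iff]
    exact h.cop a b c d hab hcd hne hss
  · obtain ⟨g, k, hg, hk, hgk⟩ := h.col
    refine ⟨g.comp (X + C y), k.comp (X + C y), ?_, ?_, (isCoprime_comp_iff g k y).2 hgk⟩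
    · rw [gdif_shift, hg, mul_comp, sub_comp, X_comp, C_comp, C_sub]
      ring
    · rw [gdif_shift, hk, mul_comp, sub_comp, X_comp, C_comp, C_sub]
      ring

/-- (`gdif_shift`; the leading coefficients do not change; `(X - C z).comp (X + C z) = X`.) -/
theorem GenB.shift_iff [Field K] (i j l : ι) (u : ι × Fin (n + 1) → K) (z : K) :
    GenB i j l u z ↔ GenB i j l (shift z u) 0 := by
  constructor
  · intro h
    have h' := h.shift_h83 z
    rwa [sub_self] at h'
  · intro h
    have h' := h.shift_h83 (-z)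
    rwa [shift_shift, neg_add_cancel, shift_zero, zero_sub, neg_neg] at h'

/-- (`z'` is a root of `gdif u i j` and `gdif u j l`; if `z' ≠ z`, of the coprime `g`, `h`.) -/
theorem GenB.unique [Field K] {i j l : ι} {u : ι × Fin (n + 1) → K} {z z' : K} (h : GenB i j l u z)
    (h' : GenB i j l u z') : z = z' := by
  obtain ⟨g, k, hg, hk, a, b, hab⟩ := h.col
  obtain ⟨g', k', hg', hk', -⟩ := h'.col
  by_contra hne
  have hzz : z' - z ≠ 0 := sub_ne_zero.2 (Ne.symm hne)
  have h1 : (z' - z) * g.eval z' = 0 := by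
    have := congrArg (fun q : K[X] => q.eval z') (hg.symm.trans hg')
    simpa using this
  have h2 : (z' - z) * k.eval z' = 0 := by
    have := congrArg (fun q : K[X] => q.eval z') (hk.symm.trans hk')
    simpa using this
  have h3 : g.eval z' = 0 := (mul_eq_zero.1 h1).resolve_left hzz
  have h4 : k.eval z' = 0 := (mul_eq_zero.1 h2).resolve_left hzz
  have h5 := congrArg (fun q : K[X] => q.eval z') hab
  simp [h3, h4] at h5

end

section

variable {ι : Type} {n : ℕ}

/-- The constant coefficients of `α_j` and `α_l` are replaced by that of `α_i`. -/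
noncomputable def colB (i j l : ι) : ι × Fin (n + 1) → ι × Fin (n + 1) :=
  fun c => if c = (j, 0) ∨ c = (l, 0) then (i, 0) else c

lemma spec_gdif_h95 {K : Type} [Field K] (s : ι × Fin (n + 1) → ι × Fin (n + 1))
    (u : ι × Fin (n + 1) → K) (a b : ι) :
    spec u (gdif (fun c => (MvPolynomial.X (s c) : MvPolynomial (ι × Fin (n + 1)) ℤ)) a b) =
      gdif (u ∘ s) a b := by
  unfold spec
  rw [gdif_map]
  congr 1
  funext c
  exact MvPolynomial.aeval_X u (s c)

lemma spec_divX_h95 {κ K : Type} [Field K] (u : κ → K) (f : (MvPolynomial κ ℤ)[X]) :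
    spec u (divX f) = divX (spec u f) := by
  unfold spec
  ext k
  rw [coeff_map, coeff_divX, coeff_divX, coeff_map]

lemma divX_X_mul_h95 (g : ℚ[X]) : divX (X * g) = g := by
  ext k
  rw [coeff_divX, coeff_X_mul]

/-- the point given by a family of polynomials -/
noncomputable def ptp_h95 (n : ℕ) (f : ι → ℚ[X]) : ι × Fin (n + 1) → ℚ :=
  fun x => (f x.1).coeff (x.2 : ℕ)

lemma gpol_ptp_h95 (f : ι → ℚ[X]) (hf : ∀ y, (f y).natDegree ≤ n) (y : ι) :
    gpol (ptp_h95 n f) y = f y := by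
  ext k
  by_cases hk : k < n + 1
  · exact gpol_coeff (n := n) (ptp_h95 n f) y ⟨k, hk⟩
  · rw [coeff_eq_zero_of_natDegree_lt, coeff_eq_zero_of_natDegree_lt]
    · exact lt_of_le_of_lt (hf y) (by omega)
    · exact lt_of_le_of_lt (gpol_natDegree_le _ _) (by omega)

lemma ptp_colB_h95 (f : ι → ℚ[X]) {i j l : ι} (h1 : (f j).coeff 0 = (f i).coeff 0)
    (h2 : (f l).coeff 0 = (f i).coeff 0) : ptp_h95 n f ∘ colB i j l = ptp_h95 n f := by
  funext c
  simp only [Function.comp, colB]
  split_ifs with hc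
  · rcases hc with rfl | rfl
    · simp [ptp_h95, h1]
    · simp [ptp_h95, h2]
  · rfl

lemma spec_ptp_h95 (f : ι → ℚ[X]) (hf : ∀ y, (f y).natDegree ≤ n) {i j l : ι}
    (h1 : (f j).coeff 0 = (f i).coeff 0) (h2 : (f l).coeff 0 = (f i).coeff 0) (a b : ι) :
    spec (ptp_h95 n f) (gdif (fun c => (MvPolynomial.X (colB i j l c) :
      MvPolynomial (ι × Fin (n + 1)) ℤ)) a b) = f a - f b := by
  rw [spec_gdif_h95, ptp_colB_h95 f h1 h2]
  unfold gdif
  rw [gpol_ptp_h95 f hf, gpol_ptp_h95 f hf]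

lemma cop_lin_h95 (m : ℕ) (A B A' B' : ℚ) (hD : A * B' - A' * B ≠ 0) :
    IsCoprime (C A * X ^ m + C B) (C A' * X ^ m + C B') := by
  refine ⟨C (-A' / (A * B' - A' * B)), C (A / (A * B' - A' * B)), ?_⟩
  have h1 : -A' / (A * B' - A' * B) * A + A / (A * B' - A' * B) * A' = 0 := by
    field_simp
    ring
  have h2 : -A' / (A * B' - A' * B) * B + A / (A * B' - A' * B) * B' = 1 := by
    field_simp
    ring
  calc _ = C (-A' / (A * B' - A' * B) * A + A / (A * B' - A' * B) * A') * X ^ m +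
        C (-A' / (A * B' - A' * B) * B + A / (A * B' - A' * B) * B') := by
        simp only [C_add, C_mul]
        ring
    _ = 1 := by
        rw [h1, h2]
        simp

lemma sep_h95 (hn : 2 ≤ n) (c : ℚ) (hc : c ≠ 0) : (C c * (X ^ n - X) : ℚ[X]).Separable := by
  obtain ⟨k, rfl⟩ : ∃ k, n = k + 2 := ⟨n - 2, by omega⟩
  have hk : ((k : ℚ) + 1) ≠ 0 := by positivity
  have hd : derivative (C c * (X ^ (k + 2) - X) : ℚ[X]) =
      C c * (C ((k : ℚ) + 2) * X ^ (k + 1) - 1) := by
    rw [derivative_C_mul, derivative_sub, derivative_X_pow, derivative_X]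
    congr 2
    · push_cast
      rfl
  unfold Separable
  rw [hd]
  refine ⟨C (1 / c * (-(((k : ℚ) + 2) ^ 2 / (k + 1)))) * X ^ k,
    C (1 / c) * (C (((k : ℚ) + 2) / (k + 1)) * X ^ (k + 1) - 1), ?_⟩
  have h1 : (C (1 / c) * C c : ℚ[X]) = 1 := by
    rw [← C_mul, one_div_mul_cancel hc, C_1]
  have h2 : (C (-(((k : ℚ) + 2) ^ 2 / (k + 1))) + C ((k : ℚ) + 2) * C (((k : ℚ) + 2) / (k + 1)) :
      ℚ[X]) = 0 := by
    rw [← C_mul, ← C_add, ← C_0]
    congr 1
    field_simp
    ring
  have h3 : (-C (-(((k : ℚ) + 2) ^ 2 / (k + 1))) - C (((k : ℚ) + 2) / (k + 1)) -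
      C ((k : ℚ) + 2) : ℚ[X]) = 0 := by
    rw [← C_neg, ← C_sub, ← C_sub, ← C_0]
    congr 1
    field_simp
    ring
  rw [C_mul]
  have e1 : (X : ℚ[X]) ^ (k + 2) = X ^ k * X ^ 2 := by rw [pow_add]
  have e2 : (X : ℚ[X]) ^ (k + 1) = X ^ k * X := by rw [pow_succ]
  rw [e1, e2]
  linear_combination (X ^ k * X ^ k * X ^ 2 * (C (1 / c) * C c)) * h2 +
    (X ^ k * X * (C (1 / c) * C c)) * h3 + h1

lemma natDegree_f_h95 (m : ℕ) (A B : ℚ) : (C A * X ^ m + C B : ℚ[X]).natDegree ≤ m := by
  refine (natDegree_add_le _ _).trans (max_le (natDegree_C_mul_X_pow_le _ _) ?_)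
  rw [natDegree_C]
  exact Nat.zero_le _

lemma gen_lead_h95 [Fintype ι] (hn : 2 ≤ n) (i j l : ι) :
    IsGeneric (fun (K : Type) [Field K] (u : ι × Fin (n + 1) → K) =>
      ∀ t : ι × ι, t.1 ≠ t.2 → (u ∘ colB i j l) (t.1, Fin.last n) ≠
        (u ∘ colB i j l) (t.2, Fin.last n)) := by
  have hlast : ∀ a : ι, colB i j l (a, Fin.last n) = (a, Fin.last n) := by
    intro a
    unfold colB
    rw [if_neg]
    have h0 : Fin.last n ≠ 0 := by
      intro h
      have := congrArg Fin.val h
      simp at this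
      omega
    rintro (h | h)
    · exact h0 (congrArg Prod.snd h)
    · exact h0 (congrArg Prod.snd h)
  refine IsGeneric.all (C := fun (t : ι × ι) (K : Type) [Field K] (u : ι × Fin (n + 1) → K) =>
    t.1 ≠ t.2 → (u ∘ colB i j l) (t.1, Fin.last n) ≠ (u ∘ colB i j l) (t.2, Fin.last n)) ?_
  intro t
  by_cases ht : t.1 = t.2
  · exact IsGeneric.true.mono fun K _ u _ h => absurd ht h
  · refine (isGeneric_ne (MvPolynomial.X (t.1, Fin.last n) - MvPolynomial.X (t.2, Fin.last n))
      ⟨fun c => if c.1 = t.1 then 1 else 0, ?_⟩).mono ?_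
    · rw [map_sub, MvPolynomial.aeval_X, MvPolynomial.aeval_X]
      simp [Ne.symm ht]
    · intro K _ u h _ h'
      apply h
      rw [map_sub, MvPolynomial.aeval_X, MvPolynomial.aeval_X]
      simp only [Function.comp, hlast] at h'
      rw [h', sub_self]

lemma gen_sep_h95 [Fintype ι] (hn : 2 ≤ n) (i j l : ι) :
    IsGeneric (fun (K : Type) [Field K] (u : ι × Fin (n + 1) → K) =>
      ∀ t : ι × ι, t.1 ≠ t.2 → (gdif (u ∘ colB i j l) t.1 t.2).Separable) := by
  refine IsGeneric.all (C := fun (t : ι × ι) (K : Type) [Field K] (u : ι × Fin (n + 1) → K) =>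
    t.1 ≠ t.2 → (gdif (u ∘ colB i j l) t.1 t.2).Separable) ?_
  intro t
  by_cases ht : t.1 = t.2
  · exact IsGeneric.true.mono fun K _ u _ h => absurd ht h
  · set lam : ι → ℚ := fun y => if y = t.1 then 1 else 0 with hlam
    have hc : lam t.1 - lam t.2 ≠ 0 := by
      simp [hlam, Ne.symm ht]
    set f : ι → ℚ[X] := fun y => C (lam y) * (X ^ n - X) with hf
    have hdeg : ∀ y, (f y).natDegree ≤ n := by
      intro y
      refine (natDegree_C_mul_le _ _).trans ((natDegree_sub_le _ _).trans (max_le ?_ ?_))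
      · rw [natDegree_X_pow]
      · rw [natDegree_X]
        omega
    have h0 : ∀ y, (f y).coeff 0 = 0 := by
      intro y
      simp only [hf, coeff_C_mul, coeff_sub, coeff_X_zero, coeff_X_pow]
      rw [if_neg (by omega)]
      simp
    have hsp : spec (ptp_h95 n f) (gdif (fun c => (MvPolynomial.X (colB i j l c) :
        MvPolynomial (ι × Fin (n + 1)) ℤ)) t.1 t.2) = C (lam t.1 - lam t.2) * (X ^ n - X) := by
      rw [spec_ptp_h95 f hdeg (by rw [h0, h0]) (by rw [h0, h0])]
      simp only [hf, C_sub]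
      ring
    refine (isGeneric_separable (gdif (fun c => (MvPolynomial.X (colB i j l c) :
        MvPolynomial (ι × Fin (n + 1)) ℤ)) t.1 t.2) n (gdif_natDegree_le _ _ _)
        (ptp_h95 n f) ?_ ?_).mono ?_
    · rw [hsp, coeff_C_mul, coeff_sub, coeff_X_pow, if_pos rfl, coeff_X, if_neg (by omega),
        sub_zero, mul_one]
      exact hc
    · rw [hsp]
      exact sep_h95 hn _ hc
    · intro K _ u h _
      rw [← spec_gdif_h95]
      exact h.2

lemma gen_col_h95 [Fintype ι] (hn : 2 ≤ n) {i j l : ι} (hij : i ≠ j) (hjl : j ≠ l) (hil : i ≠ l) :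
    IsGeneric (fun (K : Type) [Field K] (u : ι × Fin (n + 1) → K) =>
      IsCoprime (divX (gdif (u ∘ colB i j l) i j)) (divX (gdif (u ∘ colB i j l) j l))) := by
  obtain ⟨m, rfl⟩ : ∃ m, n = m + 1 := ⟨n - 1, by omega⟩
  set f : ι → ℚ[X] := fun y => if y = i then X ^ (m + 1) else if y = l then -(X ^ (m + 1)) - X
    else 0 with hf
  have hdeg : ∀ y, (f y).natDegree ≤ m + 1 := by
    intro y
    simp only [hf]
    split_ifs
    · rw [natDegree_X_pow]
    · refine (natDegree_sub_le _ _).trans (max_le ?_ ?_)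
      · rw [natDegree_neg, natDegree_X_pow]
      · rw [natDegree_X]
        omega
    · simp
  have h0 : ∀ y, (f y).coeff 0 = 0 := by
    intro y
    simp only [hf]
    split_ifs
    · simp [coeff_X_pow]
    · simp [coeff_X_pow]
    · simp
  have hfi : f i = X * X ^ m := by
    simp only [hf, if_pos]
    rw [pow_succ]
    ring
  have hfj : f j = 0 := by
    simp only [hf, if_neg hij.symm, if_neg hjl]
  have hfl : f l = -(X * (X ^ m + 1)) := by
    simp only [hf, if_neg hil.symm, if_pos]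
    rw [pow_succ]
    ring
  have hsp : ∀ a b, spec (ptp_h95 (m + 1) f) (gdif (fun c => (MvPolynomial.X (colB i j l c) :
        MvPolynomial (ι × Fin (m + 1 + 1)) ℤ)) a b) = f a - f b := fun a b =>
    spec_ptp_h95 f hdeg (by rw [h0, h0]) (by rw [h0, h0]) a b
  have hs1 : spec (ptp_h95 (m + 1) f) (divX (gdif (fun c => (MvPolynomial.X (colB i j l c) :
        MvPolynomial (ι × Fin (m + 1 + 1)) ℤ)) i j)) = X ^ m := by
    rw [spec_divX_h95, hsp, hfi, hfj, sub_zero, divX_X_mul_h95]
  have hs2 : spec (ptp_h95 (m + 1) f) (divX (gdif (fun c => (MvPolynomial.X (colB i j l c) :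
        MvPolynomial (ι × Fin (m + 1 + 1)) ℤ)) j l)) = X ^ m + 1 := by
    rw [spec_divX_h95, hsp, hfj, hfl, zero_sub, neg_neg, divX_X_mul_h95]
  refine (isGeneric_isCoprime (divX (gdif (fun c => (MvPolynomial.X (colB i j l c) :
        MvPolynomial (ι × Fin (m + 1 + 1)) ℤ)) i j)) (divX (gdif (fun c =>
        (MvPolynomial.X (colB i j l c) : MvPolynomial (ι × Fin (m + 1 + 1)) ℤ)) j l)) m m ?_ ?_
        (ptp_h95 (m + 1) f) ?_ ?_).mono ?_
  · rw [natDegree_divX_eq_natDegree_tsub_one]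
    have := gdif_natDegree_le (n := m + 1) (fun c => (MvPolynomial.X (colB i j l c) :
        MvPolynomial (ι × Fin (m + 1 + 1)) ℤ)) i j
    omega
  · rw [natDegree_divX_eq_natDegree_tsub_one]
    have := gdif_natDegree_le (n := m + 1) (fun c => (MvPolynomial.X (colB i j l c) :
        MvPolynomial (ι × Fin (m + 1 + 1)) ℤ)) j l
    omega
  · rw [hs1, coeff_X_pow, if_pos rfl]
    exact one_ne_zero
  · rw [hs1, hs2]
    exact ⟨-1, 1, by ring⟩
  · intro K _ u h
    rw [← spec_gdif_h95, ← spec_gdif_h95, ← spec_divX_h95, ← spec_divX_h95]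
    exact h.2

lemma cop_num_h95 (lam : ι → ℚ) (hlam : Function.Injective lam) {a b c d x : ι} (hab : a ≠ b)
    (hcd : c ≠ d) (hne : ({a, b} : Set ι) ≠ {c, d}) (hx : x = a ∨ x = b ∨ x = c ∨ x = d) :
    (lam a - lam b) * ((if c = x then 1 else 0) - (if d = x then 1 else 0)) -
      (lam c - lam d) * ((if a = x then 1 else 0) - (if b = x then 1 else 0)) ≠ (0 : ℚ) := by
  have h1 : lam a - lam b ≠ 0 := fun h => hab (hlam (sub_eq_zero.1 h))
  have h2 : lam c - lam d ≠ 0 := fun h => hcd (hlam (sub_eq_zero.1 h))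
  by_cases ha : a = x
  · have hb : ¬ b = x := fun h => hab (ha.trans h.symm)
    rw [if_pos ha, if_neg hb]
    by_cases hc : c = x
    · have hd : ¬ d = x := fun h => hcd (hc.trans h.symm)
      rw [if_pos hc, if_neg hd]
      intro h
      have hbd : b = d := by
        apply hlam
        rw [ha, hc] at h
        linarith
      apply hne
      rw [ha, hc, hbd]
    · by_cases hd : d = x
      · rw [if_neg hc, if_pos hd]
        intro h
        have hbc : b = c := by
          apply hlam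
          rw [ha, hd] at h
          linarith
        apply hne
        rw [ha, hd, hbc, Set.pair_comm]
      · rw [if_neg hc, if_neg hd]
        intro h
        apply h2
        linarith
  · by_cases hb : b = x
    · rw [if_neg ha, if_pos hb]
      by_cases hc : c = x
      · have hd : ¬ d = x := fun h => hcd (hc.trans h.symm)
        rw [if_pos hc, if_neg hd]
        intro h
        have had : a = d := by
          apply hlam
          rw [hb, hc] at h
          linarith
        apply hne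
        rw [hb, hc, had, Set.pair_comm]
      · by_cases hd : d = x
        · rw [if_neg hc, if_pos hd]
          intro h
          have hac : a = c := by
            apply hlam
            rw [hb, hd] at h
            linarith
          apply hne
          rw [hb, hd, hac]
        · rw [if_neg hc, if_neg hd]
          intro h
          apply h2
          linarith
    · rw [if_neg ha, if_neg hb]
      have hcd' : x = c ∨ x = d := by
        rcases hx with h | h | h | h
        · exact absurd h.symm ha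
        · exact absurd h.symm hb
        · exact Or.inl h
        · exact Or.inr h
      rcases hcd' with h | h
      · have hd : ¬ d = x := fun h' => hcd (h.symm.trans h'.symm)
        rw [if_pos h.symm, if_neg hd]
        intro h'
        apply h1
        linarith
      · have hc : ¬ c = x := fun h' => hcd (h'.trans h)
        rw [if_neg hc, if_pos h.symm]
        intro h'
        apply h1
        linarith

lemma gen_cop_h95 [Fintype ι] (hn : 2 ≤ n) (i j l : ι) :
    IsGeneric (fun (K : Type) [Field K] (u : ι × Fin (n + 1) → K) =>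
      ∀ t : (ι × ι) × (ι × ι), t.1.1 ≠ t.1.2 → t.2.1 ≠ t.2.2 →
        ({t.1.1, t.1.2} : Set ι) ≠ {t.2.1, t.2.2} →
        ¬ ({t.1.1, t.1.2, t.2.1, t.2.2} : Set ι) ⊆ {i, j, l} →
        IsCoprime (gdif (u ∘ colB i j l) t.1.1 t.1.2) (gdif (u ∘ colB i j l) t.2.1 t.2.2)) := by
  refine IsGeneric.all (C := fun (t : (ι × ι) × (ι × ι)) (K : Type) [Field K]
    (u : ι × Fin (n + 1) → K) => t.1.1 ≠ t.1.2 → t.2.1 ≠ t.2.2 →
        ({t.1.1, t.1.2} : Set ι) ≠ {t.2.1, t.2.2} →
        ¬ ({t.1.1, t.1.2, t.2.1, t.2.2} : Set ι) ⊆ {i, j, l} →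
        IsCoprime (gdif (u ∘ colB i j l) t.1.1 t.1.2) (gdif (u ∘ colB i j l) t.2.1 t.2.2)) ?_
  rintro ⟨⟨a, b⟩, ⟨c, d⟩⟩
  by_cases hyp : a ≠ b ∧ c ≠ d ∧ ({a, b} : Set ι) ≠ {c, d} ∧
      ¬ ({a, b, c, d} : Set ι) ⊆ {i, j, l}
  swap
  · exact IsGeneric.true.mono fun K _ u _ h1 h2 h3 h4 => absurd ⟨h1, h2, h3, h4⟩ hyp
  obtain ⟨hab, hcd, hne, hsub⟩ := hyp
  obtain ⟨x, hx, hxn⟩ := Set.not_subset.1 hsub
  have hx' : x = a ∨ x = b ∨ x = c ∨ x = d := by simpa using hx
  have hxi : ¬ i = x := by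
    rintro rfl
    exact hxn (by simp)
  have hxj : ¬ j = x := by
    rintro rfl
    exact hxn (by simp)
  have hxl : ¬ l = x := by
    rintro rfl
    exact hxn (by simp)
  obtain ⟨lam, hlam⟩ : ∃ lam : ι → ℚ, Function.Injective lam := by
    refine ⟨fun y => (((Fintype.equivFin ι y : Fin (Fintype.card ι)) : ℕ) : ℚ), ?_⟩
    intro y y' h
    apply (Fintype.equivFin ι).injective
    apply Fin.ext
    exact Nat.cast_injective (R := ℚ) h
  set f : ι → ℚ[X] := fun y => C (lam y) * X ^ n + C (if y = x then 1 else 0) with hf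
  have hdeg : ∀ y, (f y).natDegree ≤ n := fun y => natDegree_f_h95 n _ _
  have h0 : ∀ y, ¬ y = x → (f y).coeff 0 = 0 := by
    intro y hy
    simp only [hf, if_neg hy, coeff_add, coeff_C_mul, coeff_X_pow, C_0, coeff_zero]
    rw [if_neg (by omega)]
    simp
  have hsp : ∀ y z, spec (ptp_h95 n f) (gdif (fun c => (MvPolynomial.X (colB i j l c) :
        MvPolynomial (ι × Fin (n + 1)) ℤ)) y z) = C (lam y - lam z) * X ^ n +
        C ((if y = x then 1 else 0) - (if z = x then 1 else 0)) := by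
    intro y z
    rw [spec_ptp_h95 f hdeg (by rw [h0 j hxj, h0 i hxi]) (by rw [h0 l hxl, h0 i hxi])]
    simp only [hf, C_sub]
    ring
  refine (isGeneric_isCoprime (gdif (fun c => (MvPolynomial.X (colB i j l c) :
        MvPolynomial (ι × Fin (n + 1)) ℤ)) a b) (gdif (fun c => (MvPolynomial.X (colB i j l c) :
        MvPolynomial (ι × Fin (n + 1)) ℤ)) c d) n n (gdif_natDegree_le _ _ _)
        (gdif_natDegree_le _ _ _) (ptp_h95 n f) ?_ ?_).mono ?_
  · rw [hsp, coeff_add, coeff_C_mul, coeff_X_pow, if_pos rfl, coeff_C, if_neg (by omega), add_zero,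
      mul_one]
    exact fun h => hab (hlam (sub_eq_zero.1 h))
  · rw [hsp, hsp]
    exact cop_lin_h95 n _ _ _ _ (cop_num_h95 lam hlam hab hcd hne hx')
  · intro K _ u h _ _ _ _
    rw [← spec_gdif_h95, ← spec_gdif_h95]
    exact h.2

/-- The generic condition. By `IsGeneric.all`, `IsGeneric.and`: (lead) the polynomial
`X_(a,n) - X_(b,n)`. For the other ones, the polynomials are `gdif (MvPolynomial.X ∘ s) a b` over
`MvPolynomial κ ℤ` (`gdif_map`: their values at `u` are the `gdif (u ∘ s) a b`), and it is enough to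
find for every condition one rational point `u₀` with `u₀ ∘ s = u₀` where it holds. (sep): all
`α_y = λ_y (X ^ n - X)` with an injective `λ : ι → ℚ`. (cop): there is `x ∉ {i, j, l}` with
`x ∈ {a, b, c, d}`: take `α_y = λ_y X ^ n` for `y ≠ x` and `α_x = λ_x X ^ n + 1`; two differences
`A X ^ n + B` and `A' X ^ n + B'` with `A ≠ 0` and `A B' ≠ A' B` are coprime, and
`A B' - A' B = ± (λ - λ')` for two different indices. (col): `α_i = X ^ n`, `α_j = 0`,
`α_l = -X ^ n - X` (and anything for the others): `gdif i j = X * X ^ (n - 1)`,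
`gdif j l = X * (X ^ (n - 1) + 1)`; use `divX` (`Polynomial.divX`) for the quotients by `X`, the constant
coefficients being zero. -/
theorem isGeneric_genB [Fintype ι] (hn : 2 ≤ n) {i j l : ι} (hij : i ≠ j) (hjl : j ≠ l)
    (hil : i ≠ l) :
    IsGeneric (fun (K : Type) [Field K] (u : ι × Fin (n + 1) → K) =>
      GenB i j l (u ∘ colB i j l) 0) := by
  refine ((gen_lead_h95 hn i j l).and ((gen_sep_h95 hn i j l).and ((gen_cop_h95 hn i j l).and
    (gen_col_h95 hn hij hjl hil)))).mono ?_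
  rintro K _ u ⟨h1, h2, h3, h4⟩
  have hj0 : colB i j l (j, (0 : Fin (n + 1))) = (i, 0) := by
    unfold colB
    rw [if_pos (Or.inl rfl)]
  have hl0 : colB i j l (l, (0 : Fin (n + 1))) = (i, 0) := by
    unfold colB
    rw [if_pos (Or.inr rfl)]
  have hi0 : colB i j l (i, (0 : Fin (n + 1))) = (i, 0) := by
    unfold colB
    rw [if_neg]
    rintro (h | h)
    · exact hij (congrArg Prod.fst h)
    · exact hil (congrArg Prod.fst h)
  have hdiv : ∀ g : K[X], g.coeff 0 = 0 → g = (X - C 0) * divX g := by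
    intro g hg
    have h5 := divX_mul_X_add g
    rw [hg, C_0, add_zero] at h5
    rw [C_0, sub_zero, mul_comm]
    exact h5.symm
  refine ⟨fun a b hab => h1 (a, b) hab, fun a b hab => h2 (a, b) hab,
    fun a b c d hab hcd h5 h6 => h3 ((a, b), (c, d)) hab hcd h5 h6,
    divX (gdif (u ∘ colB i j l) i j), divX (gdif (u ∘ colB i j l) j l), ?_, ?_, h4⟩
  · apply hdiv
    have h5 := gdif_coeff (u ∘ colB i j l) i j 0
    rw [Fin.val_zero] at h5
    rw [h5]
    simp only [Function.comp, hi0, hj0, sub_self]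
  · apply hdiv
    have h5 := gdif_coeff (u ∘ colB i j l) j l 0
    rw [Fin.val_zero] at h5
    rw [h5]
    simp only [Function.comp, hl0, hj0, sub_self]

/-- The families of type B modulo `p ^ 2`. -/
def TypeBz (p : ℕ) (i j l : ι) (w : ι × Fin (n + 1) → ZMod (p ^ 2)) : Prop :=
  ∃ z : ZMod (p ^ 2),
    GenB i j l (redp p w) (ZMod.castHom (dvd_pow_self p two_ne_zero) (ZMod p) z) ∧
      (gdif w i j).eval z = 0 ∧ (gdif w j l).eval z ≠ 0

lemma redp_intCast_h95 {κ : Type} {p : ℕ} (v : κ → ℤ) :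
    redp p (fun c => (v c : ZMod (p ^ 2))) = fun c => ((v c : ℤ) : ZMod p) := by
  funext c
  simp only [redp, map_intCast]

lemma gred_eq_h95 {p : ℕ} (v : ι × Fin (n + 1) → ℤ) (a b : ι) :
    gred p v a b = gdif (redp p (fun c => (v c : ZMod (p ^ 2)))) a b := by
  rw [redp_intCast_h95]
  unfold gred
  rw [gdif_map]
  rfl

lemma gdif_redp_h95 {p : ℕ} (w : ι × Fin (n + 1) → ZMod (p ^ 2)) (a b : ι) :
    (gdif w a b).map (ZMod.castHom (dvd_pow_self p two_ne_zero) (ZMod p)) =
      gdif (redp p w) a b := by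
  rw [gdif_map]
  rfl

lemma castHom_sq_h95 {p : ℕ} (x : ZMod (p ^ 2))
    (hx : ZMod.castHom (dvd_pow_self p two_ne_zero) (ZMod p) x = 0) : x ^ 2 = 0 := by
  obtain ⟨y, rfl⟩ := ZMod.intCast_surjective x
  rw [map_intCast, ZMod.intCast_zmod_eq_zero_iff_dvd] at hx
  have h1 : ((p ^ 2 : ℕ) : ℤ) ∣ y ^ 2 := by
    push_cast
    exact pow_dvd_pow_of_dvd hx 2
  have h2 := (ZMod.intCast_zmod_eq_zero_iff_dvd (y ^ 2) (p ^ 2)).2 h1
  push_cast at h2
  exact h2

lemma castHom_isUnit_h95 {p : ℕ} (hp : p.Prime) (x : ZMod (p ^ 2))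
    (hx : ZMod.castHom (dvd_pow_self p two_ne_zero) (ZMod p) x ≠ 0) : IsUnit x := by
  obtain ⟨y, rfl⟩ := ZMod.intCast_surjective x
  rw [map_intCast, Ne, ZMod.intCast_zmod_eq_zero_iff_dvd] at hx
  rw [ZMod.coe_int_isUnit_iff_isCoprime]
  push_cast
  apply IsCoprime.pow_left
  exact (Prime.coprime_iff_not_dvd (Nat.prime_iff_prime_int.1 hp)).2 hx

/-- The root of a simple root modulo `p` modulo `p ^ 2`. -/
lemma hensel_h95 {p : ℕ} (hp : p.Prime) (f : (ZMod (p ^ 2))[X]) (z₀ : ZMod (p ^ 2))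
    (h0 : ZMod.castHom (dvd_pow_self p two_ne_zero) (ZMod p) (f.eval z₀) = 0)
    (h1 : ZMod.castHom (dvd_pow_self p two_ne_zero) (ZMod p) (f.derivative.eval z₀) ≠ 0) :
    ∃ z, f.eval z = 0 ∧ ZMod.castHom (dvd_pow_self p two_ne_zero) (ZMod p) z =
      ZMod.castHom (dvd_pow_self p two_ne_zero) (ZMod p) z₀ := by
  obtain ⟨y, hy⟩ := (castHom_isUnit_h95 hp _ h1).exists_right_inv
  refine ⟨z₀ + (-(f.eval z₀) * y), ?_, ?_⟩
  · obtain ⟨k, hk⟩ := f.binomExpansion z₀ (-(f.eval z₀) * y)
    have h2 : (f.eval z₀) ^ 2 = 0 := castHom_sq_h95 _ h0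
    rw [hk]
    calc f.eval z₀ + f.derivative.eval z₀ * (-(f.eval z₀) * y) + k * (-(f.eval z₀) * y) ^ 2 =
        f.eval z₀ * (1 - f.derivative.eval z₀ * y) + k * y ^ 2 * (f.eval z₀) ^ 2 := by ring
      _ = 0 := by rw [hy, h2]; ring
  · rw [map_add, map_mul, map_neg, h0]
    simp

/-- If `w` lifts a good family modulo `p` but is not of type B, then `w + p` at the constant
coefficient of `α_l` is: by Hensel's lemma (`f'(z) ≠ 0` modulo `p` since `gdif i j` is separable:
replace a lift `z` by `z - f(z) / f'(z)`), there is a lift `z` with `(gdif w i j).eval z = 0`; as `w` is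
not of type B, `(gdif w j l).eval z = 0`; adding `p` to the constant coefficient of `α_l` does not change
`gdif w i j` and subtracts `p ≠ 0` from `(gdif w j l).eval z`. -/
theorem TypeBz.flip {p : ℕ} (hp : p.Prime) {i j l : ι} (hij : i ≠ j) (hjl : j ≠ l) (hil : i ≠ l)
    (w : ι × Fin (n + 1) → ZMod (p ^ 2)) (h : ∃ z, GenB i j l (redp p w) z)
    (hw : ¬ TypeBz p i j l w) :
    TypeBz p i j l (Function.update w (l, 0) (w (l, 0) + (p : ZMod (p ^ 2)))) := by
  have : Fact p.Prime := ⟨hp⟩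
  obtain ⟨zb, hz⟩ := h
  set φ := ZMod.castHom (dvd_pow_self p two_ne_zero) (ZMod p) with hφ
  obtain ⟨z₀, hz₀⟩ := ZMod.castHom_surjective (dvd_pow_self p two_ne_zero) zb
  obtain ⟨g, h, hg, hh, hgh⟩ := hz.col
  have hsep := hz.sep i j hij
  have hev : ∀ (f : (ZMod (p ^ 2))[X]) (z : ZMod (p ^ 2)), φ (f.eval z) = (f.map φ).eval (φ z) := by
    intro f z
    rw [Polynomial.eval_map, Polynomial.eval₂_at_apply]
  have h0 : φ ((gdif w i j).eval z₀) = 0 := by
    rw [hev, gdif_redp_h95, hφ, hz₀, hg]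
    simp
  have h1 : φ ((gdif w i j).derivative.eval z₀) ≠ 0 := by
    rw [hev, ← Polynomial.derivative_map, gdif_redp_h95, hφ, hz₀]
    intro h2
    have h3 : (gdif (redp p w) i j).eval zb = 0 := by
      rw [hg]
      simp
    obtain ⟨a, b, hab⟩ := hsep
    have h4 := congrArg (Polynomial.eval zb) hab
    rw [eval_add, eval_mul, eval_mul, h2, h3, eval_one, mul_zero, mul_zero, add_zero] at h4
    exact zero_ne_one h4
  obtain ⟨z, hz1, hz2⟩ := hensel_h95 hp (gdif w i j) z₀ h0 h1
  rw [hz₀] at hz2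
  have hB : GenB i j l (redp p w) (φ z) := by
    rw [hφ, hz2]
    exact hz
  have hjl0 : (gdif w j l).eval z = 0 := by
    by_contra hne
    exact hw ⟨z, hB, hz1, hne⟩
  have hred : redp p (Function.update w (l, 0) (w (l, 0) + (p : ZMod (p ^ 2)))) = redp p w := by
    funext c
    by_cases hc : c = (l, 0)
    · subst hc
      simp only [redp, Function.update_self, map_add, map_natCast, CharP.cast_eq_zero, add_zero]
    · simp only [redp, Function.update_of_ne hc]
  have hpol : ∀ a, a ≠ l → gpol (Function.update w (l, 0) (w (l, 0) + (p : ZMod (p ^ 2)))) a =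
      gpol w a := by
    intro a ha
    unfold gpol
    refine Finset.sum_congr rfl fun k _ => ?_
    rw [Function.update_of_ne]
    intro hk
    exact ha (congrArg Prod.fst hk)
  have hpoll : gpol (Function.update w (l, 0) (w (l, 0) + (p : ZMod (p ^ 2)))) l =
      gpol w l + C (p : ZMod (p ^ 2)) := by
    unfold gpol
    rw [Fin.sum_univ_succ, Fin.sum_univ_succ, Function.update_self]
    have h2 : ∀ k : Fin n, Function.update w (l, (0 : Fin (n + 1))) (w (l, 0) + (p : ZMod (p ^ 2)))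
        (l, k.succ) = w (l, k.succ) := by
      intro k
      rw [Function.update_of_ne]
      intro hk
      exact (Fin.succ_ne_zero k) (congrArg Prod.snd hk)
    simp only [h2, Fin.val_zero, pow_zero, mul_one, C_add]
    ring
  refine ⟨z, ?_, ?_, ?_⟩
  · rw [hred]
    exact hB
  · unfold gdif
    rw [hpol i hil, hpol j hjl]
    exact hz1
  · unfold gdif
    rw [hpol j hjl, hpoll, ← sub_sub]
    change ((gdif w j l) - C (p : ZMod (p ^ 2))).eval z ≠ 0
    rw [eval_sub, hjl0, eval_C, zero_sub, neg_ne_zero]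
    intro h2
    rw [ZMod.natCast_eq_zero_iff] at h2
    have h3 := Nat.le_of_dvd hp.pos h2
    have h4 : p * 1 < p * p := Nat.mul_lt_mul_of_pos_left hp.one_lt hp.pos
    rw [pow_two] at h3
    omega

/-- From the residues modulo `p ^ 2` to the integers. -/
theorem TypeB.of_z {p : ℕ} (hp : p.Prime) {i j l : ι} {v : ι × Fin (n + 1) → ℤ}
    (h : TypeBz p i j l (fun c => (v c : ZMod (p ^ 2)))) : TypeB p i j l v := by
  obtain ⟨z, hB, h1, h2⟩ := h
  have hgred : ∀ a b, gred p v a b = gdif (redp p (fun c => (v c : ZMod (p ^ 2)))) a b :=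
    fun a b => gred_eq_h95 v a b
  obtain ⟨y, rfl⟩ := ZMod.intCast_surjective z
  have hev : ∀ a b, (gdif (fun c => ((v c : ℤ) : ZMod (p ^ 2))) a b).eval ((y : ℤ) : ZMod (p ^ 2)) =
      (((gdif v a b).eval y : ℤ) : ZMod (p ^ 2)) := by
    intro a b
    have h3 := gdif_map (Int.castRingHom (ZMod (p ^ 2))) v a b
    have h4 : (gdif (fun c => ((v c : ℤ) : ZMod (p ^ 2))) a b) =
        (gdif v a b).map (Int.castRingHom (ZMod (p ^ 2))) := h3.symm
    rw [h4, Polynomial.eval_map]
    exact Polynomial.eval₂_at_apply (Int.castRingHom (ZMod (p ^ 2))) y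
  have hpp : ((p ^ 2 : ℕ) : ℤ) = (p : ℤ) ^ 2 := by push_cast; ring
  obtain ⟨g, h, hg, hh, hgh⟩ := hB.col
  rw [map_intCast] at hg hh
  refine ⟨?_, ?_, ?_, y, ?_, ?_, ?_, g, h, ?_, ?_, hgh⟩
  · intro a b hab hdvd
    apply hB.lead a b hab
    rw [redp_intCast_h95]
    have h3 := (ZMod.intCast_zmod_eq_zero_iff_dvd _ p).2 hdvd
    push_cast at h3
    exact sub_eq_zero.1 h3
  · intro a b hab
    rw [hgred]
    exact hB.sep a b hab
  · intro a b c d hab hcd h3 h4
    rw [hgred, hgred]
    exact hB.cop a b c d hab hcd h3 h4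
  · rw [hev] at h1
    rw [← hpp]
    exact (ZMod.intCast_zmod_eq_zero_iff_dvd _ _).1 h1
  · rw [← ZMod.intCast_zmod_eq_zero_iff_dvd]
    have h3 : (((gdif v j l).eval y : ℤ) : ZMod p) = (gred p v j l).eval ((y : ℤ) : ZMod p) := by
      unfold gred
      rw [Polynomial.eval_map]
      exact (Polynomial.eval₂_at_apply (Int.castRingHom (ZMod p)) y).symm
    rw [h3, hgred, hh]
    simp
  · intro hdvd
    apply h2
    rw [hev]
    apply (ZMod.intCast_zmod_eq_zero_iff_dvd _ _).2
    rw [hpp]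
    exact hdvd
  · rw [hgred]
    exact hg
  · rw [hgred]
    exact hh

/-- The count (`count_scheme`). -/
theorem count_typeB [Fintype ι] (hn : 2 ≤ n) {i j l : ι} (hij : i ≠ j) (hjl : j ≠ l)
    (hil : i ≠ l) :
    ∃ P₀ : ℕ, ∀ p : ℕ, p.Prime → P₀ ≤ p →
      (1 / 4 : ℝ) / p * ((p ^ 2 : ℕ) : ℝ) ^ Fintype.card (ι × Fin (n + 1)) ≤
        ({w : ι × Fin (n + 1) → ZMod (p ^ 2) | TypeBz p i j l w}).ncard := by
  obtain ⟨Δ, hΔ, hgen⟩ := isGeneric_genB (n := n) hn hij hjl hil
  have hl0 : ∀ c : ι × Fin (n + 1), colB i j l (colB i j l c) = colB i j l c := by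
    intro c
    unfold colB
    by_cases hc : c = (j, 0) ∨ c = (l, 0)
    · rw [if_pos hc, if_neg]
      rintro (h | h)
      · exact hij (congrArg Prod.fst h)
      · exact hil (congrArg Prod.fst h)
    · rw [if_neg hc, if_neg hc]
  refine count_scheme (colB i j l) (j, 0) (l, 0) (l, 0) hl0 ?_ Δ hΔ
    (fun p u z => GenB i j l u z) ?_ ?_ ?_ (fun p => {w | TypeBz p i j l w}) ?_
  · intro c h1 h2
    unfold colB
    rw [if_neg]
    rintro (h | h)
    · exact h1 h
    · exact h2 h
  · intro p hp u z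
    have : Fact p.Prime := ⟨hp⟩
    exact GenB.shift_iff i j l u z
  · intro p hp u z z' h h'
    have : Fact p.Prime := ⟨hp⟩
    exact GenB.unique h h'
  · intro p hp u hu
    have : Fact p.Prime := ⟨hp⟩
    exact hgen (ZMod p) u hu
  · intro p hp w h hw
    exact TypeBz.flip hp hij hjl hil w h hw

end

end Pool.Agent.Lib.MP_89bcae_ag
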