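import Mathlib
import Pool.Agent.Lib.MP_89bcae_ag.Gph.Shift

/-!
# The number of the families of type D modulo `p ^ 2`
-/

open Polynomial

open scoped Classical

namespace Pool.Agent.Lib.MP_89bcae_ag

section

variable {ι : Type} {n : ℕ} {K : Type}

/-- Exactly one double root, at `z`, of `α_a - α_b`: the conditions over a field. -/
structure GenD [CommRing K] (a b : ι) (u : ι × Fin (n + 1) → K) (z : K) : Prop where
  lead : ∀ a b, a ≠ b → u (a, Fin.last n) ≠ u (b, Fin.last n)
  sep : ∀ c d, c ≠ d → ({c, d} : Set ι) ≠ {a, b} → (gdif u c d).Separable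
  cop : ∀ a' b' c d, a' ≠ b' → c ≠ d → ({a', b'} : Set ι) ≠ {c, d} →
    IsCoprime (gdif u a' b') (gdif u c d)
  dbl : ∃ g : K[X], gdif u a b = (X - C z) ^ 2 * g ∧ g.eval z ≠ 0 ∧ g.Separable

theorem cd1_coeff_h40 [Field K] (f : K[X]) (n : ℕ) (hf : f.natDegree ≤ n) (z : K) :
    (f.comp (X + C z)).coeff n = f.coeff n := by
  rw [← Polynomial.taylor_apply]
  rcases hf.lt_or_eq with h | h
  · rw [Polynomial.coeff_eq_zero_of_natDegree_lt h, Polynomial.coeff_eq_zero_of_natDegree_lt]
    rw [Polynomial.natDegree_taylor]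
    exact h
  · rw [← h, Polynomial.coeff_taylor_natDegree]
    rfl

theorem cd1_lead_h40 [Field K] (u : ι × Fin (n + 1) → K) (z : K) (a : ι) :
    shift z u (a, Fin.last n) = u (a, Fin.last n) := by
  have h1 : shift z u (a, Fin.last n) = ((gpol u a).comp (X + C z)).coeff n := rfl
  rw [h1, cd1_coeff_h40 _ n (gpol_natDegree_le u a)]
  have h2 := gpol_coeff u a (Fin.last n)
  rw [Fin.val_last] at h2
  exact h2

/-- (`gdif_shift`; the leading coefficients do not change; `(X - C z).comp (X + C z) = X`.) -/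
theorem GenD.shift_iff [Field K] (a b : ι) (u : ι × Fin (n + 1) → K) (z : K) :
    GenD a b u z ↔ GenD a b (shift z u) 0 := by
  constructor
  · intro h
    refine ⟨?_, ?_, ?_, ?_⟩
    · intro c d hcd
      rw [cd1_lead_h40, cd1_lead_h40]
      exact h.lead c d hcd
    · intro c d hcd hne
      rw [gdif_shift, separable_comp_iff]
      exact h.sep c d hcd hne
    · intro a' b' c d h1 h2 h3
      rw [gdif_shift, gdif_shift, isCoprime_comp_iff]
      exact h.cop a' b' c d h1 h2 h3
    · obtain ⟨g, hg, hg0, hgs⟩ := h.dbl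
      refine ⟨g.comp (X + C z), ?_, ?_, ?_⟩
      · rw [gdif_shift, hg, mul_comp, pow_comp, sub_comp, X_comp, C_comp, map_zero, sub_zero,
          add_sub_cancel_right]
      · rw [eval_comp, eval_add, eval_X, eval_C, zero_add]
        exact hg0
      · rw [separable_comp_iff]
        exact hgs
  · intro h
    refine ⟨?_, ?_, ?_, ?_⟩
    · intro c d hcd
      have h1 := h.lead c d hcd
      rw [cd1_lead_h40, cd1_lead_h40] at h1
      exact h1
    · intro c d hcd hne
      have h1 := h.sep c d hcd hne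
      rw [gdif_shift, separable_comp_iff] at h1
      exact h1
    · intro a' b' c d h1 h2 h3
      have h4 := h.cop a' b' c d h1 h2 h3
      rw [gdif_shift, gdif_shift, isCoprime_comp_iff] at h4
      exact h4
    · obtain ⟨g, hg, hg0, hgs⟩ := h.dbl
      rw [gdif_shift, map_zero, sub_zero] at hg
      have h1 : (X + C z : K[X]).comp (X + C (-z)) = X := by
        rw [add_comp, X_comp, C_comp, map_neg, neg_add_cancel_right]
      refine ⟨g.comp (X + C (-z)), ?_, ?_, ?_⟩
      · have h2 := congrArg (fun f : K[X] => f.comp (X + C (-z))) hg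
        simp only [mul_comp, pow_comp, X_comp] at h2
        rw [comp_assoc, h1, comp_X] at h2
        rw [h2, map_neg, sub_eq_add_neg]
      · rw [eval_comp, eval_add, eval_X, eval_C, add_neg_cancel]
        exact hg0
      · rw [separable_comp_iff]
        exact hgs

/-- (If `z' ≠ z`, then `(X - z') ^ 2` divides `g`, which is separable.) -/
theorem GenD.unique [Field K] {a b : ι} {u : ι × Fin (n + 1) → K} {z z' : K} (h : GenD a b u z)
    (h' : GenD a b u z') : z = z' := by
  by_contra hne
  obtain ⟨g, hg, hg0, hgs⟩ := h.dbl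
  obtain ⟨g', hg', -, -⟩ := h'.dbl
  have h1 : IsCoprime ((X - C z') ^ 2 : K[X]) ((X - C z) ^ 2) :=
    (isCoprime_X_sub_C_of_isUnit_sub (sub_ne_zero.2 (Ne.symm hne)).isUnit).pow
  have h2 : ((X - C z') ^ 2 : K[X]) ∣ (X - C z) ^ 2 * g := by
    rw [← hg, hg']
    exact dvd_mul_right _ _
  have h3 := h1.dvd_of_dvd_mul_left h2
  have h4 : (X - C z' : K[X]) * (X - C z') ∣ g := by
    rw [← sq]
    exact h3
  exact not_isUnit_X_sub_C z' (hgs.squarefree _ h4)

end

section

variable {ι : Type} {n : ℕ}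

/-- The coefficients of degree `0` and `1` of `α_b` are replaced by those of `α_a`. -/
noncomputable def colD (a b : ι) : ι × Fin (n + 1) → ι × Fin (n + 1) :=
  fun c => if c = (b, 0) then (a, 0) else if c = (b, 1) then (a, 1) else c

lemma isGeneric_imp_h13 {κ : Type} {P : Prop} {C : ∀ (K : Type) [Field K], (κ → K) → Prop}
    (h : P → IsGeneric C) :
    IsGeneric (fun (K : Type) [Field K] (u : κ → K) => P → C K u) := by
  by_cases hP : P
  · exact (h hP).mono fun K _ u hu _ => hu
  · exact IsGeneric.true.mono fun K _ u _ hP' => absurd hP' hP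

lemma colD_of_two_le_h13 (a b c : ι) (j : Fin (n + 1)) (hj : 2 ≤ (j : ℕ)) :
    colD a b (c, j) = (c, j) := by
  unfold colD
  rw [if_neg, if_neg]
  · intro h
    have h1 : j = 1 := congrArg Prod.snd h
    have h2 : (j : ℕ) = 1 % (n + 1) := by rw [h1, Fin.val_one']
    have h3 := Nat.mod_le 1 (n + 1)
    omega
  · intro h
    have h1 : j = 0 := congrArg Prod.snd h
    have h2 : (j : ℕ) = 0 := by rw [h1, Fin.val_zero]
    omega

lemma colD_last_h13 (hn : 2 ≤ n) (a b c : ι) : colD a b (c, Fin.last n) = (c, Fin.last n) :=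
  colD_of_two_le_h13 a b c _ (by rw [Fin.val_last]; exact hn)

lemma colD_left_h13 {a b : ι} (hab : a ≠ b) (j : Fin (n + 1)) : colD a b (a, j) = (a, j) := by
  unfold colD
  rw [if_neg, if_neg]
  · intro h
    exact hab (congrArg Prod.fst h)
  · intro h
    exact hab (congrArg Prod.fst h)

lemma colD_zero_h13 (a b : ι) : colD a b (b, (0 : Fin (n + 1))) = (a, 0) := by
  unfold colD
  rw [if_pos rfl]

lemma colD_one_h13 (hn : 2 ≤ n) (a b : ι) : colD a b (b, (1 : Fin (n + 1))) = (a, 1) := by
  unfold colD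
  rw [if_neg, if_pos rfl]
  intro h
  have h1 : (1 : Fin (n + 1)) = 0 := congrArg Prod.snd h
  have h2 : ((1 : Fin (n + 1)) : ℕ) = 0 := by rw [h1, Fin.val_zero]
  rw [Fin.val_one', Nat.mod_eq_of_lt (by omega)] at h2
  omega

/-- The difference of two of the generic polynomials, after the collapse `s`. -/
noncomputable def genF_h13 (s : ι × Fin (n + 1) → ι × Fin (n + 1)) (c d : ι) :
    (MvPolynomial (ι × Fin (n + 1)) ℤ)[X] :=
  gdif (fun x => MvPolynomial.X (s x)) c d

lemma spec_genF_h13 {K : Type} [Field K] (s : ι × Fin (n + 1) → ι × Fin (n + 1))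
    (u : ι × Fin (n + 1) → K) (c d : ι) : spec u (genF_h13 s c d) = gdif (u ∘ s) c d := by
  unfold spec genF_h13
  rw [gdif_map]
  congr 1
  funext x
  simp

lemma genF_natDegree_h13 (s : ι × Fin (n + 1) → ι × Fin (n + 1)) (c d : ι) :
    (genF_h13 s c d).natDegree ≤ n := gdif_natDegree_le _ _ _

lemma gdif_coeff_last_h13 {R : Type*} [CommRing R] (v : ι × Fin (n + 1) → R) (a b : ι) :
    (gdif v a b).coeff n = v (a, Fin.last n) - v (b, Fin.last n) := by
  have h := gdif_coeff v a b (Fin.last n)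
  rwa [Fin.val_last] at h

lemma gpol_eq_of_coeff_h13 {R : Type*} [CommRing R] (v : ι × Fin (n + 1) → R) (i : ι) (p : R[X])
    (hp : p.natDegree ≤ n) (h : ∀ j : Fin (n + 1), p.coeff j = v (i, j)) : gpol v i = p := by
  ext k
  by_cases hk : k < n + 1
  · have h1 := gpol_coeff v i ⟨k, hk⟩
    have h2 := h ⟨k, hk⟩
    simp only at h1 h2
    rw [h1, h2]
  · rw [coeff_eq_zero_of_natDegree_lt (lt_of_le_of_lt (gpol_natDegree_le v i) (by omega)),
      coeff_eq_zero_of_natDegree_lt (lt_of_le_of_lt hp (by omega))]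

/-- The family `lam_y X ^ n`, with `1` added at the index `x`. -/
noncomputable def ptx_h13 (lam : ι → ℚ) (x : ι) : ι × Fin (n + 1) → ℚ :=
  fun y => if y.2 = Fin.last n then lam y.1 else if y.1 = x ∧ y.2 = 0 then 1 else 0

lemma ptx_comp_h13 (hn : 2 ≤ n) (lam : ι → ℚ) {a b x : ι} (hxa : x ≠ a) (hxb : x ≠ b) :
    (ptx_h13 lam x : ι × Fin (n + 1) → ℚ) ∘ colD a b = ptx_h13 lam x := by
  have h0 : (0 : Fin (n + 1)) ≠ Fin.last n := by
    intro h
    have h2 := congrArg Fin.val h
    rw [Fin.val_last, Fin.val_zero] at h2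
    omega
  have h1 : (1 : Fin (n + 1)) ≠ Fin.last n := by
    intro h
    have h2 := congrArg Fin.val h
    rw [Fin.val_last, Fin.val_one', Nat.mod_eq_of_lt (by omega)] at h2
    omega
  have key : ∀ (y : ι) (j : Fin (n + 1)), x ≠ y → j ≠ Fin.last n →
      (ptx_h13 lam x : ι × Fin (n + 1) → ℚ) (y, j) = 0 := by
    intro y j hy hj
    unfold ptx_h13
    rw [if_neg hj, if_neg]
    rintro ⟨h, _⟩
    exact hy h.symm
  funext ⟨y, j⟩
  rw [Function.comp_apply]
  unfold colD
  split_ifs with h2 h3
  · rw [h2, key a 0 hxa h0, key b 0 hxb h0]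
  · rw [h3, key a 1 hxa h1, key b 1 hxb h1]
  · rfl

lemma gpol_ptx_h13 (hn : 2 ≤ n) (lam : ι → ℚ) (x y : ι) :
    gpol (ptx_h13 lam x : ι × Fin (n + 1) → ℚ) y =
      C (lam y) * X ^ n + C (if y = x then 1 else 0) := by
  apply gpol_eq_of_coeff_h13
  · refine (natDegree_add_le _ _).trans (max_le (natDegree_C_mul_X_pow_le _ _) ?_)
    rw [natDegree_C]
    omega
  · intro j
    rw [coeff_add, coeff_C_mul_X_pow, coeff_C]
    unfold ptx_h13
    simp only
    by_cases hj : j = Fin.last n
    · have h1 : (j : ℕ) = n := by rw [hj, Fin.val_last]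
      rw [if_pos h1, if_pos hj, if_neg (by omega), add_zero]
    · have h1 : (j : ℕ) ≠ n := by
        intro h
        exact hj (Fin.ext (by rw [h, Fin.val_last]))
      rw [if_neg h1, if_neg hj, zero_add]
      by_cases h0 : (j : ℕ) = 0
      · have h2 : j = 0 := Fin.ext (by rw [h0, Fin.val_zero])
        rw [if_pos h0]
        by_cases hy : y = x
        · rw [if_pos hy, if_pos ⟨hy, h2⟩]
        · rw [if_neg hy, if_neg fun h => hy h.1]
      · rw [if_neg h0, if_neg]
        rintro ⟨_, h2⟩
        exact h0 (by rw [h2, Fin.val_zero])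

lemma gdif_ptx_h13 (hn : 2 ≤ n) (lam : ι → ℚ) (x c d : ι) :
    gdif (ptx_h13 lam x : ι × Fin (n + 1) → ℚ) c d =
      C (lam c - lam d) * X ^ n + C ((if c = x then 1 else 0) - (if d = x then 1 else 0)) := by
  unfold gdif
  rw [gpol_ptx_h13 hn, gpol_ptx_h13 hn, C_sub, C_sub]
  ring

lemma isCoprime_bin_h13 {A B A' B' : ℚ} (m : ℕ) (h : A * B' - A' * B ≠ 0) :
    IsCoprime (C A * X ^ m + C B) (C A' * X ^ m + C B') := by
  refine ⟨C (-A' / (A * B' - A' * B)), C (A / (A * B' - A' * B)), ?_⟩
  have h1 : C (-A' / (A * B' - A' * B)) * (C A * X ^ m + C B) +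
      C (A / (A * B' - A' * B)) * (C A' * X ^ m + C B') =
      C (-A' / (A * B' - A' * B) * A + A / (A * B' - A' * B) * A') * X ^ m +
        C (-A' / (A * B' - A' * B) * B + A / (A * B' - A' * B) * B') := by
    simp only [C_add, C_mul]
    ring
  have h2 : -A' / (A * B' - A' * B) * A + A / (A * B' - A' * B) * A' = 0 := by ring
  have h3 : -A' / (A * B' - A' * B) * B + A / (A * B' - A' * B) * B' = 1 := by
    field_simp
    ring
  rw [h1, h2, h3, C_0, zero_mul, zero_add, C_1]

lemma separable_bin_h13 {A B : ℚ} (m : ℕ) (hA : A ≠ 0) (hB : B ≠ 0) (hAB : m = 0 → A + B ≠ 0) :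
    (C A * X ^ m + C B).Separable := by
  rcases Nat.eq_zero_or_pos m with hm | hm
  · subst hm
    rw [pow_zero, mul_one, ← C_add]
    exact (separable_C _).2 (isUnit_iff_ne_zero.2 (hAB rfl))
  · have h1 : (C A * X ^ m + C B : ℚ[X]) = C A * (X ^ m - C (-B / A)) := by
      rw [mul_sub, ← C_mul]
      have : A * (-B / A) = -B := by field_simp
      rw [this, C_neg, sub_neg_eq_add]
    rw [h1]
    exact Separable.unit_mul (isUnit_C.2 (isUnit_iff_ne_zero.2 hA))
      (separable_X_pow_sub_C _ (by exact_mod_cast hm.ne') (div_ne_zero (neg_ne_zero.2 hB) hA))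

lemma det_h13 (lam : ι → ℚ) (hlam : Function.Injective lam) {a b c d x : ι} (hab : a ≠ b)
    (hcd : c ≠ d) (hne : ({a, b} : Set ι) ≠ {c, d}) (hx : (x = a ∨ x = b) ∨ (x = c ∨ x = d)) :
    (lam a - lam b) * ((if c = x then 1 else 0) - (if d = x then 1 else 0)) -
      (lam c - lam d) * ((if a = x then 1 else 0) - (if b = x then 1 else 0)) ≠ 0 := by
  have inj : ∀ i j, i ≠ j → lam i - lam j ≠ 0 := fun i j h => sub_ne_zero.2 fun h' => h (hlam h')
  have n1 : a = c → b ≠ d := fun h h' => hne (by rw [h, h'])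
  have n2 : a = d → b ≠ c := fun h h' => hne (by rw [h, h', Set.pair_comm])
  have hab1 := inj a b hab
  have hcd1 := inj c d hcd
  by_cases ha : a = x
  · have hb : b ≠ x := fun h => hab (ha.trans h.symm)
    by_cases hc : c = x
    · have hd : d ≠ x := fun h => hcd (hc.trans h.symm)
      have h1 := inj b d (n1 (ha.trans hc.symm))
      rw [if_pos ha, if_neg hb, if_pos hc, if_neg hd, ha, hc]
      intro h
      apply h1
      linarith
    · by_cases hd : d = x
      · have h1 := inj b c (n2 (ha.trans hd.symm))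
        rw [if_pos ha, if_neg hb, if_neg hc, if_pos hd, ha, hd]
        intro h
        apply h1
        linarith
      · rw [if_pos ha, if_neg hb, if_neg hc, if_neg hd]
        intro h
        apply hcd1
        linarith
  · by_cases hb : b = x
    · by_cases hc : c = x
      · have hd : d ≠ x := fun h => hcd (hc.trans h.symm)
        have h1 := inj a d fun h => n2 h (hb.trans hc.symm)
        rw [if_neg ha, if_pos hb, if_pos hc, if_neg hd, hb, hc]
        intro h
        apply h1
        linarith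
      · by_cases hd : d = x
        · have h1 := inj a c fun h => n1 h (hb.trans hd.symm)
          rw [if_neg ha, if_pos hb, if_neg hc, if_pos hd, hb, hd]
          intro h
          apply h1
          linarith
        · rw [if_neg ha, if_pos hb, if_neg hc, if_neg hd]
          intro h
          apply hcd1
          linarith
    · by_cases hc : c = x
      · have hd : d ≠ x := fun h => hcd (hc.trans h.symm)
        rw [if_neg ha, if_neg hb, if_pos hc, if_neg hd]
        intro h
        apply hab1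
        linarith
      · by_cases hd : d = x
        · rw [if_neg ha, if_neg hb, if_neg hc, if_pos hd]
          intro h
          apply hab1
          linarith
        · exfalso
          rcases hx with (h | h) | (h | h)
          · exact ha h.symm
          · exact hb h.symm
          · exact hc h.symm
          · exact hd h.symm

/-- The quotient of the difference of the generic `α_a` and `α_b` by `X ^ 2`. -/
noncomputable def genG_h13 (a b : ι) : (MvPolynomial (ι × Fin (n + 1)) ℤ)[X] :=
  (genF_h13 (colD a b) a b).divX.divX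

lemma genF_eq_h13 (hn : 2 ≤ n) {a b : ι} (hab : a ≠ b) :
    genF_h13 (n := n) (colD a b) a b = X ^ 2 * genG_h13 a b := by
  have h0 : (genF_h13 (n := n) (colD a b) a b).coeff 0 = 0 := by
    have h := gdif_coeff (fun x : ι × Fin (n + 1) => MvPolynomial.X (R := ℤ) (colD a b x)) a b 0
    rw [Fin.val_zero, colD_left_h13 hab, colD_zero_h13, sub_self] at h
    exact h
  have h1 : (genF_h13 (n := n) (colD a b) a b).coeff 1 = 0 := by
    have h := gdif_coeff (fun x : ι × Fin (n + 1) => MvPolynomial.X (R := ℤ) (colD a b x)) a b 1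
    rw [Fin.val_one', Nat.mod_eq_of_lt (by omega), colD_left_h13 hab, colD_one_h13 hn, sub_self] at h
    exact h
  have e1 := divX_mul_X_add (genF_h13 (n := n) (colD a b) a b)
  have e2 := divX_mul_X_add (genF_h13 (n := n) (colD a b) a b).divX
  rw [h0, C_0, add_zero] at e1
  rw [coeff_divX, zero_add, h1, C_0, add_zero] at e2
  unfold genG_h13
  calc genF_h13 (n := n) (colD a b) a b = (genF_h13 (n := n) (colD a b) a b).divX * X := e1.symm
    _ = (genF_h13 (n := n) (colD a b) a b).divX.divX * X * X := by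
        rw [show (genF_h13 (n := n) (colD a b) a b).divX.divX * X =
          (genF_h13 (n := n) (colD a b) a b).divX from e2]
    _ = _ := by ring

lemma genG_natDegree_h13 (a b : ι) : (genG_h13 (n := n) a b).natDegree ≤ n - 2 := by
  unfold genG_h13
  rw [natDegree_divX_eq_natDegree_tsub_one, natDegree_divX_eq_natDegree_tsub_one]
  have := genF_natDegree_h13 (n := n) (colD a b) a b
  omega

lemma genG_coeff_h13 (a b : ι) (k : ℕ) :
    (genG_h13 (n := n) a b).coeff k = (genF_h13 (n := n) (colD a b) a b).coeff (k + 2) := by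
  unfold genG_h13
  rw [coeff_divX, coeff_divX]

/-- The family `α_a = X ^ n + X ^ 2`, the other polynomials being zero. -/
noncomputable def pta_h13 (a : ι) : ι × Fin (n + 1) → ℚ :=
  fun y => if y.1 = a then (if (y.2 : ℕ) = n then 1 else 0) + (if (y.2 : ℕ) = 2 then 1 else 0) else 0

lemma spec_coeff_h13 {κ : Type} {K : Type} [Field K] (u : κ → K) (f : (MvPolynomial κ ℤ)[X])
    (k : ℕ) : (spec u f).coeff k = MvPolynomial.aeval u (f.coeff k) := by
  unfold spec
  rw [coeff_map]
  rfl

lemma spec_genG_h13 (hn : 2 ≤ n) {a b : ι} (hab : a ≠ b) :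
    spec (pta_h13 a) (genG_h13 (n := n) a b) = C 1 * X ^ (n - 2) + C 1 := by
  ext k
  rw [spec_coeff_h13, genG_coeff_h13, ← spec_coeff_h13, spec_genF_h13, coeff_add, coeff_C_mul_X_pow,
    coeff_C]
  by_cases hk : k + 2 < n + 1
  · have h := gdif_coeff ((pta_h13 a : ι × Fin (n + 1) → ℚ) ∘ colD a b) a b ⟨k + 2, hk⟩
    simp only [Function.comp_apply] at h
    rw [colD_left_h13 hab, colD_of_two_le_h13 a b b ⟨k + 2, hk⟩ (by simp)] at h
    rw [h]
    unfold pta_h13
    simp only
    rw [if_neg hab.symm, if_pos trivial, sub_zero]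
    congr 1
    · by_cases h1 : k + 2 = n
      · rw [if_pos h1, if_pos (by omega)]
      · rw [if_neg h1, if_neg (by omega)]
    · by_cases h1 : k = 0
      · rw [if_pos (by omega), if_pos h1]
      · rw [if_neg (by omega), if_neg h1]
  · rw [coeff_eq_zero_of_natDegree_lt (lt_of_le_of_lt (gdif_natDegree_le _ _ _) (by omega)),
      if_neg (by omega), if_neg (by omega), add_zero]

/-- The generic condition. By `IsGeneric.all`, `IsGeneric.and`: (lead) the polynomial
`X_(a,n) - X_(b,n)`. For the other ones, the polynomials are `gdif (MvPolynomial.X ∘ s) a b` over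
`MvPolynomial κ ℤ` (`gdif_map`: their values at `u` are the `gdif (u ∘ s) a b`), and it is enough to
find for every condition one rational point `u₀` with `u₀ ∘ s = u₀` where it holds. (cop): there is
`x ∉ {a, b}` in one of the two pairs: take `α_y = λ_y X ^ n` for `y ≠ x` and `α_x = λ_x X ^ n + 1`, with
an injective `λ : ι → ℚ`; two differences `A X ^ n + B` and `A' X ^ n + B'` with `A ≠ 0` and
`A B' ≠ A' B` are coprime, and `A B' - A' B = ± (λ - λ')` for two different indices. (sep): the same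
family, `x ∈ {c, d}`, `x ∉ {a, b}`: `A X ^ n ± 1` is separable. (dbl): `α_a = X ^ n + X ^ 2`, `α_b = 0`:
`g = X ^ (n - 2) + 1` (`g = 2` if `n = 2`), `g(0) ≠ 0`; use `divX` twice for the quotient by `X ^ 2`. -/
theorem isGeneric_genD [Fintype ι] (hn : 2 ≤ n) {a b : ι} (hab : a ≠ b) :
    IsGeneric (fun (K : Type) [Field K] (u : ι × Fin (n + 1) → K) =>
      GenD a b (u ∘ colD a b) 0) := by
  obtain ⟨lam, hlam⟩ : ∃ lam : ι → ℚ, Function.Injective lam :=
    ⟨fun i => ((Fintype.equivFin ι i : ℕ) : ℚ), fun i j h => by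
      have h0 : ((Fintype.equivFin ι i : ℕ) : ℚ) = ((Fintype.equivFin ι j : ℕ) : ℚ) := h
      have h1 : (Fintype.equivFin ι i : ℕ) = (Fintype.equivFin ι j : ℕ) := by exact_mod_cast h0
      exact (Fintype.equivFin ι).injective (Fin.ext h1)⟩
  -- the leading coefficients
  have G1 : IsGeneric (fun (K : Type) [Field K] (u : ι × Fin (n + 1) → K) =>
      ∀ t : ι × ι, t.1 ≠ t.2 → (u ∘ colD a b) (t.1, Fin.last n) ≠ (u ∘ colD a b) (t.2, Fin.last n)) := by
    apply IsGeneric.all
    intro t
    apply isGeneric_imp_h13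
    intro ht
    have h := isGeneric_ne (κ := ι × Fin (n + 1))
      (MvPolynomial.X (t.1, Fin.last n) - MvPolynomial.X (t.2, Fin.last n))
      ⟨ptx_h13 lam a, by
        rw [map_sub, MvPolynomial.aeval_X, MvPolynomial.aeval_X]
        unfold ptx_h13
        simp only [if_true]
        exact sub_ne_zero.2 fun h => ht (hlam h)⟩
    refine h.mono fun K _ u hu => ?_
    rw [map_sub, MvPolynomial.aeval_X, MvPolynomial.aeval_X] at hu
    rw [Function.comp_apply, Function.comp_apply, colD_last_h13 hn, colD_last_h13 hn]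
    exact sub_ne_zero.1 hu
  -- the value of the leading coefficient at the points
  have hlead : ∀ x c d : ι, x ≠ a → x ≠ b → c ≠ d →
      (spec (ptx_h13 lam x) (genF_h13 (n := n) (colD a b) c d)).coeff n ≠ 0 := by
    intro x c d hxa hxb hcd
    rw [spec_genF_h13, ptx_comp_h13 hn lam hxa hxb, gdif_ptx_h13 hn, coeff_add, coeff_C_mul_X_pow,
      if_pos rfl, coeff_C, if_neg (by omega), add_zero]
    exact sub_ne_zero.2 fun h => hcd (hlam h)
  have hmem : ∀ c d : ι, c ≠ d → ({c, d} : Set ι) ≠ {a, b} → ∃ x, (x = c ∨ x = d) ∧ x ≠ a ∧ x ≠ b := by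
    intro c d hcd h
    by_contra hc
    push Not at hc
    apply h
    have h1 := hc c (Or.inl rfl)
    have h2 := hc d (Or.inr rfl)
    by_cases hca : c = a
    · have hda : d ≠ a := fun h3 => hcd (hca.trans h3.symm)
      rw [hca, h2 hda]
    · have hcb := h1 hca
      by_cases hda : d = a
      · rw [hcb, hda, Set.pair_comm]
      · exact absurd (hcb.trans (h2 hda).symm) hcd
  -- separability
  have G2 : IsGeneric (fun (K : Type) [Field K] (u : ι × Fin (n + 1) → K) =>
      ∀ t : ι × ι, (t.1 ≠ t.2 ∧ ({t.1, t.2} : Set ι) ≠ {a, b}) →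
        (gdif (u ∘ colD a b) t.1 t.2).Separable) := by
    apply IsGeneric.all
    rintro ⟨c, d⟩
    apply isGeneric_imp_h13
    rintro ⟨hcd, hcd'⟩
    simp only at hcd hcd' ⊢
    obtain ⟨x, hx, hxa, hxb⟩ := hmem c d hcd hcd'
    have h := isGeneric_separable (genF_h13 (n := n) (colD a b) c d) n (genF_natDegree_h13 _ _ _)
      (ptx_h13 lam x) (hlead x c d hxa hxb hcd) (by
        rw [spec_genF_h13, ptx_comp_h13 hn lam hxa hxb, gdif_ptx_h13 hn]
        have h1 : lam c - lam d ≠ 0 := sub_ne_zero.2 fun h => hcd (hlam h)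
        refine separable_bin_h13 n h1 ?_ (fun h => absurd h (by omega))
        rcases hx with h2 | h2
        · have h3 : d ≠ x := fun h => hcd (h2.symm.trans h.symm)
          rw [if_pos h2.symm, if_neg h3]
          norm_num
        · have h3 : c ≠ x := fun h => hcd (h.trans h2)
          rw [if_neg h3, if_pos h2.symm]
          norm_num)
    refine h.mono fun K _ u hu => ?_
    have := hu.2
    rwa [spec_genF_h13] at this
  -- coprimality
  have G3 : IsGeneric (fun (K : Type) [Field K] (u : ι × Fin (n + 1) → K) =>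
      ∀ t : (ι × ι) × (ι × ι), (t.1.1 ≠ t.1.2 ∧ t.2.1 ≠ t.2.2 ∧
        ({t.1.1, t.1.2} : Set ι) ≠ {t.2.1, t.2.2}) →
        IsCoprime (gdif (u ∘ colD a b) t.1.1 t.1.2) (gdif (u ∘ colD a b) t.2.1 t.2.2)) := by
    apply IsGeneric.all
    rintro ⟨⟨a', b'⟩, ⟨c, d⟩⟩
    apply isGeneric_imp_h13
    rintro ⟨hab', hcd, hne⟩
    simp only at hab' hcd hne ⊢
    obtain ⟨x, hx, hxa, hxb⟩ : ∃ x, ((x = a' ∨ x = b') ∨ (x = c ∨ x = d)) ∧ x ≠ a ∧ x ≠ b := by
      by_cases h1 : ({a', b'} : Set ι) = {a, b}
      · obtain ⟨x, hx, h2⟩ := hmem c d hcd fun h => hne (h1.trans h.symm)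
        exact ⟨x, Or.inr hx, h2⟩
      · obtain ⟨x, hx, h2⟩ := hmem a' b' hab' h1
        exact ⟨x, Or.inl hx, h2⟩
    have h := isGeneric_isCoprime (genF_h13 (n := n) (colD a b) a' b')
      (genF_h13 (n := n) (colD a b) c d) n n (genF_natDegree_h13 _ _ _) (genF_natDegree_h13 _ _ _)
      (ptx_h13 lam x) (hlead x a' b' hxa hxb hab') (by
        rw [spec_genF_h13, spec_genF_h13, ptx_comp_h13 hn lam hxa hxb, gdif_ptx_h13 hn,
          gdif_ptx_h13 hn]
        apply isCoprime_bin_h13
        exact det_h13 lam hlam hab' hcd hne hx)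
    refine h.mono fun K _ u hu => ?_
    have := hu.2
    rwa [spec_genF_h13, spec_genF_h13] at this
  -- the double root
  have G4 : IsGeneric (fun (K : Type) [Field K] (u : ι × Fin (n + 1) → K) =>
      (spec u (genG_h13 (n := n) a b)).Separable) := by
    have h := isGeneric_separable (genG_h13 (n := n) a b) (n - 2) (genG_natDegree_h13 _ _)
      (pta_h13 a) (by
        rw [spec_genG_h13 hn hab, coeff_add, coeff_C_mul_X_pow, if_pos rfl, coeff_C]
        split_ifs <;> norm_num) (by
        rw [spec_genG_h13 hn hab]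
        exact separable_bin_h13 _ one_ne_zero one_ne_zero (fun _ => by norm_num))
    exact h.mono fun K _ u hu => hu.2
  have G5 : IsGeneric (fun (K : Type) [Field K] (u : ι × Fin (n + 1) → K) =>
      (spec u (genG_h13 (n := n) a b)).coeff 0 ≠ 0) := by
    have h := isGeneric_ne ((genG_h13 (n := n) a b).coeff 0) ⟨pta_h13 a, by
      rw [← spec_coeff_h13, spec_genG_h13 hn hab, coeff_add, coeff_C_mul_X_pow, coeff_C, if_pos rfl]
      split_ifs <;> norm_num⟩
    refine h.mono fun K _ u hu => ?_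
    rw [spec_coeff_h13]
    exact hu
  refine (((G1.and G2).and G3).and (G4.and G5)).mono fun K _ u hu => ?_
  obtain ⟨⟨⟨h1, h2⟩, h3⟩, h4, h5⟩ := hu
  refine ⟨fun c d hcd => h1 (c, d) hcd, fun c d hcd hcd' => h2 (c, d) ⟨hcd, hcd'⟩,
    fun a' b' c d hab' hcd hne => h3 ((a', b'), (c, d)) ⟨hab', hcd, hne⟩,
    ⟨spec u (genG_h13 (n := n) a b), ?_, ?_, h4⟩⟩
  · rw [← spec_genF_h13, genF_eq_h13 hn hab, C_0, sub_zero]
    unfold spec
    rw [Polynomial.map_mul, Polynomial.map_pow, map_X]
  · rwa [← coeff_zero_eq_eval_zero]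

/-- The families of type D modulo `p ^ 2`. -/
def TypeDz (p : ℕ) (a b : ι) (w : ι × Fin (n + 1) → ZMod (p ^ 2)) : Prop :=
  ∃ z : ZMod (p ^ 2),
    GenD a b (redp p w) (ZMod.castHom (dvd_pow_self p two_ne_zero) (ZMod p) z) ∧
      (gdif w a b).eval z ≠ 0

theorem redp_update_h21 {p : ℕ} {κ : Type} [DecidableEq κ] (w : κ → ZMod (p ^ 2)) (c : κ) :
    redp p (Function.update w c (w c + (p : ZMod (p ^ 2)))) = redp p w := by
  funext d
  unfold redp
  by_cases h : d = c
  · subst h
    rw [Function.update_self, map_add, map_natCast, ZMod.natCast_self, add_zero]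
  · rw [Function.update_of_ne h]

theorem gdif_update_h21 {R : Type} [CommRing R] (w : ι × Fin (n + 1) → R) {a b : ι} (hab : a ≠ b)
    (y : R) : gdif (Function.update w (a, 0) (w (a, 0) + y)) a b = gdif w a b + C y := by
  have ha : gpol (Function.update w (a, 0) (w (a, 0) + y)) a = gpol w a + C y := by
    unfold gpol
    rw [← Finset.add_sum_erase _ _ (Finset.mem_univ (0 : Fin (n + 1))),
      ← Finset.add_sum_erase (s := Finset.univ) (a := (0 : Fin (n + 1)))
        (f := fun j : Fin (n + 1) => C (w (a, j)) * X ^ (j : ℕ)) (h := Finset.mem_univ _)]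
    have h1 : ∑ x ∈ Finset.univ.erase (0 : Fin (n + 1)),
        C (Function.update w (a, 0) (w (a, 0) + y) (a, x)) * X ^ (x : ℕ) =
        ∑ x ∈ Finset.univ.erase (0 : Fin (n + 1)), C (w (a, x)) * X ^ (x : ℕ) := by
      refine Finset.sum_congr rfl fun x hx => ?_
      rw [Function.update_of_ne]
      intro h
      exact (Finset.mem_erase.1 hx).1 (congrArg Prod.snd h)
    rw [h1, Function.update_self, Fin.val_zero, pow_zero, mul_one, mul_one, C_add]
    ring
  have hb : gpol (Function.update w (a, 0) (w (a, 0) + y)) b = gpol w b := by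
    unfold gpol
    refine Finset.sum_congr rfl fun x _ => ?_
    rw [Function.update_of_ne]
    intro h
    exact hab (congrArg Prod.fst h).symm
  unfold gdif
  rw [ha, hb]
  ring

theorem colD_colD_h21 {a b : ι} (hab : a ≠ b) (c : ι × Fin (n + 1)) :
    colD a b (colD a b c) = colD a b c := by
  have h : ∀ j : Fin (n + 1), colD a b (a, j) = (a, j) := by
    intro j
    unfold colD
    rw [if_neg (fun h => hab (congrArg Prod.fst h)), if_neg (fun h => hab (congrArg Prod.fst h))]
  by_cases h1 : c = (b, 0)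
  · have : colD a b c = (a, 0) := by
      unfold colD
      rw [if_pos h1]
    rw [this, h]
  · by_cases h2 : c = (b, 1)
    · have : colD a b c = (a, 1) := by
        unfold colD
        rw [if_neg h1, if_pos h2]
      rw [this, h]
    · have : colD a b c = c := by
        unfold colD
        rw [if_neg h1, if_neg h2]
      rw [this, this]

/-- If `w` lifts a good family modulo `p` but is not of type D, then `w + p` at the constant
coefficient of `α_a` is: take any lift `z`; `(gdif w a b).eval z = 0`, and it becomes `p ≠ 0`. -/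
theorem TypeDz.flip {p : ℕ} (hp : p.Prime) {a b : ι} (hab : a ≠ b)
    (w : ι × Fin (n + 1) → ZMod (p ^ 2)) (h : ∃ z, GenD a b (redp p w) z)
    (hw : ¬ TypeDz p a b w) :
    TypeDz p a b (Function.update w (a, 0) (w (a, 0) + (p : ZMod (p ^ 2)))) := by
  obtain ⟨z, hz⟩ := h
  obtain ⟨y, rfl⟩ := ZMod.castHom_surjective (dvd_pow_self p two_ne_zero) z
  have h0 : (gdif w a b).eval y = 0 := by
    by_contra hne
    exact hw ⟨y, hz, hne⟩
  refine ⟨y, ?_, ?_⟩
  · rw [redp_update_h21]
    exact hz
  · rw [gdif_update_h21 w hab, eval_add, eval_C, h0, zero_add]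
    intro h1
    have h2 : p ^ 2 ∣ p := (ZMod.natCast_eq_zero_iff p (p ^ 2)).1 h1
    have h3 := Nat.le_of_dvd hp.pos h2
    have h4 := hp.two_le
    nlinarith

/-- From the residues modulo `p ^ 2` to the integers. -/
theorem TypeD.of_z {p : ℕ} (hp : p.Prime) {a b : ι} {v : ι × Fin (n + 1) → ℤ}
    (h : TypeDz p a b (fun c => (v c : ZMod (p ^ 2)))) : TypeD p a b v := by
  obtain ⟨y, hy, hy2⟩ := h
  have hred : redp p (fun c => (v c : ZMod (p ^ 2))) = fun c => (v c : ZMod p) := by
    funext c
    exact map_intCast _ _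
  rw [hred] at hy
  have hg : ∀ c d, gdif (fun c => (v c : ZMod p)) c d = gred p v c d := by
    intro c d
    exact (gdif_map (Int.castRingHom (ZMod p)) v c d).symm
  have hg2 : gdif (fun c => (v c : ZMod (p ^ 2))) a b =
      (gdif v a b).map (Int.castRingHom (ZMod (p ^ 2))) :=
    (gdif_map (Int.castRingHom (ZMod (p ^ 2))) v a b).symm
  obtain ⟨m, rfl⟩ := ZMod.intCast_surjective y
  have hm : (ZMod.castHom (dvd_pow_self p two_ne_zero) (ZMod p)) (m : ZMod (p ^ 2)) =
      (m : ZMod p) := map_intCast _ _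
  rw [hm] at hy
  refine ⟨?_, ?_, ?_, ?_⟩
  · intro c d hcd hdvd
    apply hy.lead c d hcd
    have h1 := (ZMod.intCast_zmod_eq_zero_iff_dvd _ p).2 hdvd
    rw [Int.cast_sub, sub_eq_zero] at h1
    exact h1
  · intro c d hcd hne
    rw [← hg]
    exact hy.sep c d hcd hne
  · intro a' b' c d h1 h2 h3
    rw [← hg, ← hg]
    exact hy.cop a' b' c d h1 h2 h3
  · obtain ⟨g, hg1, hg3, hg4⟩ := hy.dbl
    rw [hg] at hg1
    refine ⟨m, ?_, ?_, g, hg1, hg3, hg4⟩
    · rw [← ZMod.intCast_zmod_eq_zero_iff_dvd]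
      have h1 : (gred p v a b).eval (m : ZMod p) = (((gdif v a b).eval m : ℤ) : ZMod p) := by
        rw [gred, eval_intCast_map]
        rfl
      rw [← h1, hg1, eval_mul, eval_pow, eval_sub, eval_X, eval_C, sub_self]
      ring
    · intro hdvd
      apply hy2
      have h1 : ((p ^ 2 : ℕ) : ℤ) ∣ (gdif v a b).eval m := by
        rw [Nat.cast_pow]
        exact hdvd
      rw [← ZMod.intCast_zmod_eq_zero_iff_dvd] at h1
      rw [hg2, eval_intCast_map]
      exact h1

/-- The count (`count_scheme`). -/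
theorem count_typeD [Fintype ι] (hn : 2 ≤ n) {a b : ι} (hab : a ≠ b) :
    ∃ P₀ : ℕ, ∀ p : ℕ, p.Prime → P₀ ≤ p →
      (1 / 4 : ℝ) / p * ((p ^ 2 : ℕ) : ℝ) ^ Fintype.card (ι × Fin (n + 1)) ≤
        ({w : ι × Fin (n + 1) → ZMod (p ^ 2) | TypeDz p a b w}).ncard := by
  obtain ⟨Δ, hΔ, h0⟩ := isGeneric_genD (ι := ι) (n := n) hn hab
  refine count_scheme (colD a b) (b, 0) (b, 1) (a, 0) (colD_colD_h21 hab) ?_ Δ hΔ
    (fun p u z => GenD a b u z) ?_ ?_ ?_ (fun p => {w | TypeDz p a b w}) ?_
  · intro c h1 h2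
    unfold colD
    rw [if_neg h1, if_neg h2]
  · intro p hp u z
    haveI : Fact p.Prime := ⟨hp⟩
    exact GenD.shift_iff a b u z
  · intro p hp u z z' h h'
    haveI : Fact p.Prime := ⟨hp⟩
    exact h.unique h'
  · intro p hp u hu
    haveI : Fact p.Prime := ⟨hp⟩
    exact h0 (ZMod p) u hu
  · intro p hp w hz hw
    exact TypeDz.flip hp hab w hz hw

end

end Pool.Agent.Lib.MP_89bcae_ag
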