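import Mathlib
import Pool.Agent.Lib.MP_89bcae_ag.Gph.Base
import Pool.Agent.Lib.MP_89bcae_ag.SDenB14

/-!
# The number of the families of types I and L modulo `p`

The map `w ↦ gdif w a b` from `ι × Fin (n + 1) → ZMod p` to the polynomials of degree at most `n` is
linear and surjective, with fibres of size `p ^ (N - n - 1)`. Type I: there are at least
`(p - 1) p ^ n / (2 n)` irreducible polynomials of degree `n` over `𝔽_p` for large `p` (the number of
monic ones: see the count of irreducible polynomials in the library: `family_lower14` in TypC14.lean and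
the files it uses, SDen*.lean). Type L: the products `(X - z) g`, `g` irreducible of degree `n - 1`
with `g(z) ≠ 0`; given the product, `z` is determined if `n ≥ 3`, and up to two choices if `n = 2`
(`n = 2`: `g` linear), so there are at least `p (p - 1) (p ^ (n - 1) / (2 n) - 1) / 2` of them. Any
constant `c > 0` (depending on `n`) will do.
-/

open Polynomial

open scoped Classical

namespace Pool.Agent.Lib.MP_89bcae_ag

section

variable {ι : Type} {n : ℕ}

/-- The families of type I modulo `p`. -/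
def TypeIz (p : ℕ) (a b : ι) (w : ι × Fin (n + 1) → ZMod p) : Prop :=
  w (a, Fin.last n) ≠ w (b, Fin.last n) ∧ Irreducible (gdif w a b)

/-- The families of type L modulo `p`. -/
def TypeLz (p : ℕ) (a b : ι) (w : ι × Fin (n + 1) → ZMod p) : Prop :=
  w (a, Fin.last n) ≠ w (b, Fin.last n) ∧ ∃ (z : ZMod p) (g : (ZMod p)[X]),
    Irreducible g ∧ g.eval z ≠ 0 ∧ gdif w a b = (X - C z) * g

/-- The leading coefficients of the difference. -/
lemma not_dvd_h83 {p : ℕ} {x y : ℤ} (h : (x : ZMod p) ≠ (y : ZMod p)) : ¬ (p : ℤ) ∣ x - y := by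
  intro hd
  apply h
  have h1 := (ZMod.intCast_zmod_eq_zero_iff_dvd (x - y) p).2 hd
  rw [Int.cast_sub] at h1
  exact sub_eq_zero.1 h1

/-- The difference of the reductions. -/
lemma gred_h83 (p : ℕ) (v : ι × Fin (n + 1) → ℤ) (a b : ι) :
    gred p v a b = gdif (fun c => (v c : ZMod p)) a b := by
  unfold gred
  rw [gdif_map]
  rfl

theorem TypeI.of_z {p : ℕ} {a b : ι} {v : ι × Fin (n + 1) → ℤ}
    (h : TypeIz p a b (fun c => (v c : ZMod p))) : TypeI p a b v := by
  refine ⟨not_dvd_h83 h.1, ?_⟩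
  rw [gred_h83]
  exact h.2

theorem TypeL.of_z {p : ℕ} {a b : ι} {v : ι × Fin (n + 1) → ℤ}
    (h : TypeLz p a b (fun c => (v c : ZMod p))) : TypeL p a b v := by
  refine ⟨not_dvd_h83 h.1, ?_⟩
  rw [gred_h83]
  exact h.2

/-- The differences of the coefficients, as a homomorphism. -/
def difHom_h4 (p : ℕ) (n : ℕ) {ι : Type} (a b : ι) :
    (ι × Fin (n + 1) → ZMod p) →+ (Fin (n + 1) → ZMod p) where
  toFun w := fun j => w (a, j) - w (b, j)
  map_zero' := by
    funext j
    simp
  map_add' v w := by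
    funext j
    simp only [Pi.add_apply]
    ring

lemma difHom_surj_h4 (p : ℕ) (n : ℕ) {a b : ι} (hab : a ≠ b) :
    Function.Surjective (difHom_h4 p n a b) := by
  intro v
  refine ⟨fun x => if x.1 = a then v x.2 else 0, ?_⟩
  funext j
  change (if a = a then v j else 0) - (if b = a then v j else 0) = v j
  rw [if_pos rfl, if_neg (Ne.symm hab), sub_zero]

lemma gdif_eq_polyOf_h4 (p : ℕ) (n : ℕ) (a b : ι) (w : ι × Fin (n + 1) → ZMod p) :
    gdif w a b = polyOf8 (difHom_h4 p n a b w) := by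
  unfold gdif gpol polyOf8
  rw [← Finset.sum_sub_distrib]
  refine Finset.sum_congr rfl fun j _ => ?_
  change _ = C (w (a, j) - w (b, j)) * X ^ (j : ℕ)
  rw [C_sub]
  ring

/-- The number of the families with differences in a given set. -/
lemma fibre_count_h4 [Fintype ι] (p : ℕ) [Fact p.Prime] {a b : ι} (hab : a ≠ b)
    (S : Set (Fin (n + 1) → ZMod p)) :
    p ^ Fintype.card (ι × Fin (n + 1)) * S.ncard =
      p ^ (n + 1) * ({w : ι × Fin (n + 1) → ZMod p | difHom_h4 p n a b w ∈ S}).ncard := by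
  have hsurj := difHom_surj_h4 p n hab
  set K := (Finset.univ.filter (fun w => difHom_h4 p n a b w = 0)).card with hK
  have hfib : ∀ v, (Finset.univ.filter (fun w => difHom_h4 p n a b w = v)).card = K := by
    intro v
    exact AddMonoidHom.card_fiber_eq_of_mem_range (difHom_h4 p n a b) (hsurj v) (hsurj 0)
  have h1 : (Finset.univ : Finset (ι × Fin (n + 1) → ZMod p)).card = p ^ (n + 1) * K := by
    rw [Finset.card_eq_sum_card_fiberwise (f := difHom_h4 p n a b) (t := Finset.univ)
      (fun _ _ => Finset.mem_coe.2 (Finset.mem_univ _)), Finset.sum_congr rfl fun v _ => hfib v,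
      Finset.sum_const, smul_eq_mul, Finset.card_univ, Fintype.card_fun, ZMod.card, Fintype.card_fin]
  have h2 : ({w : ι × Fin (n + 1) → ZMod p | difHom_h4 p n a b w ∈ S}).ncard = S.ncard * K := by
    have e1 : {w : ι × Fin (n + 1) → ZMod p | difHom_h4 p n a b w ∈ S} =
        ((Finset.univ.filter (fun w => difHom_h4 p n a b w ∈ S) :
          Finset (ι × Fin (n + 1) → ZMod p)) : Set (ι × Fin (n + 1) → ZMod p)) := by
      ext w
      simp
    rw [e1, Set.ncard_coe_finset, Finset.card_eq_sum_card_fiberwise (f := difHom_h4 p n a b)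
      (t := S.toFinset) (fun w hw => by
        rw [Finset.mem_coe, Finset.mem_filter] at hw
        rw [Finset.mem_coe, Set.mem_toFinset]
        exact hw.2)]
    have e2 : ∀ v ∈ S.toFinset, ((Finset.univ.filter (fun w => difHom_h4 p n a b w ∈ S)).filter
        (fun w => difHom_h4 p n a b w = v)).card = K := by
      intro v hv
      rw [← hfib v]
      congr 1
      ext w
      simp only [Finset.mem_filter, Finset.mem_univ, true_and]
      constructor
      · exact fun h => h.2
      · intro h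
        exact ⟨by rw [h]; exact Set.mem_toFinset.1 hv, h⟩
    rw [Finset.sum_congr rfl e2, Finset.sum_const, smul_eq_mul, Set.ncard_eq_toFinset_card']
  rw [Finset.card_univ, Fintype.card_fun, ZMod.card] at h1
  rw [h2, h1]
  ring

/-- From a count of the differences to a count of the families. -/
lemma lift_count_h4 [Fintype ι] (p : ℕ) [Fact p.Prime] {a b : ι} (hab : a ≠ b)
    (S : Set (Fin (n + 1) → ZMod p)) (T : Set (ι × Fin (n + 1) → ZMod p)) (c : ℝ)
    (hS : c * (p : ℝ) ^ (n + 1) ≤ (S.ncard : ℝ)) (hT : ∀ w, difHom_h4 p n a b w ∈ S → w ∈ T) :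
    c * (p : ℝ) ^ Fintype.card (ι × Fin (n + 1)) ≤ (T.ncard : ℝ) := by
  have hp : p.Prime := Fact.out
  have hp0 : (0 : ℝ) < p := by exact_mod_cast hp.pos
  have h1 := fibre_count_h4 (n := n) p hab S
  have h2 : ({w : ι × Fin (n + 1) → ZMod p | difHom_h4 p n a b w ∈ S}).ncard ≤ T.ncard :=
    Set.ncard_le_ncard hT (Set.toFinite _)
  have h3 : (p : ℝ) ^ Fintype.card (ι × Fin (n + 1)) * (S.ncard : ℝ) =
      (p : ℝ) ^ (n + 1) * (({w : ι × Fin (n + 1) → ZMod p | difHom_h4 p n a b w ∈ S}).ncard : ℝ) := by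
    exact_mod_cast h1
  have h4 : (({w : ι × Fin (n + 1) → ZMod p | difHom_h4 p n a b w ∈ S}).ncard : ℝ) ≤ T.ncard := by
    exact_mod_cast h2
  have h5 : (p : ℝ) ^ (n + 1) * (c * (p : ℝ) ^ Fintype.card (ι × Fin (n + 1))) ≤
      (p : ℝ) ^ (n + 1) * T.ncard := by
    calc (p : ℝ) ^ (n + 1) * (c * (p : ℝ) ^ Fintype.card (ι × Fin (n + 1)))
        = (p : ℝ) ^ Fintype.card (ι × Fin (n + 1)) * (c * (p : ℝ) ^ (n + 1)) := by ring
      _ ≤ (p : ℝ) ^ Fintype.card (ι × Fin (n + 1)) * (S.ncard : ℝ) :=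
          mul_le_mul_of_nonneg_left hS (by positivity)
      _ = _ := h3
      _ ≤ _ := mul_le_mul_of_nonneg_left h4 (by positivity)
  exact le_of_mul_le_mul_left h5 (by positivity)

theorem count_typeI [Fintype ι] (hn : 1 ≤ n) {a b : ι} (hab : a ≠ b) :
    ∃ (P₀ : ℕ) (c : ℝ), 0 < c ∧ ∀ p : ℕ, p.Prime → P₀ ≤ p →
      c * (p : ℝ) ^ Fintype.card (ι × Fin (n + 1)) ≤
        ({w : ι × Fin (n + 1) → ZMod p | TypeIz p a b w}).ncard := by
  rcases eq_or_lt_of_le hn with h1 | h2
  · subst h1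
    refine ⟨2, 1 / 2, by norm_num, fun p hp hp2 => ?_⟩
    have : Fact p.Prime := ⟨hp⟩
    refine lift_count_h4 (n := 1) p hab {v : Fin (1 + 1) → ZMod p | v 1 ≠ 0} _ (1 / 2) ?_ ?_
    · have h3 : ({x : (ZMod p) × (ZMod p) | x.2 ≠ 0}).ncard ≤
          ({v : Fin (1 + 1) → ZMod p | v 1 ≠ 0}).ncard := by
        apply Set.ncard_le_ncard_of_injOn (fun x : (ZMod p) × (ZMod p) => (![x.1, x.2] : Fin (1 + 1) → ZMod p))
        · intro x hx
          exact hx
        · intro x _ y _ hxy
          have e0 := congrFun hxy 0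
          have e1 := congrFun hxy 1
          exact Prod.ext e0 e1
      have h4 : ({x : (ZMod p) × (ZMod p) | x.2 ≠ 0}).ncard = p * (p - 1) := by
        have h5 : {x : (ZMod p) × (ZMod p) | x.2 ≠ 0} =
            (Set.univ : Set (ZMod p)) ×ˢ {u : ZMod p | u ≠ 0} := by
          ext x
          simp
        rw [h5, Set.ncard_prod, ncard_ne_zero14, Set.ncard_univ, Nat.card_eq_fintype_card, ZMod.card]
      rw [h4] at h3
      have h6 : ((p : ℝ) * ((p : ℝ) - 1)) ≤
          (({v : Fin (1 + 1) → ZMod p | v 1 ≠ 0}).ncard : ℝ) := by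
        have h7 : ((p * (p - 1) : ℕ) : ℝ) = (p : ℝ) * ((p : ℝ) - 1) := by
          rw [Nat.cast_mul, Nat.cast_sub hp.one_le, Nat.cast_one]
        rw [← h7]
        exact_mod_cast h3
      refine le_trans ?_ h6
      have hpR : (2 : ℝ) ≤ p := by exact_mod_cast hp2
      nlinarith
    · intro w hw
      have hw' : w (a, 1) - w (b, 1) ≠ 0 := hw
      have hc : (gdif w a b).coeff 1 = w (a, 1) - w (b, 1) := gdif_coeff w a b 1
      refine ⟨fun h0 => hw' (sub_eq_zero.2 h0), irreducible_of_degree_eq_one ?_⟩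
      have hle : (gdif w a b).natDegree ≤ 1 := gdif_natDegree_le w a b
      have hge : 1 ≤ (gdif w a b).natDegree := le_natDegree_of_ne_zero (by rw [hc]; exact hw')
      have hdeg : (gdif w a b).natDegree = 1 := le_antisymm hle hge
      rw [degree_eq_natDegree (fun h0 => by rw [h0, natDegree_zero] at hdeg; omega), hdeg]
      rfl
  · obtain ⟨c, hc, P₀, hP⟩ := count_typeAX14 n h2
    refine ⟨P₀, c, hc, fun p hp hpP => ?_⟩
    have : Fact p.Prime := ⟨hp⟩
    refine lift_count_h4 (n := n) p hab _ _ c (hP p ⟨hp⟩ hpP) ?_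
    rintro w ⟨hirr, hn'⟩
    rw [← gdif_eq_polyOf_h4] at hirr hn'
    refine ⟨?_, hirr⟩
    intro h0
    have h4 := gdif_coeff w a b (Fin.last n)
    rw [h0, sub_self, Fin.val_last] at h4
    have h5 : (gdif w a b).leadingCoeff = 0 := by
      rw [leadingCoeff, hn', h4]
    rw [leadingCoeff_eq_zero] at h5
    exact hirr.ne_zero h5

/-- The quadratic polynomials with two different roots. -/
lemma count_quad_h4 (p : ℕ) [Fact p.Prime] :
    (p - 1) * p.choose 2 ≤ ({v : Fin (2 + 1) → ZMod p | ∃ (u z z' : ZMod p), u ≠ 0 ∧ z ≠ z' ∧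
      polyOf8 v = (X - C z) * (C u * (X - C z'))}).ncard := by
  have hdeg : ∀ (u : ZMod p) (s : Finset (ZMod p)), u ≠ 0 → s.card = 2 →
      (C u * ∏ z ∈ s, (X - C z)).natDegree = 2 := by
    intro u s hu hs
    rw [natDegree_C_mul hu, natDegree_finsetProd_X_sub_C_eq_card, hs]
  have h1 : ({u : ZMod p | u ≠ 0} ×ˢ
      (((Finset.univ : Finset (ZMod p)).powersetCard 2 : Finset (Finset (ZMod p))) :
        Set (Finset (ZMod p)))).ncard = (p - 1) * p.choose 2 := by
    rw [Set.ncard_prod, ncard_ne_zero14, Set.ncard_coe_finset, Finset.card_powersetCard,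
      Finset.card_univ, ZMod.card]
  rw [← h1]
  apply Set.ncard_le_ncard_of_injOn
    (fun x : ZMod p × Finset (ZMod p) => coeffs14 2 (C x.1 * ∏ z ∈ x.2, (X - C z)))
  · rintro ⟨u, s⟩ ⟨hu, hs⟩
    simp only at hu hs
    rw [Finset.mem_coe, Finset.mem_powersetCard] at hs
    obtain ⟨z, z', hzz, rfl⟩ := Finset.card_eq_two.1 hs.2
    refine ⟨u, z, z', hu, hzz, ?_⟩
    change polyOf8 (coeffs14 2 _) = _
    rw [polyOf_coeffs14 (hdeg u _ hu hs.2), Finset.prod_pair hzz]
    ring
  · rintro ⟨u, s⟩ ⟨hu, hs⟩ ⟨u', s'⟩ ⟨hu', hs'⟩ h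
    simp only at hu hs hu' hs' h
    rw [Finset.mem_coe, Finset.mem_powersetCard] at hs hs'
    have h2 := coeffs_inj14 (hdeg u s hu hs.2).le (hdeg u' s' hu' hs'.2).le h
    have h3 := congrArg leadingCoeff h2
    rw [leadingCoeff_mul, leadingCoeff_C, (monic_prod_X_sub_C (fun z => z) s).leadingCoeff, mul_one,
      leadingCoeff_mul, leadingCoeff_C, (monic_prod_X_sub_C (fun z => z) s').leadingCoeff,
      mul_one] at h3
    subst h3
    have h4 := mul_left_cancel₀ (C_ne_zero.mpr hu) h2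
    have h5 := congrArg roots h4
    rw [roots_prod_X_sub_C, roots_prod_X_sub_C] at h5
    rw [Prod.mk.injEq]
    exact ⟨rfl, Finset.val_injective h5⟩

theorem count_typeL [Fintype ι] (hn : 2 ≤ n) {a b : ι} (hab : a ≠ b) :
    ∃ (P₀ : ℕ) (c : ℝ), 0 < c ∧ ∀ p : ℕ, p.Prime → P₀ ≤ p →
      c * (p : ℝ) ^ Fintype.card (ι × Fin (n + 1)) ≤
        ({w : ι × Fin (n + 1) → ZMod p | TypeLz p a b w}).ncard := by
  rcases eq_or_lt_of_le hn with h2 | h3
  · subst h2
    refine ⟨3, 1 / 9, by norm_num, fun p hp hp3 => ?_⟩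
    have : Fact p.Prime := ⟨hp⟩
    refine lift_count_h4 (n := 2) p hab {v : Fin (2 + 1) → ZMod p | ∃ (u z z' : ZMod p), u ≠ 0 ∧ z ≠ z' ∧
      polyOf8 v = (X - C z) * (C u * (X - C z'))} _ (1 / 9) ?_ ?_
    · have h4 := count_quad_h4 p
      have h5 : (((p - 1) * p.choose 2 : ℕ) : ℝ) = ((p : ℝ) - 1) * (p * (p - 1) / 2) := by
        rw [Nat.cast_mul, Nat.cast_choose_two, Nat.cast_sub (by omega), Nat.cast_one]
      have h6 : ((p : ℝ) - 1) * (p * (p - 1) / 2) ≤
          (({v : Fin (2 + 1) → ZMod p | ∃ (u z z' : ZMod p), u ≠ 0 ∧ z ≠ z' ∧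
            polyOf8 v = (X - C z) * (C u * (X - C z'))}).ncard : ℝ) := by
        rw [← h5]
        exact_mod_cast h4
      refine le_trans ?_ h6
      have hpR : (3 : ℝ) ≤ p := by exact_mod_cast hp3
      have h7 : (2 / 3 * (p : ℝ)) ≤ p - 1 := by linarith
      have h8 : (2 / 3 * (p : ℝ)) * (2 / 3 * p) ≤ (p - 1) * (p - 1) :=
        mul_le_mul h7 h7 (by positivity) (by linarith)
      have h9 := mul_le_mul_of_nonneg_left h8 (by positivity : (0 : ℝ) ≤ (p : ℝ) / 2)
      have h10 : (0 : ℝ) ≤ (p : ℝ) ^ 3 := by positivity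
      have h11 : (p : ℝ) / 2 * (2 / 3 * (p : ℝ) * (2 / 3 * p)) = 2 / 9 * (p : ℝ) ^ 3 := by ring
      have h12 : (p : ℝ) / 2 * ((p - 1) * (p - 1)) = ((p : ℝ) - 1) * (p * (p - 1) / 2) := by ring
      rw [h11, h12] at h9
      norm_num
      linarith
    · rintro w ⟨u, z, z', hu, hzz, he⟩
      rw [← gdif_eq_polyOf_h4] at he
      have hc : (gdif w a b).coeff 2 = u := by
        rw [he]
        have : ((X - C z) * (C u * (X - C z')) : (ZMod p)[X]) =
            C u * X ^ 2 + C (-(u * (z + z'))) * X + C (u * z * z') := by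
          simp only [C_neg, C_mul, C_add]
          ring
        rw [this]
        simp
      refine ⟨?_, z, C u * (X - C z'), ?_, ?_, he⟩
      · intro h0
        apply hu
        rw [← hc]
        have := gdif_coeff w a b (Fin.last 2)
        rw [h0, sub_self] at this
        exact this
      · have hu' : IsUnit (C u : (ZMod p)[X]) := isUnit_C.mpr (isUnit_iff_ne_zero.mpr hu)
        rw [irreducible_isUnit_mul hu']
        exact irreducible_X_sub_C z'
      · rw [eval_mul, eval_C, eval_sub, eval_X, eval_C]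
        exact mul_ne_zero hu (sub_ne_zero.2 hzz)
  · obtain ⟨c, hc, P₀, hP⟩ := count_typeBX14 n h3
    refine ⟨P₀, c, hc, fun p hp hpP => ?_⟩
    have : Fact p.Prime := ⟨hp⟩
    refine lift_count_h4 (n := n) p hab _ _ c (hP p ⟨hp⟩ hpP) ?_
    rintro w ⟨z, D, he, hirr, hD, hn'⟩
    rw [← gdif_eq_polyOf_h4] at he hn'
    refine ⟨?_, z, D, hirr, ?_, he⟩
    · intro h0
      have h4 := gdif_coeff w a b (Fin.last n)
      rw [h0, sub_self, Fin.val_last] at h4
      have h5 : (gdif w a b).leadingCoeff = 0 := by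
        rw [leadingCoeff, hn', h4]
      rw [leadingCoeff_eq_zero] at h5
      rw [h5, natDegree_zero] at hn'
      omega
    · intro h0
      have h4 : D.natDegree = 1 := natDegree_eq_of_degree_eq_some
        (degree_eq_one_of_irreducible_of_root hirr h0)
      omega

end

end Pool.Agent.Lib.MP_89bcae_ag
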