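import Mathlib

/-!
# The linear algebra of the criterion for graphs of polynomials

`N i j` is the set of the roots of `α_i - α_j`. For every triple `i, j, l` and all `r ∈ N i j`,
`r' ∈ N j l`, `r'' ∈ N i l` there is a valuation at which exactly these three roots collide; it gives
the linear relations (1)-(4) below (`v` is the value of `κ` and `γ_i` that of `c_i`). Write
`τ = x_ij(r) + x_jl(r') - x_il(r'')`.

Proof. (1) + (2) - (3) gives `v τ = h (w_i + w_j + w_l) τ`.
* If `τ = 0` for all triples and all `r, r', r''`: `x_ij(r)` does not depend on `r` and is a cocycle,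
  hence the coboundary of `b_i := x_{0i}`.
* Suppose `τ ≠ 0` for some triple. If `v = 0`, take `s ∈ N i j` different from `r`: (4) gives
  `γ_i = γ_j` and (1) gives `w_l h τ = 0`, a contradiction. So `v ≠ 0`. Choose `r₁' ∈ N j l`,
  `r₁'' ∈ N i l` different from `r'`, `r''`. By (1) and (4),
  `v (x_ij(r) + x_jl(r₁') - x_il(r₁'')) = w_l h τ ≠ 0`. So the same holds for `(r, r₁', r₁'')`, with
  `v₁ ≠ 0`, `γ₁`. If there is `s ∈ N i l` different from `r''`, `r₁''`: (4) for both valuations gives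
  `x_il(s) = -(γ_i - γ_l) / v = -(γ₁_i - γ₁_l) / v₁`, and (4) for the second one at `r''` gives
  `x_il(r'') = -(γ₁_i - γ₁_l) / v₁`; so `v x_il(r'') + γ_i - γ_l = 0`, and (3) gives `w_j h τ = 0`, a
  contradiction. If there is a fourth index `m`, take `s ∈ N i m`, `s' ∈ N m l` instead of `s` and
  `x_im(s) + x_ml(s')` instead of `x_il(s)`.
-/

open scoped Classical

namespace Pool.Agent.Lib.MP_89bcae_ag

/-- The linear relations given by the valuation at which `r`, `r'`, `r''` collide. -/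
structure RelG {A ι σ : Type*} [Field A] (N : ι → ι → Set σ) (x : ι → ι → σ → A) (w : ι → A)
    (i j l : ι) (r r' r'' : σ) (v h : A) (γ : ι → A) : Prop where
  h_ne : h ≠ 0
  rel₁ : v * x i j r + γ i - γ j = w l * h * (x i j r + x j l r' - x i l r'')
  rel₂ : v * x j l r' + γ j - γ l = w i * h * (x i j r + x j l r' - x i l r'')
  rel₃ : v * x i l r'' + γ i - γ l = -(w j * h * (x i j r + x j l r' - x i l r''))
  rel₄ : ∀ a b s, a ≠ b → s ∈ N a b → s ≠ r → s ≠ r' → s ≠ r'' → v * x a b s + γ a - γ b = 0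

theorem core_graph {A ι σ : Type*} [Field A] [Fintype ι] (hι : 3 ≤ Fintype.card ι)
    (N : ι → ι → Set σ) (hsymm : ∀ i j, N j i = N i j)
    (hdisj : ∀ a b c d s, a ≠ b → c ≠ d → s ∈ N a b → s ∈ N c d → ({a, b} : Set ι) = {c, d})
    (hN : (∀ i j, i ≠ j → ∀ r r', ∃ s ∈ N i j, s ≠ r ∧ s ≠ r') ∨
      (4 ≤ Fintype.card ι ∧ ∀ i j, i ≠ j → ∀ r, ∃ s ∈ N i j, s ≠ r))
    (x : ι → ι → σ → A) (hx : ∀ i j s, i ≠ j → s ∈ N i j → x j i s = -x i j s)
    (w : ι → A) (hw : ∀ i, w i ≠ 0)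
    (H : ∀ i j l, i ≠ j → j ≠ l → i ≠ l → ∀ r ∈ N i j, ∀ r' ∈ N j l, ∀ r'' ∈ N i l,
      ∃ (v h : A) (γ : ι → A), RelG N x w i j l r r' r'' v h γ) :
    ∃ b : ι → A, ∀ i j s, i ≠ j → s ∈ N i j → x i j s = b j - b i := by
  -- nonemptiness
  have hne1 : ∀ i j, i ≠ j → ∀ r, ∃ s ∈ N i j, s ≠ r := by
    intro i j hij r
    rcases hN with h | h
    · obtain ⟨s, hs, h1, -⟩ := h i j hij r r
      exact ⟨s, hs, h1⟩
    · exact h.2 i j hij r
  have hne0 : ∀ i j, i ≠ j → ∀ r : σ, ∃ s, s ∈ N i j := by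
    intro i j hij r
    obtain ⟨s, hs, -⟩ := hne1 i j hij r
    exact ⟨s, hs⟩
  -- elements of different sets are different
  have hdiff : ∀ a b c d s t, a ≠ b → c ≠ d → s ∈ N a b → t ∈ N c d → ({a, b} : Set ι) ≠ {c, d} →
      s ≠ t := by
    rintro a b c d s t hab hcd hs ht hne rfl
    exact hne (hdisj a b c d s hab hcd hs ht)
  -- the main alternative
  have key : ∀ i j l, i ≠ j → j ≠ l → i ≠ l → ∀ r ∈ N i j, ∀ r' ∈ N j l, ∀ r'' ∈ N i l,
      x i j r + x j l r' - x i l r'' = 0 := by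
    intro i j l hij hjl hil r hr r' hr' r'' hr''
    by_contra hτ
    have e1 : ({i, j} : Set ι) ≠ {j, l} := by
      intro h
      have h1 : i ∈ ({j, l} : Set ι) := by rw [← h]; exact Set.mem_insert _ _
      rcases h1 with h1 | h1
      · exact hij h1
      · exact hil h1
    have e2 : ({i, j} : Set ι) ≠ {i, l} := by
      intro h
      have h1 : j ∈ ({i, l} : Set ι) := by rw [← h]; exact Set.mem_insert_of_mem _ rfl
      rcases h1 with h1 | h1
      · exact hij h1.symm
      · exact hjl h1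
    have e3 : ({j, l} : Set ι) ≠ {i, l} := by
      intro h
      have h1 : j ∈ ({i, l} : Set ι) := by rw [← h]; exact Set.mem_insert _ _
      rcases h1 with h1 | h1
      · exact hij h1.symm
      · exact hjl h1
    -- `v` is not zero
    have hv : ∀ (r : σ) (_ : r ∈ N i j) (r' : σ) (_ : r' ∈ N j l) (r'' : σ) (_ : r'' ∈ N i l)
        (v h : A) (γ : ι → A), RelG N x w i j l r r' r'' v h γ →
        x i j r + x j l r' - x i l r'' ≠ 0 → v ≠ 0 := by
      intro r hr r' hr' r'' hr'' v h γ H hτ hv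
      obtain ⟨s, hs, hsr⟩ := hne1 i j hij r
      have h1 := H.rel₄ i j s hij hs hsr (hdiff _ _ _ _ _ _ hij hjl hs hr' e1)
        (hdiff _ _ _ _ _ _ hij hil hs hr'' e2)
      have h2 := H.rel₁
      rw [hv] at h1 h2
      have h3 : w l * h * (x i j r + x j l r' - x i l r'') = 0 := by
        linear_combination h1 - h2
      exact mul_ne_zero (mul_ne_zero (hw l) H.h_ne) hτ h3
    obtain ⟨v, h, γ, H⟩ := H i j l hij hjl hil r hr r' hr' r'' hr''
    have hv0 := hv r hr r' hr' r'' hr'' v h γ H hτ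
    -- the second triple
    obtain ⟨r₁', hr₁', hn'⟩ := hne1 j l hjl r'
    obtain ⟨r₁'', hr₁'', hn''⟩ := hne1 i l hil r''
    obtain ⟨v₁, h₁, γ₁, H₁⟩ := ‹∀ i j l, i ≠ j → j ≠ l → i ≠ l → ∀ r ∈ N i j, ∀ r' ∈ N j l,
      ∀ r'' ∈ N i l, ∃ (v h : A) (γ : ι → A), RelG N x w i j l r r' r'' v h γ› i j l hij hjl hil r hr
        r₁' hr₁' r₁'' hr₁''
    have f1 := H.rel₄ j l r₁' hjl hr₁' (hdiff _ _ _ _ _ _ hjl hij hr₁' hr e1.symm) hn'
      (hdiff _ _ _ _ _ _ hjl hil hr₁' hr'' e3)
    have f2 := H.rel₄ i l r₁'' hil hr₁'' (hdiff _ _ _ _ _ _ hil hij hr₁'' hr e2.symm)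
      (hdiff _ _ _ _ _ _ hil hjl hr₁'' hr' e3.symm) hn''
    have hτ₁ : x i j r + x j l r₁' - x i l r₁'' ≠ 0 := by
      intro h0
      have h3 : w l * h * (x i j r + x j l r' - x i l r'') = 0 := by
        have h4 := H.rel₁
        linear_combination v * h0 - f1 + f2 - h4
      exact mul_ne_zero (mul_ne_zero (hw l) H.h_ne) hτ h3
    have hv₁ := hv r hr r₁' hr₁' r₁'' hr₁'' v₁ h₁ γ₁ H₁ hτ₁
    have f3 := H₁.rel₄ i l r'' hil hr'' (hdiff _ _ _ _ _ _ hil hij hr'' hr e2.symm)
      (hdiff _ _ _ _ _ _ hil hjl hr'' hr₁' e3.symm) (Ne.symm hn'')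
    -- a common value
    have hy : ∃ y : A, v * y + γ i - γ l = 0 ∧ v₁ * y + γ₁ i - γ₁ l = 0 := by
      rcases hN with hN | hN
      · obtain ⟨s, hs, hs1, hs2⟩ := hN i l hil r'' r₁''
        exact ⟨x i l s, H.rel₄ i l s hil hs (hdiff _ _ _ _ _ _ hil hij hs hr e2.symm)
          (hdiff _ _ _ _ _ _ hil hjl hs hr' e3.symm) hs1,
          H₁.rel₄ i l s hil hs (hdiff _ _ _ _ _ _ hil hij hs hr e2.symm)
          (hdiff _ _ _ _ _ _ hil hjl hs hr₁' e3.symm) hs2⟩
      · obtain ⟨m, hm⟩ : ∃ m, m ∉ ({i, j, l} : Finset ι) := by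
          by_contra hcon
          push Not at hcon
          have h5 : (Finset.univ : Finset ι) ⊆ {i, j, l} := fun m _ => hcon m
          have h6 := Finset.card_le_card h5
          rw [Finset.card_univ] at h6
          have h7 : ({i, j, l} : Finset ι).card ≤ 3 := Finset.card_le_three
          omega
        simp only [Finset.mem_insert, Finset.mem_singleton, not_or] at hm
        obtain ⟨hmi, hmj, hml⟩ := hm
        obtain ⟨s, hs⟩ := hne0 i m (Ne.symm hmi) r
        obtain ⟨t, ht⟩ := hne0 m l hml r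
        have g : ∀ a b c d : ι, (m = a ∨ m = b) → c ≠ m → d ≠ m → ({a, b} : Set ι) ≠ {c, d} := by
          intro a b c d hm1 hc hd he
          have : m ∈ ({c, d} : Set ι) := by
            rw [← he]
            rcases hm1 with rfl | rfl
            · exact Set.mem_insert _ _
            · exact Set.mem_insert_of_mem _ rfl
          rcases this with h | h
          · exact hc h.symm
          · exact hd h.symm
        have hi := Ne.symm hmi
        have hj := Ne.symm hmj
        have hl := Ne.symm hml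
        have k1 := H.rel₄ i m s hi hs (hdiff _ _ _ _ _ _ hi hij hs hr (g _ _ _ _ (Or.inr rfl) hi hj))
          (hdiff _ _ _ _ _ _ hi hjl hs hr' (g _ _ _ _ (Or.inr rfl) hj hl))
          (hdiff _ _ _ _ _ _ hi hil hs hr'' (g _ _ _ _ (Or.inr rfl) hi hl))
        have k2 := H.rel₄ m l t hml ht (hdiff _ _ _ _ _ _ hml hij ht hr (g _ _ _ _ (Or.inl rfl) hi hj))
          (hdiff _ _ _ _ _ _ hml hjl ht hr' (g _ _ _ _ (Or.inl rfl) hj hl))
          (hdiff _ _ _ _ _ _ hml hil ht hr'' (g _ _ _ _ (Or.inl rfl) hi hl))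
        have k3 := H₁.rel₄ i m s hi hs (hdiff _ _ _ _ _ _ hi hij hs hr (g _ _ _ _ (Or.inr rfl) hi hj))
          (hdiff _ _ _ _ _ _ hi hjl hs hr₁' (g _ _ _ _ (Or.inr rfl) hj hl))
          (hdiff _ _ _ _ _ _ hi hil hs hr₁'' (g _ _ _ _ (Or.inr rfl) hi hl))
        have k4 := H₁.rel₄ m l t hml ht (hdiff _ _ _ _ _ _ hml hij ht hr (g _ _ _ _ (Or.inl rfl) hi hj))
          (hdiff _ _ _ _ _ _ hml hjl ht hr₁' (g _ _ _ _ (Or.inl rfl) hj hl))
          (hdiff _ _ _ _ _ _ hml hil ht hr₁'' (g _ _ _ _ (Or.inl rfl) hi hl))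
        exact ⟨x i m s + x m l t, by linear_combination k1 + k2, by linear_combination k3 + k4⟩
    obtain ⟨y, hy1, hy2⟩ := hy
    have h8 : x i l r'' = y := by
      have h9 : v₁ * (x i l r'' - y) = 0 := by linear_combination f3 - hy2
      exact sub_eq_zero.1 ((mul_eq_zero.1 h9).resolve_left hv₁)
    have h10 : w j * h * (x i j r + x j l r' - x i l r'') = 0 := by
      have h11 := H.rel₃
      linear_combination h11 - hy1 - v * h8
    exact mul_ne_zero (mul_ne_zero (hw j) H.h_ne) hτ h10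
  -- independence of the root
  have hcard1 : ∀ i j : ι, i ≠ j → ∃ l : ι, l ≠ i ∧ l ≠ j := by
    intro i j hij
    by_contra hcon
    push Not at hcon
    have h5 : (Finset.univ : Finset ι) ⊆ {i, j} := by
      intro m _
      by_cases hm : m = i
      · rw [hm]; exact Finset.mem_insert_self _ _
      · rw [hcon m hm]
        exact Finset.mem_insert_of_mem (Finset.mem_singleton_self _)
    have h6 := Finset.card_le_card h5
    rw [Finset.card_univ] at h6
    have h7 : ({i, j} : Finset ι).card ≤ 2 := Finset.card_le_two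
    omega
  have hind : ∀ i j, i ≠ j → ∀ r ∈ N i j, ∀ s ∈ N i j, x i j r = x i j s := by
    intro i j hij r hr s hs
    obtain ⟨l, hli, hlj⟩ := hcard1 i j hij
    obtain ⟨r', hr'⟩ := hne0 j l hlj.symm r
    obtain ⟨r'', hr''⟩ := hne0 i l hli.symm r
    have h1 := key i j l hij hlj.symm hli.symm r hr r' hr' r'' hr''
    have h2 := key i j l hij hlj.symm hli.symm s hs r' hr' r'' hr''
    linear_combination h1 - h2
  -- the coboundary
  haveI : Nonempty ι := Fintype.card_pos_iff.1 (by omega)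
  obtain ⟨o⟩ := ‹Nonempty ι›
  by_cases hσ : Nonempty σ
  · obtain ⟨r₀⟩ := hσ
    choose f hf using fun (i : {i : ι // i ≠ o}) => hne0 o i (Ne.symm i.2) r₀
    refine ⟨fun i => if h : i = o then 0 else x o i (f ⟨i, h⟩), fun i j s hij hs => ?_⟩
    beta_reduce
    by_cases hi : i = o
    · subst hi
      have hj : j ≠ i := Ne.symm hij
      rw [dif_pos rfl, dif_neg hj, sub_zero]
      exact hind i j hij s hs _ (hf ⟨j, hj⟩)
    · by_cases hj : j = o
      · subst hj
        rw [dif_pos rfl, dif_neg hi, zero_sub]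
        have h1 : s ∈ N j i := by rw [hsymm]; exact hs
        have h2 := hx j i s (Ne.symm hij) h1
        rw [h2, hind j i (Ne.symm hij) s h1 _ (hf ⟨i, hi⟩)]
      · rw [dif_neg hi, dif_neg hj]
        have h1 := key o i j (Ne.symm hi) hij (Ne.symm hj) _ (hf ⟨i, hi⟩) s hs _ (hf ⟨j, hj⟩)
        linear_combination h1
  · exact ⟨fun _ => 0, fun i j s _ _ => absurd ⟨s⟩ hσ⟩

end Pool.Agent.Lib.MP_89bcae_ag
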