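import Mathlib
import Pool.Agent.Lib.MP_89bcae_ag.Gph.CntB
import Pool.Agent.Lib.MP_89bcae_ag.Gph.CntD
import Pool.Agent.Lib.MP_89bcae_ag.Gph.CntI
import Pool.Agent.Lib.MP_89bcae_ag.DensB7
import Pool.Agent.Lib.MP_89bcae_ag.SDenA14
import Pool.Agent.Lib.MP_89bcae_ag.Bnd8

/-!
# Almost all families are good

As `prjDensity14` in LPrjA14.lean (copy the end of its proof): `density_crtB7` for every condition, with
`M p = p ^ 2` and proportions `(1 / 4) / p` for the types B and D (`sum_residue_unbounded14` with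
`q = 1`), and with `M p = p` and constant proportions for the types I and L; then finite unions.
-/

open Polynomial Filter Topology

open scoped Classical

namespace Pool.Agent.Lib.MP_89bcae_ag

variable {ι : Type} [Fintype ι] {n : ℕ}

/-- One condition of density one (for `P` a property of `v` and of a prime, with residue classes). -/
theorem density_prime (e : ι × Fin (n + 1) ≃ Fin (Fintype.card (ι × Fin (n + 1))))
    (M : ℕ → ℕ) (hM : ∀ p : ℕ, p.Prime → M p = p ∨ M p = p ^ 2)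
    (D : ∀ p : ℕ, Set (ι × Fin (n + 1) → ZMod (M p))) (P₀ : ℕ) (c : ℝ) (hc : 0 < c)
    (hD : ∀ p : ℕ, p.Prime → P₀ ≤ p →
      c / p * ((M p : ℕ) : ℝ) ^ Fintype.card (ι × Fin (n + 1)) ≤ (D p).ncard)
    (P : (ι × Fin (n + 1) → ℤ) → Prop)
    (hP : ∀ v, ∀ p : ℕ, p.Prime → (fun c => (v c : ZMod (M p))) ∈ D p → P v) :
    Tendsto (fun H : ℕ => ({a : Fin (Fintype.card (ι × Fin (n + 1))) → ℤ | (∀ i, |a i| ≤ H) ∧
      ¬ P (a ∘ e)}.ncard : ℝ) / (2 * H + 1) ^ Fintype.card (ι × Fin (n + 1))) atTop (𝓝 0) := by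
  have hcopM : ∀ p ∈ {p : ℕ | p.Prime ∧ P₀ ≤ p}, ∀ q ∈ {p : ℕ | p.Prime ∧ P₀ ≤ p}, p ≠ q →
      Nat.Coprime (M p) (M q) := by
    intro p hp q hq hpq
    have h1 : Nat.Coprime p q := (Nat.coprime_primes hp.1 hq.1).mpr hpq
    rcases hM p hp.1 with h2 | h2 <;> rcases hM q hq.1 with h3 | h3 <;> rw [h2, h3]
    · exact h1
    · exact Nat.Coprime.pow_right 2 h1
    · exact Nat.Coprime.pow_left 2 h1
    · exact Nat.Coprime.pow 2 2 h1
  refine density_crtB7 (Fintype.card (ι × Fin (n + 1))) M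
    (fun p => {w | (fun x => w (e x)) ∈ D p}) (fun p => c / p)
    {p : ℕ | p.Prime ∧ P₀ ≤ p} ?_ hcopM ?_ ?_ (fun a => P (a ∘ e)) ?_
  · intro p hp
    rcases hM p hp.1 with h2 | h2 <;> rw [h2]
    · exact hp.1.pos
    · exact pow_pos hp.1.pos 2
  · intro T
    obtain ⟨S, hS1, hS2⟩ := sum_primes_unbounded7 hc P₀ T
    exact ⟨S, hS1, hS2⟩
  · intro p hp
    have h1 : ({w : Fin (Fintype.card (ι × Fin (n + 1))) → ZMod (M p) |
        (fun x => w (e x)) ∈ D p}).ncard = (D p).ncard := by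
      refine Set.ncard_congr (fun w _ x => w (e x)) (fun w hw => hw) ?_ ?_
      · intro w w' _ _ h
        funext i
        have h2 := congrFun h (e.symm i)
        simpa using h2
      · intro u hu
        refine ⟨fun i => u (e.symm i), ?_, ?_⟩
        · show (fun x => u (e.symm (e x))) ∈ D p
          simpa using hu
        · funext x
          simp
    show c / p * ((M p : ℕ) : ℝ) ^ Fintype.card (ι × Fin (n + 1)) ≤ _
    rw [h1]
    exact hD p hp.1 hp.2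
  · intro a p hp ha
    exact hP (a ∘ e) p hp.1 ha

/-- The box, as a set of functions on a finite type, has `(2 H + 1) ^ card` elements. -/
theorem box_ncard_h15 {κ : Type} [Fintype κ] (H : ℕ) :
    ({v : κ → ℤ | ∀ i, |v i| ≤ H}).Finite ∧
      (({v : κ → ℤ | ∀ i, |v i| ≤ H}).ncard : ℝ) = (2 * H + 1) ^ Fintype.card κ := by
  have h1 : {v : κ → ℤ | ∀ i, |v i| ≤ H} =
      ((Fintype.piFinset fun _ : κ => Finset.Icc (-(H : ℤ)) H : Finset (κ → ℤ)) :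
        Set (κ → ℤ)) := by
    ext v
    simp only [Set.mem_ofPred_eq, Finset.mem_coe, Fintype.mem_piFinset, Finset.mem_Icc, abs_le]
  rw [h1]
  refine ⟨Finset.finite_toSet _, ?_⟩
  rw [Set.ncard_coe_finset, Fintype.card_piFinset]
  simp only [Int.card_Icc, Finset.prod_const, Finset.card_univ]
  have h2 : ((H : ℤ) + 1 - -(H : ℤ)).toNat = 2 * H + 1 := by omega
  rw [h2]
  push_cast
  rfl

/-- One condition, for the functions on `ι × Fin (n + 1)`. -/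
theorem density_transfer_h15 (e : ι × Fin (n + 1) ≃ Fin (Fintype.card (ι × Fin (n + 1))))
    (P : (ι × Fin (n + 1) → ℤ) → Prop) (H : ℕ) :
    ({a : Fin (Fintype.card (ι × Fin (n + 1))) → ℤ | (∀ i, |a i| ≤ H) ∧ ¬ P (a ∘ e)}).ncard =
      ({v : ι × Fin (n + 1) → ℤ | (∀ i, |v i| ≤ H) ∧ ¬ P v}).ncard := by
  have h1 : {v : ι × Fin (n + 1) → ℤ | (∀ i, |v i| ≤ H) ∧ ¬ P v} =
      (fun a : Fin (Fintype.card (ι × Fin (n + 1))) → ℤ => a ∘ e) ''
        {a | (∀ i, |a i| ≤ H) ∧ ¬ P (a ∘ e)} := by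
    ext v
    simp only [Set.mem_ofPred_eq, Set.mem_image]
    constructor
    · rintro ⟨h2, h3⟩
      refine ⟨v ∘ e.symm, ⟨fun i => h2 _, ?_⟩, ?_⟩
      · have h4 : (v ∘ e.symm) ∘ e = v := by
          funext x
          simp
        rw [h4]
        exact h3
      · funext x
        simp
    · rintro ⟨a, ⟨h2, h3⟩, rfl⟩
      exact ⟨fun i => h2 _, h3⟩
  rw [h1, Set.ncard_image_of_injective]
  intro a b hab
  funext i
  have h2 := congrFun hab (e.symm i)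
  simpa using h2

/-- **Almost all families are good.** -/
theorem density_goodG (hn : 2 ≤ n) :
    Tendsto (fun H : ℕ => ({v : ι × Fin (n + 1) → ℤ | (∀ i, |v i| ≤ H) ∧ GoodG v}.ncard : ℝ) /
      (2 * H + 1) ^ Fintype.card (ι × Fin (n + 1))) atTop (𝓝 1) := by
  let e : ι × Fin (n + 1) ≃ Fin (Fintype.card (ι × Fin (n + 1))) := Fintype.equivFin _
  -- the exceptional sets of one condition
  let Z : ((ι × Fin (n + 1) → ℤ) → Prop) → ℕ → ℝ := fun P H =>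
    ({v : ι × Fin (n + 1) → ℤ | (∀ i, |v i| ≤ H) ∧ ¬ P v}.ncard : ℝ) /
      (2 * H + 1) ^ Fintype.card (ι × Fin (n + 1))
  have key : ∀ (M : ℕ → ℕ), (∀ p : ℕ, p.Prime → M p = p ∨ M p = p ^ 2) →
      ∀ (D : ∀ p : ℕ, Set (ι × Fin (n + 1) → ZMod (M p))) (P₀ : ℕ) (c : ℝ), 0 < c →
      (∀ p : ℕ, p.Prime → P₀ ≤ p →
        c / p * ((M p : ℕ) : ℝ) ^ Fintype.card (ι × Fin (n + 1)) ≤ (D p).ncard) →
      ∀ P : (ι × Fin (n + 1) → ℤ) → Prop,
      (∀ v, ∀ p : ℕ, p.Prime → (fun c => (v c : ZMod (M p))) ∈ D p → P v) →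
      Tendsto (Z P) atTop (𝓝 0) := by
    intro M hM D P₀ c hc hD P hP
    have h1 := density_prime e M hM D P₀ c hc hD P hP
    refine h1.congr fun H => ?_
    rw [density_transfer_h15 e P H]
  have hpos : ∀ p : ℕ, p.Prime → (1 : ℝ) ≤ p := fun p hp => by exact_mod_cast hp.one_lt.le
  have hI : ∀ a b : ι, Tendsto (Z fun v => a ≠ b → ∃ p : ℕ, p.Prime ∧ TypeI p a b v)
      atTop (𝓝 0) := by
    intro a b
    by_cases hab : a = b
    · have h1 : ∀ H, Z (fun v => a ≠ b → ∃ p : ℕ, p.Prime ∧ TypeI p a b v) H = 0 := by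
        intro H
        simp [Z, hab]
      exact tendsto_const_nhds.congr fun H => (h1 H).symm
    · obtain ⟨P₀, c, hc, h1⟩ := count_typeI (n := n) (by omega) hab
      refine key (fun p => p) (fun p _ => Or.inl rfl) (fun p => {w | TypeIz p a b w}) P₀ c hc ?_ _ ?_
      · intro p hp hP
        refine le_trans ?_ (h1 p hp hP)
        have h2 := hpos p hp
        gcongr
        exact div_le_self hc.le h2
      · intro v p hp hv _
        exact ⟨p, hp, TypeI.of_z hv⟩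
  have hL : ∀ a b : ι, Tendsto (Z fun v => a ≠ b → ∃ p : ℕ, p.Prime ∧ TypeL p a b v)
      atTop (𝓝 0) := by
    intro a b
    by_cases hab : a = b
    · have h1 : ∀ H, Z (fun v => a ≠ b → ∃ p : ℕ, p.Prime ∧ TypeL p a b v) H = 0 := by
        intro H
        simp [Z, hab]
      exact tendsto_const_nhds.congr fun H => (h1 H).symm
    · obtain ⟨P₀, c, hc, h1⟩ := count_typeL hn hab
      refine key (fun p => p) (fun p _ => Or.inl rfl) (fun p => {w | TypeLz p a b w}) P₀ c hc ?_ _ ?_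
      · intro p hp hP
        refine le_trans ?_ (h1 p hp hP)
        have h2 := hpos p hp
        gcongr
        exact div_le_self hc.le h2
      · intro v p hp hv _
        exact ⟨p, hp, TypeL.of_z hv⟩
  have hDD : ∀ a b : ι, Tendsto (Z fun v => a ≠ b → ∃ p : ℕ, p.Prime ∧ TypeD p a b v)
      atTop (𝓝 0) := by
    intro a b
    by_cases hab : a = b
    · have h1 : ∀ H, Z (fun v => a ≠ b → ∃ p : ℕ, p.Prime ∧ TypeD p a b v) H = 0 := by
        intro H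
        simp [Z, hab]
      exact tendsto_const_nhds.congr fun H => (h1 H).symm
    · obtain ⟨P₀, h1⟩ := count_typeD hn hab
      refine key (fun p => p ^ 2) (fun p _ => Or.inr rfl) (fun p => {w | TypeDz p a b w}) P₀ (1 / 4)
        (by norm_num) h1 _ ?_
      intro v p hp hv _
      exact ⟨p, hp, TypeD.of_z hp hv⟩
  have hB : ∀ i j l : ι, Tendsto (Z fun v => i ≠ j → j ≠ l → i ≠ l →
      ∃ p : ℕ, p.Prime ∧ TypeB p i j l v) atTop (𝓝 0) := by
    intro i j l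
    by_cases h : i ≠ j ∧ j ≠ l ∧ i ≠ l
    · obtain ⟨hij, hjl, hil⟩ := h
      obtain ⟨P₀, h1⟩ := count_typeB hn hij hjl hil
      refine key (fun p => p ^ 2) (fun p _ => Or.inr rfl) (fun p => {w | TypeBz p i j l w}) P₀
        (1 / 4) (by norm_num) h1 _ ?_
      intro v p hp hv _ _ _
      exact ⟨p, hp, TypeB.of_z hp hv⟩
    · have h1 : ∀ H, Z (fun v => i ≠ j → j ≠ l → i ≠ l →
          ∃ p : ℕ, p.Prime ∧ TypeB p i j l v) H = 0 := by
        intro H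
        have h2 : {v : ι × Fin (n + 1) → ℤ | (∀ i, |v i| ≤ H) ∧ ¬ (i ≠ j → j ≠ l → i ≠ l →
            ∃ p : ℕ, p.Prime ∧ TypeB p i j l v)} = ∅ := by
          ext v
          simp only [Set.mem_ofPred_eq, Set.mem_empty_iff_false, iff_false, not_and, not_not]
          intro _ h3 h4 h5
          exact absurd ⟨h3, h4, h5⟩ h
        simp only [Z, h2, Set.ncard_empty, Nat.cast_zero, zero_div]
      exact tendsto_const_nhds.congr fun H => (h1 H).symm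
  -- the exceptional set
  have hbad : Tendsto (Z GoodG) atTop (𝓝 0) := by
    have hsum : Tendsto (fun H => (∑ x : ι × ι, Z (fun v => x.1 ≠ x.2 →
          ∃ p : ℕ, p.Prime ∧ TypeI p x.1 x.2 v) H) + (∑ x : ι × ι, Z (fun v => x.1 ≠ x.2 →
          ∃ p : ℕ, p.Prime ∧ TypeL p x.1 x.2 v) H) + (∑ x : ι × ι, Z (fun v => x.1 ≠ x.2 →
          ∃ p : ℕ, p.Prime ∧ TypeD p x.1 x.2 v) H) + ∑ x : ι × ι × ι, Z (fun v => x.1 ≠ x.2.1 →
          x.2.1 ≠ x.2.2 → x.1 ≠ x.2.2 → ∃ p : ℕ, p.Prime ∧ TypeB p x.1 x.2.1 x.2.2 v) H)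
        atTop (𝓝 0) := by
      have h1 := ((((tendsto_finsetSum Finset.univ fun (x : ι × ι) _ => hI x.1 x.2).add
        (tendsto_finsetSum Finset.univ fun (x : ι × ι) _ => hL x.1 x.2)).add
        (tendsto_finsetSum Finset.univ fun (x : ι × ι) _ => hDD x.1 x.2)).add
        (tendsto_finsetSum Finset.univ fun (x : ι × ι × ι) _ => hB x.1 x.2.1 x.2.2))
      simpa using h1
    refine squeeze_zero (fun H => by positivity) (fun H => ?_) hsum
    have hfin : ∀ P : (ι × Fin (n + 1) → ℤ) → Prop,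
        ({v : ι × Fin (n + 1) → ℤ | (∀ i, |v i| ≤ H) ∧ ¬ P v}).Finite := fun P =>
      (box_ncard_h15 H).1.subset fun v hv => hv.1
    have hsub : {v : ι × Fin (n + 1) → ℤ | (∀ i, |v i| ≤ H) ∧ ¬ GoodG v} ⊆
        (⋃ x ∈ (Finset.univ : Finset (ι × ι)), {v : ι × Fin (n + 1) → ℤ | (∀ i, |v i| ≤ H) ∧
          ¬ (x.1 ≠ x.2 → ∃ p : ℕ, p.Prime ∧ TypeI p x.1 x.2 v)}) ∪
        (⋃ x ∈ (Finset.univ : Finset (ι × ι)), {v : ι × Fin (n + 1) → ℤ | (∀ i, |v i| ≤ H) ∧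
          ¬ (x.1 ≠ x.2 → ∃ p : ℕ, p.Prime ∧ TypeL p x.1 x.2 v)}) ∪
        (⋃ x ∈ (Finset.univ : Finset (ι × ι)), {v : ι × Fin (n + 1) → ℤ | (∀ i, |v i| ≤ H) ∧
          ¬ (x.1 ≠ x.2 → ∃ p : ℕ, p.Prime ∧ TypeD p x.1 x.2 v)}) ∪
        (⋃ x ∈ (Finset.univ : Finset (ι × ι × ι)), {v : ι × Fin (n + 1) → ℤ |
          (∀ i, |v i| ≤ H) ∧ ¬ (x.1 ≠ x.2.1 → x.2.1 ≠ x.2.2 → x.1 ≠ x.2.2 →
            ∃ p : ℕ, p.Prime ∧ TypeB p x.1 x.2.1 x.2.2 v)}) := by
      rintro v ⟨hv1, hv2⟩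
      by_contra hcon
      apply hv2
      simp only [Set.mem_union, Set.mem_iUnion, Finset.mem_univ, exists_prop, true_and,
        Set.mem_ofPred_eq, not_or, not_exists, not_and, not_not] at hcon
      obtain ⟨⟨⟨h1, h2⟩, h3⟩, h4⟩ := hcon
      exact ⟨fun a b hab => h1 (a, b) hv1 hab, fun a b hab => h2 (a, b) hv1 hab,
        fun a b hab => h3 (a, b) hv1 hab, fun i j l hij hjl hil => h4 (i, j, l) hv1 hij hjl hil⟩
    have hfinU : ∀ {κ : Type} [Fintype κ] (P : κ → (ι × Fin (n + 1) → ℤ) → Prop),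
        (⋃ x ∈ (Finset.univ : Finset κ), {v : ι × Fin (n + 1) → ℤ | (∀ i, |v i| ≤ H) ∧
          ¬ P x v}).Finite := fun P => Finset.univ.finite_toSet.biUnion fun x _ => hfin (P x)
    have hcardU : ∀ {κ : Type} [Fintype κ] (P : κ → (ι × Fin (n + 1) → ℤ) → Prop),
        ((⋃ x ∈ (Finset.univ : Finset κ), {v : ι × Fin (n + 1) → ℤ | (∀ i, |v i| ≤ H) ∧
          ¬ P x v}).ncard : ℝ) ≤ ∑ x : κ, (({v : ι × Fin (n + 1) → ℤ | (∀ i, |v i| ≤ H) ∧
          ¬ P x v}).ncard : ℝ) := by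
      intro κ _ P
      exact_mod_cast Finset.set_ncard_biUnion_le _ _
    have hdiv : ∀ {κ : Type} [Fintype κ] (P : κ → (ι × Fin (n + 1) → ℤ) → Prop),
        ∑ x : κ, Z (P x) H = (∑ x : κ, (({v : ι × Fin (n + 1) → ℤ | (∀ i, |v i| ≤ H) ∧
          ¬ P x v}).ncard : ℝ)) / (2 * H + 1) ^ Fintype.card (ι × Fin (n + 1)) := by
      intro κ _ P
      rw [Finset.sum_div]
    rw [hdiv (fun (x : ι × ι) v => x.1 ≠ x.2 → ∃ p : ℕ, p.Prime ∧ TypeI p x.1 x.2 v),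
      hdiv (fun (x : ι × ι) v => x.1 ≠ x.2 → ∃ p : ℕ, p.Prime ∧ TypeL p x.1 x.2 v),
      hdiv (fun (x : ι × ι) v => x.1 ≠ x.2 → ∃ p : ℕ, p.Prime ∧ TypeD p x.1 x.2 v),
      hdiv (fun (x : ι × ι × ι) v => x.1 ≠ x.2.1 → x.2.1 ≠ x.2.2 → x.1 ≠ x.2.2 →
        ∃ p : ℕ, p.Prime ∧ TypeB p x.1 x.2.1 x.2.2 v), ← add_div, ← add_div, ← add_div]
    refine div_le_div_of_nonneg_right ?_ (by positivity)
    have h5 := Set.ncard_le_ncard hsub (((((hfinU _).union (hfinU _)).union (hfinU _)).union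
      (hfinU fun (x : ι × ι × ι) v => x.1 ≠ x.2.1 → x.2.1 ≠ x.2.2 → x.1 ≠ x.2.2 →
        ∃ p : ℕ, p.Prime ∧ TypeB p x.1 x.2.1 x.2.2 v)))
    have h6 : ∀ A B C D : Set (ι × Fin (n + 1) → ℤ), (A ∪ B ∪ C ∪ D).ncard ≤
        A.ncard + B.ncard + C.ncard + D.ncard := by
      intro A B C D
      have := Set.ncard_union_le (A ∪ B ∪ C) D
      have := Set.ncard_union_le (A ∪ B) C
      have := Set.ncard_union_le A B
      omega
    have h7 : (({v : ι × Fin (n + 1) → ℤ | (∀ i, |v i| ≤ H) ∧ ¬ GoodG v}.ncard : ℕ) : ℝ) ≤ _ :=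
      Nat.cast_le.2 (h5.trans (h6 _ _ _ _))
    refine h7.trans ?_
    push_cast
    gcongr
    · exact hcardU (fun (x : ι × ι) v => x.1 ≠ x.2 → ∃ p : ℕ, p.Prime ∧ TypeI p x.1 x.2 v)
    · exact hcardU (fun (x : ι × ι) v => x.1 ≠ x.2 → ∃ p : ℕ, p.Prime ∧ TypeL p x.1 x.2 v)
    · exact hcardU (fun (x : ι × ι) v => x.1 ≠ x.2 → ∃ p : ℕ, p.Prime ∧ TypeD p x.1 x.2 v)
    · exact hcardU (fun (x : ι × ι × ι) v => x.1 ≠ x.2.1 → x.2.1 ≠ x.2.2 → x.1 ≠ x.2.2 →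
        ∃ p : ℕ, p.Prime ∧ TypeB p x.1 x.2.1 x.2.2 v)
  have hfinal : ∀ H : ℕ, ({v : ι × Fin (n + 1) → ℤ | (∀ i, |v i| ≤ H) ∧ GoodG v}.ncard : ℝ) /
      (2 * H + 1) ^ Fintype.card (ι × Fin (n + 1)) = 1 - Z GoodG H := by
    intro H
    obtain ⟨h1, h2⟩ := box_ncard_h15 (κ := ι × Fin (n + 1)) H
    have h3 : {v : ι × Fin (n + 1) → ℤ | ∀ i, |v i| ≤ H} =
        {v : ι × Fin (n + 1) → ℤ | (∀ i, |v i| ≤ H) ∧ GoodG v} ∪
        {v : ι × Fin (n + 1) → ℤ | (∀ i, |v i| ≤ H) ∧ ¬ GoodG v} := by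
      ext v
      simp only [Set.mem_ofPred_eq, Set.mem_union]
      tauto
    have h4 : Disjoint {v : ι × Fin (n + 1) → ℤ | (∀ i, |v i| ≤ H) ∧ GoodG v}
        {v : ι × Fin (n + 1) → ℤ | (∀ i, |v i| ≤ H) ∧ ¬ GoodG v} := by
      rw [Set.disjoint_left]
      rintro v ⟨_, h5⟩ ⟨_, h6⟩
      exact h6 h5
    have h5 := Set.ncard_union_eq h4 (h1.subset fun v hv => hv.1) (h1.subset fun v hv => hv.1)
    rw [← h3] at h5
    have h6 : (({v : ι × Fin (n + 1) → ℤ | ∀ i, |v i| ≤ H}).ncard : ℝ) =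
        ({v : ι × Fin (n + 1) → ℤ | (∀ i, |v i| ≤ H) ∧ GoodG v}.ncard : ℝ) +
        ({v : ι × Fin (n + 1) → ℤ | (∀ i, |v i| ≤ H) ∧ ¬ GoodG v}.ncard : ℝ) := by
      exact_mod_cast h5
    rw [h2] at h6
    have h7 : (0 : ℝ) < (2 * H + 1) ^ Fintype.card (ι × Fin (n + 1)) := by positivity
    simp only [Z]
    rw [eq_sub_iff_add_eq, ← add_div, ← h6, div_self h7.ne']
  simp_rw [hfinal]
  have h8 := hbad.const_sub 1
  rwa [sub_zero] at h8

end Pool.Agent.Lib.MP_89bcae_ag
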