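import Mathlib
import Pool.Agent.Lib.MP_89bcae_ag.Gph.Base

/-!
# The value of the product in the arithmetic condition

`ν` is a homomorphism from `Kˣ` to `ZMod ℓ` with `ν(-1) = 0`, `K = k(nodes)`. All factors of the
product lie in `K` and are not zero; `ν (w ^ ℓ) = ℓ ν(w) = 0`; `ν (x ^ z) = z ν(x)` for `z ∈ ℤ`. The
set of the nodes is finite (the `α_i - α_j` are not zero), so that the `finprod` is a `Finset.prod`
(see LIndX14.lean, LIndD14.lean and `Sup/Lns` for the case of lines).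
-/

open Polynomial

open scoped Classical

namespace Pool.Agent.Lib.MP_89bcae_ag

open Superelliptic

universe u

section

variable {F : Type u} [Field F] {K : Subfield F}

lemma IsVal.one {A : Type*} [AddCommGroup A] {ν : F → A} (h : IsVal K ν) : ν 1 = 0 := by
  have h1 := h.mul 1 K.one_mem 1 K.one_mem one_ne_zero one_ne_zero
  rw [one_mul] at h1
  exact left_eq_add.1 h1

lemma IsVal.neg {A : Type*} [AddCommGroup A] {ν : F → A} (h : IsVal K ν) {x : F} (hx : x ∈ K)
    (h0 : x ≠ 0) : ν (-x) = ν x := by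
  have h1 := h.mul (-1) (K.neg_mem K.one_mem) x hx (neg_ne_zero.2 one_ne_zero) h0
  rw [neg_one_mul, h.neg_one, zero_add] at h1
  exact h1

lemma IsVal.div {A : Type*} [AddCommGroup A] {ν : F → A} (h : IsVal K ν) {x y : F} (hx : x ∈ K)
    (hy : y ∈ K) (h0 : x ≠ 0) (h1 : y ≠ 0) : ν (x / y) = ν x - ν y := by
  have h2 := h.mul (x / y) (K.div_mem hx hy) y hy (div_ne_zero h0 h1) h1
  rw [div_mul_cancel₀ x h1] at h2
  rw [h2, add_sub_cancel_right]

lemma IsVal.zpow {A : Type*} [AddCommGroup A] {ν : F → A} (h : IsVal K ν) {x : F} (hx : x ∈ K)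
    (h0 : x ≠ 0) (z : ℤ) : ν (x ^ z) = z • ν x := by
  induction z using Int.induction_on with
  | zero => rw [zpow_zero, zero_smul, h.one]
  | succ n ih =>
    rw [zpow_add_one₀ h0, h.mul _ (K.zpow_mem hx _) x hx (zpow_ne_zero _ h0) h0, ih, add_smul,
      one_smul]
  | pred n ih =>
    have h2 := h.mul (x ^ (-(n : ℤ) - 1)) (K.zpow_mem hx _) x hx (zpow_ne_zero _ h0) h0
    rw [← zpow_add_one₀ h0, sub_add_cancel, ih] at h2
    rw [sub_smul, one_smul, h2, add_sub_cancel_right]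

lemma IsVal.prod {A : Type*} [AddCommGroup A] {ν : F → A} (h : IsVal K ν) {κ : Type*}
    (s : Finset κ) (f : κ → F) (hf : ∀ i ∈ s, f i ∈ K) (h0 : ∀ i ∈ s, f i ≠ 0) :
    ν (∏ i ∈ s, f i) = ∑ i ∈ s, ν (f i) := by
  induction s using Finset.induction_on with
  | empty => rw [Finset.prod_empty, Finset.sum_empty, h.one]
  | insert a s ha ih =>
    have hf' : ∀ i ∈ s, f i ∈ K := fun i hi => hf i (Finset.mem_insert_of_mem hi)
    have h0' : ∀ i ∈ s, f i ≠ 0 := fun i hi => h0 i (Finset.mem_insert_of_mem hi)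
    rw [Finset.prod_insert ha, Finset.sum_insert ha,
      h.mul _ (hf a (Finset.mem_insert_self a s)) _ (prod_mem hf')
        (h0 a (Finset.mem_insert_self a s)) (Finset.prod_ne_zero_iff.2 h0'), ih hf' h0']

end

section

variable {k F : Type u} [Field k] [Field F] [Algebra k F] {ι : Type} [Fintype ι] [LinearOrder ι]

/-- The set of the nodes is finite. -/
lemma finite_nodes (α : ι → k[X]) (hα : IsArrangement α) : (nodes k F α).Finite := by
  have h1 : nodes k F α ⊆ ⋃ x : ι × ι, (α x.1 - α x.2).rootSet F := by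
    rintro s ⟨i, j, hij, hs⟩
    rw [Set.mem_iUnion]
    refine ⟨(i, j), ?_⟩
    rw [mem_rootSet]
    refine ⟨fun h0 => ?_, ?_⟩
    · apply hα.natDegree_ne_zero i j hij
      rw [h0, natDegree_zero]
    · rw [map_sub, hs, sub_self]
  exact (Set.finite_iUnion fun x => rootSet_finite _ _).subset h1

/-- ordered pairs -/
lemma nodes_pair_h12 (α : ι → k[X]) (hα : IsArrangement α) {a b c d : ι} {s : F} (hab : a < b)
    (hcd : c < d) (h : aeval s (α a) = aeval s (α b)) (h' : aeval s (α c) = aeval s (α d)) :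
    a = c ∧ b = d := by
  by_contra hne
  have hsep := hα.separable
  rw [Finset.prod_sigma'] at hsep
  have hm1 : (⟨a, b⟩ : (_ : ι) × ι) ∈
      (Finset.univ : Finset ι).sigma fun i => Finset.univ.filter fun j => i < j := by
    rw [Finset.mem_sigma]
    exact ⟨Finset.mem_univ _, Finset.mem_filter.2 ⟨Finset.mem_univ _, hab⟩⟩
  have hm2 : (⟨c, d⟩ : (_ : ι) × ι) ∈
      ((Finset.univ : Finset ι).sigma fun i => Finset.univ.filter fun j => i < j).erase
        ⟨a, b⟩ := by
    rw [Finset.mem_erase, Finset.mem_sigma]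
    refine ⟨fun he => ?_, Finset.mem_univ _, Finset.mem_filter.2 ⟨Finset.mem_univ _, hcd⟩⟩
    rw [Sigma.mk.injEq] at he
    exact hne ⟨he.1.symm, (eq_of_heq he.2).symm⟩
  rw [← Finset.mul_prod_erase _ _ hm1] at hsep
  have hco := hsep.isCoprime.of_isCoprime_of_dvd_right (Finset.dvd_prod_of_mem _ hm2)
  obtain ⟨u, v, huv⟩ := hco
  have h1 := congrArg (aeval s) huv
  simp only [map_add, map_mul, map_sub, map_one] at h1
  rw [h, h', sub_self, sub_self, mul_zero, mul_zero, add_zero] at h1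
  exact zero_ne_one h1

/-- A node lies on exactly two of the graphs. -/
lemma nodes_pair (α : ι → k[X]) (hα : IsArrangement α) {a b c d : ι} {s : F} (hab : a ≠ b)
    (hcd : c ≠ d) (h : aeval s (α a) = aeval s (α b)) (h' : aeval s (α c) = aeval s (α d)) :
    ({a, b} : Set ι) = {c, d} := by
  rcases lt_or_gt_of_ne hab with h1 | h1
  · rcases lt_or_gt_of_ne hcd with h2 | h2
    · obtain ⟨rfl, rfl⟩ := nodes_pair_h12 α hα h1 h2 h h'
      rfl
    · obtain ⟨rfl, rfl⟩ := nodes_pair_h12 α hα h1 h2 h h'.symm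
      exact Set.pair_comm _ _
  · rcases lt_or_gt_of_ne hcd with h2 | h2
    · obtain ⟨rfl, rfl⟩ := nodes_pair_h12 α hα h1 h2 h.symm h'
      exact Set.pair_comm _ _
    · obtain ⟨rfl, rfl⟩ := nodes_pair_h12 α hα h1 h2 h.symm h'.symm
      rfl

omit [Fintype ι] [LinearOrder ι] in
lemma aeval_mem_h92 (α : ι → k[X]) {s : F} (hs : s ∈ nodes k F α) (p : k[X]) :
    aeval s p ∈ (IntermediateField.adjoin k (nodes k F α)).toSubfield := by
  have h1 : aeval s p ∈ Algebra.adjoin k ({s} : Set F) := aeval_mem_adjoin_singleton k s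
  have h2 : Algebra.adjoin k ({s} : Set F) ≤
      (IntermediateField.adjoin k (nodes k F α)).toSubalgebra := by
    refine Algebra.adjoin_le ?_
    rintro x rfl
    exact IntermediateField.subset_adjoin k _ hs
  exact h2 h1

lemma derivative_ne_zero_h92 (α : ι → k[X]) (hα : IsArrangement α) {i j : ι} {s : F} (hij : i ≠ j)
    (hs : aeval s (α i) = aeval s (α j)) : aeval s (derivative (α i - α j)) ≠ 0 := by
  have key : ∀ a b : ι, a < b → aeval s (α a) = aeval s (α b) →
      aeval s (derivative (α a - α b)) ≠ 0 := by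
    intro a b hab h
    have hsep : (α a - α b).Separable := by
      refine hα.separable.of_dvd ?_
      refine dvd_trans ?_ (Finset.dvd_prod_of_mem _ (Finset.mem_univ a))
      exact Finset.dvd_prod_of_mem (fun j => α a - α j) (by simp [hab])
    exact hsep.aeval_derivative_ne_zero (by rw [map_sub, h, sub_self])
  rcases lt_or_gt_of_ne hij with h | h
  · exact key i j h hs
  · have h1 := key j i h hs.symm
    intro h2
    apply h1
    have h3 : derivative (α j - α i) = -derivative (α i - α j) := by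
      rw [← derivative_neg, neg_sub]
    rw [h3, map_neg, h2, neg_zero]

/-- The relation given by the homomorphism `ν` at the node `s`. -/
theorem val_eqn {ℓ : ℕ} [Fact ℓ.Prime] (α : ι → k[X]) (hα : IsArrangement α) (W : ι → ℕ)
    (ν : F → ZMod ℓ) (hν : IsVal (IntermediateField.adjoin k (nodes k F α)).toSubfield ν)
    (e : ι → F → ℤ) (κ : F) (c : ι → F) (hκ : κ ≠ 0)
    (hκK : κ ∈ IntermediateField.adjoin k (nodes k F α))
    (hc : ∀ i, c i ≠ 0 ∧ c i ∈ IntermediateField.adjoin k (nodes k F α))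
    {i j : ι} {s : F} (hij : i ≠ j) (hs : aeval s (α i) = aeval s (α j))
    (hw : ∃ w ∈ IntermediateField.adjoin k (nodes k F α),
        w ^ ℓ = κ ^ e i s * (c i / c j) ^ W j *
          aeval s (derivative (α i - α j)) ^ (-((W i : ℤ) + W j) * e i s) *
          (∏ l ∈ Finset.univ.filter fun l => l ≠ i ∧ l ≠ j,
            (aeval s (α i) - aeval s (α l)) ^ (-(W l : ℤ) * e i s)) *
          ∏ᶠ s' ∈ {s' ∈ nodes k F α | s' ≠ s}, (s - s') ^ ((W j : ℤ) * (e i s' - e j s'))) :
    (e i s : ZMod ℓ) * ν κ + W j * (ν (c i) - ν (c j)) -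
      ((W i : ZMod ℓ) + W j) * e i s * ν (aeval s (derivative (α i - α j))) -
      (∑ l ∈ Finset.univ.filter fun l => l ≠ i ∧ l ≠ j,
        (W l : ZMod ℓ) * e i s * ν (aeval s (α i) - aeval s (α l))) +
      ∑ s' ∈ (finite_nodes (F := F) α hα).toFinset.erase s,
        (W j : ZMod ℓ) * (e i s' - e j s') * ν (s - s') = 0 := by
  obtain ⟨w, hwK, hw⟩ := hw
  set K := (IntermediateField.adjoin k (nodes k F α)).toSubfield with hK
  have hsn : s ∈ nodes k F α := ⟨i, j, hij, hs⟩
  have hsK : s ∈ K := by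
    have := aeval_mem_h92 α hsn (X : k[X])
    rwa [aeval_X] at this
  have hnK : ∀ s' ∈ nodes k F α, s' ∈ K := by
    intro s' hs'
    have := aeval_mem_h92 α hs' (X : k[X])
    rwa [aeval_X] at this
  have hder : aeval s (derivative (α i - α j)) ≠ 0 := derivative_ne_zero_h92 α hα hij hs
  have hderK : aeval s (derivative (α i - α j)) ∈ K := aeval_mem_h92 α hsn _
  have hval : ∀ l, l ≠ i → l ≠ j → aeval s (α i) - aeval s (α l) ≠ 0 := by
    intro l hli hlj h
    have h1 := nodes_pair α hα hij (Ne.symm hli) hs (sub_eq_zero.mp h)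
    have h2 : l ∈ ({i, j} : Set ι) := by rw [h1]; simp
    rcases h2 with h2 | h2
    · exact hli h2
    · exact hlj h2
  have hvalK : ∀ l, aeval s (α i) - aeval s (α l) ∈ K := fun l =>
    sub_mem (aeval_mem_h92 α hsn _) (aeval_mem_h92 α hsn _)
  have hset : {s' ∈ nodes k F α | s' ≠ s} =
      (((finite_nodes (F := F) α hα).toFinset.erase s : Finset F) : Set F) := by
    ext x
    simp [and_comm]
  rw [hset, finprod_mem_coe_finset] at hw
  set N := (finite_nodes (F := F) α hα).toFinset.erase s with hN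
  have hNmem : ∀ s' ∈ N, s' ∈ nodes k F α ∧ s' ≠ s := by
    intro s' hs'
    rw [hN, Finset.mem_erase] at hs'
    exact ⟨(Set.Finite.mem_toFinset _).1 hs'.2, hs'.1⟩
  -- the five factors
  have f1 : κ ^ e i s ≠ 0 := zpow_ne_zero _ hκ
  have f1K : κ ^ e i s ∈ K := zpow_mem hκK _
  have f2b : c i / c j ≠ 0 := div_ne_zero (hc i).1 (hc j).1
  have f2bK : c i / c j ∈ K := div_mem (hc i).2 (hc j).2
  have f2 : (c i / c j) ^ W j ≠ 0 := pow_ne_zero _ f2b
  have f2K : (c i / c j) ^ W j ∈ K := pow_mem f2bK _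
  have f3 : aeval s (derivative (α i - α j)) ^ (-((W i : ℤ) + W j) * e i s) ≠ 0 :=
    zpow_ne_zero _ hder
  have f3K : aeval s (derivative (α i - α j)) ^ (-((W i : ℤ) + W j) * e i s) ∈ K :=
    zpow_mem hderK _
  have g4 : ∀ l ∈ Finset.univ.filter fun l => l ≠ i ∧ l ≠ j,
      (aeval s (α i) - aeval s (α l)) ^ (-(W l : ℤ) * e i s) ≠ 0 := by
    intro l hl
    rw [Finset.mem_filter] at hl
    exact zpow_ne_zero _ (hval l hl.2.1 hl.2.2)
  have g4K : ∀ l ∈ Finset.univ.filter fun l => l ≠ i ∧ l ≠ j,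
      (aeval s (α i) - aeval s (α l)) ^ (-(W l : ℤ) * e i s) ∈ K :=
    fun l _ => zpow_mem (hvalK l) _
  have f4 := Finset.prod_ne_zero_iff.2 g4
  have f4K := prod_mem g4K
  have g5 : ∀ s' ∈ N, (s - s') ^ ((W j : ℤ) * (e i s' - e j s')) ≠ 0 := by
    intro s' hs'
    exact zpow_ne_zero _ (sub_ne_zero.2 (Ne.symm (hNmem s' hs').2))
  have g5K : ∀ s' ∈ N, (s - s') ^ ((W j : ℤ) * (e i s' - e j s')) ∈ K := by
    intro s' hs'
    exact zpow_mem (sub_mem hsK (hnK s' (hNmem s' hs').1)) _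
  have f5 := Finset.prod_ne_zero_iff.2 g5
  have f5K := prod_mem g5K
  have m2 := mul_ne_zero f1 f2
  have m2K := mul_mem f1K f2K
  have m3 := mul_ne_zero m2 f3
  have m3K := mul_mem m2K f3K
  have m4 := mul_ne_zero m3 f4
  have m4K := mul_mem m3K f4K
  have m5 := mul_ne_zero m4 f5
  have hw0 : w ≠ 0 := by
    rintro rfl
    apply m5
    rw [← hw, zero_pow (Fact.out : ℓ.Prime).ne_zero]
  have hpow : ν (w ^ ℓ) = 0 := by
    have h1 := hν.zpow hwK hw0 (ℓ : ℤ)
    rw [zpow_natCast] at h1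
    rw [h1]
    simp
  rw [hw, hν.mul _ m4K _ f5K m4 f5, hν.mul _ m3K _ f4K m3 f4, hν.mul _ m2K _ f3K m2 f3,
    hν.mul _ f1K _ f2K f1 f2, hν.prod _ _ g4K g4, hν.prod _ _ g5K g5, hν.zpow hκK hκ,
    hν.zpow hderK hder] at hpow
  have h2 : ν ((c i / c j) ^ W j) = (W j : ZMod ℓ) * (ν (c i) - ν (c j)) := by
    rw [← zpow_natCast, hν.zpow f2bK f2b, hν.div (hc i).2 (hc j).2 (hc i).1 (hc j).1,
      zsmul_eq_mul]
    simp
  have h4 : ∑ l ∈ Finset.univ.filter (fun l => l ≠ i ∧ l ≠ j),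
      ν ((aeval s (α i) - aeval s (α l)) ^ (-(W l : ℤ) * e i s)) =
      -∑ l ∈ Finset.univ.filter (fun l => l ≠ i ∧ l ≠ j),
        (W l : ZMod ℓ) * e i s * ν (aeval s (α i) - aeval s (α l)) := by
    rw [← Finset.sum_neg_distrib]
    refine Finset.sum_congr rfl fun l hl => ?_
    rw [Finset.mem_filter] at hl
    rw [hν.zpow (hvalK l) (hval l hl.2.1 hl.2.2), zsmul_eq_mul]
    push_cast
    ring
  have h5 : ∑ s' ∈ N, ν ((s - s') ^ ((W j : ℤ) * (e i s' - e j s'))) =
      ∑ s' ∈ N, (W j : ZMod ℓ) * (e i s' - e j s') * ν (s - s') := by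
    refine Finset.sum_congr rfl fun s' hs' => ?_
    rw [hν.zpow (sub_mem hsK (hnK s' (hNmem s' hs').1))
      (sub_ne_zero.2 (Ne.symm (hNmem s' hs').2)), zsmul_eq_mul]
    push_cast
    ring
  rw [h2, h4, h5, zsmul_eq_mul, zsmul_eq_mul] at hpow
  push_cast at hpow
  linear_combination hpow

end

end Pool.Agent.Lib.MP_89bcae_ag
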