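import Mathlib
import Pool.Agent.Lib.MP_89bcae_ag.Gph.Core
import Pool.Agent.Lib.MP_89bcae_ag.Gph.Eqn

/-!
# The criterion for graphs of polynomials

Let `x_ij(s) = e_i(s) / W_j` in `ZMod ℓ` for `s` in the set `N i j` of the roots of `α_i - α_j`. The
condition on the sums gives `e_l(s) = 0` for `l ≠ i, j` and `W_i e_i(s) + W_j e_j(s) = 0`, that is
`x_ji = -x_ij`. For a triple `i, j, l` and `r ∈ N i j`, `r' ∈ N j l`, `r'' ∈ N i l`, the homomorphism
`ν` of the hypothesis (`TripleV`, value `h`) gives, by `val_eqn` at `r` divided by `W_j`, with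
`v = ν(κ)`, `γ_i = ν(c_i)`:
`v x_ij(r) + γ_i - γ_j - W_l h x_ij(r) + (e_i(r'') - e_j(r'')) h + (e_i(r') - e_j(r')) h = 0`, where
`e_i(r'') = W_l x_il(r'')`, `e_j(r'') = 0`, `e_i(r') = 0`, `e_j(r') = W_l x_jl(r')`; this is (1) of
`RelG`. (2) and (3) are the same relation at `r'` and `r''` (the sign: at `r''`,
`v x_il(r'') + γ_i - γ_l - W_j h x_il(r'') + W_j x_ij(r) h + W_j x_jl(r') h = 0`, since
`e_i(r) = W_j x_ij(r)`, `-e_l(r') = -W_j x_lj(r') = W_j x_jl(r')`). (4) is the relation at the other
nodes. Conclude with `core_graph`; choose integers `b_i` with the given classes modulo `ℓ`.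
The number of the roots of `α_i - α_j` is its degree (`α_i - α_j` is separable by `hα`, and splits in
the algebraically closed field `F`).
-/

open Polynomial

open scoped Classical

namespace Pool.Agent.Lib.MP_89bcae_ag

open Superelliptic

universe u

variable {k F : Type u} [Field k] [Field F] [Algebra k F] [IsAlgClosed F] {ι : Type} [Fintype ι]
  [LinearOrder ι]

omit [IsAlgClosed F] in
lemma sep_h96 (α : ι → k[X]) (hα : IsArrangement α) {i j : ι} (hij : i ≠ j) :
    (α i - α j).Separable := by
  have h1 : ∀ a b : ι, a < b → (α a - α b).Separable := by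
    intro a b hab
    refine hα.separable.of_dvd ?_
    have h2 : (α a - α b) ∣ ∏ j ∈ Finset.univ.filter fun j => a < j, (α a - α j) :=
      Finset.dvd_prod_of_mem (fun j => α a - α j)
        (Finset.mem_filter.mpr ⟨Finset.mem_univ _, hab⟩)
    exact h2.trans (Finset.dvd_prod_of_mem
      (fun i => ∏ j ∈ Finset.univ.filter fun j => i < j, (α i - α j)) (Finset.mem_univ a))
  rcases lt_or_gt_of_ne hij with h | h
  · exact h1 i j h
  · exact (h1 j i h).of_dvd ⟨-1, by ring⟩

lemma roots_h96 (α : ι → k[X]) (hα : IsArrangement α) {i j : ι} (hij : i ≠ j) (T : Finset F)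
    (hT : T.card < (α i - α j).natDegree) :
    ∃ s : F, aeval s (α i) = aeval s (α j) ∧ s ∉ T := by
  have hsep := sep_h96 α hα hij
  have hc : ((α i - α j).aroots F).toFinset.card = (α i - α j).natDegree := by
    have hsplit : ((α i - α j).map (algebraMap k F)).Splits := IsAlgClosed.splits _
    rw [Multiset.toFinset_card_of_nodup (nodup_roots hsep.map), ← hsplit.natDegree_eq_card_roots,
      natDegree_map]
  rw [← hc] at hT
  obtain ⟨s, hs, hsT⟩ := Finset.exists_mem_notMem_of_card_lt_card hT
  refine ⟨s, ?_, hsT⟩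
  rw [Multiset.mem_toFinset, mem_aroots] at hs
  have h1 := hs.2
  rw [map_sub] at h1
  exact sub_eq_zero.mp h1

/-- the relation at a node of the collision -/
lemma rel_h96 {ℓ : ℕ} [Fact ℓ.Prime] (α : ι → k[X]) (hα : IsArrangement α) (W : ι → ℕ)
    (ν : F → ZMod ℓ) (hν : IsVal (IntermediateField.adjoin k (nodes k F α)).toSubfield ν)
    (e : ι → F → ℤ) (κ : F) (c : ι → F) (hκ : κ ≠ 0)
    (hκK : κ ∈ IntermediateField.adjoin k (nodes k F α))
    (hc : ∀ i, c i ≠ 0 ∧ c i ∈ IntermediateField.adjoin k (nodes k F α))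
    {a b d : ι} {s t u : F} (hab : a ≠ b) (hs : aeval s (α a) = aeval s (α b))
    (hw : ∃ w ∈ IntermediateField.adjoin k (nodes k F α),
        w ^ ℓ = κ ^ e a s * (c a / c b) ^ W b *
          aeval s (derivative (α a - α b)) ^ (-((W a : ℤ) + W b) * e a s) *
          (∏ l ∈ Finset.univ.filter fun l => l ≠ a ∧ l ≠ b,
            (aeval s (α a) - aeval s (α l)) ^ (-(W l : ℤ) * e a s)) *
          ∏ᶠ s' ∈ {s' ∈ nodes k F α | s' ≠ s}, (s - s') ^ ((W b : ℤ) * (e a s' - e b s')))
    (hda : d ≠ a) (hdb : d ≠ b) (ht : t ∈ nodes k F α) (hu : u ∈ nodes k F α) (hts : t ≠ s)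
    (hus : u ≠ s) (htu : t ≠ u) (h : ZMod ℓ)
    (hder : ν (aeval s (derivative (α a - α b))) = 0)
    (hval : ∀ l, l ≠ a → l ≠ b → ν (aeval s (α a) - aeval s (α l)) = if l = d then h else 0)
    (hdif : ∀ s' ∈ nodes k F α, s' ≠ s → ν (s - s') = if s' = t ∨ s' = u then h else 0) :
    (e a s : ZMod ℓ) * ν κ + W b * (ν (c a) - ν (c b)) - W d * e a s * h +
      W b * (((e a t : ZMod ℓ) - e b t) + ((e a u : ZMod ℓ) - e b u)) * h = 0 := by
  have key := val_eqn α hα W ν hν e κ c hκ hκK hc hab hs hw
  have h1 : (∑ l ∈ Finset.univ.filter fun l => l ≠ a ∧ l ≠ b,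
      (W l : ZMod ℓ) * e a s * ν (aeval s (α a) - aeval s (α l))) = W d * e a s * h := by
    rw [Finset.sum_eq_single d]
    · rw [hval d hda hdb, if_pos rfl]
    · intro l hl hld
      rw [Finset.mem_filter] at hl
      rw [hval l hl.2.1 hl.2.2, if_neg hld, mul_zero]
    · intro hd
      exact absurd (Finset.mem_filter.mpr ⟨Finset.mem_univ _, hda, hdb⟩) hd
  have h2 : ∑ s' ∈ (finite_nodes (F := F) α hα).toFinset.erase s,
        (W b : ZMod ℓ) * (e a s' - e b s') * ν (s - s') =
      W b * (((e a t : ZMod ℓ) - e b t) + ((e a u : ZMod ℓ) - e b u)) * h := by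
    have hsub : ({t, u} : Finset F) ⊆ (finite_nodes (F := F) α hα).toFinset.erase s := by
      intro x hx
      rw [Finset.mem_insert, Finset.mem_singleton] at hx
      rw [Finset.mem_erase, Set.Finite.mem_toFinset]
      rcases hx with rfl | rfl
      · exact ⟨hts, ht⟩
      · exact ⟨hus, hu⟩
    rw [← Finset.sum_subset hsub, Finset.sum_pair htu, hdif t ht hts, hdif u hu hus,
      if_pos (Or.inl rfl), if_pos (Or.inr rfl)]
    · ring
    · intro x hx hx2
      rw [Finset.mem_erase, Set.Finite.mem_toFinset] at hx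
      rw [Finset.mem_insert, Finset.mem_singleton] at hx2
      rw [hdif x hx.2 hx.1, if_neg hx2, mul_zero]
  rw [hder, h1, h2] at key
  linear_combination key

/-- the relation at the other nodes -/
lemma rel0_h96 {ℓ : ℕ} [Fact ℓ.Prime] (α : ι → k[X]) (hα : IsArrangement α) (W : ι → ℕ)
    (ν : F → ZMod ℓ) (hν : IsVal (IntermediateField.adjoin k (nodes k F α)).toSubfield ν)
    (e : ι → F → ℤ) (κ : F) (c : ι → F) (hκ : κ ≠ 0)
    (hκK : κ ∈ IntermediateField.adjoin k (nodes k F α))
    (hc : ∀ i, c i ≠ 0 ∧ c i ∈ IntermediateField.adjoin k (nodes k F α))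
    {a b : ι} {s : F} (hab : a ≠ b) (hs : aeval s (α a) = aeval s (α b))
    (hw : ∃ w ∈ IntermediateField.adjoin k (nodes k F α),
        w ^ ℓ = κ ^ e a s * (c a / c b) ^ W b *
          aeval s (derivative (α a - α b)) ^ (-((W a : ℤ) + W b) * e a s) *
          (∏ l ∈ Finset.univ.filter fun l => l ≠ a ∧ l ≠ b,
            (aeval s (α a) - aeval s (α l)) ^ (-(W l : ℤ) * e a s)) *
          ∏ᶠ s' ∈ {s' ∈ nodes k F α | s' ≠ s}, (s - s') ^ ((W b : ℤ) * (e a s' - e b s')))
    (hder : ν (aeval s (derivative (α a - α b))) = 0)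
    (hval : ∀ l, l ≠ a → l ≠ b → ν (aeval s (α a) - aeval s (α l)) = 0)
    (hdif : ∀ s' ∈ nodes k F α, s' ≠ s → ν (s - s') = 0) :
    (e a s : ZMod ℓ) * ν κ + W b * (ν (c a) - ν (c b)) = 0 := by
  have key := val_eqn α hα W ν hν e κ c hκ hκK hc hab hs hw
  have h1 : (∑ l ∈ Finset.univ.filter fun l => l ≠ a ∧ l ≠ b,
      (W l : ZMod ℓ) * e a s * ν (aeval s (α a) - aeval s (α l))) = 0 := by
    apply Finset.sum_eq_zero
    intro l hl
    rw [Finset.mem_filter] at hl
    rw [hval l hl.2.1 hl.2.2, mul_zero]
  have h2 : ∑ s' ∈ (finite_nodes (F := F) α hα).toFinset.erase s,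
        (W b : ZMod ℓ) * (e a s' - e b s') * ν (s - s') = 0 := by
    apply Finset.sum_eq_zero
    intro x hx
    rw [Finset.mem_erase, Set.Finite.mem_toFinset] at hx
    rw [hdif x hx.2 hx.1, mul_zero]
  rw [hder, h1, h2] at key
  linear_combination key

theorem indepW_of_tripleV {ℓ : ℕ} (hℓ : ℓ.Prime) (α : ι → k[X]) (hα : IsArrangement α)
    (hι : 3 ≤ Fintype.card ι)
    (hdeg : (∀ i j, i ≠ j → 3 ≤ (α i - α j).natDegree) ∨
      (4 ≤ Fintype.card ι ∧ ∀ i j, i ≠ j → 2 ≤ (α i - α j).natDegree))
    (W : ι → ℕ) (hW : ∀ i, (W i).Coprime ℓ)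
    (hV : ∀ i j l, i ≠ j → j ≠ l → i ≠ l → ∀ r r' r'' : F, aeval r (α i) = aeval r (α j) →
      aeval r' (α j) = aeval r' (α l) → aeval r'' (α i) = aeval r'' (α l) →
      ∃ (ν : F → ZMod ℓ) (h : ZMod ℓ),
        IsVal (IntermediateField.adjoin k (nodes k F α)).toSubfield ν ∧ h ≠ 0 ∧
          TripleV ν α h i j l r r' r'') :
    ArrangementIndependentW ℓ k F W α := by
  have : Fact ℓ.Prime := ⟨hℓ⟩
  intro e κ c hκ hκK hc hsum hpow0
  have hpow : ∀ (i j : ι) (s : F), i ≠ j → aeval s (α i) = aeval s (α j) →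
      ∃ w ∈ IntermediateField.adjoin k (nodes k F α),
        w ^ ℓ = κ ^ e i s * (c i / c j) ^ W j *
          aeval s (derivative (α i - α j)) ^ (-((W i : ℤ) + W j) * e i s) *
          (∏ l ∈ Finset.univ.filter fun l => l ≠ i ∧ l ≠ j,
            (aeval s (α i) - aeval s (α l)) ^ (-(W l : ℤ) * e i s)) *
          ∏ᶠ s' ∈ {s' ∈ nodes k F α | s' ≠ s}, (s - s') ^ ((W j : ℤ) * (e i s' - e j s')) := by
    intro i j s hij hs
    obtain ⟨w, hw1, hw2⟩ := hpow0 i j s hij hs
    refine ⟨w, hw1, hw2.trans ?_⟩
    congr 2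
    apply Finset.prod_congr _ (fun _ _ => rfl)
    ext l
    simp only [Finset.mem_filter]
  have hw : ∀ i, (W i : ZMod ℓ) ≠ 0 := by
    intro i h0
    rw [ZMod.natCast_eq_zero_iff] at h0
    exact (hℓ.coprime_iff_not_dvd.mp (hW i).symm) h0
  -- the sets
  have hnode : ∀ {a b : ι} {s : F}, a ≠ b → aeval s (α a) = aeval s (α b) → s ∈ nodes k F α :=
    fun hab hs => ⟨_, _, hab, hs⟩
  -- the values of `e` at the nodes
  have e0 : ∀ a b d : ι, ∀ s : F, a ≠ b → aeval s (α a) = aeval s (α b) → d ≠ a → d ≠ b →
      (e d s : ZMod ℓ) = 0 := by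
    intro a b d s hab hs hda hdb
    have h1 := hsum s (hnode hab hs) d
    have h2 : (Finset.univ.filter fun j => aeval s (α j) = aeval s (α d)) = {d} := by
      ext j
      rw [Finset.mem_filter, Finset.mem_singleton]
      constructor
      · rintro ⟨-, hj⟩
        by_contra hjd
        have h3 := nodes_pair α hα hab hjd hs hj
        have h4 : d ∈ ({a, b} : Set ι) := by
          rw [h3]
          exact Set.mem_insert_of_mem _ rfl
        rcases h4 with h4 | h4
        · exact hda h4
        · exact hdb h4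
      · rintro rfl
        exact ⟨Finset.mem_univ _, rfl⟩
    rw [h2, Finset.sum_singleton] at h1
    have h3 : (((W d : ℤ) * e d s : ℤ) : ZMod ℓ) = 0 := (ZMod.intCast_zmod_eq_zero_iff_dvd _ _).mpr h1
    push_cast at h3
    exact (mul_eq_zero.mp h3).resolve_left (hw d)
  have e1 : ∀ a b : ι, ∀ s : F, a ≠ b → aeval s (α a) = aeval s (α b) →
      (W a : ZMod ℓ) * e a s + W b * e b s = 0 := by
    intro a b s hab hs
    have h1 := hsum s (hnode hab hs) a
    have h2 : (Finset.univ.filter fun j => aeval s (α j) = aeval s (α a)) = {a, b} := by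
      ext j
      rw [Finset.mem_filter, Finset.mem_insert, Finset.mem_singleton]
      constructor
      · rintro ⟨-, hj⟩
        by_contra hjd
        rw [not_or] at hjd
        have h3 := nodes_pair α hα hab hjd.1 hs hj
        have h4 : j ∈ ({a, b} : Set ι) := by
          rw [h3]
          exact Set.mem_insert _ _
        rcases h4 with h4 | h4
        · exact hjd.1 h4
        · exact hjd.2 h4
      · rintro (rfl | rfl)
        · exact ⟨Finset.mem_univ _, rfl⟩
        · exact ⟨Finset.mem_univ _, hs.symm⟩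
    rw [h2, Finset.sum_pair hab] at h1
    have h3 : (((W a : ℤ) * e a s + (W b : ℤ) * e b s : ℤ) : ZMod ℓ) = 0 :=
      (ZMod.intCast_zmod_eq_zero_iff_dvd _ _).mpr h1
    push_cast at h3
    exact h3
  have hpair : ∀ {a b c d : ι} {s t : F}, a ≠ b → c ≠ d → aeval s (α a) = aeval s (α b) →
      aeval t (α c) = aeval t (α d) → ({a, b} : Set ι) ≠ {c, d} → s ≠ t := by
    rintro a b c d s t hab hcd hs ht hne rfl
    exact hne (nodes_pair α hα hab hcd hs ht)
  obtain ⟨b, hb⟩ := core_graph (A := ZMod ℓ) hι
    (fun i j => {s : F | aeval s (α i) = aeval s (α j)})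
    (fun i j => by
      ext s
      exact eq_comm)
    (fun a b c d s hab hcd hs hs' => nodes_pair α hα hab hcd hs hs')
    (by
      rcases hdeg with hd | ⟨hd4, hd⟩
      · left
        intro i j hij r r'
        obtain ⟨s, hs, hsT⟩ := roots_h96 α hα hij ({r, r'} : Finset F)
          (lt_of_le_of_lt Finset.card_le_two (by have := hd i j hij; omega))
        rw [Finset.mem_insert, Finset.mem_singleton, not_or] at hsT
        exact ⟨s, hs, hsT.1, hsT.2⟩
      · right
        refine ⟨hd4, fun i j hij r => ?_⟩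
        obtain ⟨s, hs, hsT⟩ := roots_h96 α hα hij ({r} : Finset F)
          (by rw [Finset.card_singleton]; have := hd i j hij; omega)
        rw [Finset.mem_singleton] at hsT
        exact ⟨s, hs, hsT⟩)
    (fun i j s => (e i s : ZMod ℓ) / W j)
    (fun i j s hij hs => by
      have h1 := e1 i j s hij hs
      have h2 := hw i
      have h3 := hw j
      field_simp
      linear_combination h1)
    (fun i => (W i : ZMod ℓ)) hw
    (by
      intro i j l hij hjl hil r hr r' hr' r'' hr''
      obtain ⟨ν, h, hν, hh, hT⟩ := hV i j l hij hjl hil r r' r'' hr hr' hr''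
      have hr0 : aeval r (α i) = aeval r (α j) := hr
      have hr0' : aeval r' (α j) = aeval r' (α l) := hr'
      have hr0'' : aeval r'' (α i) = aeval r'' (α l) := hr''
      have q1 : ({i, j} : Set ι) ≠ {j, l} := by
        intro h
        have h1 : i ∈ ({j, l} : Set ι) := by rw [← h]; exact Set.mem_insert _ _
        rcases h1 with h1 | h1
        · exact hij h1
        · exact hil h1
      have q2 : ({i, j} : Set ι) ≠ {i, l} := by
        intro h
        have h1 : j ∈ ({i, l} : Set ι) := by rw [← h]; exact Set.mem_insert_of_mem _ rfl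
        rcases h1 with h1 | h1
        · exact hij h1.symm
        · exact hjl h1
      have q3 : ({j, l} : Set ι) ≠ {i, l} := by
        intro h
        have h1 : j ∈ ({i, l} : Set ι) := by rw [← h]; exact Set.mem_insert _ _
        rcases h1 with h1 | h1
        · exact hij h1.symm
        · exact hjl h1
      have n1 : r ≠ r' := hpair hij hjl hr0 hr0' q1
      have n2 : r ≠ r'' := hpair hij hil hr0 hr0'' q2
      have n3 : r' ≠ r'' := hpair hjl hil hr0' hr0'' q3
      have m1 : r ∈ nodes k F α := hnode hij hr0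
      have m2 : r' ∈ nodes k F α := hnode hjl hr0'
      have m3 : r'' ∈ nodes k F α := hnode hil hr0''
      -- relations
      have R1 := rel_h96 α hα W ν hν e κ c hκ hκK hc (d := l) (t := r') (u := r'') hij hr0
        (hpow i j r hij hr0) hil.symm hjl.symm m2 m3 n1.symm n2.symm n3 h
        (hT.der i j r hij hr0)
        (fun d hda hdb => by
          rw [hT.val i j d r hij hr0 hda hdb]
          congr 1
          apply propext
          constructor
          · rintro ⟨-, h1⟩
            rcases h1 with h1 | h1 | h1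
            · exact absurd h1 hda
            · exact absurd h1 hdb
            · exact h1
          · rintro rfl
            exact ⟨Or.inl rfl, Or.inr (Or.inr rfl)⟩)
        (fun s' hs' hne => by
          rw [hT.dif r m1 s' hs' hne.symm]
          congr 1
          apply propext
          constructor
          · rintro ⟨-, h1⟩
            rcases h1 with h1 | h1 | h1
            · exact absurd h1 hne
            · exact Or.inl h1
            · exact Or.inr h1
          · rintro (rfl | rfl)
            · exact ⟨Or.inl rfl, Or.inr (Or.inl rfl)⟩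
            · exact ⟨Or.inl rfl, Or.inr (Or.inr rfl)⟩)
      have R2 := rel_h96 α hα W ν hν e κ c hκ hκK hc (d := i) (t := r) (u := r'') hjl hr0'
        (hpow j l r' hjl hr0') hij hil m1 m3 n1 n3.symm n2 h
        (hT.der j l r' hjl hr0')
        (fun d hda hdb => by
          rw [hT.val j l d r' hjl hr0' hda hdb]
          congr 1
          apply propext
          constructor
          · rintro ⟨-, h1⟩
            rcases h1 with h1 | h1 | h1
            · exact h1
            · exact absurd h1 hda
            · exact absurd h1 hdb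
          · rintro rfl
            exact ⟨Or.inr (Or.inl rfl), Or.inl rfl⟩)
        (fun s' hs' hne => by
          rw [hT.dif r' m2 s' hs' hne.symm]
          congr 1
          apply propext
          constructor
          · rintro ⟨-, h1⟩
            rcases h1 with h1 | h1 | h1
            · exact Or.inl h1
            · exact absurd h1 hne
            · exact Or.inr h1
          · rintro (rfl | rfl)
            · exact ⟨Or.inr (Or.inl rfl), Or.inl rfl⟩
            · exact ⟨Or.inr (Or.inl rfl), Or.inr (Or.inr rfl)⟩)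
      have R3 := rel_h96 α hα W ν hν e κ c hκ hκK hc (d := j) (t := r) (u := r') hil hr0''
        (hpow i l r'' hil hr0'') hij.symm hjl m1 m2 n2 n3 n1 h
        (hT.der i l r'' hil hr0'')
        (fun d hda hdb => by
          rw [hT.val i l d r'' hil hr0'' hda hdb]
          congr 1
          apply propext
          constructor
          · rintro ⟨-, h1⟩
            rcases h1 with h1 | h1 | h1
            · exact absurd h1 hda
            · exact h1
            · exact absurd h1 hdb
          · rintro rfl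
            exact ⟨Or.inr (Or.inr rfl), Or.inr (Or.inl rfl)⟩)
        (fun s' hs' hne => by
          rw [hT.dif r'' m3 s' hs' hne.symm]
          congr 1
          apply propext
          constructor
          · rintro ⟨-, h1⟩
            rcases h1 with h1 | h1 | h1
            · exact Or.inl h1
            · exact Or.inr h1
            · exact absurd h1 hne
          · rintro (rfl | rfl)
            · exact ⟨Or.inr (Or.inr rfl), Or.inl rfl⟩
            · exact ⟨Or.inr (Or.inr rfl), Or.inr (Or.inl rfl)⟩)
      have wi := hw i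
      have wj := hw j
      have wl := hw l
      have z1 := e0 j l i r' hjl hr0' hij hil
      have z2 := e0 i l j r'' hil hr0'' hij.symm hjl
      have z3 := e0 i j l r hij hr0 hil.symm hjl.symm
      have y1 := e1 i j r hij hr0
      have y2 := e1 j l r' hjl hr0'
      have y3 := e1 i l r'' hil hr0''
      obtain ⟨X1, hX1⟩ : ∃ X, (e i r : ZMod ℓ) = W j * X :=
        ⟨(e i r : ZMod ℓ) / W j, (mul_div_cancel₀ _ wj).symm⟩
      obtain ⟨X2, hX2⟩ : ∃ X, (e j r' : ZMod ℓ) = W l * X :=
        ⟨(e j r' : ZMod ℓ) / W l, (mul_div_cancel₀ _ wl).symm⟩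
      obtain ⟨X3, hX3⟩ : ∃ X, (e i r'' : ZMod ℓ) = W l * X :=
        ⟨(e i r'' : ZMod ℓ) / W l, (mul_div_cancel₀ _ wl).symm⟩
      have hY1 : (e j r : ZMod ℓ) = -(W i * X1) := by
        apply mul_left_cancel₀ wj
        rw [hX1] at y1
        linear_combination y1
      have hY2 : (e l r' : ZMod ℓ) = -(W j * X2) := by
        apply mul_left_cancel₀ wl
        rw [hX2] at y2
        linear_combination y2
      have hY3 : (e l r'' : ZMod ℓ) = -(W i * X3) := by
        apply mul_left_cancel₀ wl
        rw [hX3] at y3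
        linear_combination y3
      rw [hX1, z1, hX2, hX3, z2] at R1
      rw [hX2, hY1, z3, z2, hY3] at R2
      rw [hX3, hX1, z3, z1, hY2] at R3
      have d1 : (e i r : ZMod ℓ) / W j = X1 := by rw [hX1, mul_div_cancel_left₀ _ wj]
      have d2 : (e j r' : ZMod ℓ) / W l = X2 := by rw [hX2, mul_div_cancel_left₀ _ wl]
      have d3 : (e i r'' : ZMod ℓ) / W l = X3 := by rw [hX3, mul_div_cancel_left₀ _ wl]
      refine ⟨ν κ, h, fun a => ν (c a), hh, ?_, ?_, ?_, ?_⟩
      · show ν κ * ((e i r : ZMod ℓ) / W j) + ν (c i) - ν (c j) =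
          (W l : ZMod ℓ) * h * ((e i r : ZMod ℓ) / W j + (e j r' : ZMod ℓ) / W l -
            (e i r'' : ZMod ℓ) / W l)
        rw [d1, d2, d3]
        apply mul_left_cancel₀ wj
        linear_combination R1
      · show ν κ * ((e j r' : ZMod ℓ) / W l) + ν (c j) - ν (c l) =
          (W i : ZMod ℓ) * h * ((e i r : ZMod ℓ) / W j + (e j r' : ZMod ℓ) / W l -
            (e i r'' : ZMod ℓ) / W l)
        rw [d1, d2, d3]
        apply mul_left_cancel₀ wl
        linear_combination R2
      · show ν κ * ((e i r'' : ZMod ℓ) / W l) + ν (c i) - ν (c l) =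
          -((W j : ZMod ℓ) * h * ((e i r : ZMod ℓ) / W j + (e j r' : ZMod ℓ) / W l -
            (e i r'' : ZMod ℓ) / W l))
        rw [d1, d2, d3]
        apply mul_left_cancel₀ wl
        linear_combination R3
      · intro a b s hab hs h1 h2 h3
        have hs0 : aeval s (α a) = aeval s (α b) := hs
        have hns : s ∉ ({r, r', r''} : Set F) := by
          rintro (h4 | h4 | h4)
          · exact h1 h4
          · exact h2 h4
          · exact h3 h4
        have R4 := rel0_h96 α hα W ν hν e κ c hκ hκK hc hab hs0 (hpow a b s hab hs0)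
          (hT.der a b s hab hs0)
          (fun d hda hdb => by
            rw [hT.val a b d s hab hs0 hda hdb, if_neg (fun h5 => hns h5.1)])
          (fun s' hs' hne => by
            rw [hT.dif s (hnode hab hs0) s' hs' hne.symm, if_neg (fun h5 => hns h5.1)])
        have wb := hw b
        show ν κ * ((e a s : ZMod ℓ) / W b) + ν (c a) - ν (c b) = 0
        field_simp
        linear_combination R4)
  refine ⟨fun i => ((b i).val : ℤ), fun i j s hij hs => ?_⟩
  have h1 := hb i j s hij hs
  rw [← ZMod.intCast_zmod_eq_zero_iff_dvd]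
  have h2 : ∀ a : ι, (((b a).val : ℤ) : ZMod ℓ) = b a := by
    intro a
    rw [Int.cast_natCast, ZMod.natCast_zmod_val]
  push_cast
  have h3 : ∀ a : ι, (((b a).val : ℕ) : ZMod ℓ) = b a := fun a => ZMod.natCast_zmod_val _
  rw [h3, h3]
  have h4 : (e i s : ZMod ℓ) / W j = b j - b i := h1
  have h5 : (e i s : ZMod ℓ) = W j * (b j - b i) := by
    rw [← h4]
    have := hw j
    field_simp
  rw [h5, sub_self]

end Pool.Agent.Lib.MP_89bcae_ag
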