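import Mathlib
import Pool.Agent.Lib.MP_89bcae_ag.Gph.Base

/-!
# Extension of the homomorphisms to the field generated by the `ℓ`-th roots of unity

Let `K₀ = ℚ(S)` and `E = ℚ(ζ_ℓ)(S)` in `F`, where `S` is a finite set of algebraic elements. Then
`E = K₀(ζ_ℓ)` is a finite extension of `K₀` of degree `d ≤ ℓ - 1` (the degree of the minimal polynomial
of `ζ_ℓ` over `K₀`, which divides the cyclotomic polynomial of degree `ℓ - 1`), hence `d` is prime to
`ℓ`. Put `ν(x) = d⁻¹ ν₀(N(x))` for `x ∈ Eˣ`, where `N` is the norm of `E` over `K₀`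
(`Algebra.norm_algebraMap`: `N(x) = x ^ d` for `x ∈ K₀`; `ν₀((±1)) = 0`).
-/

open Polynomial

open scoped Classical

namespace Pool.Agent.Lib.MP_89bcae_ag

universe u

theorem isVal_one_h65 {F : Type u} [Field F] {A : Type*} [AddCommGroup A] {K₀ : Subfield F}
    {ν₀ : F → A} (h₀ : IsVal K₀ ν₀) : ν₀ 1 = 0 := by
  have h := h₀.mul 1 K₀.one_mem 1 K₀.one_mem one_ne_zero one_ne_zero
  rw [mul_one] at h
  exact left_eq_add.1 h

theorem isVal_pow_h65 {F : Type u} [Field F] {A : Type*} [AddCommGroup A] {K₀ : Subfield F}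
    {ν₀ : F → A} (h₀ : IsVal K₀ ν₀) {x : F} (hx : x ∈ K₀) (hx0 : x ≠ 0) (d : ℕ) :
    ν₀ (x ^ d) = d • ν₀ x := by
  induction d with
  | zero => rw [pow_zero, zero_smul, isVal_one_h65 h₀]
  | succ d ih =>
    rw [pow_succ, h₀.mul _ (K₀.pow_mem hx d) _ hx (pow_ne_zero d hx0) hx0, ih, succ_nsmul]

/-- The general statement: an extension of degree prime to `ℓ`. -/
theorem extend_val_of_finrank {F : Type u} [Field F] {ℓ : ℕ} [Fact ℓ.Prime] (K₀ : Subfield F)
    (E : IntermediateField K₀ F) [FiniteDimensional K₀ E]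
    (hd : (Module.finrank K₀ E).Coprime ℓ) (ν₀ : F → ZMod ℓ) (h₀ : IsVal K₀ ν₀) :
    ∃ ν : F → ZMod ℓ, IsVal E.toSubfield ν ∧ ∀ x ∈ K₀, ν x = ν₀ x := by
  have hd0 : ((Module.finrank K₀ E : ℕ) : ZMod ℓ) ≠ 0 := by
    intro h
    rw [ZMod.natCast_eq_zero_iff] at h
    have h1 := Nat.dvd_gcd h (dvd_refl ℓ)
    rw [hd] at h1
    exact (Fact.out : ℓ.Prime).one_lt.ne' (Nat.dvd_one.1 h1)
  have hN : ∀ x : E, x ≠ 0 → ((Algebra.norm K₀ x : K₀) : F) ≠ 0 := by
    intro x hx h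
    have h2 : (Algebra.norm K₀ x : K₀) = 0 := Subtype.ext h
    exact hx (Algebra.norm_eq_zero_iff.1 h2)
  refine ⟨fun x => if x = 0 then ν₀ 0 else if h : x ∈ E then
    ((Module.finrank K₀ E : ℕ) : ZMod ℓ)⁻¹ * ν₀ ((Algebra.norm K₀ (⟨x, h⟩ : E) : K₀) : F) else 0,
    ⟨?_, ?_⟩, ?_⟩
  · intro x hx y hy hx0 hy0
    have hx' : x ∈ E := hx
    have hy' : y ∈ E := hy
    have hxy' : x * y ∈ E := E.mul_mem hx' hy'
    have hxE : (⟨x, hx'⟩ : E) ≠ 0 := fun h => hx0 (congrArg Subtype.val h)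
    have hyE : (⟨y, hy'⟩ : E) ≠ 0 := fun h => hy0 (congrArg Subtype.val h)
    have h3 : (⟨x * y, hxy'⟩ : E) = ⟨x, hx'⟩ * ⟨y, hy'⟩ := rfl
    have h4 : ((Algebra.norm K₀ (⟨x * y, hxy'⟩ : E) : K₀) : F) =
        ((Algebra.norm K₀ (⟨x, hx'⟩ : E) : K₀) : F) * ((Algebra.norm K₀ (⟨y, hy'⟩ : E) : K₀) : F) := by
      rw [h3, map_mul]
      rfl
    show (if x * y = 0 then ν₀ 0 else _) = (if x = 0 then ν₀ 0 else _) + (if y = 0 then ν₀ 0 else _)
    rw [if_neg (mul_ne_zero hx0 hy0), if_neg hx0, if_neg hy0, dif_pos hxy', dif_pos hx',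
      dif_pos hy', h4, h₀.mul _ (SetLike.coe_mem _) _ (SetLike.coe_mem _) (hN _ hxE) (hN _ hyE),
      mul_add]
  · have h1 : (-1 : F) ≠ 0 := neg_ne_zero.2 one_ne_zero
    have h2 : (-1 : F) ∈ E := E.neg_mem E.one_mem
    have h3 : (⟨-1, h2⟩ : E) = algebraMap K₀ E (-1) := by
      rw [map_neg, map_one]
      rfl
    show (if (-1 : F) = 0 then ν₀ 0 else _) = 0
    rw [if_neg h1, dif_pos h2, h3, Algebra.norm_algebraMap]
    have h4 : ν₀ ((((-1 : K₀) ^ Module.finrank K₀ E : K₀)) : F) = 0 := by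
      rcases neg_one_pow_eq_or K₀ (Module.finrank K₀ E) with h | h
      · rw [h]
        exact isVal_one_h65 h₀
      · rw [h]
        exact h₀.neg_one
    rw [h4, mul_zero]
  · intro x hx
    by_cases hx0 : x = 0
    · subst hx0
      show (if (0 : F) = 0 then ν₀ 0 else _) = ν₀ 0
      rw [if_pos rfl]
    · have hx' : x ∈ E := E.algebraMap_mem (⟨x, hx⟩ : K₀)
      have h3 : (⟨x, hx'⟩ : E) = algebraMap K₀ E ⟨x, hx⟩ := rfl
      show (if x = 0 then ν₀ 0 else _) = ν₀ x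
      rw [if_neg hx0, dif_pos hx', h3, Algebra.norm_algebraMap]
      have h5 : ((((⟨x, hx⟩ : K₀) ^ Module.finrank K₀ E : K₀)) : F) =
          x ^ Module.finrank K₀ E := rfl
      rw [h5, isVal_pow_h65 h₀ hx hx0, nsmul_eq_mul, ← mul_assoc, inv_mul_cancel₀ hd0, one_mul]

theorem exists_extend_val {ℓ : ℕ} (hℓ : ℓ.Prime) (K F : Type u) [Field K] [Algebra ℚ K]
    [IsCyclotomicExtension {ℓ} ℚ K] [Field F] [Algebra K F] [Algebra ℚ F] [IsScalarTower ℚ K F]
    (S : Set F) (hS : S.Finite) (hint : ∀ s ∈ S, IsIntegral ℚ s)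
    (ν₀ : F → ZMod ℓ) (h₀ : IsVal (IntermediateField.adjoin ℚ S).toSubfield ν₀) :
    ∃ ν : F → ZMod ℓ, IsVal (IntermediateField.adjoin K S).toSubfield ν ∧
      ∀ x ∈ IntermediateField.adjoin ℚ S, ν x = ν₀ x := by
  have hF : Fact ℓ.Prime := ⟨hℓ⟩
  have hne : NeZero ℓ := ⟨hℓ.ne_zero⟩
  obtain ⟨z, hz⟩ := IsCyclotomicExtension.exists_isPrimitiveRoot (S := {ℓ}) ℚ K
    (Set.mem_singleton ℓ) hℓ.ne_zero
  let K₀ : Subfield F := (IntermediateField.adjoin ℚ S).toSubfield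
  let ζ : F := algebraMap K F z
  have hζ : IsPrimitiveRoot ζ ℓ := hz.map_of_injective (algebraMap K F).injective
  have hroot : aeval ζ (cyclotomic ℓ K₀) = 0 := by
    have h1 := hζ.isRoot_cyclotomic hℓ.pos
    rw [IsRoot.def, ← map_cyclotomic ℓ (algebraMap K₀ F), eval_map_algebraMap] at h1
    exact h1
  have hintζ : IsIntegral K₀ ζ := ⟨cyclotomic ℓ K₀, cyclotomic.monic ℓ K₀, hroot⟩
  let E : IntermediateField K₀ F := IntermediateField.adjoin K₀ {ζ}
  have hfd : FiniteDimensional K₀ E := IntermediateField.adjoin.finiteDimensional hintζ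
  have hfin : (Module.finrank K₀ E).Coprime ℓ := by
    have h1 : Module.finrank K₀ E = (minpoly K₀ ζ).natDegree :=
      IntermediateField.adjoin.finrank hintζ
    have h2 : (minpoly K₀ ζ).natDegree ≤ ℓ - 1 := by
      have h3 := natDegree_le_of_dvd (minpoly.dvd K₀ ζ hroot) (cyclotomic_ne_zero ℓ K₀)
      rwa [natDegree_cyclotomic, Nat.totient_prime hℓ] at h3
    have h4 : 0 < (minpoly K₀ ζ).natDegree := minpoly.natDegree_pos hintζ
    have h5 := hℓ.two_le
    rw [h1, Nat.coprime_comm]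
    exact (Nat.Prime.coprime_iff_not_dvd hℓ).2 fun hd => by
      have := Nat.le_of_dvd h4 hd
      omega
  obtain ⟨ν, hν, hν'⟩ := extend_val_of_finrank K₀ E hfin ν₀ h₀
  have hK₀E : ∀ x ∈ K₀, x ∈ E := fun x hx => E.algebraMap_mem ⟨x, hx⟩
  have hζE : ζ ∈ E := IntermediateField.mem_adjoin_simple_self K₀ ζ
  have hSK₀ : ∀ x ∈ S, x ∈ K₀ := fun x hx => IntermediateField.subset_adjoin ℚ S hx
  have hQ : ∀ (q : ℚ), algebraMap ℚ F q ∈ E := fun q =>
    hK₀E _ ((IntermediateField.adjoin ℚ S).algebraMap_mem q)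
  have hKE : ∀ x : K, algebraMap K F x ∈ E := by
    intro x
    have hx : x ∈ Algebra.adjoin ℚ ({z} : Set K) := by
      rw [IsCyclotomicExtension.adjoin_primitive_root_eq_top hz]
      exact Algebra.mem_top
    induction hx using Algebra.adjoin_induction with
    | mem y hy =>
      rw [Set.mem_singleton_iff] at hy
      rw [hy]
      exact hζE
    | algebraMap q =>
      rw [← IsScalarTower.algebraMap_apply ℚ K F]
      exact hQ q
    | add a b _ _ ha hb => rw [map_add]; exact E.add_mem ha hb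
    | mul a b _ _ ha hb => rw [map_mul]; exact E.mul_mem ha hb
  have hle1 : ∀ x ∈ IntermediateField.adjoin K S, x ∈ E := by
    intro x hx
    induction hx using IntermediateField.adjoin_induction with
    | mem y hy => exact hK₀E y (hSK₀ y hy)
    | algebraMap y => exact hKE y
    | add a b _ _ ha hb => exact E.add_mem ha hb
    | inv a _ ha => exact E.inv_mem ha
    | mul a b _ _ ha hb => exact E.mul_mem ha hb
  have hval : IsVal (IntermediateField.adjoin K S).toSubfield ν :=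
    ⟨fun x hx y hy hx0 hy0 => hν.mul x (hle1 x hx) y (hle1 y hy) hx0 hy0, hν.neg_one⟩
  exact ⟨ν, hval, hν'⟩

end Pool.Agent.Lib.MP_89bcae_ag
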