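import Mathlib
import Pool.Agent.Lib.MP_89bcae_ag.Gph.Base
import Pool.Agent.Lib.MP_89bcae_ag.DvrS8
import Pool.Agent.Lib.MP_89bcae_ag.RamB7

/-!
# Places of the field generated by the nodes
-/

open Polynomial WithZero IsDedekindDomain

open scoped Classical Pointwise

namespace Pool.Agent.Lib.MP_89bcae_ag

open Superelliptic

variable {F : Type} [Field F] [Algebra ℚ F]

/-- A discrete valuation `ord` of the subfield `K₀` above the prime `p`, with ramification index `e`,
its ring `O` and the reduction `red`. -/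
structure Place (p : ℕ) (K₀ : Subfield F) where
  O : Subring F
  κ : Type
  [field : Field κ]
  red : O →+* κ
  ord : F → ℤ
  e : ℕ
  isVal : IsVal K₀ ord
  mem_O : ∀ x, x ∈ O ↔ x ∈ K₀ ∧ (x = 0 ∨ 0 ≤ ord x)
  red_eq_zero : ∀ (x : F) (hx : x ∈ O), x ≠ 0 → (red ⟨x, hx⟩ = 0 ↔ 0 < ord x)
  e_pos : 0 < e
  rat : ∀ z : ℤ, z ≠ 0 → ord (z : F) = e * padicValInt p z

attribute [instance] Place.field

/-- The valuation of a finite Galois extension of `ℚ` above `p`. -/
theorem place_aux_h74 (K : Type) [Field K] [Algebra ℚ K] [FiniteDimensional ℚ K] [IsGalois ℚ K]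
    {p : ℕ} (hp : p.Prime) :
    ∃ (w : Valuation K (WithZero (Multiplicative ℤ))) (e : ℕ), 0 < e ∧
      (∀ z : ℤ, z ≠ 0 → w (z : K) = exp (-((e * padicValInt p z : ℕ) : ℤ))) ∧
      (2 ≤ e → ∃ σ : K ≃ₐ[ℚ] K, σ ≠ 1 ∧ ∀ y, w y ≤ 1 → w (σ y) ≤ 1 ∧ w (σ y - y) < 1) := by
  obtain ⟨R₀, i1, i2, i3, i4, i5, hR₀⟩ := exists_dvrZ8 hp
  let : Algebra R₀ K := ((algebraMap ℚ K).comp (algebraMap R₀ ℚ)).toAlgebra
  have : IsScalarTower R₀ ℚ K := IsScalarTower.of_algebraMap_eq fun r => rfl
  let B := integralClosure R₀ K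
  have : IsDedekindDomain B := integralClosure.isDedekindDomain R₀ ℚ K
  have : Module.Finite R₀ B := IsIntegralClosure.finite R₀ ℚ K B
  have : IsFractionRing B K := integralClosure.isFractionRing_of_finite_extension ℚ K
  have : SMulCommClass (K ≃ₐ[ℚ] K) R₀ K := ⟨fun σ r x => by
    rw [AlgEquiv.smul_def, AlgEquiv.smul_def, Algebra.smul_def, Algebra.smul_def, map_mul,
      IsScalarTower.algebraMap_apply R₀ ℚ K, AlgEquiv.commutes]⟩
  have : IsGaloisGroup (K ≃ₐ[ℚ] K) R₀ B := IsGaloisGroup.of_isFractionRing _ _ _ ℚ K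
  have hinjK : Function.Injective (algebraMap R₀ K) := by
    rw [IsScalarTower.algebraMap_eq R₀ ℚ K]
    exact (algebraMap ℚ K).injective.comp (IsFractionRing.injective R₀ ℚ)
  have hinjB : Function.Injective (algebraMap B K) := Subtype.val_injective
  have : FaithfulSMul R₀ B := by
    rw [faithfulSMul_iff_algebraMap_injective]
    intro x y hxy
    exact hinjK (congrArg (algebraMap B K) hxy)
  have : Module.IsTorsionFree R₀ B := inferInstance
  have : Module.Flat R₀ B := inferInstance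
  let v : HeightOneSpectrum R₀ := IsDiscreteValuationRing.maximalIdeal R₀
  have hvmax : v.asIdeal.IsMaximal := v.isMaximal
  obtain ⟨P, hPmax, hPv⟩ := Ideal.exists_maximal_ideal_liesOver_of_isIntegral (S := B) v.asIdeal
  have hP0 : P ≠ ⊥ := Ideal.ne_bot_of_liesOver_of_ne_bot v.ne_bot P
  let w : HeightOneSpectrum B := ⟨P, hPmax.isPrime, hP0⟩
  have hwv : w.asIdeal.LiesOver v.asIdeal := hPv
  have hmP : ∀ r : R₀, algebraMap R₀ B r ∈ P ↔ r ∈ IsLocalRing.maximalIdeal R₀ := by
    intro r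
    have h1 : r ∈ Ideal.comap (algebraMap R₀ B) P ↔ r ∈ v.asIdeal := by
      rw [← Ideal.under_def, ← hPv.over]
    exact h1
  set e := v.asIdeal.ramificationIdx' w.asIdeal with hedef
  have hWk : ∀ r : R₀, w.intValuation (algebraMap R₀ B r) = v.intValuation r ^ e := by
    intro r
    have h1 := HeightOneSpectrum.valuation_liesOver K v w (algebraMap R₀ ℚ r)
    rw [← IsScalarTower.algebraMap_apply] at h1
    have h2 : w.intValuation (algebraMap R₀ B r) = w.valuation K (algebraMap R₀ K r) := by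
      rw [← w.valuation_of_algebraMap (K := K)]
      rfl
    rw [h2, ← h1]
    congr 1
    exact HeightOneSpectrum.valuation_of_algebraMap (K := ℚ) v r
  have he1 : 0 < e := by
    rcases Nat.eq_zero_or_pos e with h0 | h0
    · exfalso
      obtain ⟨ϖ, hϖ⟩ := v.intValuation_exists_uniformizer
      have h1 : ϖ ∈ IsLocalRing.maximalIdeal R₀ := by
        have h2 : v.intValuation ϖ ≤ exp (-((1 : ℕ) : ℤ)) := by rw [hϖ]; simp
        have h3 := (v.intValuation_le_pow_iff_mem ϖ 1).mp h2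
        rw [pow_one] at h3
        exact h3
      have h2 : w.intValuation (algebraMap R₀ B ϖ) < 1 :=
        (w.intValuation_lt_one_iff_mem _).mpr ((hmP ϖ).mpr h1)
      rw [hWk, h0, pow_zero] at h2
      exact lt_irrefl _ h2
    · exact h0
  refine ⟨w.valuation K, e, he1, ?_, ?_⟩
  · intro z hz
    have hz0 : (z : R₀) ≠ 0 := by
      intro h0
      have h1 : algebraMap R₀ K (z : R₀) = 0 := by rw [h0, map_zero]
      rw [map_intCast] at h1
      have : CharZero K := charZero_of_injective_algebraMap (algebraMap ℚ K).injective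
      exact hz (by exact_mod_cast h1)
    have h1 : v.intValuation (z : R₀) = exp (-((padicValInt p z : ℕ) : ℤ)) := by
      apply le_antisymm
      · refine (v.intValuation_le_pow_iff_mem (z : R₀) (padicValInt p z)).mpr ?_
        refine (hR₀ z _).mpr ?_
        exact padicValInt_dvd z
      · by_contra hlt
        rw [not_le] at hlt
        have h2 : v.intValuation (z : R₀) ≤ exp (-((padicValInt p z + 1 : ℕ) : ℤ)) := by
          obtain ⟨m, hm⟩ : ∃ m : ℤ, v.intValuation (z : R₀) = exp m := by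
            refine ⟨log (v.intValuation (z : R₀)), (exp_log ?_).symm⟩
            exact v.intValuation_ne_zero _ hz0
          rw [hm] at hlt ⊢
          rw [exp_lt_exp] at hlt
          rw [exp_le_exp]
          push_cast
          omega
        have h3 := (v.intValuation_le_pow_iff_mem (z : R₀) _).mp h2
        have h4 := (hR₀ z _).mp h3
        have := Fact.mk hp
        rw [padicValInt_dvd_iff] at h4
        rcases h4 with h4 | h4
        · exact hz h4
        · omega
    have h2 : (z : K) = algebraMap B K (algebraMap R₀ B (z : R₀)) := by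
      rw [map_intCast, map_intCast]
    rw [h2, HeightOneSpectrum.valuation_of_algebraMap, hWk, h1, ← exp_nsmul]
    congr 1
    push_cast
    rw [nsmul_eq_mul]
    ring
  · intro he2
    let : Field (B ⧸ P) := Ideal.Quotient.field P
    have h1 : e ≤ Nat.card (P.inertia (K ≃ₐ[ℚ] K)) := by
      rw [hedef, Ideal.ramificationIdx'_eq_ramificationIdx v.asIdeal w.asIdeal v.ne_bot]
      exact ramificationIdx_le_card_inertia7 v.asIdeal P
    have h2 : 1 < Nat.card (P.inertia (K ≃ₐ[ℚ] K)) := lt_of_lt_of_le (by omega) h1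
    obtain ⟨σ, hσP, hσ1⟩ : ∃ σ : K ≃ₐ[ℚ] K, σ ∈ P.inertia (K ≃ₐ[ℚ] K) ∧ σ ≠ 1 := by
      by_contra hcon
      push Not at hcon
      have : Subsingleton (P.inertia (K ≃ₐ[ℚ] K)) :=
        ⟨fun σ τ => Subtype.ext ((hcon σ σ.2).trans (hcon τ τ.2).symm)⟩
      have := Finite.card_le_one_iff_subsingleton.mpr this
      omega
    refine ⟨σ, hσ1, fun y hy => ?_⟩
    obtain ⟨b, c, hbc⟩ := w.exists_primeCompl_mul_eq_of_integer y hy
    have hσB : ∀ x : B, σ (algebraMap B K x) = algebraMap B K (σ • x) := fun x => rfl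
    have hin : ∀ x : B, σ • x - x ∈ P := fun x => hσP x
    have hc1 : w.intValuation (c : B) = 1 := by
      rw [w.intValuation_eq_one_iff_mem_primeCompl]
      exact c.2
    have hσc : w.intValuation (σ • (c : B)) = 1 := by
      rw [w.intValuation_eq_one_iff_mem_primeCompl]
      intro h
      apply c.2
      have h3 := P.sub_mem h (hin c)
      rwa [sub_sub_cancel] at h3
    have hσy : σ y * algebraMap B K (σ • (c : B)) = algebraMap B K (σ • b) := by
      rw [← hσB, ← hσB, ← map_mul, hbc]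
    constructor
    · have h3 := congrArg (w.valuation K) hσy
      rw [map_mul, HeightOneSpectrum.valuation_of_algebraMap, hσc, mul_one,
        HeightOneSpectrum.valuation_of_algebraMap] at h3
      rw [h3]
      exact w.intValuation_le_one _
    · have h3 : (σ y - y) * algebraMap B K ((σ • (c : B)) * (c : B)) =
          algebraMap B K ((σ • b - b) * (c : B) - b * (σ • (c : B) - (c : B))) := by
        simp only [map_sub, map_mul]
        linear_combination (algebraMap B K (c : B)) * hσy - (algebraMap B K (σ • (c : B))) * hbc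
      have h4 := congrArg (w.valuation K) h3
      rw [map_mul, HeightOneSpectrum.valuation_of_algebraMap, map_mul, hσc, hc1, mul_one, mul_one,
        HeightOneSpectrum.valuation_of_algebraMap] at h4
      rw [h4, w.intValuation_lt_one_iff_mem]
      exact P.sub_mem (P.mul_mem_right _ (hin b)) (P.mul_mem_left _ (hin c))

section

attribute [-instance] DivisionRing.toRatAlgebra

/-- A field automorphism which fixes a generating set is the identity. -/
lemma fix_adjoin_h74 {S : Set F} (σ : IntermediateField.adjoin ℚ S ≃ₐ[ℚ] IntermediateField.adjoin ℚ S)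
    (h : ∀ (s : F) (hs : s ∈ S), σ ⟨s, IntermediateField.subset_adjoin ℚ S hs⟩ =
      ⟨s, IntermediateField.subset_adjoin ℚ S hs⟩) : σ = 1 := by
  have h1 : (IntermediateField.val (IntermediateField.adjoin ℚ S)).comp (σ : _ →ₐ[ℚ] _) =
      IntermediateField.val (IntermediateField.adjoin ℚ S) := by
    apply IntermediateField.algHom_ext_of_eq_adjoin ℚ rfl
    intro s hs
    exact congrArg Subtype.val (h s hs)
  ext x
  have h3 := DFunLike.congr_fun h1 x
  exact h3

/-- **Existence of a place**, and of a nontrivial element of the inertia group if it is ramified.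
`S` is a finite set of algebraic numbers, stable under the automorphisms of `F`; `K₀ = ℚ(S)` is a
finite Galois extension of `ℚ`. Copy the construction in the proof of `exists_unramified8` (UnrS8.lean)
with `R₀` the discrete valuation ring of `exists_dvrZ8` (fraction field `ℚ`): `B` the integral closure
of `R₀` in `K₀`, `P` a maximal ideal of `B` over that of `R₀`, `w` the `HeightOneSpectrum` of `B` given by
`P`; `κ = B ⧸ P` if one takes for `O` the localisation (the valuation ring `w.valuation K₀ ≤ 1`, whose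
residue field is `κ`; `Subring.map` to `F`); `ord x = - log (w.valuation x)` (`WithZero.log`, or
`WithZero.unzero` and `Multiplicative.toAdd`), `e = v.asIdeal.ramificationIdx' w.asIdeal`. If `e ≥ 2`,
`ramificationIdx_le_card_inertia7` gives an element `σ ≠ 1` of `P.inertia (K₀ ≃ₐ[ℚ] K₀)`; it moves an
element of `S`, as `S` generates `K₀`; extend it to `F` (`AlgEquiv.liftNormal` or
`IsAlgClosure`/`IsAlgClosed.lift`). For `x ∈ O` write `x = b / c` with `b, c ∈ B`, `c ∉ P`; `σ` maps `P` to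
`P`, and `σ b - b`, `σ c - c ∈ P`. -/
theorem exists_place [IsAlgClosure ℚ F] {p : ℕ} (hp : p.Prime) (S : Set F) (hS : S.Finite)
    (hσ : ∀ (σ : F ≃ₐ[ℚ] F), ∀ s ∈ S, σ s ∈ S) :
    ∃ P : Place p (IntermediateField.adjoin ℚ S).toSubfield, 2 ≤ P.e →
      ∃ σ : F ≃ₐ[ℚ] F, (∃ s ∈ S, σ s ≠ s) ∧ ∀ (x : F) (hx : x ∈ P.O),
        ∃ hx' : σ x ∈ P.O, P.red ⟨σ x, hx'⟩ = P.red ⟨x, hx⟩ := by
  have halg : Algebra.IsAlgebraic ℚ F := IsAlgClosure.isAlgebraic
  have hnF : Normal ℚ F := IsAlgClosure.normal ℚ F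
  set K : IntermediateField ℚ F := IntermediateField.adjoin ℚ S with hKdef
  have hSfin : Finite S := hS.to_subtype
  have hfd : FiniteDimensional ℚ K :=
    IntermediateField.finiteDimensional_adjoin fun x _ => (halg.isAlgebraic x).isIntegral
  have hnK : Normal ℚ K := by
    rw [IntermediateField.normal_iff_forall_map_le']
    intro σ
    rw [hKdef, IntermediateField.adjoin_map, IntermediateField.adjoin_le_iff]
    rintro _ ⟨s, hs, rfl⟩
    exact IntermediateField.subset_adjoin ℚ S (hσ σ s hs)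
  have hgal : IsGalois ℚ K := ⟨⟩
  obtain ⟨w, e, he, hrat, hin⟩ := place_aux_h74 K hp
  let V : ValuationSubring K := w.valuationSubring
  have hinj : Function.Injective (algebraMap K F) := (algebraMap K F).injective
  let O : Subring F := V.toSubring.map (algebraMap K F)
  let ε : V.toSubring ≃+* O := V.toSubring.equivMapOfInjective (algebraMap K F) hinj
  let red : O →+* IsLocalRing.ResidueField V := (IsLocalRing.residue V).comp ε.symm.toRingHom
  let ord : F → ℤ := fun x => if h : x ∈ K then -(log (w ⟨x, h⟩)) else 0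
  have hord : ∀ y : K, ord (y : F) = -(log (w y)) := fun y => dif_pos y.2
  have hred : ∀ (y : K) (hy : y ∈ V) (hO : (y : F) ∈ O), red ⟨y, hO⟩ = IsLocalRing.residue V ⟨y, hy⟩ := by
    intro y hy hO
    have h1 : ε.symm ⟨(y : F), hO⟩ = ⟨y, hy⟩ := by
      rw [RingEquiv.symm_apply_eq]
      rfl
    show IsLocalRing.residue V (ε.symm ⟨(y : F), hO⟩) = _
    rw [h1]
  have hOmem : ∀ x : F, x ∈ O ↔ ∃ y : K, w y ≤ 1 ∧ (y : F) = x := fun x => Iff.rfl
  have hle : ∀ y : K, y ≠ 0 → (w y ≤ 1 ↔ 0 ≤ -(log (w y))) := by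
    intro y hy
    have h1 : w y ≠ 0 := (Valuation.ne_zero_iff w).mpr hy
    have h2 : (0 : ℤ) ≤ -(log (w y)) ↔ log (w y) ≤ 0 := by omega
    rw [h2, log_le_iff_le_exp h1, exp_zero]
  have hlt : ∀ y : K, y ≠ 0 → (w y < 1 ↔ 0 < -(log (w y))) := by
    intro y hy
    have h1 : w y ≠ 0 := (Valuation.ne_zero_iff w).mpr hy
    have h2 : (0 : ℤ) < -(log (w y)) ↔ log (w y) < 0 := by omega
    rw [h2, log_lt_iff_lt_exp h1, exp_zero]
  have hres : ∀ (y : K) (hy : y ∈ V), IsLocalRing.residue V ⟨y, hy⟩ = 0 ↔ w y < 1 := by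
    intro y hy
    rw [IsLocalRing.residue_eq_zero_iff]
    exact Valuation.mem_maximalIdeal_iff _ _
  let P : Place p K.toSubfield :=
    { O := O
      κ := IsLocalRing.ResidueField V
      red := red
      ord := ord
      e := e
      isVal := by
        refine ⟨?_, ?_⟩
        · intro x hx y hy hx0 hy0
          have h1 := hord ⟨x, hx⟩
          have h2 := hord ⟨y, hy⟩
          have h3 := hord (⟨x, hx⟩ * ⟨y, hy⟩)
          have h4 : w (⟨x, hx⟩ : K) ≠ 0 := (Valuation.ne_zero_iff w).mpr fun h => hx0 (congrArg Subtype.val h)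
          have h5 : w (⟨y, hy⟩ : K) ≠ 0 := (Valuation.ne_zero_iff w).mpr fun h => hy0 (congrArg Subtype.val h)
          rw [map_mul, log_mul h4 h5] at h3
          change ord (x * y) = ord x + ord y
          change ord x = _ at h1
          change ord y = _ at h2
          change ord (x * y) = _ at h3
          rw [h3, h1, h2]
          ring
        · have h1 := hord (-1)
          rw [Valuation.map_neg, map_one, log_one, neg_zero] at h1
          simpa using h1
      mem_O := by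
        intro x
        rw [hOmem]
        constructor
        · rintro ⟨y, hy, rfl⟩
          refine ⟨y.2, ?_⟩
          by_cases h0 : y = 0
          · left
            rw [h0]
            rfl
          · right
            rw [hord]
            exact (hle y h0).mp hy
        · rintro ⟨hx, h1⟩
          refine ⟨⟨x, hx⟩, ?_, rfl⟩
          rcases h1 with h1 | h1
          · have h2 : (⟨x, hx⟩ : K) = 0 := Subtype.ext h1
            rw [h2, map_zero]
            exact zero_le
          · by_cases h0 : (⟨x, hx⟩ : K) = 0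
            · rw [h0, map_zero]
              exact zero_le
            · have h2 := hord ⟨x, hx⟩
              change ord x = _ at h2
              rw [h2] at h1
              exact (hle _ h0).mpr h1
      red_eq_zero := by
        intro x hx hx0
        obtain ⟨y, hy, rfl⟩ := (hOmem x).mp hx
        have h0 : y ≠ 0 := fun h => hx0 (by rw [h]; rfl)
        rw [hred y hy hx, hord]
        exact (hres y hy).trans (hlt y h0)
      e_pos := he
      rat := by
        intro z hz
        have h1 := hord (z : K)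
        rw [hrat z hz, log_exp, neg_neg] at h1
        have h2 : ((z : K) : F) = (z : F) := by push_cast; rfl
        rw [h2] at h1
        rw [h1]
        push_cast
        ring }
  refine ⟨P, fun h2e => ?_⟩
  obtain ⟨σ, hσ1, hσ2⟩ := hin h2e
  have hcomm : ∀ y : K, (σ.liftNormal F) (y : F) = (σ y : F) := fun y => σ.liftNormal_commutes F y
  refine ⟨σ.liftNormal F, ?_, ?_⟩
  · by_contra hcon
    push Not at hcon
    apply hσ1
    apply fix_adjoin_h74
    intro s hs
    apply Subtype.ext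
    have h1 := hcomm ⟨s, IntermediateField.subset_adjoin ℚ S hs⟩
    rw [← h1]
    exact hcon s hs
  · intro x hx
    obtain ⟨y, hy, rfl⟩ := (hOmem x).mp hx
    obtain ⟨h1, h2⟩ := hσ2 y hy
    have hmem : (σ.liftNormal F) (y : F) ∈ O := by
      rw [hcomm]
      exact (hOmem _).mpr ⟨σ y, h1, rfl⟩
    refine ⟨hmem, ?_⟩
    have hmem' : ((σ y : K) : F) ∈ O := (hOmem _).mpr ⟨σ y, h1, rfl⟩
    have h3 : (⟨(σ.liftNormal F) (y : F), hmem⟩ : O) = ⟨((σ y : K) : F), hmem'⟩ := Subtype.ext (hcomm y)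
    show red ⟨(σ.liftNormal F) (y : F), hmem⟩ = red ⟨(y : F), hx⟩
    rw [h3, hred (σ y) h1 hmem', hred y hy hx, ← sub_eq_zero, ← map_sub]
    have h4 : (⟨σ y, h1⟩ - ⟨y, hy⟩ : V) = ⟨σ y - y, h2.le⟩ := rfl
    rw [h4]
    exact (hres _ _).mpr h2

end

section

variable {p : ℕ} {K₀ : Subfield F} (P : Place p K₀)

/-- The reduction of an integer. -/
theorem Place.charP (hp : p.Prime) : CharP P.κ p := by
  haveI : CharZero F := algebraRat.charZero F
  haveI : Fact p.Prime := ⟨hp⟩
  refine ⟨fun n => ?_⟩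
  by_cases hn : n = 0
  · simp [hn]
  have hnZ : (n : ℤ) ≠ 0 := by exact_mod_cast hn
  have hnF : ((n : ℤ) : F) ≠ 0 := by exact_mod_cast hn
  have h1 : P.red ⟨((n : ℤ) : F), intCast_mem P.O (n : ℤ)⟩ = (n : P.κ) := by
    have h2 : (⟨((n : ℤ) : F), intCast_mem P.O (n : ℤ)⟩ : P.O) = (n : P.O) :=
      Subtype.ext (by push_cast; rfl)
    rw [h2, map_natCast]
  rw [← h1, P.red_eq_zero _ _ hnF, P.rat _ hnZ, padicValInt.of_nat,
    dvd_iff_padicValNat_ne_zero hn]
  have he : (0 : ℤ) < P.e := by exact_mod_cast P.e_pos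
  constructor
  · intro h h0
    rw [h0] at h
    simp at h
  · intro h
    have h3 : (0 : ℤ) < (padicValNat p n : ℤ) := by
      exact_mod_cast Nat.pos_of_ne_zero h
    exact mul_pos he h3

theorem Place.int_mem (z : ℤ) : (z : F) ∈ P.O := by
  exact intCast_mem P.O z

/-- The reduction `ℤ[X] → κ[X]` factors through `(ZMod p)[X]`. -/
noncomputable def Place.redp (hp : p.Prime) : ZMod p →+* P.κ :=
  haveI := P.charP hp
  ZMod.castHom (dvd_refl p) P.κ

/-- Auxiliary form of the reduction of a value (h64). -/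
theorem Place.red_aeval_h64 (hp : p.Prime) (f : ℤ[X]) {s : F} (hs : s ∈ P.O) :
    ∃ h : aeval s f ∈ P.O, P.red ⟨aeval s f, h⟩ =
      ((f.map (Int.castRingHom (ZMod p))).map (P.redp hp)).eval (P.red ⟨s, hs⟩) := by
  have h1 : aeval s f = P.O.subtype (eval₂ (Int.castRingHom P.O) ⟨s, hs⟩ f) := by
    rw [hom_eval₂, aeval_def]
    have h0 : algebraMap ℤ F = P.O.subtype.comp (Int.castRingHom P.O) := RingHom.ext_int _ _
    rw [h0]
    rfl
  have hm : aeval s f ∈ P.O := by
    rw [h1]
    exact Subtype.prop _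
  refine ⟨hm, ?_⟩
  have h2 : (⟨aeval s f, hm⟩ : P.O) = eval₂ (Int.castRingHom P.O) ⟨s, hs⟩ f := Subtype.ext h1
  have h3 : P.red.comp (Int.castRingHom P.O) =
      (P.redp hp).comp (Int.castRingHom (ZMod p)) := RingHom.ext_int _ _
  rw [h2, hom_eval₂, Polynomial.map_map, eval_map, h3]

theorem Place.inv_h64 {s : F} (hs : s ∈ K₀) (hO : s ∉ P.O) :
    s ≠ 0 ∧ ∃ h : s⁻¹ ∈ P.O, P.red ⟨s⁻¹, h⟩ = 0 := by
  have hs0 : s ≠ 0 := by
    intro h
    exact hO (by rw [h]; exact zero_mem P.O)
  have hneg : P.ord s < 0 := by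
    by_contra h
    exact hO ((P.mem_O s).2 ⟨hs, Or.inr (by omega)⟩)
  have hi : s⁻¹ ∈ K₀ := inv_mem hs
  have hi0 : s⁻¹ ≠ 0 := inv_ne_zero hs0
  have h1 : P.ord (s * s⁻¹) = P.ord s + P.ord s⁻¹ := P.isVal.mul s hs _ hi hs0 hi0
  have h2 : P.ord (1 : F) = 0 := by
    have := P.isVal.mul 1 (one_mem _) 1 (one_mem _) one_ne_zero one_ne_zero
    rw [mul_one] at this
    omega
  rw [mul_inv_cancel₀ hs0, h2] at h1
  have h3 : 0 < P.ord s⁻¹ := by omega
  have hm : s⁻¹ ∈ P.O := (P.mem_O _).2 ⟨hi, Or.inr h3.le⟩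
  exact ⟨hs0, hm, (P.red_eq_zero _ hm hi0).2 h3⟩

/-- A root in `K₀` of a polynomial with leading coefficient prime to `p` is in `O` (if `ord s < 0`,
then the term of highest degree has a strictly smaller value than the other ones; or: `O` is
integrally closed in `K₀` since `x ∉ O` implies `x⁻¹ ∈ O` and `red x⁻¹ = 0`). -/
theorem Place.root_mem (hp : p.Prime) {f : ℤ[X]} (hf : ¬ (p : ℤ) ∣ f.leadingCoeff) {s : F}
    (hs : s ∈ K₀) (h0 : aeval s f = 0) : s ∈ P.O := by
  by_contra hO
  obtain ⟨hs0, hm, hr⟩ := P.inv_h64 hs hO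
  letI : Invertible s := invertibleOfNonzero hs0
  have h1 : aeval s⁻¹ (reverse f) = 0 := by
    have h2 := (eval₂_reverse_eq_zero_iff (algebraMap ℤ F) s f).2 h0
    rw [invOf_eq_inv] at h2
    exact h2
  obtain ⟨h, h3⟩ := P.red_aeval_h64 hp (reverse f) hm
  have h4 : P.red ⟨aeval s⁻¹ (reverse f), h⟩ = 0 := by
    have h5 : (⟨aeval s⁻¹ (reverse f), h⟩ : P.O) = 0 := Subtype.ext h1
    rw [h5, map_zero]
  rw [h4, hr, Polynomial.map_map, ← coeff_zero_eq_eval_zero, coeff_map, coeff_zero_reverse] at h3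
  haveI := P.charP hp
  have h6 : ((P.redp hp).comp (Int.castRingHom (ZMod p))) = Int.castRingHom P.κ :=
    RingHom.ext_int _ _
  rw [h6] at h3
  exact hf ((CharP.intCast_eq_zero_iff P.κ p f.leadingCoeff).1 h3.symm)

/-- The reduction of the value of a polynomial. -/
theorem Place.red_aeval (hp : p.Prime) (f : ℤ[X]) {s : F} (hs : s ∈ P.O) :
    ∃ h : aeval s f ∈ P.O, P.red ⟨aeval s f, h⟩ =
      ((f.map (Int.castRingHom (ZMod p))).map (P.redp hp)).eval (P.red ⟨s, hs⟩) := by
  exact P.red_aeval_h64 hp f hs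

theorem inj_red_h57 {O κ : Type*} [CommRing O] [IsDomain O] [Field κ] (q : O →+* κ) {G : O[X]}
    (hs : (G.map q).Separable) {x y : O} (hx : G.eval x = 0) (hy : G.eval y = 0)
    (hxy : q x = q y) : x = y := by
  by_contra hne
  obtain ⟨H, hH⟩ := dvd_iff_isRoot.mpr hx
  rw [hH, eval_mul, eval_sub, eval_X, eval_C] at hy
  have h1 : H.IsRoot y := (mul_eq_zero.mp hy).resolve_left fun h => hne (sub_eq_zero.mp h).symm
  obtain ⟨H', hH'⟩ := dvd_iff_isRoot.mpr h1
  have h2 : G.map q = (X - C (q x)) * ((X - C (q x)) * H'.map q) := by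
    conv_lhs => rw [hH, hH']
    rw [Polynomial.map_mul, Polynomial.map_mul, Polynomial.map_sub, Polynomial.map_sub, map_X,
      map_C, map_C, hxy]
  rw [h2] at hs
  have h3 : (X - C (q x)) * (X - C (q x)) ∣ (X - C (q x)) * ((X - C (q x)) * H'.map q) := by
    rw [← mul_assoc]
    exact Dvd.intro _ rfl
  exact not_isUnit_X_sub_C _ (hs.squarefree _ h3)

theorem eval_sub_h57 (f : ℤ[X]) {s : F} (hs : s ∈ P.O) :
    (((f.map (Int.castRingHom P.O)).eval ⟨s, hs⟩ : P.O) : F) = aeval s f := by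
  rw [aeval_def, eval_map]
  have h1 := hom_eval₂ f (Int.castRingHom P.O) P.O.subtype ⟨s, hs⟩
  have h2 : P.O.subtype.comp (Int.castRingHom P.O) = algebraMap ℤ F := RingHom.ext_int _ _
  rw [h2] at h1
  exact h1

theorem ord_one_h57 : P.ord 1 = 0 := by
  have h := P.isVal.mul 1 (one_mem _) 1 (one_mem _) one_ne_zero one_ne_zero
  rw [mul_one] at h
  omega

theorem ord_prod_h57 (R : Finset F) (g : F → F) (hK : ∀ s ∈ R, g s ∈ K₀) (h0 : ∀ s ∈ R, g s ≠ 0) :
    P.ord (∏ s ∈ R, g s) = ∑ s ∈ R, P.ord (g s) := by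
  induction R using Finset.induction_on with
  | empty => simpa using ord_one_h57 P
  | insert a R ha ih =>
    rw [Finset.prod_insert ha, Finset.sum_insert ha, P.isVal.mul, ih]
    · exact fun s hs => hK s (Finset.mem_insert_of_mem hs)
    · exact fun s hs => h0 s (Finset.mem_insert_of_mem hs)
    · exact hK a (Finset.mem_insert_self _ _)
    · exact prod_mem fun s hs => hK s (Finset.mem_insert_of_mem hs)
    · exact h0 a (Finset.mem_insert_self _ _)
    · exact Finset.prod_ne_zero_iff.2 fun s hs => h0 s (Finset.mem_insert_of_mem hs)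

theorem ord_lc_mul_h57 {c : ℤ} (hc : ¬ (p : ℤ) ∣ c) (R : Finset F) (g : F → F)
    (hK : ∀ s ∈ R, g s ∈ K₀) (h0 : ∀ s ∈ R, g s ≠ 0) :
    P.ord ((c : F) * ∏ s ∈ R, g s) = ∑ s ∈ R, P.ord (g s) := by
  have hc0 : c ≠ 0 := by
    rintro rfl
    exact hc (dvd_zero _)
  haveI : CharZero F := algebraRat.charZero F
  have hcF : (c : F) ≠ 0 := Int.cast_ne_zero.2 hc0
  rw [P.isVal.mul _ (intCast_mem K₀ c) _ (prod_mem hK) hcF (Finset.prod_ne_zero_iff.2 h0),
    ord_prod_h57 P R g hK h0, P.rat c hc0, padicValInt.eq_zero_of_not_dvd hc]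
  simp

/-- Distinct roots of a polynomial with separable reduction have distinct reductions (`inj_red8` in
CycS8.lean, with `O := P.O`). -/
theorem Place.red_ne_of_separable (hp : p.Prime) {f : ℤ[X]}
    (hsep : (f.map (Int.castRingHom (ZMod p))).Separable) {s s' : F} (hs : s ∈ P.O) (hs' : s' ∈ P.O)
    (h0 : aeval s f = 0) (h0' : aeval s' f = 0) (hne : s ≠ s') :
    P.red ⟨s, hs⟩ ≠ P.red ⟨s', hs'⟩ := by
  intro h
  have e : (f.map (Int.castRingHom P.O)).map P.red =
      (f.map (Int.castRingHom (ZMod p))).map (P.redp hp) := by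
    rw [Polynomial.map_map, Polynomial.map_map]
    congr 1
    exact RingHom.ext_int _ _
  have hs1 : ((f.map (Int.castRingHom P.O)).map P.red).Separable := by
    rw [e]
    exact hsep.map
  have h1 : (f.map (Int.castRingHom P.O)).eval ⟨s, hs⟩ = 0 := by
    apply Subtype.ext
    rw [eval_sub_h57 P f hs, h0]
    rfl
  have h2 : (f.map (Int.castRingHom P.O)).eval ⟨s', hs'⟩ = 0 := by
    apply Subtype.ext
    rw [eval_sub_h57 P f hs', h0']
    rfl
  exact hne (congrArg Subtype.val (inj_red_h57 P.red hs1 h1 h2 h))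

/-- Roots of polynomials with coprime reductions have distinct reductions. -/
theorem Place.red_ne_of_isCoprime (hp : p.Prime) {f g : ℤ[X]}
    (hco : IsCoprime (f.map (Int.castRingHom (ZMod p))) (g.map (Int.castRingHom (ZMod p))))
    {s s' : F} (hs : s ∈ P.O) (hs' : s' ∈ P.O) (h0 : aeval s f = 0) (h0' : aeval s' g = 0) :
    P.red ⟨s, hs⟩ ≠ P.red ⟨s', hs'⟩ := by
  intro h
  obtain ⟨m1, e1⟩ := P.red_aeval hp f hs
  obtain ⟨m2, e2⟩ := P.red_aeval hp g hs'
  have z1 : P.red ⟨aeval s f, m1⟩ = 0 := by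
    have : (⟨aeval s f, m1⟩ : P.O) = 0 := Subtype.ext h0
    rw [this, map_zero]
  have z2 : P.red ⟨aeval s' g, m2⟩ = 0 := by
    have : (⟨aeval s' g, m2⟩ : P.O) = 0 := Subtype.ext h0'
    rw [this, map_zero]
  rw [z1] at e1
  rw [z2, ← h] at e2
  have hco2 := hco.map (mapRingHom (P.redp hp))
  obtain ⟨u, v, huv⟩ := hco2
  have h3 := congrArg (eval (P.red ⟨s, hs⟩)) huv
  rw [eval_add, eval_mul, eval_mul, eval_one, coe_mapRingHom, ← e1, ← e2] at h3
  simp at h3

/-- `ord (x - y) = 0` if the reductions are different. -/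
theorem Place.ord_sub_eq_zero {x y : F} (hx : x ∈ P.O) (hy : y ∈ P.O)
    (hne : P.red ⟨x, hx⟩ ≠ P.red ⟨y, hy⟩) : P.ord (x - y) = 0 := by
  have hm : x - y ∈ P.O := sub_mem hx hy
  have hr : P.red ⟨x - y, hm⟩ = P.red ⟨x, hx⟩ - P.red ⟨y, hy⟩ := by
    rw [← map_sub]
    rfl
  have h0 : x - y ≠ 0 := by
    intro h
    apply hne
    have hxy : x = y := sub_eq_zero.1 h
    subst hxy
    rfl
  have h1 : ¬ 0 < P.ord (x - y) := by
    rw [← P.red_eq_zero _ hm h0, hr]
    exact sub_ne_zero.2 hne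
  have h2 := ((P.mem_O _).1 hm).2
  rcases h2 with h2 | h2
  · exact absurd h2 h0
  · omega

/-- `ord (x - y) > 0` if the reductions are equal. -/
theorem Place.ord_sub_pos {x y : F} (hx : x ∈ P.O) (hy : y ∈ P.O) (hxy : x ≠ y)
    (h : P.red ⟨x, hx⟩ = P.red ⟨y, hy⟩) : 0 < P.ord (x - y) := by
  have hm : x - y ∈ P.O := sub_mem hx hy
  have hr : P.red ⟨x - y, hm⟩ = P.red ⟨x, hx⟩ - P.red ⟨y, hy⟩ := by
    rw [← map_sub]
    rfl
  rw [← P.red_eq_zero _ hm (sub_ne_zero.2 hxy), hr, h, sub_self]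

/-- If `ord x ≥ a` and `ord y > a`... : the value of a sum of two elements of different values. -/
theorem Place.ord_add {x y : F} (hx : x ∈ K₀) (hy : y ∈ K₀) (hx0 : x ≠ 0) (hy0 : y ≠ 0)
    (h : P.ord x < P.ord y) : x + y ≠ 0 ∧ P.ord (x + y) = P.ord x := by
  have hu : y * x⁻¹ ∈ K₀ := mul_mem hy (inv_mem hx)
  have hu0 : y * x⁻¹ ≠ 0 := mul_ne_zero hy0 (inv_ne_zero hx0)
  have h1 : P.ord (y * x⁻¹ * x) = P.ord (y * x⁻¹) + P.ord x := P.isVal.mul _ hu x hx hu0 hx0
  have h2 : y * x⁻¹ * x = y := by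
    rw [mul_assoc, inv_mul_cancel₀ hx0, mul_one]
  rw [h2] at h1
  have h3 : 0 < P.ord (y * x⁻¹) := by omega
  have hm : y * x⁻¹ ∈ P.O := (P.mem_O _).2 ⟨hu, Or.inr h3.le⟩
  have hr : P.red ⟨y * x⁻¹, hm⟩ = 0 := (P.red_eq_zero _ hm hu0).2 h3
  have hm1 : 1 + y * x⁻¹ ∈ P.O := add_mem (one_mem _) hm
  have hr1 : P.red ⟨1 + y * x⁻¹, hm1⟩ = 1 := by
    have h4 : (⟨1 + y * x⁻¹, hm1⟩ : P.O) = 1 + ⟨y * x⁻¹, hm⟩ := rfl
    rw [h4, map_add, map_one, hr, add_zero]
  have h10 : 1 + y * x⁻¹ ≠ 0 := by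
    intro h5
    have h6 : (⟨1 + y * x⁻¹, hm1⟩ : P.O) = 0 := Subtype.ext h5
    rw [h6, map_zero] at hr1
    exact zero_ne_one hr1
  have h7 : P.ord (1 + y * x⁻¹) = 0 := by
    have h8 : ¬ 0 < P.ord (1 + y * x⁻¹) := by
      rw [← P.red_eq_zero _ hm1 h10, hr1]
      exact one_ne_zero
    rcases ((P.mem_O _).1 hm1).2 with h9 | h9
    · exact absurd h9 h10
    · omega
  have h11 : x + y = (1 + y * x⁻¹) * x := by
    rw [add_mul, one_mul, h2]
  have h12 : 1 + y * x⁻¹ ∈ K₀ := ((P.mem_O _).1 hm1).1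
  rw [h11]
  refine ⟨mul_ne_zero h10 hx0, ?_⟩
  rw [P.isVal.mul _ h12 x hx h10 hx0, h7, zero_add]

/-- The value of `f` at `x ∈ K₀`, `f = lc ∏ (X - s)` with all its roots in `K₀` and simple. -/
theorem Place.ord_aeval (hp : p.Prime) {f : ℤ[X]} (hf : ¬ (p : ℤ) ∣ f.leadingCoeff)
    (R : Finset F) (hR : ∀ s ∈ R, s ∈ K₀)
    (hfR : f.map (algebraMap ℤ F) = C (algebraMap ℤ F f.leadingCoeff) * ∏ s ∈ R, (X - C s))
    {x : F} (hx : x ∈ K₀) (hxR : x ∉ R) :
    P.ord (aeval x f) = ∑ s ∈ R, P.ord (x - s) := by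
  have h1 : aeval x f = (f.leadingCoeff : F) * ∏ s ∈ R, (x - s) := by
    rw [aeval_def, ← eval_map, hfR, eval_mul, eval_C, eval_prod]
    simp
  rw [h1]
  refine ord_lc_mul_h57 P hf R (fun s => x - s) (fun s hs => sub_mem hx (hR s hs)) fun s hs h => ?_
  exact hxR ((sub_eq_zero.1 h) ▸ hs)

/-- The value of the derivative at a root. -/
theorem Place.ord_derivative (hp : p.Prime) {f : ℤ[X]} (hf : ¬ (p : ℤ) ∣ f.leadingCoeff)
    (R : Finset F) (hR : ∀ s ∈ R, s ∈ K₀)
    (hfR : f.map (algebraMap ℤ F) = C (algebraMap ℤ F f.leadingCoeff) * ∏ s ∈ R, (X - C s))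
    {x : F} (hxR : x ∈ R) :
    P.ord (aeval x (derivative f)) = ∑ s ∈ R.erase x, P.ord (x - s) := by
  have h1 : aeval x (derivative f) = (f.leadingCoeff : F) * ∏ s ∈ R.erase x, (x - s) := by
    rw [aeval_def, ← eval_map, ← derivative_map, hfR, ← Finset.mul_prod_erase R _ hxR,
      derivative_mul, derivative_mul, derivative_C, derivative_sub, derivative_X, derivative_C]
    simp only [eval_add, eval_mul, eval_sub, eval_zero, eval_C, eval_X, eval_one, eval_prod]
    simp
  rw [h1]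
  refine ord_lc_mul_h57 P hf (R.erase x) (fun s => x - s)
    (fun s hs => sub_mem (hR x hxR) (hR s (Finset.mem_of_mem_erase hs))) fun s hs h => ?_
  exact (Finset.ne_of_mem_erase hs) (sub_eq_zero.1 h).symm

end

end Pool.Agent.Lib.MP_89bcae_ag
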