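import Mathlib
import Pool.Agent.Lib.MP_89bcae_ag.Gph.Base
import Pool.Agent.Lib.MP_89bcae_ag.Gph.Place
import Pool.Agent.Lib.MP_89bcae_ag.Gph.Roots

/-!
# A transposition from a prime of type D

`F` is an algebraic closure of `ℚ`. Let `P` be the place of `exists_place` with `S` the set of the
nodes (finite, stable; `Roots.lean`). All `α_c - α_d` are separable over `ℚ` (`separable_of_gred`, `hsep`);
let `R` be the set of the roots of `f = gdif v a b` (`exists_roots`).
(a) All nodes are in `P.O` (`Place.root_mem`). For `{c, d} ≠ {a, b}` the roots of `α_c - α_d` have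
different reductions (`sep`).
(b) The reduction of `f` is `lc ∏_{s ∈ R} (X - red s) = (X - z) ^ 2 g` with `g(z) ≠ 0` and `g` separable:
exactly two elements `u ≠ w` of `R` reduce to `z`, and the other ones have different reductions,
different from `z`.
(c) By `Place.ord_aeval`, `P.e = P.ord (f(z)) = ∑_{s ∈ R} P.ord (z - s) ≥ P.ord (z - u) + P.ord (z - w) ≥ 2`
(`p` divides `f(z)` exactly once; in particular `z ∉ R`). Let `σ` be as in `exists_place`: it maps a node
to a node (of the same pair) with the same reduction, hence it fixes all the roots of `α_c - α_d` for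
`{c, d} ≠ {a, b}` and all the elements of `R` except `u`, `w`, and it permutes `u` and `w`; since it moves
some node, `σ(u) = w` and `σ(w) = u`.
-/

open Polynomial

open scoped Classical

namespace Pool.Agent.Lib.MP_89bcae_ag

open Superelliptic

variable {ι : Type} [Fintype ι] {n : ℕ} {F : Type} [Field F] [Algebra ℚ F] [IsAlgClosure ℚ F]

/-- the reduction, extended by zero -/
noncomputable def swRd_h70 {p : ℕ} {K₀ : Subfield F} (P : Place p K₀) (s : F) : P.κ :=
  if hs : s ∈ P.O then P.red ⟨s, hs⟩ else 0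

omit [Algebra ℚ F] [IsAlgClosure ℚ F] in
lemma swRd_eq_h70 {p : ℕ} {K₀ : Subfield F} (P : Place p K₀) {s : F} (hs : s ∈ P.O) :
    swRd_h70 P s = P.red ⟨s, hs⟩ := by
  unfold swRd_h70
  rw [dif_pos hs]

/-- the reduction of a product of linear factors -/
lemma swRed_h70 {p : ℕ} (hp : p.Prime) {K₀ : Subfield F} (P : Place p K₀) (f : ℤ[X])
    (R : Finset F) (hRO : ∀ s ∈ R, s ∈ P.O)
    (hfR : f.map (algebraMap ℤ F) = C (algebraMap ℤ F f.leadingCoeff) * ∏ s ∈ R, (X - C s)) :
    ∃ c : P.κ, (f.map (Int.castRingHom (ZMod p))).map (P.redp hp) =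
      C c * ∏ s ∈ R, (X - C (swRd_h70 P s)) := by
  have h1 : f.map (Int.castRingHom P.O) =
      C (Int.castRingHom P.O f.leadingCoeff) *
        ∏ s ∈ R.attach, (X - C (⟨s.1, hRO s.1 s.2⟩ : P.O)) := by
    apply Polynomial.map_injective P.O.subtype Subtype.val_injective
    rw [Polynomial.map_map, Polynomial.map_mul, Polynomial.map_prod, map_C]
    have e1 : P.O.subtype.comp (Int.castRingHom P.O) = algebraMap ℤ F := RingHom.ext_int _ _
    rw [e1, hfR]
    have e2 : P.O.subtype ((Int.castRingHom P.O) f.leadingCoeff) =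
        algebraMap ℤ F f.leadingCoeff := by
      rw [← e1]
      rfl
    rw [e2, ← Finset.prod_attach]
    congr 1
    refine Finset.prod_congr rfl fun s _ => ?_
    rw [Polynomial.map_sub, map_X, map_C]
    rfl
  refine ⟨P.red (Int.castRingHom P.O f.leadingCoeff), ?_⟩
  have h2 := congrArg (Polynomial.map P.red) h1
  rw [Polynomial.map_map, Polynomial.map_mul, Polynomial.map_prod, map_C] at h2
  have e1 : P.red.comp (Int.castRingHom P.O) =
      (P.redp hp).comp (Int.castRingHom (ZMod p)) := RingHom.ext_int _ _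
  rw [e1] at h2
  rw [Polynomial.map_map, h2]
  congr 1
  rw [← Finset.prod_attach R (fun s => X - C (swRd_h70 P s))]
  refine Finset.prod_congr rfl fun s _ => ?_
  rw [Polynomial.map_sub, map_X, map_C, swRd_eq_h70 P (hRO s.1 s.2)]

/-- counting in the fibres of a map -/
lemma swCount_h70 {A B : Type} (R : Finset A) (r : A → B) (t : B) :
    (R.filter (fun s => t = r s)).card = (R.val.map r).count t := by
  rw [Multiset.count_map]
  rfl

theorem exists_swap_typeD (v : ι × Fin (n + 1) → ℤ) {p : ℕ} (hp : p.Prime) {a b : ι}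
    (hab : a ≠ b) (h : TypeD p a b v) (hsep : (gpolQ v a - gpolQ v b).Separable) :
    ∃ (σ : F ≃ₐ[ℚ] F) (u w : F), u ≠ w ∧ aeval u (gpolQ v a) = aeval u (gpolQ v b) ∧
      aeval w (gpolQ v a) = aeval w (gpolQ v b) ∧ σ u = w ∧ σ w = u ∧
      ∀ s ∈ nodes ℚ F (gpolQ v), s ≠ u → s ≠ w → σ s = s := by
  have : Fact p.Prime := ⟨hp⟩
  have hlead : ∀ c d, c ≠ d → v (c, Fin.last n) ≠ v (d, Fin.last n) := by
    intro c d hcd he
    apply h.lead c d hcd
    rw [he, sub_self]
    exact dvd_zero _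
  have hlc : ∀ c d, c ≠ d → ¬ (p : ℤ) ∣ (gdif v c d).leadingCoeff := by
    intro c d hcd
    rw [gdif_leadingCoeff (hlead c d hcd)]
    exact h.lead c d hcd
  have hne : ∀ c d, c ≠ d → gpolQ v c ≠ gpolQ v d := by
    intro c d hcd he
    have h1 := gdif_map_rat v c d
    rw [he, sub_self] at h1
    have h2 : gdif v c d = 0 :=
      (Polynomial.map_eq_zero_iff (Int.castRingHom ℚ).injective_int).1 h1
    apply hlc c d hcd
    rw [h2, leadingCoeff_zero]
    exact dvd_zero _
  obtain ⟨P, hP⟩ := exists_place (F := F) hp (nodes ℚ F (gpolQ v)) (nodes_gpolQ_finite hne)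
    (nodes_stable (gpolQ v))
  have hzero : ∀ (c d : ι) (s : F), aeval s (gpolQ v c) = aeval s (gpolQ v d) →
      aeval s (gdif v c d) = 0 := by
    intro c d s hs
    rw [aeval_gdif, hs, sub_self]
  have hSK : ∀ s ∈ nodes ℚ F (gpolQ v),
      s ∈ (IntermediateField.adjoin ℚ (nodes ℚ F (gpolQ v))).toSubfield := fun s hs =>
    IntermediateField.subset_adjoin ℚ _ hs
  have hSO : ∀ s ∈ nodes ℚ F (gpolQ v), s ∈ P.O := by
    intro s hs
    obtain ⟨c, d, hcd, hs2⟩ := id hs
    exact P.root_mem hp (hlc c d hcd) (hSK s hs) (hzero c d s hs2)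
  obtain ⟨R, hR, hfR⟩ := exists_roots (F := F) hsep
  have hRS : ∀ s ∈ R, s ∈ nodes ℚ F (gpolQ v) := fun s hs => ⟨a, b, hab, (hR s).1 hs⟩
  have hRO : ∀ s ∈ R, s ∈ P.O := fun s hs => hSO s (hRS s hs)
  obtain ⟨z, hz1, hz2, g, hg, hgz, hgs⟩ := h.dbl
  obtain ⟨c, hc⟩ := swRed_h70 hp P (gdif v a b) R hRO hfR
  set zb : P.κ := P.redp hp (z : ZMod p) with hzb
  set gb : P.κ[X] := g.map (P.redp hp) with hgb
  have hfb : (gred p v a b).map (P.redp hp) = (X - C zb) ^ 2 * gb := by
    rw [hg, Polynomial.map_mul, Polynomial.map_pow, Polynomial.map_sub, map_X, map_C]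
  have hgbz : gb.eval zb ≠ 0 := by
    rw [hgb, hzb, eval_map, eval₂_at_apply]
    exact fun h0 => hgz ((map_eq_zero (P.redp hp)).1 h0)
  have hgb0 : gb ≠ 0 := by
    intro h0
    apply hgbz
    rw [h0, eval_zero]
  have hgbs : gb.Separable := hgs.map
  have hfb0 : (X - C zb) ^ 2 * gb ≠ 0 := mul_ne_zero (pow_ne_zero _ (X_sub_C_ne_zero _)) hgb0
  have hprod : C c * ∏ s ∈ R, (X - C (swRd_h70 P s)) = (X - C zb) ^ 2 * gb := by
    rw [← hfb, ← hc]
    rfl
  have hc0 : c ≠ 0 := by
    intro h0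
    rw [h0, C_0, zero_mul] at hprod
    exact hfb0 hprod.symm
  have hroots : R.val.map (swRd_h70 P) = 2 • {zb} + gb.roots := by
    have h1 := congrArg Polynomial.roots hprod
    rw [roots_C_mul _ hc0, roots_mul hfb0, roots_pow, roots_X_sub_C] at h1
    rw [← h1]
    have h2 := Polynomial.roots_multiset_prod_X_sub_C (R.val.map (swRd_h70 P))
    rw [Multiset.map_map] at h2
    exact h2.symm
  have hcz : (R.filter (fun s => zb = swRd_h70 P s)).card = 2 := by
    rw [swCount_h70, hroots, Multiset.count_add, Multiset.count_nsmul, Multiset.count_singleton_self]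
    have h1 : gb.roots.count zb = 0 := by
      rw [Multiset.count_eq_zero]
      intro h2
      exact hgbz ((mem_roots hgb0).1 h2)
    rw [h1]
  have hct : ∀ t, t ≠ zb → (R.filter (fun s => t = swRd_h70 P s)).card ≤ 1 := by
    intro t ht
    rw [swCount_h70, hroots, Multiset.count_add, Multiset.count_nsmul,
      Multiset.count_singleton, if_neg ht, mul_zero, zero_add]
    exact Multiset.nodup_iff_count_le_one.1 (nodup_roots hgbs) t
  obtain ⟨u, w, huw, hfil⟩ := Finset.card_eq_two.1 hcz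
  have hu : u ∈ R ∧ zb = swRd_h70 P u := by
    have : u ∈ R.filter (fun s => zb = swRd_h70 P s) := by rw [hfil]; simp
    exact Finset.mem_filter.1 this
  have hw : w ∈ R ∧ zb = swRd_h70 P w := by
    have : w ∈ R.filter (fun s => zb = swRd_h70 P s) := by rw [hfil]; simp
    exact Finset.mem_filter.1 this
  have huwR : ∀ s ∈ R, swRd_h70 P s = zb → s = u ∨ s = w := by
    intro s hs hs2
    have : s ∈ R.filter (fun s => zb = swRd_h70 P s) := Finset.mem_filter.2 ⟨hs, hs2.symm⟩
    rw [hfil] at this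
    simpa using this
  -- the ramification
  have hzO : ((z : ℤ) : F) ∈ P.O := P.int_mem z
  have hzrd : swRd_h70 P ((z : ℤ) : F) = zb := by
    rw [swRd_eq_h70 P hzO]
    have e1 : (⟨((z : ℤ) : F), hzO⟩ : P.O) = ((z : ℤ) : P.O) := Subtype.ext (by simp)
    rw [e1, map_intCast, hzb, map_intCast]
  have hfz0 : (gdif v a b).eval z ≠ 0 := by
    intro h0
    apply hz2
    rw [h0]
    exact dvd_zero _
  have haev : aeval ((z : ℤ) : F) (gdif v a b) = (((gdif v a b).eval z : ℤ) : F) := by
    have e1 : ((z : ℤ) : F) = algebraMap ℤ F z := (eq_intCast (algebraMap ℤ F) z).symm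
    rw [e1, aeval_algebraMap_apply, coe_aeval_eq_eval]
    exact eq_intCast (algebraMap ℤ F) _
  have : CharZero F := algebraRat.charZero F
  have hzR : ((z : ℤ) : F) ∉ R := by
    intro h0
    have h1 := hzero a b _ ((hR _).1 h0)
    rw [haev] at h1
    exact hfz0 (by exact_mod_cast h1)
  have hzK : ((z : ℤ) : F) ∈ (IntermediateField.adjoin ℚ (nodes ℚ F (gpolQ v))).toSubfield :=
    intCast_mem _ z
  have hord := P.ord_aeval hp (hlc a b hab) R (fun s hs => hSK s (hRS s hs)) hfR hzK hzR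
  rw [haev, P.rat _ hfz0] at hord
  have hval : padicValInt p ((gdif v a b).eval z) = 1 := by
    have h1 : 1 ≤ padicValInt p ((gdif v a b).eval z) := by
      have := (padicValInt_dvd_iff (p := p) 1 ((gdif v a b).eval z)).1 (by rwa [pow_one])
      exact this.resolve_left hfz0
    have h2 : ¬ 2 ≤ padicValInt p ((gdif v a b).eval z) := fun h3 =>
      hz2 ((padicValInt_dvd_iff (p := p) 2 ((gdif v a b).eval z)).2 (Or.inr h3))
    omega
  have hnn : ∀ s ∈ R, 0 ≤ P.ord (((z : ℤ) : F) - s) := by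
    intro s hs
    have h1 : ((z : ℤ) : F) - s ∈ P.O := P.O.sub_mem hzO (hRO s hs)
    rcases ((P.mem_O _).1 h1).2 with h2 | h2
    · exact absurd (sub_eq_zero.1 h2) (fun h3 => hzR (h3 ▸ hs))
    · exact h2
  have hpos : ∀ s ∈ R, swRd_h70 P s = zb → 0 < P.ord (((z : ℤ) : F) - s) := by
    intro s hs hs2
    refine P.ord_sub_pos hzO (hRO s hs) (fun h3 => hzR (h3 ▸ hs)) ?_
    rw [← swRd_eq_h70 P hzO, ← swRd_eq_h70 P (hRO s hs), hzrd, hs2]
  have hsum : P.ord (((z : ℤ) : F) - u) + P.ord (((z : ℤ) : F) - w) ≤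
      ∑ s ∈ R, P.ord (((z : ℤ) : F) - s) := by
    have e1 : P.ord (((z : ℤ) : F) - u) + P.ord (((z : ℤ) : F) - w) =
        ∑ s ∈ ({u, w} : Finset F), P.ord (((z : ℤ) : F) - s) :=
      (Finset.sum_pair (f := fun s => P.ord (((z : ℤ) : F) - s)) huw).symm
    rw [e1]
    refine Finset.sum_le_sum_of_subset_of_nonneg ?_ (fun s hs _ => hnn s hs)
    intro s hs
    rcases Finset.mem_insert.1 hs with h1 | h1
    · rw [h1]; exact hu.1
    · rw [Finset.mem_singleton.1 h1]; exact hw.1
  have he : 2 ≤ P.e := by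
    have h1 := hpos u hu.1 hu.2.symm
    have h2 := hpos w hw.1 hw.2.symm
    rw [hval] at hord
    have h3 : (2 : ℤ) ≤ P.e := by
      push_cast at hord
      linarith
    exact_mod_cast h3
  obtain ⟨σ, ⟨s₀, hs₀, hs₀ne⟩, hσ⟩ := hP he
  have hσrd : ∀ x ∈ P.O, swRd_h70 P (σ x) = swRd_h70 P x := by
    intro x hx
    obtain ⟨h1, h2⟩ := hσ x hx
    rw [swRd_eq_h70 P h1, swRd_eq_h70 P hx, h2]
  have hσroot : ∀ (c d : ι) (s : F), aeval s (gpolQ v c) = aeval s (gpolQ v d) →
      aeval (σ s) (gpolQ v c) = aeval (σ s) (gpolQ v d) := by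
    intro c d s hs
    have e1 : ∀ q : ℚ[X], aeval (σ s) q = σ (aeval s q) := fun q =>
      (Polynomial.aeval_algHom_apply (σ : F →ₐ[ℚ] F) s q)
    rw [e1, e1, hs]
  have hσR : ∀ s ∈ R, σ s ∈ R := fun s hs => (hR _).2 (hσroot a b s ((hR s).1 hs))
  -- `σ` fixes the other nodes
  have hfix : ∀ s ∈ nodes ℚ F (gpolQ v), s ≠ u → s ≠ w → σ s = s := by
    intro s hs hsu hsw
    by_cases hsR : s ∈ R
    · have ht : swRd_h70 P s ≠ zb := by
        intro h1
        rcases huwR s hsR h1 with h2 | h2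
        · exact hsu h2
        · exact hsw h2
      have h1 := hct _ ht
      rw [Finset.card_le_one] at h1
      exact h1 (σ s) (Finset.mem_filter.2 ⟨hσR s hsR, (hσrd s (hSO s hs)).symm⟩) s
        (Finset.mem_filter.2 ⟨hsR, rfl⟩)
    · obtain ⟨c, d, hcd, hs2⟩ := id hs
      have hset : ({c, d} : Set ι) ≠ {a, b} := by
        intro h1
        apply hsR
        rw [hR]
        rcases Set.pair_eq_pair_iff.1 h1 with ⟨h2, h3⟩ | ⟨h2, h3⟩
        · rw [← h2, ← h3]; exact hs2
        · rw [← h2, ← h3]; exact hs2.symm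
      by_contra hcon
      have hσO : σ s ∈ P.O := (hσ s (hSO s hs)).1
      have h2 := P.red_ne_of_separable hp (f := gdif v c d) (h.sep c d hcd hset) hσO (hSO s hs)
        (hzero c d _ (hσroot c d s hs2)) (hzero c d s hs2) hcon
      apply h2
      rw [← swRd_eq_h70 P hσO, ← swRd_eq_h70 P (hSO s hs)]
      exact hσrd s (hSO s hs)
  have hσu : σ u = u ∨ σ u = w :=
    huwR _ (hσR u hu.1) (by rw [hσrd u (hRO u hu.1)]; exact hu.2.symm)
  have hσw : σ w = u ∨ σ w = w :=
    huwR _ (hσR w hw.1) (by rw [hσrd w (hRO w hw.1)]; exact hw.2.symm)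
  have hσu' : σ u = w := by
    rcases hσu with h1 | h1
    · exfalso
      have h2 : σ w = w := by
        rcases hσw with h3 | h3
        · exact absurd (σ.injective (h1.trans h3.symm)) huw
        · exact h3
      apply hs₀ne
      by_cases h3 : s₀ = u
      · rw [h3, h1]
      · by_cases h4 : s₀ = w
        · rw [h4, h2]
        · exact hfix s₀ hs₀ h3 h4
    · exact h1
  have hσw' : σ w = u := by
    rcases hσw with h1 | h1
    · exact h1
    · exact absurd (σ.injective (hσu'.trans h1.symm)) huw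
  exact ⟨σ, u, w, huw, (hR u).1 hu.1, (hR w).1 hw.1, hσu', hσw', hfix⟩

end Pool.Agent.Lib.MP_89bcae_ag
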