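import Mathlib
import Pool.Agent.Lib.MP_89bcae_ag.Gph.Arr
import Pool.Agent.Lib.MP_89bcae_ag.Gph.Swap

/-!
# The Galois group is transitive on the triples of roots

Step 1: for every pair `a ≠ b` and all roots `x`, `y` of `α_a - α_b` there is `σ` with `σ x = y` which
fixes the roots of all the `α_c - α_d`, `{c, d} ≠ {a, b}`. If `x = y` take `σ = 1`. Otherwise let `τ`,
`u`, `w` be as in `exists_swap_typeD` and `g` with `g u = x`, `g w = y` (`pairTransitive_gpol`); take
`σ = g τ g⁻¹` (for a root `s` of `α_c - α_d`, `g⁻¹ s` is also one, hence `τ` fixes it: it is not a root of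
`α_a - α_b`, as the differences are coprime).
Step 2: compose three such elements for the pairs `(i, j)`, `(j, l)`, `(i, l)`.
-/

open Polynomial

open scoped Classical

namespace Pool.Agent.Lib.MP_89bcae_ag

open Superelliptic

variable {ι : Type} [Fintype ι] [LinearOrder ι] {n : ℕ} {F : Type} [Field F] [Algebra ℚ F]
  [IsAlgClosure ℚ F]

lemma no_common_root_h30 {v : ι × Fin (n + 1) → ℤ} (h : GoodG v) {a b c d : ι} (hab : a ≠ b)
    (hcd : c ≠ d) (hne : ({a, b} : Set ι) ≠ {c, d}) {s : F}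
    (h1 : aeval s (gpolQ v a) = aeval s (gpolQ v b))
    (h2 : aeval s (gpolQ v c) = aeval s (gpolQ v d)) : False := by
  obtain ⟨p, q, hpq⟩ := h.isCoprime hab hcd hne
  have h3 := congrArg (aeval s) hpq
  rw [map_add, map_mul, map_mul, map_sub, map_sub, h1, h2, sub_self, sub_self, mul_zero, mul_zero,
    add_zero, map_one] at h3
  exact zero_ne_one h3

theorem exists_move {v : ι × Fin (n + 1) → ℤ} (h : GoodG v) {a b : ι} (hab : a ≠ b) (x y : F)
    (hx : aeval x (gpolQ v a) = aeval x (gpolQ v b))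
    (hy : aeval y (gpolQ v a) = aeval y (gpolQ v b)) :
    ∃ σ : F ≃ₐ[ℚ] F, σ x = y ∧ ∀ c d s, c ≠ d → ({c, d} : Set ι) ≠ {a, b} →
      aeval s (gpolQ v c) = aeval s (gpolQ v d) → σ s = s := by
  by_cases hxy : x = y
  · exact ⟨AlgEquiv.refl, hxy, fun _ _ _ _ _ _ => rfl⟩
  · obtain ⟨p, hp, hI⟩ := h.typeI a b hab
    have hsep := separable_of_typeI v hp hI
    obtain ⟨p', hp', hD⟩ := h.typeD a b hab
    obtain ⟨τ, u, w, huw, hu, hw, hτu, hτw, hfix⟩ := exists_swap_typeD (F := F) v hp' hab hD hsep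
    obtain ⟨g, hgu, hgw⟩ := pairTransitive_gpol v (h.typeI a b hab) (h.typeL a b hab)
      u w x y hu hw hx hy huw hxy
    refine ⟨(g.symm.trans τ).trans g, ?_, ?_⟩
    · rw [AlgEquiv.trans_apply, AlgEquiv.trans_apply, ← hgu, AlgEquiv.symm_apply_apply, hτu, hgw]
    · intro c d s hcd hne hs
      have hs' : aeval (g.symm s) (gpolQ v c) = aeval (g.symm s) (gpolQ v d) := by
        rw [aeval_algHom_apply, aeval_algHom_apply, hs]
      have h1 : g.symm s ≠ u := by
        intro hcon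
        rw [hcon] at hs'
        exact no_common_root_h30 h hcd hab hne hs' hu
      have h2 : g.symm s ≠ w := by
        intro hcon
        rw [hcon] at hs'
        exact no_common_root_h30 h hcd hab hne hs' hw
      rw [AlgEquiv.trans_apply, AlgEquiv.trans_apply, hfix _ ⟨c, d, hcd, hs'⟩ h1 h2,
        AlgEquiv.apply_symm_apply]

theorem exists_move_triple {v : ι × Fin (n + 1) → ℤ} (h : GoodG v) {i j l : ι} (hij : i ≠ j)
    (hjl : j ≠ l) (hil : i ≠ l) (x x' x'' y y' y'' : F)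
    (hx : aeval x (gpolQ v i) = aeval x (gpolQ v j))
    (hx' : aeval x' (gpolQ v j) = aeval x' (gpolQ v l))
    (hx'' : aeval x'' (gpolQ v i) = aeval x'' (gpolQ v l))
    (hy : aeval y (gpolQ v i) = aeval y (gpolQ v j))
    (hy' : aeval y' (gpolQ v j) = aeval y' (gpolQ v l))
    (hy'' : aeval y'' (gpolQ v i) = aeval y'' (gpolQ v l)) :
    ∃ σ : F ≃ₐ[ℚ] F, σ x = y ∧ σ x' = y' ∧ σ x'' = y'' := by
  have h12 : ({i, j} : Set ι) ≠ {j, l} := by
    intro hcon
    rw [Set.pair_eq_pair_iff] at hcon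
    rcases hcon with ⟨h1, _⟩ | ⟨h1, _⟩
    · exact hij h1
    · exact hil h1
  have h13 : ({i, j} : Set ι) ≠ {i, l} := by
    intro hcon
    rw [Set.pair_eq_pair_iff] at hcon
    rcases hcon with ⟨_, h1⟩ | ⟨h1, _⟩
    · exact hjl h1
    · exact hil h1
  have h23 : ({j, l} : Set ι) ≠ {i, l} := by
    intro hcon
    rw [Set.pair_eq_pair_iff] at hcon
    rcases hcon with ⟨h1, _⟩ | ⟨h1, _⟩
    · exact hij h1.symm
    · exact hjl h1
  obtain ⟨σ1, h1, f1⟩ := exists_move h hij x y hx hy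
  obtain ⟨σ2, h2, f2⟩ := exists_move h hjl x' y' hx' hy'
  obtain ⟨σ3, h3, f3⟩ := exists_move h hil x'' y'' hx'' hy''
  refine ⟨(σ1.trans σ2).trans σ3, ?_, ?_, ?_⟩
  · rw [AlgEquiv.trans_apply, AlgEquiv.trans_apply, h1, f2 i j y hij h12 hy, f3 i j y hij h13 hy]
  · rw [AlgEquiv.trans_apply, AlgEquiv.trans_apply, f1 j l x' hjl h12.symm hx', h2,
      f3 j l y' hjl h23 hy']
  · rw [AlgEquiv.trans_apply, AlgEquiv.trans_apply, f1 i l x'' hil h13.symm hx'',
      f2 i l x'' hil h23.symm hx'', h3]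

end Pool.Agent.Lib.MP_89bcae_ag
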