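import Mathlib
import Pool.Agent.Lib.MP_89bcae_ag.Gph.Base
import Pool.Agent.Lib.MP_89bcae_ag.Gph.Place
import Pool.Agent.Lib.MP_89bcae_ag.Gph.Roots

/-!
# The valuation at a prime of type B

`F` is an algebraic closure of `ℚ`. Let `P` be the place of `exists_place` with `S` the set of the
nodes (finite, stable; `Roots.lean`). All `α_a - α_b` are separable over `ℚ` (`separable_of_gred`); let
`R a b` be the set of roots (`exists_roots`), `f_ab = gdif v a b`.
(a) All nodes are in `P.O` (`Place.root_mem`).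
(b) Two roots of the same `f_ab` have different reductions (`sep`, `Place.red_ne_of_separable`). Hence
the place is not ramified, `P.e = 1`: otherwise there is `σ` as in `exists_place`; it maps a root of
`f_ab` to a root of `f_ab` with the same reduction, hence fixes all nodes, a contradiction. So
`P.ord z = v_p(z)` for `z ∈ ℤ`.
(c) A root of `f_ab` and a root of `f_cd`, for different pairs, have different reductions if the pairs
are not both in the triple (`cop`, `Place.red_ne_of_isCoprime`). If they are both in the triple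
`i, j, l` and have the same reduction `x`, then `x` is a root of two, hence (`f_ij + f_jl = f_il`) of all
three reduced polynomials, so of `(X - z) g` and `(X - z) h` (`col`) with `g`, `h` coprime: `x = z`.
(d) By `Place.ord_aeval`, `P.ord (f_ij(z)) = ∑_{s ∈ R i j} P.ord (z - s)`, which is `≥ 2` (or `f_ij(z) = 0`
and `z ∈ R i j`, put `r = z`). By (b) at most one term is not zero: there is exactly one `r ∈ R i j` with
reduction `z`, and `P.ord (z - r) ≥ 2` (or `r = z`). In the same way there is exactly one `r' ∈ R j l`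
with reduction `z`, `P.ord (z - r') = 1`, and exactly one `r'' ∈ R i l` with reduction `z`, and
`P.ord (z - r'') = 1`, since `p` divides `f_jl(z)` and `f_il(z) = f_ij(z) + f_jl(z)` exactly once. Hence
(`Place.ord_add`) `P.ord (r - r') = P.ord (r - r'') = 1`. Moreover `f_il(r') = f_ij(r')` (since
`f_jl(r') = 0`), so `P.ord (r' - r'') = P.ord (f_il(r')) = P.ord (f_ij(r')) = P.ord (r' - r) = 1`
(`Place.ord_aeval`, the other terms are `0`).
(e) `ν = P.ord`, `h = 1`: the differences of nodes have value `0` except the three above; the derivatives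
by `Place.ord_derivative` and (b); `α_a(s) - α_c(s) = f_ac(s)` by `Place.ord_aeval`.
-/

open Polynomial

open scoped Classical

namespace Pool.Agent.Lib.MP_89bcae_ag

open Superelliptic

variable {ι : Type} [Fintype ι] {n : ℕ} {F : Type} [Field F] [Algebra ℚ F] [IsAlgClosure ℚ F]

section h61

variable {p : ℕ} {K₀ : Subfield F} (P : Place p K₀)

/-- The reduction, as a function on `F`. -/
noncomputable def rd_h61 (x : F) : P.κ := if h : x ∈ P.O then P.red ⟨x, h⟩ else 0

omit [Algebra ℚ F] [IsAlgClosure ℚ F] in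
lemma rd_eq_h61 {x : F} (hx : x ∈ P.O) : rd_h61 P x = P.red ⟨x, hx⟩ := dif_pos hx

omit [Algebra ℚ F] [IsAlgClosure ℚ F] in
lemma memK_h61 {x : F} (hx : x ∈ P.O) : x ∈ K₀ := ((P.mem_O x).1 hx).1

omit [Algebra ℚ F] [IsAlgClosure ℚ F] in
lemma ord_neg_h61 {x : F} (hx : x ∈ K₀) : P.ord (-x) = P.ord x := by
  by_cases h0 : x = 0
  · rw [h0, neg_zero]
  · have := P.isVal.mul (-1) (K₀.neg_mem K₀.one_mem) x hx (by simp) h0
    rw [P.isVal.neg_one, zero_add, neg_one_mul] at this
    exact this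

omit [Algebra ℚ F] [IsAlgClosure ℚ F] in
lemma ord_comm_h61 {x y : F} (hx : x ∈ P.O) (hy : y ∈ P.O) : P.ord (x - y) = P.ord (y - x) := by
  rw [← neg_sub y x, ord_neg_h61 P (K₀.sub_mem (memK_h61 P hy) (memK_h61 P hx))]

omit [IsAlgClosure ℚ F] in
lemma ord_zero_h61 {x y : F} (hx : x ∈ P.O) (hy : y ∈ P.O) (h : rd_h61 P x ≠ rd_h61 P y) :
    P.ord (x - y) = 0 := by
  rw [rd_eq_h61 P hx, rd_eq_h61 P hy] at h
  exact P.ord_sub_eq_zero hx hy h

omit [IsAlgClosure ℚ F] in
lemma rd_int_h61 (hp : p.Prime) (z : ℤ) : rd_h61 P (z : F) = P.redp hp (z : ZMod p) := by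
  rw [rd_eq_h61 P (P.int_mem z), map_intCast]
  have : (⟨(z : F), P.int_mem z⟩ : P.O) = ((z : ℤ) : P.O) := Subtype.ext (by simp)
  rw [this, map_intCast]

omit [IsAlgClosure ℚ F] in
lemma rd_root_h61 (hp : p.Prime) {f : ℤ[X]} {s : F} (hs : s ∈ P.O) (h0 : aeval s f = 0) :
    ((f.map (Int.castRingHom (ZMod p))).map (P.redp hp)).eval (rd_h61 P s) = 0 := by
  obtain ⟨h1, h2⟩ := P.red_aeval hp f hs
  rw [rd_eq_h61 P hs, ← h2]
  have : (⟨aeval s f, h1⟩ : P.O) = 0 := Subtype.ext h0
  rw [this, map_zero]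

/-- The properties of the set of roots of one difference. -/
structure GoodR_h61 (f : ℤ[X]) (R : Finset F) : Prop where
  lc : ¬ (p : ℤ) ∣ f.leadingCoeff
  O : ∀ s ∈ R, s ∈ P.O
  root : ∀ s, s ∈ R ↔ aeval s f = 0
  fac : f.map (algebraMap ℤ F) = C (algebraMap ℤ F f.leadingCoeff) * ∏ s ∈ R, (X - C s)
  red : ∀ s s', s ∈ R → s' ∈ R → rd_h61 P s = rd_h61 P s' → s = s'

omit [IsAlgClosure ℚ F] in
lemma val_one_h61 (hp : p.Prime) {f : ℤ[X]} {R : Finset F} (H : GoodR_h61 P f R) {x r : F}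
    (hx : x ∈ P.O) (hxR : x ∉ R) (hr : r ∈ R) (h : rd_h61 P r = rd_h61 P x) :
    P.ord (aeval x f) = P.ord (x - r) := by
  rw [P.ord_aeval hp H.lc R (fun s hs => memK_h61 P (H.O s hs)) H.fac (memK_h61 P hx) hxR]
  rw [Finset.sum_eq_single r]
  · intro s hs hsr
    apply ord_zero_h61 P hx (H.O s hs)
    intro h2
    exact hsr (H.red s r hs hr (h2.symm.trans h.symm))
  · intro h
    exact absurd hr h

omit [IsAlgClosure ℚ F] in
lemma ex_root_h61 (hp : p.Prime) {f : ℤ[X]} {R : Finset F} (H : GoodR_h61 P f R) {x : F}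
    (hx : x ∈ P.O) (hxR : x ∉ R) (hpos : 0 < P.ord (aeval x f)) :
    ∃ r ∈ R, rd_h61 P r = rd_h61 P x := by
  by_contra hcon
  push Not at hcon
  rw [P.ord_aeval hp H.lc R (fun s hs => memK_h61 P (H.O s hs)) H.fac (memK_h61 P hx) hxR,
    Finset.sum_eq_zero] at hpos
  · exact lt_irrefl _ hpos
  · intro s hs
    exact ord_zero_h61 P hx (H.O s hs) (fun h => hcon s hs h.symm)

omit [IsAlgClosure ℚ F] in
lemma claim_h61 (hp : p.Prime) (he : P.e = 1) {f : ℤ[X]} {R : Finset F} (H : GoodR_h61 P f R)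
    (z : ℤ) (hz : (p : ℤ) ∣ f.eval z) :
    ∃ r ∈ R, rd_h61 P r = rd_h61 P (z : F) ∧ ((z : F) = r ∨ ((z : F) ≠ r ∧ f.eval z ≠ 0 ∧
      P.ord ((z : F) - r) = padicValInt p (f.eval z))) := by
  have haev : aeval (z : F) f = ((f.eval z : ℤ) : F) := by
    rw [aeval_def, eval₂_at_intCast]
    simp
  by_cases hzR : (z : F) ∈ R
  · exact ⟨z, hzR, rfl, Or.inl rfl⟩
  · have hne : f.eval z ≠ 0 := by
      intro h
      apply hzR
      rw [H.root, haev, h, Int.cast_zero]
    have hord : P.ord (aeval (z : F) f) = padicValInt p (f.eval z) := by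
      rw [haev, P.rat _ hne, he]
      simp
    have hpos : 0 < padicValInt p (f.eval z) := by
      have : Fact p.Prime := ⟨hp⟩
      have h1 := (padicValInt_dvd_iff (p := p) 1 (f.eval z)).1 (by simpa using hz)
      rcases h1 with h1 | h1
      · exact absurd h1 hne
      · omega
    have hpos' : 0 < P.ord (aeval (z : F) f) := by
      rw [hord]
      exact_mod_cast hpos
    obtain ⟨r, hr, hrz⟩ := ex_root_h61 P hp H (P.int_mem z) hzR hpos'
    refine ⟨r, hr, hrz, Or.inr ⟨fun h => hzR (h ▸ hr), hne, ?_⟩⟩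
    rw [← hord]
    exact (val_one_h61 P hp H (P.int_mem z) hzR hr hrz).symm

end h61

/-- Parts (a)-(d). -/
theorem place_typeB (v : ι × Fin (n + 1) → ℤ) {p : ℕ} (hp : p.Prime) {i j l : ι}
    (hij : i ≠ j) (hjl : j ≠ l) (hil : i ≠ l) (h : TypeB p i j l v) :
    ∃ (P : Place p (IntermediateField.adjoin ℚ (nodes ℚ F (gpolQ v))).toSubfield)
      (r r' r'' : F), aeval r (gpolQ v i) = aeval r (gpolQ v j) ∧
      aeval r' (gpolQ v j) = aeval r' (gpolQ v l) ∧ aeval r'' (gpolQ v i) = aeval r'' (gpolQ v l) ∧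
      (∀ s ∈ nodes ℚ F (gpolQ v), s ∈ P.O) ∧ r ≠ r' ∧ r ≠ r'' ∧ r' ≠ r'' ∧
      P.ord (r - r') = 1 ∧ P.ord (r - r'') = 1 ∧ P.ord (r' - r'') = 1 ∧
      ∀ s ∈ nodes ℚ F (gpolQ v), ∀ s' ∈ nodes ℚ F (gpolQ v), s ≠ s' →
        ¬ (s ∈ ({r, r', r''} : Set F) ∧ s' ∈ ({r, r', r''} : Set F)) → P.ord (s - s') = 0 := by
  have : Fact p.Prime := ⟨hp⟩
  have : CharZero F := algebraRat.charZero F
  have hQ : ∀ a b, a ≠ b → (gpolQ v a - gpolQ v b).Separable := fun a b hab =>
    separable_of_gred hp (h.lead a b hab) (h.sep a b hab)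
  have hne : ∀ a b, a ≠ b → gpolQ v a ≠ gpolQ v b := fun a b hab he =>
    (hQ a b hab).ne_zero (sub_eq_zero.2 he)
  have hlne : ∀ a b, a ≠ b → v (a, Fin.last n) ≠ v (b, Fin.last n) := by
    intro a b hab he
    apply h.lead a b hab
    rw [he, sub_self]
    exact dvd_zero _
  have hlc : ∀ a b, a ≠ b → ¬ (p : ℤ) ∣ (gdif v a b).leadingCoeff := by
    intro a b hab
    rw [gdif_leadingCoeff (hlne a b hab)]
    exact h.lead a b hab
  obtain ⟨P, hram⟩ := exists_place (F := F) hp (nodes ℚ F (gpolQ v)) (nodes_gpolQ_finite hne)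
    (fun σ => nodes_stable _ σ)
  have hK : ∀ s ∈ nodes ℚ F (gpolQ v),
      s ∈ (IntermediateField.adjoin ℚ (nodes ℚ F (gpolQ v))).toSubfield :=
    fun s hs => IntermediateField.subset_adjoin ℚ _ hs
  have hroot : ∀ a b (s : F), aeval s (gdif v a b) = 0 ↔
      aeval s (gpolQ v a) = aeval s (gpolQ v b) := by
    intro a b s
    rw [aeval_gdif, sub_eq_zero]
  have hO : ∀ s ∈ nodes ℚ F (gpolQ v), s ∈ P.O := by
    intro s hs
    obtain ⟨a, b, hab, hs'⟩ := id hs
    exact P.root_mem hp (hlc a b hab) (hK s hs) ((hroot a b s).2 hs')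
  have hOab : ∀ a b, a ≠ b → ∀ s, aeval s (gpolQ v a) = aeval s (gpolQ v b) → s ∈ P.O :=
    fun a b hab s hs => hO s ⟨a, b, hab, hs⟩
  have hsame : ∀ a b, a ≠ b → ∀ s s', aeval s (gpolQ v a) = aeval s (gpolQ v b) →
      aeval s' (gpolQ v a) = aeval s' (gpolQ v b) → rd_h61 P s = rd_h61 P s' → s = s' := by
    intro a b hab s s' hs hs' he
    by_contra hc
    have h1 := hOab a b hab s hs
    have h2 := hOab a b hab s' hs'
    rw [rd_eq_h61 P h1, rd_eq_h61 P h2] at he
    exact P.red_ne_of_separable hp (h.sep a b hab) h1 h2 ((hroot a b s).2 hs)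
      ((hroot a b s').2 hs') hc he
  -- not ramified
  have he1 : P.e = 1 := by
    have h0 := P.e_pos
    by_contra hc
    obtain ⟨σ, ⟨s, hs, hσs⟩, hσ⟩ := hram (by omega)
    obtain ⟨a, b, hab, hs'⟩ := id hs
    have hσs' : aeval (σ s) (gpolQ v a) = aeval (σ s) (gpolQ v b) := by
      have e1 := congrArg σ hs'
      have e2 : ∀ q : ℚ[X], σ (aeval s q) = aeval (σ s) q := fun q =>
        (aeval_algHom_apply (σ : F →ₐ[ℚ] F) s q).symm
      rw [e2, e2] at e1
      exact e1
    obtain ⟨hx', hx''⟩ := hσ s (hO s hs)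
    apply hσs
    apply hsame a b hab _ _ hσs' hs'
    rw [rd_eq_h61 P hx', rd_eq_h61 P (hO s hs)]
    exact hx''
  -- the sets of roots
  have hR : ∀ a b, a ≠ b → ∃ R : Finset F, GoodR_h61 P (gdif v a b) R := by
    intro a b hab
    obtain ⟨R, hR1, hR2⟩ := exists_roots (F := F) (hQ a b hab)
    exact ⟨R, hlc a b hab, fun s hs => hOab a b hab s ((hR1 s).1 hs),
      fun s => (hR1 s).trans (hroot a b s).symm, hR2,
      fun s s' hs hs' => hsame a b hab s s' ((hR1 s).1 hs) ((hR1 s').1 hs')⟩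
  obtain ⟨Rij, Hij⟩ := hR i j hij
  obtain ⟨Rjl, Hjl⟩ := hR j l hjl
  obtain ⟨Ril, Hil⟩ := hR i l hil
  obtain ⟨z, hz1, hz2, hz3, g, h', hg, hh, hco⟩ := h.col
  have hsum : (gdif v i l).eval z = (gdif v i j).eval z + (gdif v j l).eval z := by
    rw [← gdif_add v i j l, eval_add]
  have hpp : (p : ℤ) ∣ (p : ℤ) ^ 2 := dvd_pow_self _ (by norm_num)
  have hz4 : (p : ℤ) ∣ (gdif v i l).eval z := by
    rw [hsum]
    exact dvd_add (hpp.trans hz1) hz2
  have hz5 : ¬ (p : ℤ) ^ 2 ∣ (gdif v i l).eval z := by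
    rw [hsum]
    intro hc
    exact hz3 ((dvd_add_right hz1).1 hc)
  have hval1 : ∀ y : ℤ, (p : ℤ) ∣ y → ¬ (p : ℤ) ^ 2 ∣ y → padicValInt p y = 1 := by
    intro y h1 h2
    have e1 := (padicValInt_dvd_iff (p := p) 1 y).1 (by simpa using h1)
    rw [padicValInt_dvd_iff] at h2
    push Not at h2
    rcases e1 with e1 | e1
    · exact absurd e1 h2.1
    · omega
  obtain ⟨r, hr, hrz, hr2⟩ := claim_h61 P hp he1 Hij z (hpp.trans hz1)
  obtain ⟨r', hr', hrz', hr2'⟩ := claim_h61 P hp he1 Hjl z hz2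
  obtain ⟨r'', hr'', hrz'', hr2''⟩ := claim_h61 P hp he1 Hil z hz4
  have hzO : (z : F) ∈ P.O := P.int_mem z
  have hzr' : (z : F) ≠ r' ∧ P.ord ((z : F) - r') = 1 := by
    rcases hr2' with e | e
    · exfalso
      have e1 : aeval (z : F) (gdif v j l) = 0 := (Hjl.root _).1 (e ▸ hr')
      rw [aeval_def, eval₂_at_intCast] at e1
      have e2 : (gdif v j l).eval z = 0 := by
        have e3 : (((gdif v j l).eval z : ℤ) : F) = 0 := by simpa using e1
        exact_mod_cast e3
      exact hz3 (e2 ▸ dvd_zero _)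
    · exact ⟨e.1, by rw [e.2.2, hval1 _ hz2 hz3]; simp⟩
  have hzr'' : (z : F) ≠ r'' ∧ P.ord ((z : F) - r'') = 1 := by
    rcases hr2'' with e | e
    · exfalso
      have e1 : aeval (z : F) (gdif v i l) = 0 := (Hil.root _).1 (e ▸ hr'')
      rw [aeval_def, eval₂_at_intCast] at e1
      have e2 : (gdif v i l).eval z = 0 := by
        have e3 : (((gdif v i l).eval z : ℤ) : F) = 0 := by simpa using e1
        exact_mod_cast e3
      exact hz5 (e2 ▸ dvd_zero _)
    · exact ⟨e.1, by rw [e.2.2, hval1 _ hz4 hz5]; simp⟩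
  have hrO := Hij.O r hr
  have hrO' := Hjl.O r' hr'
  have hrO'' := Hil.O r'' hr''
  -- the value of `r - t` for `t` with `ord (z - t) = 1`
  have hkey : ∀ t, t ∈ P.O → (z : F) ≠ t → P.ord ((z : F) - t) = 1 →
      r ≠ t ∧ P.ord (r - t) = 1 := by
    intro t ht hzt hord
    rcases hr2 with e | e
    · rw [← e]
      exact ⟨hzt, hord⟩
    · have h2 : 2 ≤ padicValInt p ((gdif v i j).eval z) := by
        rcases (padicValInt_dvd_iff (p := p) 2 _).1 hz1 with e3 | e3
        · exact absurd e3 e.2.1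
        · exact e3
      have h3 : P.ord (r - z) = padicValInt p ((gdif v i j).eval z) := by
        rw [ord_comm_h61 P hrO hzO, e.2.2]
      have h4 := P.ord_add (x := (z : F) - t) (y := r - z)
        (Subfield.sub_mem _ (memK_h61 P hzO) (memK_h61 P ht))
        (Subfield.sub_mem _ (memK_h61 P hrO) (memK_h61 P hzO)) (sub_ne_zero.2 hzt)
        (sub_ne_zero.2 (Ne.symm e.1)) (by rw [hord, h3]; exact_mod_cast h2)
      have h5 : (z : F) - t + (r - z) = r - t := by ring
      rw [h5, hord] at h4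
      exact ⟨sub_ne_zero.1 h4.1, h4.2⟩
  obtain ⟨hrr', hord1⟩ := hkey r' hrO' hzr'.1 hzr'.2
  obtain ⟨hrr'', hord2⟩ := hkey r'' hrO'' hzr''.1 hzr''.2
  have hadd : ∀ s : F, aeval s (gdif v i l) = aeval s (gdif v i j) + aeval s (gdif v j l) := by
    intro s
    rw [← gdif_add v i j l, map_add]
  have hr'ij : r' ∉ Rij := by
    intro hc
    exact hrr' (Hij.red r r' hr hc (hrz.trans hrz'.symm))
  have hr'il : r' ∉ Ril := by
    intro hc
    apply hr'ij
    rw [Hij.root]
    have e1 := hadd r'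
    rw [(Hil.root r').1 hc, (Hjl.root r').1 hr', add_zero] at e1
    exact e1.symm
  have hr'r'' : r' ≠ r'' := fun hc => hr'il (hc ▸ hr'')
  have hord3 : P.ord (r' - r'') = 1 := by
    rw [← val_one_h61 P hp Hil hrO' hr'il hr'' (hrz''.trans hrz'.symm), hadd,
      (Hjl.root r').1 hr', add_zero,
      val_one_h61 P hp Hij hrO' hr'ij hr (hrz.trans hrz'.symm), ord_comm_h61 P hrO' hrO]
    exact hord1
  refine ⟨P, r, r', r'', (hroot i j r).1 ((Hij.root r).1 hr), (hroot j l r').1 ((Hjl.root r').1 hr'),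
    (hroot i l r'').1 ((Hil.root r'').1 hr''), hO, hrr', hrr'', hr'r'', hord1, hord2, hord3, ?_⟩
  intro s hs s' hs' hss' hnot
  by_contra hord0
  have hrd : rd_h61 P s = rd_h61 P s' := by
    by_contra hc
    exact hord0 (ord_zero_h61 P (hO s hs) (hO s' hs') hc)
  obtain ⟨a, b, hab, hsab⟩ := id hs
  obtain ⟨c, d, hcd, hscd⟩ := id hs'
  -- the pairs are different
  have hpair : ({a, b} : Set ι) ≠ {c, d} := by
    intro hc
    have h1 : (a = c ∧ b = d) ∨ (a = d ∧ b = c) := by
      exact Set.pair_eq_pair_iff.1 hc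
    rcases h1 with ⟨rfl, rfl⟩ | ⟨rfl, rfl⟩
    · exact hss' (hsame a b hab s s' hsab hscd hrd)
    · exact hss' (hsame a b hab s s' hsab hscd.symm hrd)
  -- they are in the triple
  have htri : ({a, b, c, d} : Set ι) ⊆ {i, j, l} := by
    by_contra hc
    have h1 := P.red_ne_of_isCoprime hp (h.cop a b c d hab hcd hpair hc) (hO s hs) (hO s' hs')
      ((hroot a b s).2 hsab) ((hroot c d s').2 hscd)
    rw [rd_eq_h61 P (hO s hs), rd_eq_h61 P (hO s' hs')] at hrd
    exact h1 hrd
  have ha : a = i ∨ a = j ∨ a = l := htri (by simp)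
  have hb : b = i ∨ b = j ∨ b = l := htri (by simp)
  have hc : c = i ∨ c = j ∨ c = l := htri (by simp)
  have hd : d = i ∨ d = j ∨ d = l := htri (by simp)
  set x := rd_h61 P s with hx
  set y : ι → P.κ := fun a => (((gpol v a).map (Int.castRingHom (ZMod p))).map (P.redp hp)).eval x
    with hy
  have hyab : ∀ a b (t : F), t ∈ P.O → aeval t (gpolQ v a) = aeval t (gpolQ v b) →
      rd_h61 P t = x → y a = y b := by
    intro a b t ht htab htx
    have h1 := rd_root_h61 P hp ht ((hroot a b t).2 htab)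
    rw [gdif, Polynomial.map_sub, Polynomial.map_sub, eval_sub, htx, sub_eq_zero] at h1
    exact h1
  have h1 : y a = y b := hyab a b s (hO s hs) hsab rfl
  have h2 : y c = y d := hyab c d s' (hO s' hs') hscd hrd.symm
  have hcase : ∀ a b, a ≠ b → (a = i ∨ a = j ∨ a = l) → (b = i ∨ b = j ∨ b = l) → y a = y b →
      (({a, b} : Set ι) = {i, j} ∧ y i = y j) ∨ (({a, b} : Set ι) = {j, l} ∧ y j = y l) ∨
        (({a, b} : Set ι) = {i, l} ∧ y i = y l) := by
    intro a b hab ha hb hyy
    rcases ha with ha | ha | ha <;> rcases hb with hb | hb | hb <;> rw [ha, hb] at hab hyy <;>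
      rw [ha, hb]
    · exact absurd rfl hab
    · exact Or.inl ⟨rfl, hyy⟩
    · exact Or.inr (Or.inr ⟨rfl, hyy⟩)
    · exact Or.inl ⟨Set.pair_comm _ _, hyy.symm⟩
    · exact absurd rfl hab
    · exact Or.inr (Or.inl ⟨rfl, hyy⟩)
    · exact Or.inr (Or.inr ⟨Set.pair_comm _ _, hyy.symm⟩)
    · exact Or.inr (Or.inl ⟨Set.pair_comm _ _, hyy.symm⟩)
    · exact absurd rfl hab
  have h3 : y i = y j ∧ y j = y l := by
    rcases hcase a b hab ha hb h1 with ⟨e1, f1⟩ | ⟨e1, f1⟩ | ⟨e1, f1⟩ <;>
      rcases hcase c d hcd hc hd h2 with ⟨e2, f2⟩ | ⟨e2, f2⟩ | ⟨e2, f2⟩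
    · exact absurd (e1.trans e2.symm) hpair
    · exact ⟨f1, f2⟩
    · exact ⟨f1, f1.symm.trans f2⟩
    · exact ⟨f2, f1⟩
    · exact absurd (e1.trans e2.symm) hpair
    · exact ⟨f2.trans f1.symm, f1⟩
    · exact ⟨f2, f2.symm.trans f1⟩
    · exact ⟨f1.trans f2.symm, f2⟩
    · exact absurd (e1.trans e2.symm) hpair
  -- `x` is the reduction of `z`
  have hxz : x = rd_h61 P (z : F) := by
    rw [rd_int_h61 P hp]
    by_contra hxne
    have e1 : ((gred p v i j).map (P.redp hp)).eval x = 0 := by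
      rw [gred, gdif, Polynomial.map_sub, Polynomial.map_sub, eval_sub, sub_eq_zero]
      exact h3.1
    have e2 : ((gred p v j l).map (P.redp hp)).eval x = 0 := by
      rw [gred, gdif, Polynomial.map_sub, Polynomial.map_sub, eval_sub, sub_eq_zero]
      exact h3.2
    rw [hg, Polynomial.map_mul, Polynomial.map_sub, map_X, map_C, eval_mul, eval_sub, eval_X,
      eval_C] at e1
    rw [hh, Polynomial.map_mul, Polynomial.map_sub, map_X, map_C, eval_mul, eval_sub, eval_X,
      eval_C] at e2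
    have e3 := (mul_eq_zero.1 e1).resolve_left (sub_ne_zero.2 hxne)
    have e4 := (mul_eq_zero.1 e2).resolve_left (sub_ne_zero.2 hxne)
    obtain ⟨A, B, hAB⟩ := hco
    have e5 := congrArg (fun q => (q.map (P.redp hp)).eval x) hAB
    simp only [Polynomial.map_add, Polynomial.map_mul, eval_add, eval_mul, e3, e4, mul_zero,
      add_zero, Polynomial.map_one, eval_one] at e5
    exact zero_ne_one e5
  -- the elements with this reduction
  have hmem : ∀ a b (t : F), a ≠ b → (a = i ∨ a = j ∨ a = l) → (b = i ∨ b = j ∨ b = l) →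
      aeval t (gpolQ v a) = aeval t (gpolQ v b) → rd_h61 P t = rd_h61 P (z : F) →
      t ∈ ({r, r', r''} : Set F) := by
    intro a b t hab ha hb htab htz
    have f1 : ∀ (htij : aeval t (gpolQ v i) = aeval t (gpolQ v j)), t ∈ ({r, r', r''} : Set F) := by
      intro htij
      have : t = r := Hij.red t r ((Hij.root t).2 ((hroot i j t).2 htij)) hr (htz.trans hrz.symm)
      simp [this]
    have f2 : ∀ (htij : aeval t (gpolQ v j) = aeval t (gpolQ v l)), t ∈ ({r, r', r''} : Set F) := by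
      intro htij
      have : t = r' := Hjl.red t r' ((Hjl.root t).2 ((hroot j l t).2 htij)) hr' (htz.trans hrz'.symm)
      simp [this]
    have f3 : ∀ (htij : aeval t (gpolQ v i) = aeval t (gpolQ v l)), t ∈ ({r, r', r''} : Set F) := by
      intro htij
      have : t = r'' :=
        Hil.red t r'' ((Hil.root t).2 ((hroot i l t).2 htij)) hr'' (htz.trans hrz''.symm)
      simp [this]
    rcases ha with ha | ha | ha <;> rcases hb with hb | hb | hb <;> rw [ha, hb] at htab
    · exact absurd (ha.trans hb.symm) hab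
    · exact f1 htab
    · exact f3 htab
    · exact f1 htab.symm
    · exact absurd (ha.trans hb.symm) hab
    · exact f2 htab
    · exact f3 htab.symm
    · exact f2 htab.symm
    · exact absurd (ha.trans hb.symm) hab
  exact hnot ⟨hmem a b s hab ha hb hsab hxz, hmem c d s' hcd hc hd hscd (hrd.symm.trans hxz)⟩

/-- Part (e), from `place_typeB`. (The elements of `{r, r', r''}` are roots of exactly one difference
each, so that at most one of them is a root of a given `f_ab`.) -/
theorem exists_val_typeB (v : ι × Fin (n + 1) → ℤ) {p : ℕ} (hp : p.Prime) {i j l : ι}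
    (hij : i ≠ j) (hjl : j ≠ l) (hil : i ≠ l) (h : TypeB p i j l v) :
    ∃ (ν : F → ℤ) (r r' r'' : F), aeval r (gpolQ v i) = aeval r (gpolQ v j) ∧
      aeval r' (gpolQ v j) = aeval r' (gpolQ v l) ∧ aeval r'' (gpolQ v i) = aeval r'' (gpolQ v l) ∧
      IsVal (IntermediateField.adjoin ℚ (nodes ℚ F (gpolQ v))).toSubfield ν ∧
      TripleV ν (gpolQ v) 1 i j l r r' r'' := by
  obtain ⟨P, r, r', r'', hr, hr', hr'', hO, n1, n2, n3, o1, o2, o3, hz⟩ :=
    place_typeB (F := F) v hp hij hjl hil h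
  have hK : ∀ s ∈ nodes ℚ F (gpolQ v), s ∈ (IntermediateField.adjoin ℚ (nodes ℚ F (gpolQ v))).toSubfield :=
    fun s hs => IntermediateField.subset_adjoin ℚ _ hs
  have hnode : ∀ (a b : ι) (s : F), a ≠ b → aeval s (gpolQ v a) = aeval s (gpolQ v b) →
      s ∈ nodes ℚ F (gpolQ v) := fun a b s hab hs => ⟨a, b, hab, hs⟩
  have hneg : ∀ x ∈ nodes ℚ F (gpolQ v), ∀ y ∈ nodes ℚ F (gpolQ v), x ≠ y →
      P.ord (y - x) = P.ord (x - y) := by
    intro x hx y hy hxy
    have h1 := P.isVal.mul (-1) (neg_mem (one_mem _)) (x - y) (sub_mem (hK x hx) (hK y hy))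
      (neg_ne_zero.2 one_ne_zero) (sub_ne_zero.2 hxy)
    rw [P.isVal.neg_one, zero_add] at h1
    rw [← h1]
    congr 1
    ring
  have hN : r ∈ nodes ℚ F (gpolQ v) := hnode i j r hij hr
  have hN' : r' ∈ nodes ℚ F (gpolQ v) := hnode j l r' hjl hr'
  have hN'' : r'' ∈ nodes ℚ F (gpolQ v) := hnode i l r'' hil hr''
  -- F1
  have F1 : ∀ s ∈ ({r, r', r''} : Set F), ∀ t ∈ ({r, r', r''} : Set F), s ≠ t → P.ord (s - t) = 1 := by
    intro s hs t ht hst
    simp only [Set.mem_insert_iff, Set.mem_singleton_iff] at hs ht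
    rcases hs with rfl | rfl | rfl <;> rcases ht with rfl | rfl | rfl
    · exact absurd rfl hst
    · exact o1
    · exact o2
    · rw [hneg _ hN _ hN' n1]; exact o1
    · exact absurd rfl hst
    · exact o3
    · rw [hneg _ hN _ hN'' n2]; exact o2
    · rw [hneg _ hN' _ hN'' n3]; exact o3
    · exact absurd rfl hst
  have hz0 : ∀ (a b : ι) (s : F), aeval s (gpolQ v a) = aeval s (gpolQ v b) → aeval s (gdif v a b) = 0 := by
    intro a b s hs
    rw [aeval_gdif, hs, sub_self]
  -- F3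
  have F3' : ∀ (a b : ι) (s t : F) (hs : s ∈ P.O) (ht : t ∈ P.O), a ≠ b → aeval s (gpolQ v a) = aeval s (gpolQ v b) →
      aeval t (gpolQ v a) = aeval t (gpolQ v b) → s ≠ t → P.red ⟨s, hs⟩ ≠ P.red ⟨t, ht⟩ :=
    fun a b s t hs ht hab h1 h2 hst => P.red_ne_of_separable hp (h.sep a b hab) hs ht (hz0 a b s h1) (hz0 a b t h2) hst
  have F3 : ∀ (a b : ι) (s t : F), a ≠ b → aeval s (gpolQ v a) = aeval s (gpolQ v b) →
      aeval t (gpolQ v a) = aeval t (gpolQ v b) → s ≠ t → P.ord (s - t) = 0 := by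
    intro a b s t hab h1 h2 hst
    have hs := hO s (hnode a b s hab h1)
    have ht := hO t (hnode a b t hab h2)
    exact P.ord_sub_eq_zero hs ht (F3' a b s t hs ht hab h1 h2 hst)
  -- coprime reductions
  have Fc : ∀ (a b c d : ι) (s : F), a ≠ b → c ≠ d → aeval s (gpolQ v a) = aeval s (gpolQ v b) →
      aeval s (gpolQ v c) = aeval s (gpolQ v d) → ({a, b} : Set ι) ≠ {c, d} →
      ({a, b, c, d} : Set ι) ⊆ {i, j, l} := by
    intro a b c d s hab hcd h1 h2 hne
    by_contra hcon
    have hs := hO s (hnode a b s hab h1)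
    exact P.red_ne_of_isCoprime hp (h.cop a b c d hab hcd hne hcon) hs hs (hz0 a b s h1) (hz0 c d s h2) rfl
  -- common roots modulo p
  obtain ⟨z, _, _, _, g, g', hg, hg', hgg⟩ := h.col
  have FC : ∀ (s t : F) (hs : s ∈ P.O) (ht : t ∈ P.O), aeval s (gpolQ v i) = aeval s (gpolQ v j) →
      aeval t (gpolQ v j) = aeval t (gpolQ v l) → P.red ⟨s, hs⟩ = P.red ⟨t, ht⟩ →
      P.red ⟨s, hs⟩ = P.redp hp (z : ZMod p) := by
    intro s t hs ht h1 h2 hst
    obtain ⟨m1, e1⟩ := P.red_aeval hp (gdif v i j) hs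
    obtain ⟨m2, e2⟩ := P.red_aeval hp (gdif v j l) ht
    have q1 : P.red ⟨aeval s (gdif v i j), m1⟩ = 0 := by
      have : (⟨aeval s (gdif v i j), m1⟩ : P.O) = 0 := Subtype.ext (hz0 i j s h1)
      rw [this, map_zero]
    have q2 : P.red ⟨aeval t (gdif v j l), m2⟩ = 0 := by
      have : (⟨aeval t (gdif v j l), m2⟩ : P.O) = 0 := Subtype.ext (hz0 j l t h2)
      rw [this, map_zero]
    have hg1 : (gdif v i j).map (Int.castRingHom (ZMod p)) = (X - C (z : ZMod p)) * g := hg
    have hg2 : (gdif v j l).map (Int.castRingHom (ZMod p)) = (X - C (z : ZMod p)) * g' := hg'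
    rw [q1, hg1, Polynomial.map_mul, eval_mul, Polynomial.map_sub, map_X, map_C, eval_sub, eval_X, eval_C] at e1
    rw [q2, hg2, Polynomial.map_mul, eval_mul, Polynomial.map_sub, map_X, map_C, eval_sub, eval_X, eval_C, ← hst] at e2
    by_contra hcon
    have hx : P.red ⟨s, hs⟩ - P.redp hp (z : ZMod p) ≠ 0 := sub_ne_zero.2 hcon
    have k1 : (g.map (P.redp hp)).eval (P.red ⟨s, hs⟩) = 0 := (mul_eq_zero.1 e1.symm).resolve_left hx
    have k2 : (g'.map (P.redp hp)).eval (P.red ⟨s, hs⟩) = 0 := (mul_eq_zero.1 e2.symm).resolve_left hx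
    obtain ⟨u, w, huw⟩ := hgg
    have k3 := congrArg (fun f : (ZMod p)[X] => (f.map (P.redp hp)).eval (P.red ⟨s, hs⟩)) huw
    simp only [Polynomial.map_add, Polynomial.map_mul, eval_add, eval_mul, k1, k2, mul_zero, add_zero,
      Polynomial.map_one, eval_one] at k3
    exact zero_ne_one k3
  have hred : P.red ⟨r, hO r hN⟩ = P.red ⟨r', hO r' hN'⟩ := by
    by_contra hcon
    have := P.ord_sub_eq_zero (hO r hN) (hO r' hN') hcon
    omega
  -- no point on the three graphs
  have FT : ∀ s : F, aeval s (gpolQ v i) = aeval s (gpolQ v j) → aeval s (gpolQ v j) = aeval s (gpolQ v l) →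
      False := by
    intro s h1 h2
    have hs := hO s (hnode i j s hij h1)
    have c1 := FC s s hs hs h1 h2 rfl
    have c2 := FC r r' (hO r hN) (hO r' hN') hr hr' hred
    have d1 : s = r := by
      by_contra hne
      exact F3' i j s r hs (hO r hN) hij h1 hr hne (c1.trans c2.symm)
    have d2 : s = r' := by
      by_contra hne
      exact F3' j l s r' hs (hO r' hN') hjl h2 hr' hne ((c1.trans c2.symm).trans hred)
    exact n1 (d1.symm.trans d2)
  -- F4
  have F4 : ∀ (a b c : ι) (s : F), a ≠ b → c ≠ a → c ≠ b → aeval s (gpolQ v a) = aeval s (gpolQ v b) →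
      aeval s (gpolQ v a) ≠ aeval s (gpolQ v c) := by
    intro a b c s hab hca hcb h1 h2
    have hne : ({a, b} : Set ι) ≠ {a, c} := by
      intro he
      have : c ∈ ({a, b} : Set ι) := by rw [he]; simp
      simp only [Set.mem_insert_iff, Set.mem_singleton_iff] at this
      rcases this with h3 | h3
      · exact hca h3
      · exact hcb h3
    have hsub := Fc a b a c s hab (Ne.symm hca) h1 h2 hne
    have ha : a ∈ ({i, j, l} : Set ι) := hsub (by simp)
    have hb : b ∈ ({i, j, l} : Set ι) := hsub (by simp)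
    have hc : c ∈ ({i, j, l} : Set ι) := hsub (by simp)
    simp only [Set.mem_insert_iff, Set.mem_singleton_iff] at ha hb hc
    have h3 := h1.symm.trans h2
    rcases ha with rfl | rfl | rfl <;> rcases hb with rfl | rfl | rfl <;> rcases hc with rfl | rfl | rfl <;>
      first
        | exact absurd rfl hab
        | exact absurd rfl hca
        | exact absurd rfl hcb
        | exact FT s h1 h3
        | exact FT s h2 h3.symm
        | exact FT s h1.symm h2
        | exact FT s h2.symm h1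
        | exact FT s h3 h2.symm
        | exact FT s h3.symm h1.symm
  -- F5
  have F5 : ∀ (a b : ι) (s : F), s ∈ ({r, r', r''} : Set F) → a ≠ b → aeval s (gpolQ v a) = aeval s (gpolQ v b) →
      a ∈ ({i, j, l} : Set ι) ∧ b ∈ ({i, j, l} : Set ι) := by
    intro a b s hs hab h1
    have key : ∀ c d : ι, c ≠ d → c ∈ ({i, j, l} : Set ι) → d ∈ ({i, j, l} : Set ι) →
        aeval s (gpolQ v c) = aeval s (gpolQ v d) → a ∈ ({i, j, l} : Set ι) ∧ b ∈ ({i, j, l} : Set ι) := by
      intro c d hcd hc hd h2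
      by_cases he : ({a, b} : Set ι) = {c, d}
      · have ha : a ∈ ({c, d} : Set ι) := by rw [← he]; simp
        have hb : b ∈ ({c, d} : Set ι) := by rw [← he]; simp
        simp only [Set.mem_insert_iff, Set.mem_singleton_iff] at ha hb
        constructor
        · rcases ha with rfl | rfl
          · exact hc
          · exact hd
        · rcases hb with rfl | rfl
          · exact hc
          · exact hd
      · have hsub := Fc a b c d s hab hcd h1 h2 he
        exact ⟨hsub (by simp), hsub (by simp)⟩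
    simp only [Set.mem_insert_iff, Set.mem_singleton_iff] at hs
    rcases hs with rfl | rfl | rfl
    · exact key i j hij (by simp) (by simp) hr
    · exact key j l hjl (by simp) (by simp) hr'
    · exact key i l hil (by simp) (by simp) hr''
  -- F6
  have F6 : ∀ a c : ι, a ∈ ({i, j, l} : Set ι) → c ∈ ({i, j, l} : Set ι) → a ≠ c →
      ∃ t ∈ ({r, r', r''} : Set F), aeval t (gpolQ v a) = aeval t (gpolQ v c) := by
    intro a c ha hc hac
    simp only [Set.mem_insert_iff, Set.mem_singleton_iff] at ha hc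
    rcases ha with rfl | rfl | rfl <;> rcases hc with rfl | rfl | rfl
    · exact absurd rfl hac
    · exact ⟨r, by simp, hr⟩
    · exact ⟨r'', by simp, hr''⟩
    · exact ⟨r, by simp, hr.symm⟩
    · exact absurd rfl hac
    · exact ⟨r', by simp, hr'⟩
    · exact ⟨r'', by simp, hr''.symm⟩
    · exact ⟨r', by simp, hr'.symm⟩
    · exact absurd rfl hac
  -- the roots
  have hlead : ∀ a b, a ≠ b → ¬ (p : ℤ) ∣ (gdif v a b).leadingCoeff := by
    intro a b hab
    have h1 := h.lead a b hab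
    rw [gdif_leadingCoeff]
    · exact h1
    · intro h2
      apply h1
      rw [h2, sub_self]
      exact dvd_zero _
  have hroots : ∀ a b, a ≠ b → ∃ R : Finset F, (∀ s, s ∈ R ↔ aeval s (gpolQ v a) = aeval s (gpolQ v b)) ∧
      (gdif v a b).map (algebraMap ℤ F) =
        C (algebraMap ℤ F (gdif v a b).leadingCoeff) * ∏ s ∈ R, (X - C s) :=
    fun a b hab => exists_roots (separable_of_gred hp (h.lead a b hab) (h.sep a b hab))
  refine ⟨P.ord, r, r', r'', hr, hr', hr'', P.isVal, ?_, ?_, ?_⟩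
  · intro s hs s' hs' hss
    split_ifs with hc
    · exact F1 s hc.1 s' hc.2 hss
    · exact hz s hs s' hs' hss hc
  · intro a b s hab hs
    obtain ⟨R, hR, hfR⟩ := hroots a b hab
    have h1 := P.ord_derivative hp (hlead a b hab) R (fun t ht => hK t (hnode a b t hab ((hR t).1 ht))) hfR
      ((hR s).2 hs)
    rw [aeval_derivative_gdif] at h1
    rw [h1]
    refine Finset.sum_eq_zero fun t ht => ?_
    rw [Finset.mem_erase] at ht
    exact F3 a b s t hab hs ((hR t).1 ht.2) (Ne.symm ht.1)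
  · intro a b c s hab hs hca hcb
    obtain ⟨R, hR, hfR⟩ := hroots a c (Ne.symm hca)
    have hsn := hnode a b s hab hs
    have hsR : s ∉ R := fun hm => F4 a b c s hab hca hcb hs ((hR s).1 hm)
    have h1 := P.ord_aeval hp (hlead a c (Ne.symm hca)) R
      (fun t ht => hK t (hnode a c t (Ne.symm hca) ((hR t).1 ht))) hfR (hK s hsn) hsR
    rw [aeval_gdif] at h1
    rw [h1]
    split_ifs with hc
    · obtain ⟨hsT, hcI⟩ := hc
      obtain ⟨t, ht, hta⟩ := F6 a c (F5 a b s hsT hab hs).1 hcI (Ne.symm hca)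
      have htR : t ∈ R := (hR t).2 hta
      have hst : s ≠ t := fun he => hsR (he ▸ htR)
      rw [Finset.sum_eq_single t]
      · exact F1 s hsT t ht hst
      · intro t' ht' htt
        have ha' := (hR t').1 ht'
        refine hz s hsn t' (hnode a c t' (Ne.symm hca) ha') (fun he => hsR (he ▸ ht')) ?_
        rintro ⟨_, hT'⟩
        have g1 := F1 t ht t' hT' (Ne.symm htt)
        have g2 := F3 a c t t' (Ne.symm hca) hta ha' (Ne.symm htt)
        omega
      · intro hn
        exact absurd htR hn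
    · refine Finset.sum_eq_zero fun t ht => ?_
      have hta := (hR t).1 ht
      refine hz s hsn t (hnode a c t (Ne.symm hca) hta) (fun he => hsR (he ▸ ht)) ?_
      rintro ⟨hsT, htT⟩
      exact hc ⟨hsT, (F5 a c t htT (Ne.symm hca) hta).2⟩

end Pool.Agent.Lib.MP_89bcae_ag
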