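import Mathlib
import Pool.Agent.Lib.MP_89bcae_ag.Gph.Trans
import Pool.Agent.Lib.MP_89bcae_ag.Gph.ValB
import Pool.Agent.Lib.MP_89bcae_ag.Gph.Norm
import Pool.Agent.Lib.MP_89bcae_ag.Gph.G1

/-!
# The arithmetic condition for good families

`exists_val_good`: conjugate the valuation of `exists_val_typeB` by the automorphism `σ` of
`exists_move_triple` (`TripleV.conj`), and reduce it modulo `ℓ` (`1 ≠ 0` in `ZMod ℓ`).
`graphIndepW`: restrict to `I`; `K = ℚ(ζ_ℓ)`; the nodes of the `(gpolQ v i).map (algebraMap ℚ K)` are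
those of the `gpolQ v i` (`aeval_map_algebraMap`, also for the derivatives); `exists_extend_val` extends
the homomorphisms from `ℚ(nodes)` to `K(nodes)`; all elements whose values are in `TripleV` are in
`ℚ(nodes)`; then `indepW_of_tripleV` over `k = K`. `F` is an algebraic closure of `ℚ` with an embedding
of `K`.
-/

open Polynomial

open scoped Classical

namespace Pool.Agent.Lib.MP_89bcae_ag

open Superelliptic

section

variable {ι : Type} [Fintype ι] [LinearOrder ι] {n : ℕ} {F : Type} [Field F] [Algebra ℚ F]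

theorem IsVal.conj {A : Type*} [AddCommGroup A] {S : Set F} (σ : F ≃ₐ[ℚ] F) {ν : F → A}
    (hS : σ.symm '' S = S) (h : IsVal (IntermediateField.adjoin ℚ S).toSubfield ν) :
    IsVal (IntermediateField.adjoin ℚ S).toSubfield fun x => ν (σ.symm x) := by
  have key : ∀ x ∈ (IntermediateField.adjoin ℚ S).toSubfield,
      σ.symm x ∈ (IntermediateField.adjoin ℚ S).toSubfield := by
    intro x hx
    have h1 : (IntermediateField.adjoin ℚ S).map (σ.symm : F →ₐ[ℚ] F) = IntermediateField.adjoin ℚ S := by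
      rw [IntermediateField.adjoin_map]
      exact congrArg _ hS
    have h2 : (σ.symm : F →ₐ[ℚ] F) x ∈ (IntermediateField.adjoin ℚ S).map (σ.symm : F →ₐ[ℚ] F) :=
      ⟨x, hx, rfl⟩
    rw [h1] at h2
    exact h2
  refine ⟨fun x hx y hy hx0 hy0 => ?_, ?_⟩
  · show ν (σ.symm (x * y)) = ν (σ.symm x) + ν (σ.symm y)
    rw [map_mul]
    exact h.mul _ (key x hx) _ (key y hy) (by simpa using hx0) (by simpa using hy0)
  · show ν (σ.symm (-1)) = 0
    rw [map_neg, map_one]
    exact h.neg_one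

theorem mem_triple_conj_h43 (σ : F ≃ₐ[ℚ] F) (r r' r'' s : F) :
    σ.symm s ∈ ({r, r', r''} : Set F) ↔ s ∈ ({σ r, σ r', σ r''} : Set F) := by
  simp only [Set.mem_insert_iff, Set.mem_singleton_iff, AlgEquiv.symm_apply_eq]

theorem aeval_conj_h43 (σ : F ≃ₐ[ℚ] F) (s : F) (p : ℚ[X]) :
    aeval (σ.symm s) p = σ.symm (aeval s p) :=
  Polynomial.aeval_algHom_apply (σ.symm : F →ₐ[ℚ] F) s p

theorem TripleV.conj {A : Type*} [AddCommGroup A] {α : ι → ℚ[X]} (σ : F ≃ₐ[ℚ] F) {ν : F → A}
    {h : A} {i j l : ι} {r r' r'' : F} (H : TripleV ν α h i j l r r' r'') :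
    TripleV (fun x => ν (σ.symm x)) α h i j l (σ r) (σ r') (σ r'') := by
  have hnode : ∀ s ∈ nodes ℚ F α, σ.symm s ∈ nodes ℚ F α := by
    rintro s ⟨a, b, hab, hs⟩
    exact ⟨a, b, hab, by rw [aeval_conj_h43, aeval_conj_h43, hs]⟩
  refine ⟨fun s hs s' hs' hne => ?_, fun a b s hab hs => ?_, fun a b c s hab hs hca hcb => ?_⟩
  · show ν (σ.symm (s - s')) = _
    rw [map_sub, H.dif _ (hnode s hs) _ (hnode s' hs') (by simpa using hne)]
    simp only [mem_triple_conj_h43]
  · show ν (σ.symm (aeval s (derivative (α a - α b)))) = 0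
    rw [← aeval_conj_h43]
    exact H.der a b _ hab (by rw [aeval_conj_h43, aeval_conj_h43, hs])
  · show ν (σ.symm (aeval s (α a) - aeval s (α c))) = _
    rw [map_sub, ← aeval_conj_h43, ← aeval_conj_h43,
      H.val a b c _ hab (by rw [aeval_conj_h43, aeval_conj_h43, hs]) hca hcb]
    simp only [mem_triple_conj_h43]
    split_ifs <;> rfl

theorem exists_val_good [IsAlgClosure ℚ F] {ℓ : ℕ} (hℓ : ℓ.Prime) {v : ι × Fin (n + 1) → ℤ}
    (h : GoodG v) {i j l : ι} (hij : i ≠ j) (hjl : j ≠ l) (hil : i ≠ l) (r r' r'' : F)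
    (hr : aeval r (gpolQ v i) = aeval r (gpolQ v j))
    (hr' : aeval r' (gpolQ v j) = aeval r' (gpolQ v l))
    (hr'' : aeval r'' (gpolQ v i) = aeval r'' (gpolQ v l)) :
    ∃ ν : F → ZMod ℓ, IsVal (IntermediateField.adjoin ℚ (nodes ℚ F (gpolQ v))).toSubfield ν ∧
      TripleV ν (gpolQ v) 1 i j l r r' r'' := by
  obtain ⟨p, hp, hB⟩ := h.typeB i j l hij hjl hil
  obtain ⟨ν, s, s', s'', hs, hs', hs'', hν, hT⟩ := exists_val_typeB (F := F) v hp hij hjl hil hB
  obtain ⟨σ, h1, h2, h3⟩ := exists_move_triple h hij hjl hil s s' s'' r r' r'' hs hs' hs'' hr hr' hr''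
  have hT' := hT.conj σ
  rw [h1, h2, h3] at hT'
  have hS : σ.symm '' nodes ℚ F (gpolQ v) = nodes ℚ F (gpolQ v) := by
    apply Set.Subset.antisymm
    · rintro _ ⟨x, hx, rfl⟩
      exact nodes_stable _ σ.symm x hx
    · intro x hx
      exact ⟨σ x, nodes_stable _ σ x hx, by simp⟩
  have hν' := hν.conj σ hS
  refine ⟨fun x => ((ν (σ.symm x) : ℤ) : ZMod ℓ), ⟨fun x hx y hy hx0 hy0 => ?_, ?_⟩,
    ⟨fun s hs s' hs' hne => ?_, fun a b s hab hs => ?_, fun a b c s hab hs hca hcb => ?_⟩⟩
  · have := hν'.mul x hx y hy hx0 hy0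
    simp only [this, Int.cast_add]
  · have := hν'.neg_one
    simp only [this, Int.cast_zero]
  · have := hT'.dif s hs s' hs' hne
    simp only [this]
    split_ifs <;> simp
  · have := hT'.der a b s hab hs
    simp only [this, Int.cast_zero]
  · have := hT'.val a b c s hab hs hca hcb
    simp only [this]
    split_ifs <;> simp

end

section

variable {ι : Type} [Fintype ι] [LinearOrder ι] {n : ℕ}

theorem graphIndepW {ℓ : ℕ} (hℓ : ℓ.Prime) {v : ι × Fin (n + 1) → ℤ} (hv : GoodG v)
    (hn : (3 ≤ n ∧ 3 ≤ Fintype.card ι) ∨ (2 ≤ n ∧ 4 ≤ Fintype.card ι))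
    (W : ι → ℕ) (hW : ∀ i, (W i).Coprime ℓ)
    (K F : Type) [Field K] [Algebra ℚ K] [IsCyclotomicExtension {ℓ} ℚ K] [Field F] [Algebra ℚ F]
    [IsAlgClosure ℚ F] [Algebra K F] [IsScalarTower ℚ K F] :
    IsArrangement (fun i => (gpolQ v i).map (algebraMap ℚ K)) ∧
      ArrangementIndependentW ℓ K F W (fun i => (gpolQ v i).map (algebraMap ℚ K)) := by
  have : Fact ℓ.Prime := ⟨hℓ⟩
  have : IsAlgClosed F := IsAlgClosure.isAlgClosed ℚ
  have hFA : Algebra.IsAlgebraic ℚ F := IsAlgClosure.isAlgebraic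
  have hn0 : n ≠ 0 := by
    rcases hn with h | h <;> omega
  have harr := hv.isArrangement hn0 K
  refine ⟨harr, ?_⟩
  have hnodes : nodes K F (fun i => (gpolQ v i).map (algebraMap ℚ K)) = nodes ℚ F (gpolQ v) := by
    unfold nodes
    simp only [aeval_map_algebraMap]
  have hmem : ∀ (s : F), s ∈ nodes ℚ F (gpolQ v) → ∀ p : ℚ[X],
      aeval s p ∈ IntermediateField.adjoin ℚ (nodes ℚ F (gpolQ v)) := by
    intro s hs p
    have h1 := IntermediateField.subset_adjoin ℚ (nodes ℚ F (gpolQ v)) hs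
    rw [aeval_eq_sum_range]
    exact sum_mem fun j _ => IntermediateField.smul_mem _ (pow_mem h1 j)
  have hfin : (nodes ℚ F (gpolQ v)).Finite := by
    apply nodes_gpolQ_finite
    intro a b hab hEq
    have h1 := hv.natDegree hab
    rw [hEq, sub_self, natDegree_zero] at h1
    exact hn0 h1.symm
  apply indepW_of_tripleV hℓ _ harr (by rcases hn with h | h <;> omega) ?_ W hW
  · intro i j l hij hjl hil r r' r'' hr hr' hr''
    simp only [aeval_map_algebraMap] at hr hr' hr''
    obtain ⟨ν₀, hν₀, T⟩ := exists_val_good hℓ hv hij hjl hil r r' r'' hr hr' hr''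
    obtain ⟨ν, hν, hext⟩ := exists_extend_val hℓ K F (nodes ℚ F (gpolQ v)) hfin
      (fun s _ => (hFA.isAlgebraic s).isIntegral) ν₀ hν₀
    refine ⟨ν, 1, ?_, one_ne_zero, ?_⟩
    · rw [hnodes]
      exact hν
    · refine ⟨?_, ?_, ?_⟩
      · rw [hnodes]
        intro s hs s' hs' hne
        rw [hext _ (sub_mem (IntermediateField.subset_adjoin ℚ _ hs)
          (IntermediateField.subset_adjoin ℚ _ hs'))]
        exact T.dif s hs s' hs' hne
      · intro a b s hab hs
        have hs1 : aeval s (gpolQ v a) = aeval s (gpolQ v b) := by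
          simpa only [aeval_map_algebraMap] using hs
        have h1 : aeval s (derivative ((gpolQ v a).map (algebraMap ℚ K) -
            (gpolQ v b).map (algebraMap ℚ K))) = aeval s (derivative (gpolQ v a - gpolQ v b)) := by
          rw [← Polynomial.map_sub, derivative_map, aeval_map_algebraMap]
        show ν (aeval s (derivative ((gpolQ v a).map (algebraMap ℚ K) -
            (gpolQ v b).map (algebraMap ℚ K)))) = 0
        rw [h1, hext _ (hmem s ⟨a, b, hab, hs1⟩ _)]
        exact T.der a b s hab hs1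
      · intro a b c s hab hs hca hcb
        have hs1 : aeval s (gpolQ v a) = aeval s (gpolQ v b) := by
          simpa only [aeval_map_algebraMap] using hs
        have h2 := T.val a b c s hab hs1 hca hcb
        simp only [aeval_map_algebraMap]
        rw [hext _ (sub_mem (hmem s ⟨a, b, hab, hs1⟩ _) (hmem s ⟨a, b, hab, hs1⟩ _))]
        exact h2
  · have hdeg : ∀ i j : ι, i ≠ j → ((gpolQ v i).map (algebraMap ℚ K) -
        (gpolQ v j).map (algebraMap ℚ K)).natDegree = n := by
      intro i j hij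
      rw [← Polynomial.map_sub, natDegree_map]
      exact hv.natDegree hij
    rcases hn with h | h
    · left
      intro i j hij
      rw [hdeg i j hij]
      exact h.1
    · right
      refine ⟨h.2, fun i j hij => ?_⟩
      rw [hdeg i j hij]
      exact h.1

end

end Pool.Agent.Lib.MP_89bcae_ag
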