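import Mathlib

/-!
# Monotonicity of density one
-/

open Filter Topology

open scoped Classical

namespace Pool.Agent.Lib.MP_89bcae_ag

/-- Monotonicity of density one. -/
theorem density_mono8 {κ : Type} [Fintype κ] (N : ℕ) (hN : Fintype.card κ = N)
    {P Q : (κ → ℤ) → Prop} (hPQ : ∀ v, P v → Q v)
    (h : Tendsto (fun H : ℕ => ({v : κ → ℤ | (∀ i, |v i| ≤ H) ∧ P v}.ncard : ℝ) /
      (2 * H + 1) ^ N) atTop (𝓝 1)) :
    Tendsto (fun H : ℕ => ({v : κ → ℤ | (∀ i, |v i| ≤ H) ∧ Q v}.ncard : ℝ) /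
      (2 * H + 1) ^ N) atTop (𝓝 1) := by
  have hbox : ∀ H : ℕ, {v : κ → ℤ | ∀ i, |v i| ≤ H} =
      ((Fintype.piFinset fun _ : κ => Finset.Icc (-(H : ℤ)) H : Finset (κ → ℤ)) :
        Set (κ → ℤ)) := by
    intro H
    ext v
    rw [Finset.mem_coe, Fintype.mem_piFinset]
    refine forall_congr' fun i => ?_
    rw [Finset.mem_Icc]
    exact abs_le
  have hfin : ∀ (H : ℕ) (R : (κ → ℤ) → Prop), ({v : κ → ℤ | (∀ i, |v i| ≤ H) ∧ R v}).Finite := by
    intro H R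
    refine Set.Finite.subset (Finset.finite_toSet
      (Fintype.piFinset fun _ : κ => Finset.Icc (-(H : ℤ)) H)) ?_
    rw [← hbox]
    exact fun v hv => hv.1
  have hcard : ∀ H : ℕ, ({v : κ → ℤ | ∀ i, |v i| ≤ H}).ncard = (2 * H + 1) ^ N := by
    intro H
    rw [hbox, Set.ncard_coe_finset, Fintype.card_piFinset]
    rw [Finset.prod_const, Finset.card_univ, hN, Int.card_Icc]
    congr 1
    omega
  refine tendsto_of_tendsto_of_tendsto_of_le_of_le h tendsto_const_nhds (fun H => ?_) fun H => ?_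
  · have hpos : (0 : ℝ) < (2 * (H : ℝ) + 1) ^ N := by positivity
    rw [div_le_div_iff_of_pos_right hpos]
    have h1 : ({v : κ → ℤ | (∀ i, |v i| ≤ H) ∧ P v}).ncard ≤
        ({v : κ → ℤ | (∀ i, |v i| ≤ H) ∧ Q v}).ncard :=
      Set.ncard_le_ncard (fun v (hv : (∀ i, |v i| ≤ H) ∧ P v) => ⟨hv.1, hPQ v hv.2⟩) (hfin H Q)
    exact_mod_cast h1
  · have hpos : (0 : ℝ) < (2 * (H : ℝ) + 1) ^ N := by positivity
    rw [div_le_one hpos]
    have h1 : ({v : κ → ℤ | (∀ i, |v i| ≤ H) ∧ Q v}).ncard ≤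
        ({v : κ → ℤ | ∀ i, |v i| ≤ H}).ncard := by
      refine Set.ncard_le_ncard (fun v hv => hv.1) ?_
      rw [hbox]
      exact Finset.finite_toSet _
    rw [hcard] at h1
    exact_mod_cast h1

end Pool.Agent.Lib.MP_89bcae_ag
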