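import Mathlib
import Pool.Agent.Lib.MP_89bcae_ag.DefsG8
import Pool.Agent.Lib.MP_89bcae_ag.Gph.Ind
import Pool.Agent.Lib.MP_89bcae_ag.Gph.Den
import Pool.Agent.Lib.MP_89bcae_ag.Gph.Mono
import Pool.Agent.Lib.MP_89bcae_ag.BasW45
import Pool.Agent.Lib.MP_89bcae_ag.Wl.GA10
import Pool.Agent.Lib.MP_89bcae_ag.BrgN8

/-!
# The density one theorem for graphs of polynomials
-/

open Polynomial Filter Topology

open scoped Classical

set_option linter.unusedVariables false

namespace Pool.Agent.Lib.MP_89bcae_ag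

open Superelliptic

/-- **The density one theorem.** -/
theorem graphCovers8 (F L Ω : Type) [Field F] [Algebra ℚ F] [IsAlgClosure ℚ F] [Field L]
    [Algebra F[X] L] [IsFractionRing F[X] L] [Field Ω] [Algebra L Ω] [IsAlgClosure L Ω]
    (m n : ℕ) (hn : 2 ≤ n) :
    Tendsto (fun H : ℕ => ({v : Fin m × Fin (n + 1) → ℤ | (∀ i, |v i| ≤ H) ∧
      (IsArrangement (polyFamily v) ∧
      ∀ ℓ : ℕ, ℓ.Prime → ∀ I : Finset (Fin m), ((3 ≤ n ∧ 3 ≤ I.card) ∨ 4 ≤ I.card) →
        ∀ W : I → ℕ, (∀ i, (W i).Coprime ℓ) → (∑ i, W i).Coprime ℓ →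
          ∀ k' : IntermediateField ℚ F, FiniteDimensional ℚ k' →
            Nrm.TateClassesTorsionW ℓ L Ω W (fun i : I => polyFamily v i) k')}.ncard : ℝ) /
      (2 * H + 1) ^ (m * (n + 1))) atTop (𝓝 1) := by
  have hF : IsAlgClosed F := IsAlgClosure.isAlgClosed ℚ
  have hcard : Fintype.card (Fin m × Fin (n + 1)) = m * (n + 1) := by
    rw [Fintype.card_prod, Fintype.card_fin, Fintype.card_fin]
  rw [← hcard]
  refine density_mono8 (Fintype.card (Fin m × Fin (n + 1))) rfl ?_ (density_goodG hn)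
  intro v hv
  refine ⟨?_, ?_⟩
  · have h1 := hv.isArrangement (by omega) ℚ
    have h2 : (fun i => (gpolQ v i).map (algebraMap ℚ ℚ)) = polyFamily v := by
      funext i
      rw [Algebra.algebraMap_self, Polynomial.map_id]
      rfl
    rw [← h2]
    exact h1
  · intro ℓ hℓ I hI W hW hs k' hk'
    haveI : NeZero ℓ := ⟨hℓ.ne_zero⟩
    let K := CyclotomicField ℓ ℚ
    letI : Algebra ℚ K := CyclotomicField.algebra ℓ ℚ
    haveI : IsCyclotomicExtension {ℓ} ℚ K := inferInstance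
    haveI hfin : FiniteDimensional ℚ K := IsCyclotomicExtension.finiteDimensional {ℓ} ℚ K
    let e : K →ₐ[ℚ] F := IsAlgClosed.lift
    letI : Algebra K F := e.toRingHom.toAlgebra
    haveI : IsScalarTower ℚ K F := IsScalarTower.of_algebraMap_eq fun x => (e.commutes x).symm
    have hn' : (3 ≤ n ∧ 3 ≤ Fintype.card I) ∨ (2 ≤ n ∧ 4 ≤ Fintype.card I) := by
      rw [Fintype.card_coe]
      exact hI.imp_right fun h => ⟨hn, h⟩
    obtain ⟨h1, h2⟩ := graphIndepW hℓ (hv.restrict I) hn' W hW K F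
    exact tateClassesTorsionN8 (Wt.tateClassesTorsionW_of_cyclotomic45 hℓ F L Ω K W _
      (fun hcl h0 ζ hζ K' hK' => by
        haveI := hcl
        haveI := hK'
        exact Wt.Lns.arrangementW F L Ω hℓ h0 hζ W hW hs _ h1 h2 K') k' hk')

end Pool.Agent.Lib.MP_89bcae_ag
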